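import Pool.Agent.Helper21.KP.Defs

/-!
# KP-A1: facts on `cc` and `bw`

`cc_succ`: definition.  `cc_bound`: `0 < th ≤ 1`: `cc th l = ∏_{j=1}^l (1 - (1-th)/j) ≤
exp (-(1-th) ∑ 1/j) ≤ (l+1)^(th-1)` (or by induction: `(1 - (1-th)/(l+1)) (l+1)^(th-1) ≤ (l+2)^(th-1)`, which
is Bernoulli/concavity).  `cc_series`: binomial series (`one_div_one_sub_cpow_hasFPowerSeriesOnBall_zero`,
`Real.one_add_rpow_hasFPowerSeriesOnBall_zero`, or the differential equation).  `bw_bound`: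
`bw k i = (k+1)⁻¹ ∏_{j=1}^i (1 - (k+1)/(k+1+j)) ≤ C (i+1)^(-k-1)`.
`bw_int`: substitution `u = ρ²` and the beta integral (or induction on `n` by parts).
-/

set_option autoImplicit false

namespace Pool.Agent.Helper21.KP

open Complex Metric Set Real Finset MeasureTheory

theorem poc_pos {x : ℝ} (hx : 0 < x) (n : ℕ) : 0 < poc x n := by
  induction n with
  | zero => exact one_pos
  | succ n ih =>
    change 0 < poc x n * (x + n)
    exact mul_pos ih (add_pos_of_pos_of_nonneg hx (Nat.cast_nonneg n))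

theorem cc_succ (th : ℝ) (l : ℕ) : cc th (l + 1) * (l + 1) = cc th l * (th + l) := by
  unfold cc
  have h1 : poc th (l + 1) = poc th l * (th + l) := rfl
  have h2 : ((l + 1).factorial : ℝ) = (l + 1) * l.factorial := by
    rw [Nat.factorial_succ]
    push_cast
    rfl
  have h3 : (l.factorial : ℝ) ≠ 0 := Nat.cast_ne_zero.2 (Nat.factorial_ne_zero l)
  have h4 : (l : ℝ) + 1 ≠ 0 := Nat.cast_add_one_ne_zero l
  rw [h1, h2]
  field_simp

private theorem ACoef_bern {q x : ℝ} (h0 : 0 ≤ q) (h1 : q ≤ 1) (hx : 0 ≤ x) :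
    1 - q * x ≤ (1 + x) ^ (-q) := by
  have h2 : (1 + x) ^ q ≤ 1 + q * x := rpow_one_add_le_one_add_mul_self (by linarith) h0 h1
  have h3 : 0 < (1 + x) ^ q := Real.rpow_pos_of_pos (by linarith) q
  rw [Real.rpow_neg (by linarith)]
  have h4 : 0 ≤ q * x := mul_nonneg h0 hx
  rw [← one_div, le_div_iff₀ h3]
  by_cases h5 : 1 - q * x ≤ 0
  · have h6 := mul_nonneg (neg_nonneg.2 h5) h3.le
    linarith
  · have h6 := mul_le_mul_of_nonneg_left h2 (not_le.1 h5).le
    nlinarith [mul_nonneg h4 h4]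

theorem cc_bound {th : ℝ} (h0 : 0 < th) (h1 : th ≤ 1) (l : ℕ) :
    0 < cc th l ∧ cc th l ≤ ((l : ℝ) + 1) ^ (th - 1) := by
  refine ⟨div_pos (poc_pos h0 l) (Nat.cast_pos.2 (Nat.factorial_pos l)), ?_⟩
  induction l with
  | zero =>
    have h2 : cc th 0 = 1 := by
      simp [cc, poc]
    rw [h2]
    simp
  | succ l ih =>
    have hl : (0 : ℝ) < (l : ℝ) + 1 := by positivity
    have h2 : cc th (l + 1) = cc th l * ((th + l) / (l + 1)) := by
      rw [← mul_div_assoc, eq_div_iff hl.ne']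
      exact cc_succ th l
    have h3 : (th + l) / ((l : ℝ) + 1) ≤ (1 + 1 / ((l : ℝ) + 1)) ^ (th - 1) := by
      have h4 := ACoef_bern (q := 1 - th) (x := 1 / ((l : ℝ) + 1)) (by linarith) (by linarith)
        (by positivity)
      have h5 : 1 - (1 - th) * (1 / ((l : ℝ) + 1)) = (th + l) / ((l : ℝ) + 1) := by
        field_simp
        ring
      rw [h5, neg_sub] at h4
      exact h4
    have h4 : (((l + 1 : ℕ) : ℝ) + 1) ^ (th - 1) =
        ((l : ℝ) + 1) ^ (th - 1) * (1 + 1 / ((l : ℝ) + 1)) ^ (th - 1) := by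
      rw [← Real.mul_rpow hl.le (by positivity)]
      congr 1
      push_cast
      field_simp
    rw [h2, h4]
    exact mul_le_mul ih h3 (by positivity) (by positivity)

private theorem ACoef_asc (th : ℝ) (n : ℕ) :
    (ascPochhammer ℕ n).smeval (th : ℂ) = ((poc th n : ℝ) : ℂ) := by
  induction n with
  | zero =>
    simp [poc]
  | succ n ih =>
    have h1 : poc th (n + 1) = poc th n * (th + n) := rfl
    rw [ascPochhammer_succ_right, Polynomial.smeval_mul, ih, h1, Polynomial.smeval_add,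
      Polynomial.smeval_X, Polynomial.smeval_natCast]
    simp

theorem cc_series {th : ℝ} (h0 : 0 < th) {ζ : ℂ} (hζ : ‖ζ‖ < 1) :
    HasSum (fun l => (cc th l : ℂ) * ζ ^ l) ((1 - ζ) ^ (-(th : ℂ))) := by
  have h1 := Complex.one_div_one_sub_cpow_hasFPowerSeriesOnBall_zero (th : ℂ)
  have h2 := h1.hasSum (y := ζ) (by
    rw [Metric.mem_eball, edist_zero_right, ← ofReal_norm, ENNReal.ofReal_lt_one]
    exact hζ)
  rw [zero_add, one_div, ← Complex.cpow_neg] at h2
  have h3 : ∀ n : ℕ, Ring.choose ((th : ℂ) + n - 1) n = (cc th n : ℂ) := by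
    intro n
    have h4 := Ring.factorial_nsmul_multichoose_eq_ascPochhammer (th : ℂ) n
    rw [ACoef_asc, nsmul_eq_mul, Ring.multichoose_eq] at h4
    have h5 : (n.factorial : ℂ) ≠ 0 := Nat.cast_ne_zero.2 (Nat.factorial_ne_zero n)
    unfold cc
    rw [Complex.ofReal_div, Complex.ofReal_natCast, eq_div_iff h5, mul_comm]
    exact h4
  refine h2.congr_fun ?_
  intro n
  rw [FormalMultilinearSeries.ofScalars_apply_eq, h3, smul_eq_mul]

theorem bw_succ {k : ℝ} (hk : -1 < k) (i : ℕ) : bw k (i + 1) * (i + k + 2) = bw k i * (i + 1) := by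
  have h0 : 0 < k + 1 := by linarith
  have h1 : poc (k + 1) (i + 1 + 1) = poc (k + 1) (i + 1) * (k + 1 + ((i + 1 : ℕ) : ℝ)) := rfl
  have h2 : ((i + 1).factorial : ℝ) = (i + 1) * i.factorial := by
    rw [Nat.factorial_succ]
    push_cast
    rfl
  have h3 : poc (k + 1) (i + 1) ≠ 0 := (poc_pos h0 _).ne'
  have h4 : k + 1 + ((i : ℝ) + 1) ≠ 0 := by positivity
  unfold bw
  rw [h1, h2]
  push_cast
  have h5 : (i : ℝ) + k + 2 = k + 1 + (i + 1) := by ring
  rw [h5]
  field_simp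

theorem bw_pos {k : ℝ} (hk : -1 < k) (i : ℕ) : 0 < bw k i :=
  div_pos (Nat.cast_pos.2 (Nat.factorial_pos i)) (poc_pos (by linarith) _)

private theorem ACoef_prod (x : ℝ) (n : ℕ) : poc x n = ∏ j ∈ range n, (x + j) := by
  induction n with
  | zero => simp [poc]
  | succ n ih =>
    rw [prod_range_succ, ← ih]
    rfl

theorem bw_bound {k : ℝ} (hk : -1 < k) : ∃ C : ℝ, 0 < C ∧ ∀ i : ℕ, bw k i ≤ C * ((i : ℝ) + 1) ^ (-k - 1) := by
  have h0 : 0 < k + 1 := by linarith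
  obtain ⟨C, hC⟩ := (Real.GammaSeq_tendsto_Gamma (k + 1)).bddAbove_range
  have hG : ∀ i : ℕ, (i : ℝ) ^ (k + 1) * bw k i ≤ C := by
    intro i
    have h1 := hC ⟨i, rfl⟩
    have h2 : Real.GammaSeq (k + 1) i = (i : ℝ) ^ (k + 1) * bw k i := by
      unfold Real.GammaSeq bw
      rw [ACoef_prod, mul_div_assoc]
    rw [← h2]
    exact h1
  refine ⟨max (bw k 0) ((2 : ℝ) ^ (k + 1) * C), lt_max_of_lt_left (bw_pos hk 0), fun i => ?_⟩
  rcases Nat.eq_zero_or_pos i with hi | hi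
  · rw [hi, Nat.cast_zero, zero_add, Real.one_rpow, mul_one]
    exact le_max_left _ _
  · have hi' : (1 : ℝ) ≤ i := by exact_mod_cast hi
    have h1 : ((i : ℝ) + 1) ^ (k + 1) ≤ (2 : ℝ) ^ (k + 1) * (i : ℝ) ^ (k + 1) := by
      rw [← Real.mul_rpow two_pos.le (by linarith)]
      exact Real.rpow_le_rpow (by linarith) (by linarith) h0.le
    have h2 : ((i : ℝ) + 1) ^ (-k - 1) = (((i : ℝ) + 1) ^ (k + 1))⁻¹ := by
      rw [← Real.rpow_neg (by linarith)]
      congr 1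
      ring
    have h3 : 0 < ((i : ℝ) + 1) ^ (k + 1) := Real.rpow_pos_of_pos (by linarith) _
    rw [h2, ← div_eq_mul_inv, le_div_iff₀ h3]
    refine le_trans ?_ (le_max_right _ _)
    have h4 := mul_le_mul_of_nonneg_left h1 (bw_pos hk i).le
    have h5 := mul_le_mul_of_nonneg_left (hG i) (Real.rpow_pos_of_pos two_pos (k + 1)).le
    calc bw k i * ((i : ℝ) + 1) ^ (k + 1) ≤ bw k i * ((2 : ℝ) ^ (k + 1) * (i : ℝ) ^ (k + 1)) := h4
      _ = (2 : ℝ) ^ (k + 1) * ((i : ℝ) ^ (k + 1) * bw k i) := by ring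
      _ ≤ (2 : ℝ) ^ (k + 1) * C := h5

private theorem ACoef_zero {k : ℝ} (hk : -1 < k) :
    IntervalIntegrable (fun ρ : ℝ => 2 * ρ * (1 - ρ ^ 2) ^ k) volume 0 1 ∧
      ∫ ρ in (0 : ℝ)..1, 2 * ρ * (1 - ρ ^ 2) ^ k = 1 / (k + 1) := by
  have h0 : 0 < k + 1 := by linarith
  have hc : Continuous (fun ρ : ℝ => -((1 - ρ ^ 2) ^ (k + 1) / (k + 1))) := by
    have h1 : Continuous (fun ρ : ℝ => (1 - ρ ^ 2) ^ (k + 1)) :=
      (continuous_const.sub (continuous_pow 2)).rpow_const fun x => Or.inr h0.le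
    exact (h1.div_const _).neg
  have hd : ∀ x ∈ Ioo (0 : ℝ) 1, HasDerivAt (fun ρ : ℝ => -((1 - ρ ^ 2) ^ (k + 1) / (k + 1)))
      (2 * x * (1 - x ^ 2) ^ k) x := by
    intro x hx
    have h1 : 1 - x ^ 2 ≠ 0 := by nlinarith [hx.1, hx.2]
    have h2 : HasDerivAt (fun ρ : ℝ => 1 - ρ ^ 2) (-(2 * x)) x := by
      have h3 := (hasDerivAt_pow 2 x).const_sub 1
      simpa using h3
    have h3 := ((h2.rpow_const (p := k + 1) (Or.inl h1)).div_const (k + 1)).neg
    refine h3.congr_deriv ?_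
    rw [add_sub_cancel_right]
    field_simp
  have hi : IntervalIntegrable (fun ρ : ℝ => 2 * ρ * (1 - ρ ^ 2) ^ k) volume 0 1 := by
    refine intervalIntegral.intervalIntegrable_deriv_of_nonneg (g := fun ρ : ℝ =>
      -((1 - ρ ^ 2) ^ (k + 1) / (k + 1))) hc.continuousOn ?_ ?_
    · intro x hx
      rw [min_eq_left zero_le_one, max_eq_right zero_le_one] at hx
      exact hd x hx
    · intro x hx
      rw [min_eq_left zero_le_one, max_eq_right zero_le_one] at hx
      have h1 : 0 ≤ 1 - x ^ 2 := by nlinarith [hx.1, hx.2]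
      have h2 := hx.1
      positivity
  refine ⟨hi, ?_⟩
  rw [intervalIntegral.integral_eq_sub_of_hasDerivAt_of_le zero_le_one hc.continuousOn hd hi]
  have h1 : (1 - (1 : ℝ) ^ 2) ^ (k + 1) = 0 := by
    rw [one_pow, sub_self, Real.zero_rpow h0.ne']
  have h2 : (1 - (0 : ℝ) ^ 2) ^ (k + 1) = 1 := by
    rw [zero_pow two_ne_zero, sub_zero, Real.one_rpow]
  rw [h1, h2]
  ring

theorem bw_int {k : ℝ} (hk : -1 < k) (n : ℕ) :
    IntervalIntegrable (fun ρ : ℝ => 2 * ρ * (1 - ρ ^ 2) ^ k * ρ ^ (2 * n)) volume 0 1 ∧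
      ∫ ρ in (0 : ℝ)..1, 2 * ρ * (1 - ρ ^ 2) ^ k * ρ ^ (2 * n) = bw k n := by
  have h0 : 0 < k + 1 := by linarith
  have hI : ∀ n : ℕ,
      IntervalIntegrable (fun ρ : ℝ => 2 * ρ * (1 - ρ ^ 2) ^ k * ρ ^ (2 * n)) volume 0 1 :=
    fun n => (ACoef_zero hk).1.mul_continuousOn (continuous_pow (2 * n)).continuousOn
  refine ⟨hI n, ?_⟩
  induction n with
  | zero =>
    have h1 := (ACoef_zero hk).2
    have h2 : bw k 0 = 1 / (k + 1) := by
      simp [bw, poc]
    rw [h2, ← h1]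
    simp
  | succ n ih =>
    have hc : Continuous (fun ρ : ℝ => -((1 - ρ ^ 2) ^ (k + 1) * ρ ^ (2 * n + 2))) := by
      have h1 : Continuous (fun ρ : ℝ => (1 - ρ ^ 2) ^ (k + 1)) :=
        (continuous_const.sub (continuous_pow 2)).rpow_const fun x => Or.inr h0.le
      exact (h1.mul (continuous_pow _)).neg
    have hd : ∀ x ∈ Ioo (0 : ℝ) 1, HasDerivAt
        (fun ρ : ℝ => -((1 - ρ ^ 2) ^ (k + 1) * ρ ^ (2 * n + 2)))
        ((n + k + 2) * (2 * x * (1 - x ^ 2) ^ k * x ^ (2 * (n + 1))) -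
          (n + 1) * (2 * x * (1 - x ^ 2) ^ k * x ^ (2 * n))) x := by
      intro x hx
      have h1 : 0 < 1 - x ^ 2 := by nlinarith [hx.1, hx.2]
      have h2 : HasDerivAt (fun ρ : ℝ => 1 - ρ ^ 2) (-(2 * x)) x := by
        have h3 := (hasDerivAt_pow 2 x).const_sub 1
        simpa using h3
      have h3 := ((h2.rpow_const (p := k + 1) (Or.inl h1.ne')).mul
        (hasDerivAt_pow (2 * n + 2) x)).neg
      refine h3.congr_deriv ?_
      have h4 : 2 * n + 2 - 1 = 2 * n + 1 := by omega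
      rw [add_sub_cancel_right, Real.rpow_add_one h1.ne', h4]
      push_cast
      ring
    have h1 := intervalIntegral.integral_eq_sub_of_hasDerivAt_of_le zero_le_one hc.continuousOn hd
      (((hI (n + 1)).const_mul _).sub ((hI n).const_mul _))
    rw [intervalIntegral.integral_sub ((hI (n + 1)).const_mul _) ((hI n).const_mul _),
      intervalIntegral.integral_const_mul, intervalIntegral.integral_const_mul, ih] at h1
    have h2 : (1 - (1 : ℝ) ^ 2) ^ (k + 1) = 0 := by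
      rw [one_pow, sub_self, Real.zero_rpow h0.ne']
    rw [h2, zero_mul, zero_pow (n := 2 * n + 2) (by omega), mul_zero, sub_self] at h1
    have h3 := bw_succ hk n
    have h4 : (n : ℝ) + k + 2 ≠ 0 := by
      have : (0 : ℝ) ≤ n := Nat.cast_nonneg n
      linarith
    have h5 : (n + k + 2) * (∫ ρ in (0 : ℝ)..1, 2 * ρ * (1 - ρ ^ 2) ^ k * ρ ^ (2 * (n + 1))) =
        (n + k + 2) * bw k (n + 1) := by
      linarith
    exact mul_left_cancel₀ h4 h5

end Pool.Agent.Helper21.KP
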