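import Pool.Agent.Helper21.KP.ATau

/-!
# KP-A8: the algebraic inequality

`decomp`: induction on `m` with `expand` and `L₊ (eM N M) = eM N (M+1)`.
`alg`: `Q (x, x) = ∑_N ‖ξ N‖² (m-N)! poc (2N+1+B) (m-N) qN N` (`em_orth`, `em_norm`); the terms with `N ≥ 4` are
nonnegative (`qn_pos`).  For `N ≤ 3`: `Q (x, eM N M) = ξ N M! poc (2N+1+B) M qN N` (`M = m - N`) and by
`em_pair`, `pair_tau`, `li_eq` it is also `qN N M! tN N m x / poc (B+N) N`; so
`ξ N = tN N m x / (poc (B+N) N poc (2N+1+B) M)` and the term is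
`qN N / poc (B+N) N ^ 2 * (M! / poc (2N+1+B) M) ‖tN N m x‖²`, `M! / poc (2N+1+B) M = (2N+B) bw (2N+B-1) M`.
-/

set_option autoImplicit false

namespace Pool.Agent.Helper21.KP

open Complex Metric Set Real Finset

private theorem af_shift (x : ℝ) (n : ℕ) : poc x (n + 1) = x * poc (x + 1) n := by
  induction n with
  | zero => simp [poc]
  | succ n ih =>
    have h1 : poc x (n + 1 + 1) = poc x (n + 1) * (x + ((n + 1 : ℕ) : ℝ)) := rfl
    have h2 : poc (x + 1) (n + 1) = poc (x + 1) n * (x + 1 + (n : ℝ)) := rfl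
    rw [h1, ih, h2]
    push_cast
    ring

private theorem af_lp_sum (th B : ℝ) (m : ℕ) (ξ : ℕ → ℂ) (f : ℕ → ℕ → ℂ) (s : Finset ℕ) (a : ℕ) :
    Lp th B m (fun b => ∑ N ∈ s, ξ N * f N b) a = ∑ N ∈ s, ξ N * Lp th B m (f N) a := by
  unfold Lp
  by_cases ha : a = 0
  · simp only [ha, if_true, zero_add]
    rw [Finset.mul_sum]
    exact Finset.sum_congr rfl fun N _ => by ring
  · simp only [ha, if_false]
    rw [Finset.mul_sum, Finset.mul_sum, ← Finset.sum_add_distrib]
    exact Finset.sum_congr rfl fun N _ => by ring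

theorem decomp {th B : ℝ} (h0 : 0 < th) (h1 : th < 1 / 2) (hB : 0 < B) (m : ℕ) {x : ℕ → ℂ}
    (hx : Sup m x) :
    ∃ ξ : ℕ → ℂ, ∀ a, x a = ∑ N ∈ range (m + 1), ξ N * eM th B N (m - N) a := by
  induction m generalizing x with
  | zero =>
    refine ⟨fun _ => x 0, fun a => ?_⟩
    rw [Finset.sum_range_one]
    show x a = x 0 * ev 0 a
    cases a with
    | zero => simp [ev]
    | succ a => rw [hx (a + 1) (by omega)]; simp [ev]
  | succ m ih =>
    obtain ⟨c, y', hy', hc⟩ := expand h0 h1 hB hx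
    obtain ⟨ξ, hξ⟩ := ih hy'
    refine ⟨fun N => if N = m + 1 then c else ξ N, fun a => ?_⟩
    rw [Finset.sum_range_succ, hc a]
    have e1 : y' = fun b => ∑ N ∈ range (m + 1), ξ N * eM th B N (m - N) b := funext hξ
    have e2 : Lp th B m y' a = ∑ N ∈ range (m + 1), ξ N * eM th B N (m + 1 - N) a := by
      rw [e1, af_lp_sum]
      refine Finset.sum_congr rfl fun N hN => ?_
      have hN' : N ≤ m := by simpa [Nat.lt_succ_iff] using hN
      have e3 : m + 1 - N = (m - N) + 1 := by omega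
      rw [e3]
      have e4 : eM th B N (m - N + 1) = Lp th B (N + (m - N)) (eM th B N (m - N)) := rfl
      rw [e4, Nat.add_sub_cancel' hN']
    rw [e2]
    have e5 : ∑ N ∈ range (m + 1), (if N = m + 1 then c else ξ N) * eM th B N (m + 1 - N) a =
        ∑ N ∈ range (m + 1), ξ N * eM th B N (m + 1 - N) a := by
      refine Finset.sum_congr rfl fun N hN => ?_
      have hN' : N < m + 1 := by simpa using hN
      rw [if_neg hN'.ne]
    have e6 : (fun N => if N = m + 1 then c else ξ N) (m + 1) = c := if_pos rfl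
    rw [e5, e6, Nat.sub_self]
    show c * ev (m + 1) a + _ = _ + c * ev (m + 1) a
    ring

private theorem af_qf_zero (th B : ℝ) (m : ℕ) (y : ℕ → ℂ) : Qf th B m (fun _ => 0) y = 0 := by
  unfold Qf Yv
  simp

private theorem af_sup_sum {m : ℕ} (ξ : ℕ → ℂ) {f : ℕ → ℕ → ℂ} {n : ℕ}
    (hf : ∀ N < n, Sup m (f N)) : Sup m (fun a => ∑ N ∈ range n, ξ N * f N a) := by
  intro a ha
  refine Finset.sum_eq_zero fun N hN => ?_
  rw [hf N (by simpa using hN) a ha, mul_zero]

private theorem af_qf_sum {th B : ℝ} (h0 : 0 < th) (h1 : th < 1 / 2) (hB : 0 < B) {m : ℕ} (ξ : ℕ → ℂ)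
    {f : ℕ → ℕ → ℂ} {y : ℕ → ℂ} (hy : Sup m y) (n : ℕ) (hf : ∀ N < n, Sup m (f N)) :
    Qf th B m (fun a => ∑ N ∈ range n, ξ N * f N a) y = ∑ N ∈ range n, ξ N * Qf th B m (f N) y := by
  induction n with
  | zero => simpa using af_qf_zero th B m y
  | succ n ih =>
    rw [Finset.sum_range_succ, ← ih (fun N hN => hf N (by omega))]
    rw [← qf_add h0 h1 hB (af_sup_sum ξ (fun N hN => hf N (by omega))) (hf n (by omega)) hy (ξ n)]
    congr 1
    funext a
    rw [Finset.sum_range_succ]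

private theorem af_pair {th B : ℝ} (h0 : 0 < th) (h1 : th < 1 / 2) (hB : 0 < B) {m : ℕ} {x ξ : ℕ → ℂ}
    (hξ : ∀ a, x a = ∑ N ∈ range (m + 1), ξ N * eM th B N (m - N) a) {N : ℕ} (hN : N ≤ m) :
    Qf th B m x (eM th B N (m - N)) =
      ξ N * (((m - N).factorial * poc (2 * N + 1 + B) (m - N) * qN th B N : ℝ) : ℂ) := by
  have hs : ∀ K < m + 1, Sup m (eM th B K (m - K)) := fun K hK => by
    have := sup_em th B K (m - K)
    rwa [Nat.add_sub_cancel' (by omega)] at this
  have e1 : x = fun a => ∑ N ∈ range (m + 1), ξ N * eM th B N (m - N) a := funext hξ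
  rw [e1, af_qf_sum h0 h1 hB ξ (hs N (by omega)) (m + 1) hs]
  rw [Finset.sum_eq_single N]
  · have := em_norm h0 h1 hB N (m - N)
    rw [Nat.add_sub_cancel' hN] at this
    rw [this]
  · intro K hK hne
    have hK' : K ≤ m := by simpa [Nat.lt_succ_iff] using hK
    have := em_orth h0 h1 hB (N := K) (M := m - K) (N' := N) (M' := m - N) (by omega) hne
    rw [Nat.add_sub_cancel' hK'] at this
    rw [this, mul_zero]
  · intro h
    exact absurd (by simpa [Nat.lt_succ_iff] using hN) h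

private theorem af_sup_li {m : ℕ} {x : ℕ → ℂ} (hx : Sup m x) (k : ℕ) (hk : k ≤ m) :
    Sup (m - k) (Li m x k) := by
  induction k with
  | zero => exact hx
  | succ k ih =>
    have h := ih (by omega)
    have e : m - k = (m - (k + 1)) + 1 := by omega
    show Sup (m - (k + 1)) (Lm (m - k) (Li m x k))
    rw [e] at h ⊢
    exact sup_lm h

private theorem af_coef {th B : ℝ} (h0 : 0 < th) (h1 : th < 1 / 2) (hB : 0 < B) {N M : ℕ} {x ξ : ℕ → ℂ}
    (hx : Sup (N + M) x)
    (hξ : ∀ a, x a = ∑ K ∈ range (N + M + 1), ξ K * eM th B K (N + M - K) a) (hN : N ≤ 3) :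
    tN th B N (N + M) x = ξ N * ((poc (2 * N + 1 + B) M * poc (B + N) N : ℝ) : ℂ) := by
  have h2 := af_pair h0 h1 hB hξ (N := N) (by omega)
  rw [Nat.add_sub_cancel_left, em_pair h0 h1 hB N M hx] at h2
  have hsup : Sup N (Li (N + M) x M) := by
    have := af_sup_li hx M (by omega)
    rwa [Nat.add_sub_cancel] at this
  have h3 := pair_tau h0 h1 hB hN hsup
  have h4 : ∑ j ∈ range (N + 1), (tau th B N j : ℂ) * Li (N + M) x M j =
      (M.factorial : ℂ) * tN th B N (N + M) x := by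
    unfold tN
    rw [Finset.mul_sum]
    refine Finset.sum_congr rfl fun j hj => ?_
    rw [li_eq hx (by simpa [Nat.lt_succ_iff] using hj)]
    ring
  rw [h2, h4] at h3
  have hq : ((qN th B N : ℝ) : ℂ) ≠ 0 := by
    rw [Complex.ofReal_ne_zero]
    rcases Nat.eq_zero_or_pos N with h | h
    · rw [h]; exact (qn_zero h0 h1 hB).ne
    · exact (qn_pos h0 h1 hB h).ne'
  have hf : (M.factorial : ℂ) ≠ 0 := by exact_mod_cast M.factorial_ne_zero
  have h5 : ((qN th B N : ℝ) : ℂ) * (M.factorial : ℂ) * tN th B N (N + M) x =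
      ((qN th B N : ℝ) : ℂ) * (M.factorial : ℂ) *
        (ξ N * ((poc (2 * N + 1 + B) M * poc (B + N) N : ℝ) : ℂ)) := by
    rw [mul_assoc, ← h3]
    push_cast
    ring
  exact mul_left_cancel₀ (mul_ne_zero hq hf) h5

theorem alg {th B : ℝ} (h0 : 0 < th) (h1 : th < 1 / 2) (hB : 0 < B) (m : ℕ) {x : ℕ → ℂ}
    (hx : Sup m x) :
    ∑ N ∈ range 4, (if N ≤ m then wN th B N * bw (2 * N + B - 1) (m - N) * ‖tN th B N m x‖ ^ 2 else 0) ≤
      (Qf th B m x x).re := by
  obtain ⟨ξ, hξ⟩ := decomp h0 h1 hB m hx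
  set g : ℕ → ℝ := fun N => ‖ξ N‖ ^ 2 * ((m - N).factorial * poc (2 * N + 1 + B) (m - N) * qN th B N) with hg
  have hs : ∀ K < m + 1, Sup m (eM th B K (m - K)) := fun K hK => by
    have := sup_em th B K (m - K)
    rwa [Nat.add_sub_cancel' (by omega)] at this
  have e1 : x = fun a => ∑ N ∈ range (m + 1), ξ N * eM th B N (m - N) a := funext hξ
  have hQ : (Qf th B m x x).re = ∑ N ∈ range (m + 1), g N := by
    have h2 : Qf th B m x x = ∑ N ∈ range (m + 1), ξ N * Qf th B m (eM th B N (m - N)) x := by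
      conv_lhs => rw [e1]
      rw [← e1]
      have := af_qf_sum h0 h1 hB ξ hx (m + 1) hs
      rw [← e1] at this
      exact this
    rw [h2, Complex.re_sum]
    refine Finset.sum_congr rfl fun N hN => ?_
    have hN' : N ≤ m := by simpa [Nat.lt_succ_iff] using hN
    rw [qf_symm th B m x, af_pair h0 h1 hB hξ hN', map_mul, Complex.conj_ofReal, ← mul_assoc,
      Complex.mul_conj, ← Complex.ofReal_mul, Complex.ofReal_re, Complex.normSq_eq_norm_sq]
  have hB2 : ∀ N : ℕ, 0 < 2 * (N : ℝ) + 1 + B := fun N => by positivity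
  have key : ∀ N ∈ range 4, (if N ≤ m then
      wN th B N * bw (2 * N + B - 1) (m - N) * ‖tN th B N m x‖ ^ 2 else 0) =
      if N ≤ m then g N else 0 := by
    intro N hN
    have hN3 : N ≤ 3 := by simpa [Nat.lt_succ_iff] using hN
    by_cases hNm : N ≤ m
    · rw [if_pos hNm, if_pos hNm]
      obtain ⟨M, rfl⟩ := Nat.exists_eq_add_of_le hNm
      have hc := af_coef h0 h1 hB hx hξ hN3
      simp only [hg, Nat.add_sub_cancel_left]
      rw [hc, norm_mul, Complex.norm_real]
      have hP : 0 < poc (2 * N + 1 + B) M := poc_pos (hB2 N) M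
      have hR : 0 < poc (B + N) N := poc_pos (by positivity) N
      have h2N : 0 < 2 * (N : ℝ) + B := by positivity
      rw [Real.norm_of_nonneg (mul_pos hP hR).le]
      unfold wN bw
      have e2 : poc (2 * (N : ℝ) + B - 1 + 1) (M + 1) = (2 * N + B) * poc (2 * N + 1 + B) M := by
        rw [sub_add_cancel, af_shift]
        congr 2
        ring
      rw [e2]
      field_simp
    · rw [if_neg hNm, if_neg hNm]
  rw [Finset.sum_congr rfl key, hQ, ← Finset.sum_filter]
  refine Finset.sum_le_sum_of_subset_of_nonneg ?_ ?_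
  · intro N hN
    rw [Finset.mem_filter] at hN
    rw [Finset.mem_range]
    omega
  · intro N hN hN'
    rw [Finset.mem_range] at hN
    rw [Finset.mem_filter, Finset.mem_range] at hN'
    have h4 : 4 ≤ N := by
      by_contra h
      exact hN' ⟨by omega, by omega⟩
    have hq := qn_pos h0 h1 hB (N := N) (by omega)
    have hP : 0 < poc (2 * N + 1 + B) (m - N) := poc_pos (hB2 N) _
    simp only [hg]
    positivity

end Pool.Agent.Helper21.KP
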