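import Pool.Agent.Helper21.KP.ACoef

/-!
# KP-A2: the form `Qf`

`summ`: for `x`, `y` of degree `m` one has `‖Yv th x i‖ ≤ C (i+1)^(th-1)` (finitely many `x a`; `cc_bound`), so
the terms are `O((i+1) (i+1)^(-2 th - B) (i+1)^(2 th - 2)) = O((i+1)^(-1-B))` (`bw_bound`).
`adj` (termwise after a shift of the index): by `cc_succ`, for `x` of degree `m`
`Yv (Lp m x) i = (i + 2 th + B) Yv x (i-1) + (m - i - th) Yv x i` (first term `0` for `i = 0`), and for `y` of
degree `m + 1`: `Yv (Lm (m+1) y) i = (i+1) Yv y (i+1) + (m + 1 - i - th) Yv y i`;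
`bw_succ`: `bw (i+1) (i + 2 th + B + 1) = bw i (i+1)`.
-/

set_option autoImplicit false

namespace Pool.Agent.Helper21.KP

open Complex Metric Set Real Finset

private theorem AForm_yv_range (th : ℝ) (x : ℕ → ℂ) (i : ℕ) :
    Yv th x i = ∑ a ∈ range (i + 1), (cc th (i - a) : ℂ) * x a := by
  unfold Yv
  rw [← Finset.Nat.sum_antidiagonal_swap]
  exact Finset.Nat.sum_antidiagonal_eq_sum_range_succ (fun a l => (cc th l : ℂ) * x a) i

theorem yv_bound {th : ℝ} (h0 : 0 < th) (h1 : th < 1 / 2) {m : ℕ} {x : ℕ → ℂ} (hx : Sup m x) :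
    ∃ C : ℝ, ∀ i : ℕ, ‖Yv th x i‖ ≤ C * ((i : ℝ) + 1) ^ (th - 1) := by
  refine ⟨((m : ℝ) + 1) ^ (1 - th) * ∑ a ∈ range (m + 1), ‖x a‖, fun i => ?_⟩
  rw [AForm_yv_range]
  have hterm : ∀ a ∈ range (i + 1), ‖(cc th (i - a) : ℂ) * x a‖ ≤
      ((m : ℝ) + 1) ^ (1 - th) * ((i : ℝ) + 1) ^ (th - 1) * ‖x a‖ := by
    intro a ha
    by_cases ham : m < a
    · rw [hx a ham]
      simp
    · push Not at ham
      rw [Finset.mem_range] at ha
      have hai : a ≤ i := by omega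
      rw [norm_mul]
      refine mul_le_mul_of_nonneg_right ?_ (norm_nonneg _)
      obtain ⟨h2, h3⟩ := cc_bound h0 (by linarith) (i - a)
      rw [Complex.norm_real, Real.norm_eq_abs, abs_of_pos h2]
      refine h3.trans ?_
      rw [Nat.cast_sub hai]
      have h4 : (a : ℝ) ≤ i := by exact_mod_cast hai
      have h5 : (a : ℝ) ≤ m := by exact_mod_cast ham
      have h6 : (0 : ℝ) ≤ m := Nat.cast_nonneg m
      have h7 : (0 : ℝ) ≤ i := Nat.cast_nonneg i
      have h8 : ((i : ℝ) + 1) / ((m : ℝ) + 1) ≤ (i : ℝ) - a + 1 := by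
        rw [div_le_iff₀ (by positivity)]
        nlinarith
      have h9 : ((i : ℝ) - a + 1) ^ (th - 1) ≤ (((i : ℝ) + 1) / ((m : ℝ) + 1)) ^ (th - 1) :=
        Real.rpow_le_rpow_of_nonpos (by positivity) h8 (by linarith)
      refine h9.trans (le_of_eq ?_)
      rw [Real.div_rpow (by positivity) (by positivity), div_eq_mul_inv,
        ← Real.rpow_neg (by positivity), neg_sub, mul_comm]
  calc ‖∑ a ∈ range (i + 1), (cc th (i - a) : ℂ) * x a‖
      ≤ ∑ a ∈ range (i + 1), ‖(cc th (i - a) : ℂ) * x a‖ := norm_sum_le _ _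
    _ ≤ ∑ a ∈ range (i + 1), ((m : ℝ) + 1) ^ (1 - th) * ((i : ℝ) + 1) ^ (th - 1) * ‖x a‖ :=
        Finset.sum_le_sum hterm
    _ = ((m : ℝ) + 1) ^ (1 - th) * ((i : ℝ) + 1) ^ (th - 1) * ∑ a ∈ range (i + 1), ‖x a‖ := by
        rw [Finset.mul_sum]
    _ ≤ ((m : ℝ) + 1) ^ (1 - th) * ((i : ℝ) + 1) ^ (th - 1) * ∑ a ∈ range (m + 1), ‖x a‖ := by
        refine mul_le_mul_of_nonneg_left ?_ (by positivity)
        have h2 : ∑ a ∈ range (m + 1), ‖x a‖ = ∑ a ∈ range (i + 1) ∪ range (m + 1), ‖x a‖ := by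
          refine Finset.sum_subset Finset.subset_union_right ?_
          intro a _ ha
          rw [Finset.mem_range] at ha
          rw [hx a (by omega), norm_zero]
        rw [h2]
        exact Finset.sum_le_sum_of_subset_of_nonneg Finset.subset_union_left
          (fun _ _ _ => norm_nonneg _)
    _ = _ := by ring

private theorem AForm_lin (th : ℝ) (h0 : 0 < th) (h1 : th < 1 / 2) (m i : ℕ) :
    |(m : ℝ) - i - th| ≤ ((m : ℝ) + 1) * ((i : ℝ) + 1) := by
  have h6 : (0 : ℝ) ≤ m := Nat.cast_nonneg m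
  have h7 : (0 : ℝ) ≤ i := Nat.cast_nonneg i
  rw [abs_le]
  constructor <;> nlinarith [mul_nonneg h6 h7]

theorem summ {th B : ℝ} (h0 : 0 < th) (h1 : th < 1 / 2) (hB : 0 < B) {m : ℕ} {x y : ℕ → ℂ}
    (hx : Sup m x) (hy : Sup m y) (m' : ℕ) :
    Summable (fun i : ℕ => ((((m' : ℝ) - i - th) * bw (2 * th - 1 + B) i : ℝ) : ℂ) *
      (Yv th x i * (starRingEnd ℂ) (Yv th y i))) := by
  obtain ⟨C, hC⟩ := yv_bound h0 h1 hx
  obtain ⟨C', hC'⟩ := yv_bound h0 h1 hy
  obtain ⟨D, hD0, hD⟩ := bw_bound (k := 2 * th - 1 + B) (by linarith)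
  have hs : Summable (fun i : ℕ => (((m' : ℝ) + 1) * D * |C| * |C'|) * ((i : ℝ) + 1) ^ (-1 - B)) := by
    apply Summable.mul_left
    have h2 : Summable (fun i : ℕ => (i : ℝ) ^ (-1 - B)) := Real.summable_nat_rpow.2 (by linarith)
    have h3 := (summable_nat_add_iff 1).2 h2
    refine h3.congr fun i => ?_
    push_cast
    rfl
  refine Summable.of_norm_bounded hs fun i => ?_
  have hi : (0 : ℝ) < (i : ℝ) + 1 := by positivity
  rw [norm_mul, norm_mul, Complex.norm_real, Real.norm_eq_abs, abs_mul,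
    abs_of_pos (bw_pos (by linarith) i), RCLike.norm_conj]
  have h2 : ‖Yv th x i‖ ≤ |C| * ((i : ℝ) + 1) ^ (th - 1) :=
    (hC i).trans (mul_le_mul_of_nonneg_right (le_abs_self C) (by positivity))
  have h3 : ‖Yv th y i‖ ≤ |C'| * ((i : ℝ) + 1) ^ (th - 1) :=
    (hC' i).trans (mul_le_mul_of_nonneg_right (le_abs_self C') (by positivity))
  have h4 := AForm_lin th h0 h1 m' i
  have h5 := hD i
  calc |(m' : ℝ) - i - th| * bw (2 * th - 1 + B) i * (‖Yv th x i‖ * ‖Yv th y i‖)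
      ≤ (((m' : ℝ) + 1) * ((i : ℝ) + 1)) * (D * ((i : ℝ) + 1) ^ (-(2 * th - 1 + B) - 1)) *
        ((|C| * ((i : ℝ) + 1) ^ (th - 1)) * (|C'| * ((i : ℝ) + 1) ^ (th - 1))) := by
        refine mul_le_mul (mul_le_mul h4 h5 (bw_pos (by linarith) i).le (by positivity))
          (mul_le_mul h2 h3 (norm_nonneg _) (by positivity)) (by positivity) (by positivity)
    _ = (((m' : ℝ) + 1) * D * |C| * |C'|) * (((i : ℝ) + 1) ^ (1 : ℝ) *
          ((i : ℝ) + 1) ^ (-(2 * th - 1 + B) - 1) * ((i : ℝ) + 1) ^ (th - 1) *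
          ((i : ℝ) + 1) ^ (th - 1)) := by
        rw [Real.rpow_one]
        ring
    _ = _ := by
        rw [← Real.rpow_add hi, ← Real.rpow_add hi, ← Real.rpow_add hi]
        congr 2
        ring

private theorem AForm_cc (th : ℝ) (l : ℕ) :
    ((l : ℂ) + 1) * (cc th (l + 1) : ℂ) = ((th : ℂ) + l) * (cc th l : ℂ) := by
  have h := congrArg (fun r : ℝ => (r : ℂ)) (cc_succ th l)
  push_cast at h
  linear_combination h

/-- `∑ l cc(l) x(a)` over `l + a = j + 1` -/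
private theorem AForm_shift (th : ℝ) (x : ℕ → ℂ) (j : ℕ) :
    ∑ p ∈ antidiagonal (j + 1), (p.1 : ℂ) * ((cc th p.1 : ℂ) * x p.2) =
      ∑ p ∈ antidiagonal j, ((th : ℂ) + p.1) * ((cc th p.1 : ℂ) * x p.2) := by
  rw [Finset.Nat.sum_antidiagonal_succ]
  simp only [Nat.cast_zero, zero_mul, zero_add]
  refine Finset.sum_congr rfl fun p _ => ?_
  rw [← mul_assoc, ← mul_assoc, ← AForm_cc]
  push_cast
  rfl

theorem yv_lp (th B : ℝ) (m : ℕ) (x : ℕ → ℂ) (i : ℕ) :
    Yv th (Lp th B m x) i = (if i = 0 then 0 else (((i : ℝ) + 2 * th + B : ℝ) : ℂ) * Yv th x (i - 1)) +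
      (((m : ℝ) - i - th : ℝ) : ℂ) * Yv th x i := by
  rcases i with _ | j
  · unfold Yv Lp
    simp
    ring
  · rw [if_neg (Nat.succ_ne_zero j), Nat.add_sub_cancel]
    have e1 : Yv th (Lp th B m x) (j + 1) =
        (∑ p ∈ antidiagonal (j + 1), (cc th p.1 : ℂ) *
          (if p.2 = 0 then 0 else (((p.2 : ℝ) + th + B : ℝ) : ℂ) * x (p.2 - 1))) +
        ((((m : ℝ) - (j + 1 : ℕ) - th : ℝ) : ℂ) * Yv th x (j + 1) +
          ∑ p ∈ antidiagonal (j + 1), (p.1 : ℂ) * ((cc th p.1 : ℂ) * x p.2)) := by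
      unfold Yv Lp
      rw [Finset.mul_sum, ← Finset.sum_add_distrib, ← Finset.sum_add_distrib]
      refine Finset.sum_congr rfl fun p hp => ?_
      rw [Finset.HasAntidiagonal.mem_antidiagonal] at hp
      rw [← hp]
      push_cast
      ring
    have e2 : (∑ p ∈ antidiagonal (j + 1), (cc th p.1 : ℂ) *
          (if p.2 = 0 then 0 else (((p.2 : ℝ) + th + B : ℝ) : ℂ) * x (p.2 - 1))) =
        ∑ p ∈ antidiagonal j, (((p.2 : ℂ) + 1 + th + B)) * ((cc th p.1 : ℂ) * x p.2) := by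
      rw [Finset.Nat.sum_antidiagonal_succ']
      rw [if_pos rfl, mul_zero, zero_add]
      refine Finset.sum_congr rfl fun p _ => ?_
      rw [if_neg (Nat.succ_ne_zero _), Nat.add_sub_cancel]
      push_cast
      ring
    have e3 : (((j + 1 : ℕ) : ℝ) + 2 * th + B : ℝ) * Yv th x j =
        (∑ p ∈ antidiagonal j, (((p.2 : ℂ) + 1 + th + B)) * ((cc th p.1 : ℂ) * x p.2)) +
        ∑ p ∈ antidiagonal j, ((th : ℂ) + p.1) * ((cc th p.1 : ℂ) * x p.2) := by
      unfold Yv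
      rw [Finset.mul_sum, ← Finset.sum_add_distrib]
      refine Finset.sum_congr rfl fun p hp => ?_
      rw [Finset.HasAntidiagonal.mem_antidiagonal] at hp
      rw [← hp]
      push_cast
      ring
    rw [e1, e2, e3, AForm_shift]
    ring

theorem yv_lm (th : ℝ) (m : ℕ) (y : ℕ → ℂ) (i : ℕ) :
    Yv th (Lm m y) i = ((i : ℂ) + 1) * Yv th y (i + 1) + (((m : ℝ) - i - th : ℝ) : ℂ) * Yv th y i := by
  have e1 : ((i : ℂ) + 1) * Yv th y (i + 1) =
      (∑ p ∈ antidiagonal (i + 1), (p.2 : ℂ) * ((cc th p.1 : ℂ) * y p.2)) +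
      ∑ p ∈ antidiagonal (i + 1), (p.1 : ℂ) * ((cc th p.1 : ℂ) * y p.2) := by
    unfold Yv
    rw [Finset.mul_sum, ← Finset.sum_add_distrib]
    refine Finset.sum_congr rfl fun p hp => ?_
    rw [Finset.HasAntidiagonal.mem_antidiagonal] at hp
    have h2 : ((i : ℂ) + 1) = (p.1 : ℂ) + p.2 := by
      have h3 : ((i + 1 : ℕ) : ℂ) = ((p.1 + p.2 : ℕ) : ℂ) := by rw [hp]
      push_cast at h3
      exact h3
    rw [h2]
    ring
  have e2 : (∑ p ∈ antidiagonal (i + 1), (p.2 : ℂ) * ((cc th p.1 : ℂ) * y p.2)) =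
      ∑ p ∈ antidiagonal i, ((p.2 : ℂ) + 1) * ((cc th p.1 : ℂ) * y (p.2 + 1)) := by
    rw [Finset.Nat.sum_antidiagonal_succ']
    simp only [Nat.cast_zero, zero_mul, zero_add]
    refine Finset.sum_congr rfl fun p _ => ?_
    push_cast
    ring
  rw [e1, e2, AForm_shift]
  unfold Yv Lm
  rw [Finset.mul_sum, ← Finset.sum_add_distrib, ← Finset.sum_add_distrib]
  refine Finset.sum_congr rfl fun p hp => ?_
  rw [Finset.HasAntidiagonal.mem_antidiagonal] at hp
  rw [← hp]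
  push_cast
  ring

private theorem AForm_sup_lp (th B : ℝ) {m : ℕ} {x : ℕ → ℂ} (hx : Sup m x) :
    Sup (m + 1) (Lp th B m x) := by
  intro a ha
  unfold Lp
  rw [hx (a - 1) (by omega), hx a (by omega)]
  simp

private theorem AForm_sup_lm {m : ℕ} {y : ℕ → ℂ} (hy : Sup (m + 1) y) :
    Sup m (Lm (m + 1) y) := by
  intro a ha
  unfold Lm
  rw [hy (a + 1) (by omega)]
  rcases Nat.lt_or_ge (m + 1) a with h | h
  · rw [hy a h]
    simp
  · have h2 : a = m + 1 := by omega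
    rw [h2]
    simp

private theorem AForm_sup_mono {m m' : ℕ} {x : ℕ → ℂ} (hx : Sup m x) (h : m ≤ m') : Sup m' x :=
  fun a ha => hx a (by omega)

theorem adj {th B : ℝ} (h0 : 0 < th) (h1 : th < 1 / 2) (hB : 0 < B) {m : ℕ} {x y : ℕ → ℂ}
    (hx : Sup m x) (hy : Sup (m + 1) y) :
    Qf th B (m + 1) (Lp th B m x) y = Qf th B m x (Lm (m + 1) y) := by
  have hk : (-1 : ℝ) < 2 * th - 1 + B := by linarith
  have s1 := summ h0 h1 hB (AForm_sup_lp th B hx) hy (m + 1)
  have s2 := summ h0 h1 hB (AForm_sup_mono hx (Nat.le_succ m))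
    (AForm_sup_mono (AForm_sup_lm hy) (Nat.le_succ m)) m
  unfold Qf
  rw [← sub_eq_zero, ← s1.tsum_sub s2]
  -- the boundary terms
  let A : ℕ → ℂ := fun i => if i = 0 then 0 else
    ((((m : ℝ) + 1 - i - th) * bw (2 * th - 1 + B) i * ((i : ℝ) + 2 * th + B) : ℝ) : ℂ) *
      (Yv th x (i - 1) * (starRingEnd ℂ) (Yv th y i))
  have hA0 : A 0 = 0 := if_pos rfl
  have hA : ∀ i : ℕ, A (i + 1) = ((((m : ℝ) - i - th) * bw (2 * th - 1 + B) i * ((i : ℝ) + 1) : ℝ) : ℂ) *
      (Yv th x i * (starRingEnd ℂ) (Yv th y (i + 1))) := by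
    intro i
    change (if i + 1 = 0 then 0 else _) = _
    rw [if_neg (Nat.succ_ne_zero i), Nat.add_sub_cancel]
    congr 2
    have h2 := bw_succ hk i
    push_cast
    linear_combination ((m : ℝ) - i - th) * h2
  have hdiff : ∀ i : ℕ, ((((((m + 1 : ℕ) : ℝ) - i - th) * bw (2 * th - 1 + B) i : ℝ) : ℂ) *
      (Yv th (Lp th B m x) i * (starRingEnd ℂ) (Yv th y i))) -
      ((((m : ℝ) - i - th) * bw (2 * th - 1 + B) i : ℝ) : ℂ) *
      (Yv th x i * (starRingEnd ℂ) (Yv th (Lm (m + 1) y) i)) = A i - A (i + 1) := by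
    intro i
    rw [hA, yv_lp, yv_lm]
    have hAi : A i = ((((m : ℝ) + 1 - i - th) * bw (2 * th - 1 + B) i : ℝ) : ℂ) *
        ((if i = 0 then 0 else (((i : ℝ) + 2 * th + B : ℝ) : ℂ) * Yv th x (i - 1)) *
          (starRingEnd ℂ) (Yv th y i)) := by
      change (if i = 0 then 0 else _) = _
      split_ifs with h
      · simp
      · push_cast
        ring
    rw [hAi, map_add, map_mul, map_mul, Complex.conj_ofReal]
    have hc : (starRingEnd ℂ) ((i : ℂ) + 1) = (i : ℂ) + 1 := by simp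
    rw [hc]
    push_cast
    ring
  have hsum : Summable (fun i => A i - A (i + 1)) := by
    refine (s1.sub s2).congr fun i => ?_
    exact hdiff i
  have hlim : Filter.Tendsto A Filter.atTop (nhds 0) := by
    rw [← Filter.tendsto_add_atTop_iff_nat 1]
    obtain ⟨C, hC⟩ := yv_bound h0 h1 hx
    obtain ⟨C', hC'⟩ := yv_bound h0 h1 hy
    obtain ⟨D, hD0, hD⟩ := bw_bound hk
    have hz : Filter.Tendsto (fun i : ℕ => (((m : ℝ) + 1) * D * |C| * |C'|) *
        ((i : ℝ) + 1) ^ (-B)) Filter.atTop (nhds 0) := by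
      rw [← mul_zero (((m : ℝ) + 1) * D * |C| * |C'|)]
      refine Filter.Tendsto.const_mul _ ?_
      have h2 := tendsto_rpow_neg_atTop hB
      have h3 : Filter.Tendsto (fun i : ℕ => (i : ℝ) + 1) Filter.atTop Filter.atTop :=
        Filter.tendsto_atTop_add_const_right _ _ tendsto_natCast_atTop_atTop
      exact h2.comp h3
    refine squeeze_zero_norm (fun i => ?_) hz
    rw [hA]
    have hi : (0 : ℝ) < (i : ℝ) + 1 := by positivity
    rw [norm_mul, norm_mul, Complex.norm_real, Real.norm_eq_abs, abs_mul, abs_mul,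
      abs_of_pos (bw_pos hk i), abs_of_pos hi, RCLike.norm_conj]
    have h2 : ‖Yv th x i‖ ≤ |C| * ((i : ℝ) + 1) ^ (th - 1) :=
      (hC i).trans (mul_le_mul_of_nonneg_right (le_abs_self C) (by positivity))
    have h3 : ‖Yv th y (i + 1)‖ ≤ |C'| * ((i : ℝ) + 1) ^ (th - 1) := by
      refine (hC' (i + 1)).trans ?_
      have h6 : (((i + 1 : ℕ) : ℝ) + 1) ^ (th - 1) ≤ ((i : ℝ) + 1) ^ (th - 1) := by
        refine Real.rpow_le_rpow_of_nonpos hi ?_ (by linarith)
        push_cast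
        linarith
      exact (mul_le_mul_of_nonneg_right (le_abs_self C') (by positivity)).trans
        (mul_le_mul_of_nonneg_left h6 (abs_nonneg _))
    have h4 := AForm_lin th h0 h1 m i
    have h5 := hD i
    calc |(m : ℝ) - i - th| * bw (2 * th - 1 + B) i * ((i : ℝ) + 1) *
          (‖Yv th x i‖ * ‖Yv th y (i + 1)‖)
        ≤ (((m : ℝ) + 1) * ((i : ℝ) + 1)) * (D * ((i : ℝ) + 1) ^ (-(2 * th - 1 + B) - 1)) *
          ((i : ℝ) + 1) *
          ((|C| * ((i : ℝ) + 1) ^ (th - 1)) * (|C'| * ((i : ℝ) + 1) ^ (th - 1))) := by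
          refine mul_le_mul (mul_le_mul_of_nonneg_right
            (mul_le_mul h4 h5 (bw_pos hk i).le (by positivity)) hi.le)
            (mul_le_mul h2 h3 (norm_nonneg _) (by positivity)) (by positivity) (by positivity)
      _ = (((m : ℝ) + 1) * D * |C| * |C'|) * (((i : ℝ) + 1) ^ (1 : ℝ) * ((i : ℝ) + 1) ^ (1 : ℝ) *
            ((i : ℝ) + 1) ^ (-(2 * th - 1 + B) - 1) * ((i : ℝ) + 1) ^ (th - 1) *
            ((i : ℝ) + 1) ^ (th - 1)) := by
          rw [Real.rpow_one]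
          ring
      _ = _ := by
          rw [← Real.rpow_add hi, ← Real.rpow_add hi, ← Real.rpow_add hi, ← Real.rpow_add hi]
          congr 2
          ring
  have hzero : ∑' i, (A i - A (i + 1)) = 0 := by
    have h2 := hsum.hasSum.tendsto_sum_nat
    have h3 : ∀ n : ℕ, ∑ i ∈ range n, (A i - A (i + 1)) = - A n := by
      intro n
      rw [Finset.sum_range_sub', hA0, zero_sub]
    have h4 : Filter.Tendsto (fun n : ℕ => ∑ i ∈ range n, (A i - A (i + 1))) Filter.atTop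
        (nhds 0) := by
      simp_rw [h3]
      rw [← neg_zero]
      exact hlim.neg
    exact tendsto_nhds_unique h2 h4
  rw [← hzero]
  exact tsum_congr hdiff

theorem qf_symm (th B : ℝ) (m : ℕ) (x y : ℕ → ℂ) :
    Qf th B m y x = (starRingEnd ℂ) (Qf th B m x y) := by
  unfold Qf
  rw [Complex.conj_tsum]
  refine tsum_congr fun i => ?_
  rw [map_mul, map_mul, Complex.conj_ofReal, Complex.conj_conj]
  ring

theorem qf_add {th B : ℝ} (h0 : 0 < th) (h1 : th < 1 / 2) (hB : 0 < B) {m : ℕ} {x x' y : ℕ → ℂ}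
    (hx : Sup m x) (hx' : Sup m x') (hy : Sup m y) (c : ℂ) :
    Qf th B m (fun a => x a + c * x' a) y = Qf th B m x y + c * Qf th B m x' y := by
  have s1 := summ h0 h1 hB hx hy m
  have s2 := summ h0 h1 hB hx' hy m
  unfold Qf
  rw [← tsum_mul_left, ← s1.tsum_add (s2.mul_left c)]
  refine tsum_congr fun i => ?_
  have h2 : Yv th (fun a => x a + c * x' a) i = Yv th x i + c * Yv th x' i := by
    unfold Yv
    rw [Finset.mul_sum, ← Finset.sum_add_distrib]
    refine Finset.sum_congr rfl fun p _ => ?_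
    ring
  rw [h2]
  ring

end Pool.Agent.Helper21.KP
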