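import Pool.Agent.Helper21.KP.AForm

/-!
# KP-A5: Gauss's recursion, the norms `qN`

Let `S a b c = ∑ i, (a)_i (b)_i / (i! (c)_i)` (`c > 0`, `c > a + b`).  `gauss_rec`:
`c (c - a - b) S a b c = (c - a) (c - b) S a b (c+1)`: with `t_i` the terms of `S a b c`,
`s_i = t_i c / (c + i)` the terms of `S a b (c+1)`; the difference of the two sides telescopes:
`c (c-a-b) t_i - (c-a)(c-b) s_i = v_i - v_{i+1}`, `v_i = c i t_i → 0`.  `gauss_lim`: `S a b (c+n) → 1`.
`qn_eq`: `Yv th (ev N) i = (th - N)_i / i!` and `(N - th - i) (th - N)_i = (N - th) (1 + th - N)_i`.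
`gauss_pos`: product of positive factors times `S a b (c + n) > 0` for large `n`.
-/

set_option autoImplicit false

namespace Pool.Agent.Helper21.KP

open Complex Metric Set Real Finset

/-- Gauss's series at 1 -/
noncomputable def S21 (a b c : ℝ) : ℝ := ∑' i : ℕ, poc a i * poc b i / (i.factorial * poc c i)

private theorem ag_poc_succ (x : ℝ) (n : ℕ) : poc x (n + 1) = poc x n * (x + n) := rfl

private theorem ag_poc_shift (x : ℝ) (n : ℕ) : poc x (n + 1) = x * poc (x + 1) n := by
  induction n with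
  | zero => simp [poc]
  | succ n ih =>
    rw [ag_poc_succ x (n + 1), ih, ag_poc_succ (x + 1) n]
    push_cast
    ring

/-- the term of the series -/
private noncomputable def ag_t (a b c : ℝ) (i : ℕ) : ℝ := poc a i * poc b i / (i.factorial * poc c i)

private theorem ag_t_succ {a b c : ℝ} (hc : 0 < c) (i : ℕ) :
    ((i : ℝ) + 1) * ag_t a b c (i + 1) * (c + i) = ag_t a b c i * ((a + i) * (b + i)) := by
  have h1 : poc c i ≠ 0 := (poc_pos hc i).ne'
  have h2 : (i.factorial : ℝ) ≠ 0 := by exact_mod_cast i.factorial_ne_zero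
  have h3 : c + i ≠ 0 := by positivity
  have h4 : ((i : ℝ) + 1) ≠ 0 := by positivity
  unfold ag_t
  rw [ag_poc_succ a, ag_poc_succ b, ag_poc_succ c, Nat.factorial_succ]
  push_cast
  field_simp

private theorem ag_t_shift {a b c : ℝ} (hc : 0 < c) (i : ℕ) :
    ag_t a b (c + 1) i * (c + i) = ag_t a b c i * c := by
  have h1 : poc c i ≠ 0 := (poc_pos hc i).ne'
  have h1' : poc (c + 1) i ≠ 0 := (poc_pos (by linarith) i).ne'
  have h2 : (i.factorial : ℝ) ≠ 0 := by exact_mod_cast i.factorial_ne_zero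
  have h3 : c + i ≠ 0 := by positivity
  have h5 : poc c i * (c + i) = c * poc (c + 1) i := by rw [← ag_poc_succ, ag_poc_shift]
  unfold ag_t
  rw [div_mul_eq_mul_div, div_mul_eq_mul_div, div_eq_div_iff (by positivity) (by positivity)]
  linear_combination (poc a i * poc b i * (i.factorial : ℝ)) * h5

/-- the key monotonicity -/
private theorem ag_mono {a b c : ℝ} (hc : 0 < c) (h : 0 < c - a - b) :
    ∃ i₀ : ℕ, ∀ i : ℕ, i₀ ≤ i →
      ((i : ℝ) + 1) * |ag_t a b c (i + 1)| ≤ ((i : ℝ) - (c - a - b) / 2) * |ag_t a b c i| := by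
  set δ : ℝ := (c - a - b) / 2 with hδ
  have hδ0 : 0 < δ := by rw [hδ]; linarith
  obtain ⟨i₀, hi₀⟩ := exists_nat_gt (max (max (-a) (-b)) ((δ * c + a * b) / δ))
  refine ⟨i₀, fun i hi => ?_⟩
  have hi' : (i₀ : ℝ) ≤ i := by exact_mod_cast hi
  have ha : 0 < a + i := by
    have := (le_max_left (-a) (-b)).trans (le_max_left _ ((δ * c + a * b) / δ)); linarith
  have hb : 0 < b + i := by
    have := (le_max_right (-a) (-b)).trans (le_max_left _ ((δ * c + a * b) / δ)); linarith
  have hd : δ * c + a * b ≤ δ * i := by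
    have h1 : (δ * c + a * b) / δ ≤ i := by
      have := le_max_right (max (-a) (-b)) ((δ * c + a * b) / δ); linarith
    rw [div_le_iff₀ hδ0] at h1
    linarith
  have hci : 0 < c + i := by positivity
  have h1 := ag_t_succ (a := a) (b := b) hc i
  have h2 : (((i : ℝ) + 1) * |ag_t a b c (i + 1)|) * (c + i) = |ag_t a b c i| * ((a + i) * (b + i)) := by
    have := congrArg abs h1
    rw [abs_mul, abs_mul, abs_mul, abs_of_pos hci, abs_of_pos (mul_pos ha hb),
      abs_of_nonneg (by positivity : (0 : ℝ) ≤ (i : ℝ) + 1)] at this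
    exact this
  have h3 : (a + i) * (b + i) ≤ ((i : ℝ) - δ) * (c + i) := by
    have : ((i : ℝ) - δ) * (c + i) - (a + i) * (b + i) = δ * i - (δ * c + a * b) := by
      rw [hδ]; ring
    linarith
  have h4 : (((i : ℝ) + 1) * |ag_t a b c (i + 1)|) * (c + i)
      ≤ (((i : ℝ) - δ) * |ag_t a b c i|) * (c + i) := by
    rw [h2]
    calc |ag_t a b c i| * ((a + i) * (b + i)) ≤ |ag_t a b c i| * (((i : ℝ) - δ) * (c + i)) :=
          mul_le_mul_of_nonneg_left h3 (abs_nonneg _)
      _ = _ := by ring
  exact le_of_mul_le_mul_right h4 hci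

private theorem ag_summable_abs {a b c : ℝ} (hc : 0 < c) (h : 0 < c - a - b) :
    Summable (fun i : ℕ => |ag_t a b c i|) := by
  obtain ⟨i₀, hi₀⟩ := ag_mono hc h
  have hδ0 : 0 < (c - a - b) / 2 := by linarith
  rw [← summable_nat_add_iff i₀]
  refine summable_of_sum_range_le (c := ((i₀ : ℝ) * |ag_t a b c i₀|) / ((c - a - b) / 2))
    (fun n => abs_nonneg _) fun n => ?_
  rw [le_div_iff₀ hδ0]
  have hind : ∀ n : ℕ, (∑ i ∈ Finset.range n, |ag_t a b c (i + i₀)|) * ((c - a - b) / 2)
      ≤ (i₀ : ℝ) * |ag_t a b c i₀| - ((n + i₀ : ℕ) : ℝ) * |ag_t a b c (n + i₀)| := by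
    intro n
    induction n with
    | zero => simp
    | succ n ih =>
      rw [Finset.sum_range_succ, add_mul]
      have h1 := hi₀ (n + i₀) (by omega)
      have h2 : n + 1 + i₀ = n + i₀ + 1 := by ring
      rw [h2]
      push_cast at ih h1 ⊢
      linarith
  have := hind n
  have h3 : 0 ≤ ((n + i₀ : ℕ) : ℝ) * |ag_t a b c (n + i₀)| := by positivity
  linarith

private theorem ag_tendsto {a b c : ℝ} (hc : 0 < c) (h : 0 < c - a - b) :
    Filter.Tendsto (fun i : ℕ => (i : ℝ) * ag_t a b c i) Filter.atTop (nhds 0) := by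
  obtain ⟨i₀, hi₀⟩ := ag_mono hc h
  set w : ℕ → ℝ := fun i => ((i + i₀ : ℕ) : ℝ) * |ag_t a b c (i + i₀)| with hw
  have hanti : Antitone w := by
    refine antitone_nat_of_succ_le fun n => ?_
    have h1 := hi₀ (n + i₀) (by omega)
    have h2 : n + 1 + i₀ = n + i₀ + 1 := by ring
    simp only [hw, h2]
    have h3 : 0 ≤ (c - a - b) / 2 * |ag_t a b c (n + i₀)| := by positivity
    push_cast at h1 ⊢
    linarith
  have hbdd : BddBelow (Set.range w) := ⟨0, by
    rintro _ ⟨i, rfl⟩
    simp only [hw]; positivity⟩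
  have hlim := tendsto_atTop_ciInf hanti hbdd
  set ℓ : ℝ := ⨅ i, w i with hℓ
  have hℓ0 : 0 ≤ ℓ := le_ciInf fun i => by simp only [hw]; positivity
  have hz : ℓ = 0 := by
    by_contra hne
    have hpos : 0 < ℓ := lt_of_le_of_ne hℓ0 (Ne.symm hne)
    have hs := ag_summable_abs (a := a) (b := b) hc h
    rw [← summable_nat_add_iff (i₀ + 1)] at hs
    have : Summable (fun i : ℕ => (1 : ℝ) / ((i + (i₀ + 1) : ℕ) : ℝ)) := by
      refine Summable.of_nonneg_of_le (fun i => by positivity) (fun i => ?_) (hs.mul_left ℓ⁻¹)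
      have h1 : ℓ ≤ w (i + 1) := ciInf_le hbdd _
      have h2 : i + 1 + i₀ = i + (i₀ + 1) := by ring
      simp only [hw, h2] at h1
      have h3 : (0 : ℝ) < ((i + (i₀ + 1) : ℕ) : ℝ) := by positivity
      rw [div_le_iff₀ h3, mul_assoc, inv_mul_eq_div, le_div_iff₀ hpos]
      linarith
    rw [summable_nat_add_iff (f := fun n : ℕ => (1 : ℝ) / (n : ℝ)) (i₀ + 1)] at this
    exact Real.not_summable_one_div_natCast this
  rw [hz] at hlim
  rw [← Filter.tendsto_add_atTop_iff_nat i₀]
  rw [tendsto_zero_iff_abs_tendsto_zero]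
  refine hlim.congr fun i => ?_
  simp only [hw, Function.comp, abs_mul, Nat.abs_cast]

theorem s21_summable {a b c : ℝ} (hc : 0 < c) (h : 0 < c - a - b) :
    Summable (fun i : ℕ => poc a i * poc b i / (i.factorial * poc c i)) :=
  (ag_summable_abs hc h).of_abs

theorem gauss_rec {a b c : ℝ} (hc : 0 < c) (h : 0 < c - a - b) :
    S21 a b c = (c - a) * (c - b) / (c * (c - a - b)) * S21 a b (c + 1) := by
  have hs : Summable (ag_t a b c) := (ag_summable_abs hc h).of_abs
  have hs' : Summable (ag_t a b (c + 1)) := (ag_summable_abs (by linarith) (by linarith)).of_abs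
  have hS : S21 a b c = ∑' i, ag_t a b c i := rfl
  have hS' : S21 a b (c + 1) = ∑' i, ag_t a b (c + 1) i := rfl
  have key : ∀ i : ℕ, c * (c - a - b) * ag_t a b c i - (c - a) * (c - b) * ag_t a b (c + 1) i
      = c * ((i : ℝ) * ag_t a b c i) - c * (((i + 1 : ℕ) : ℝ) * ag_t a b c (i + 1)) := by
    intro i
    have hci : (c + i) ≠ 0 := by positivity
    have h1 := ag_t_succ (a := a) (b := b) hc i
    have h2 := ag_t_shift (a := a) (b := b) hc i
    apply mul_right_cancel₀ hci
    push_cast
    linear_combination (-(c - a) * (c - b)) * h2 + c * h1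
  have hsum : HasSum (fun i => c * (c - a - b) * ag_t a b c i - (c - a) * (c - b) * ag_t a b (c + 1) i)
      (c * (c - a - b) * S21 a b c - (c - a) * (c - b) * S21 a b (c + 1)) := by
    rw [hS, hS']
    exact (hs.hasSum.mul_left _).sub (hs'.hasSum.mul_left _)
  have hlim := hsum.tendsto_sum_nat
  have hpart : ∀ n : ℕ, ∑ i ∈ Finset.range n,
      (c * (c - a - b) * ag_t a b c i - (c - a) * (c - b) * ag_t a b (c + 1) i)
        = - (c * ((n : ℝ) * ag_t a b c n)) := by
    intro n
    rw [Finset.sum_congr rfl fun i _ => key i]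
    rw [Finset.sum_range_sub' (fun i : ℕ => c * ((i : ℝ) * ag_t a b c i)) n]
    simp
  have hzero : Filter.Tendsto (fun n : ℕ => - (c * ((n : ℝ) * ag_t a b c n))) Filter.atTop (nhds 0) := by
    have := ((ag_tendsto (a := a) (b := b) hc h).const_mul c).neg
    simpa using this
  have heq : c * (c - a - b) * S21 a b c - (c - a) * (c - b) * S21 a b (c + 1) = 0 :=
    tendsto_nhds_unique (hlim.congr hpart) hzero
  have hne : c * (c - a - b) ≠ 0 := by positivity
  field_simp
  linarith

private theorem ag_poc_le {x y : ℝ} (hx : 0 < x) (hxy : x ≤ y) (n : ℕ) : poc x n ≤ poc y n := by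
  induction n with
  | zero => exact le_refl _
  | succ n ih =>
    rw [ag_poc_succ, ag_poc_succ]
    exact mul_le_mul ih (by linarith) (by positivity) (poc_pos (hx.trans_le hxy) n).le

private theorem ag_poc_ge {x : ℝ} (hx : 1 ≤ x) (n : ℕ) : x ≤ poc x (n + 1) := by
  induction n with
  | zero => simp [poc]
  | succ n ih =>
    rw [ag_poc_succ]
    have h0 : 0 < poc x (n + 1) := poc_pos (by linarith) _
    have h1 : (1 : ℝ) ≤ x + ((n + 1 : ℕ) : ℝ) := by
      have : (0 : ℝ) ≤ ((n + 1 : ℕ) : ℝ) := by positivity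
      linarith
    calc x ≤ poc x (n + 1) := ih
      _ = poc x (n + 1) * 1 := by ring
      _ ≤ poc x (n + 1) * (x + ((n + 1 : ℕ) : ℝ)) := mul_le_mul_of_nonneg_left h1 h0.le

theorem gauss_lim {a b c : ℝ} (hc : 0 < c) (h : 0 < c - a - b) :
    Filter.Tendsto (fun n : ℕ => S21 a b (c + n)) Filter.atTop (nhds 1) := by
  have h1 : (1 : ℝ) = ∑' i : ℕ, (if i = 0 then (1 : ℝ) else 0) := by
    rw [tsum_ite_eq]
  rw [h1]
  refine tendsto_tsum_of_dominated_convergence (bound := fun i => |ag_t a b c i|)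
    (ag_summable_abs hc h) (fun i => ?_) (Filter.Eventually.of_forall fun n i => ?_)
  · cases i with
    | zero => simp [poc]
    | succ i =>
      simp only [Nat.add_eq_zero_iff, one_ne_zero, and_false, if_false]
      have hden : Filter.Tendsto (fun n : ℕ => (((i + 1).factorial : ℝ) * poc (c + n) (i + 1)))
          Filter.atTop Filter.atTop := by
        have hbase : Filter.Tendsto (fun n : ℕ => (c + n : ℝ)) Filter.atTop Filter.atTop :=
          Filter.tendsto_atTop_add_const_left _ _ tendsto_natCast_atTop_atTop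
        refine Filter.tendsto_atTop_mono' _ ?_ hbase
        filter_upwards [hbase.eventually_ge_atTop 1] with n hn
        have h2 := ag_poc_ge hn i
        have h3 : (1 : ℝ) ≤ ((i + 1).factorial : ℝ) := by exact_mod_cast Nat.factorial_pos _
        have h4 : 0 < poc (c + n) (i + 1) := poc_pos (by positivity) _
        nlinarith
      exact hden.const_div_atTop _
  · rw [Real.norm_eq_abs]
    unfold ag_t
    rw [abs_div, abs_div]
    have h2 : (0 : ℝ) < i.factorial := by exact_mod_cast i.factorial_pos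
    have h3 : 0 < poc c i := poc_pos hc i
    have h4 : poc c i ≤ poc (c + n) i := ag_poc_le hc (by linarith [(Nat.cast_nonneg n : (0 : ℝ) ≤ n)]) i
    rw [abs_of_pos (mul_pos h2 h3), abs_of_pos (mul_pos h2 (h3.trans_le h4))]
    gcongr

theorem gauss_pos {a b c : ℝ} (hc : 0 < c) (h : 0 < c - a - b) (ha : 0 < c - a) (hb : 0 < c - b) :
    0 < S21 a b c := by
  have hlim := gauss_lim hc h
  obtain ⟨n, hn⟩ := (hlim.eventually (lt_mem_nhds (show (0 : ℝ) < 1 by norm_num))).exists
  have hind : ∀ n : ℕ, ∀ c : ℝ, 0 < c → 0 < c - a - b → 0 < c - a → 0 < c - b →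
      0 < S21 a b (c + n) → 0 < S21 a b c := by
    intro n
    induction n with
    | zero => intro c _ _ _ _ h5; simpa using h5
    | succ n ih =>
      intro c h1 h2 h3 h4 h5
      rw [gauss_rec h1 h2]
      have h6 : 0 < S21 a b (c + 1) := by
        refine ih (c + 1) (by linarith) (by linarith) (by linarith) (by linarith) ?_
        have : c + 1 + (n : ℝ) = c + ((n + 1 : ℕ) : ℝ) := by push_cast; ring
        rw [this]; exact h5
      positivity
  exact hind n c hc h ha hb hn

private theorem ag_ev_zero (a : ℕ) : ev 0 a = if a = 0 then 1 else 0 := by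
  unfold ev
  cases a with
  | zero => simp
  | succ a => simp

private theorem ag_ev_succ (N a : ℕ) : ev (N + 1) (a + 1) = ev N (a + 1) - ev N a := by
  unfold ev
  rw [Nat.choose_succ_succ]
  push_cast
  ring

private theorem ag_ev_at_zero (N : ℕ) : ev N 0 = 1 := by
  simp [ev]

private theorem ag_yv_ev (th : ℝ) (N : ℕ) : ∀ i : ℕ,
    Yv th (ev N) i = ((poc (th - N) i / i.factorial : ℝ) : ℂ) := by
  induction N with
  | zero =>
    intro i
    unfold Yv
    rw [Finset.sum_eq_single (i, 0)]
    · rw [ag_ev_zero]; simp [cc]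
    · rintro ⟨p, q⟩ hp hne
      rw [HasAntidiagonal.mem_antidiagonal] at hp
      rw [ag_ev_zero, if_neg, mul_zero]
      intro hq
      apply hne
      simp only at hq hp
      subst hq
      simp only [add_zero] at hp
      rw [hp]
    · intro hni
      exact absurd (HasAntidiagonal.mem_antidiagonal.2 (add_zero i)) hni
  | succ N ih =>
    intro i
    have hx : th - ((N + 1 : ℕ) : ℝ) = (th - N) - 1 := by push_cast; ring
    rw [hx]
    cases i with
    | zero => simp [Yv, ev, poc, cc]
    | succ i =>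
      have hY : Yv th (ev (N + 1)) (i + 1) = Yv th (ev N) (i + 1) - Yv th (ev N) i := by
        unfold Yv
        rw [Finset.Nat.sum_antidiagonal_succ', Finset.Nat.sum_antidiagonal_succ']
        simp only [ag_ev_succ, ag_ev_at_zero, mul_sub, Finset.sum_sub_distrib]
        ring
      rw [hY, ih (i + 1), ih i, ← Complex.ofReal_sub]
      congr 1
      have h1 : poc (th - N - 1) (i + 1) = (th - N - 1) * poc (th - N) i := by
        rw [ag_poc_shift, sub_add_cancel]
      rw [h1, ag_poc_succ, Nat.factorial_succ]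
      have h2 : (i.factorial : ℝ) ≠ 0 := by exact_mod_cast i.factorial_ne_zero
      have h4 : ((i : ℝ) + 1) ≠ 0 := by positivity
      push_cast
      field_simp
      ring

theorem qn_eq {th B : ℝ} (h0 : 0 < th) (h1 : th < 1 / 2) (hB : 0 < B) (N : ℕ) :
    qN th B N = ((N : ℝ) - th) / (2 * th + B) * S21 (1 + th - N) (th - N) (2 * th + B + 1) ∧
      Qf th B N (ev N) (ev N) = ((qN th B N : ℝ) : ℂ) := by
  have hc0 : 0 < 2 * th + B := by linarith
  have hQ : Qf th B N (ev N) (ev N)
      = ((((N : ℝ) - th) / (2 * th + B) * S21 (1 + th - N) (th - N) (2 * th + B + 1) : ℝ) : ℂ) := by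
    unfold Qf S21
    rw [← tsum_mul_left, Complex.ofReal_tsum]
    refine tsum_congr fun i => ?_
    rw [ag_yv_ev, Complex.conj_ofReal, ← Complex.ofReal_mul, ← Complex.ofReal_mul]
    congr 1
    unfold bw
    have e1 : 2 * th - 1 + B + 1 = 2 * th + B := by ring
    rw [e1, ag_poc_shift (2 * th + B) i]
    have h2 : (i.factorial : ℝ) ≠ 0 := by exact_mod_cast i.factorial_ne_zero
    have h3 : poc (2 * th + B + 1) i ≠ 0 := (poc_pos (by linarith) i).ne'
    have h4 : ((N : ℝ) - i - th) * poc (th - N) i = ((N : ℝ) - th) * poc (1 + th - N) i := by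
      have h5 : poc (th - N) (i + 1) = (th - N) * poc (th - N + 1) i := ag_poc_shift _ _
      rw [ag_poc_succ] at h5
      have h6 : th - (N : ℝ) + 1 = 1 + th - N := by ring
      rw [h6] at h5
      linarith
    have h7 : (2 * th + B) ≠ 0 := hc0.ne'
    generalize poc (th - N) i = X at h4 ⊢
    generalize poc (1 + th - N) i = Y at h4 ⊢
    generalize poc (2 * th + B + 1) i = P at h3 ⊢
    field_simp
    linear_combination X * h4
  refine ⟨?_, ?_⟩
  · unfold qN
    rw [hQ, Complex.ofReal_re]
  · unfold qN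
    rw [hQ, Complex.ofReal_re]

theorem qn_pos {th B : ℝ} (h0 : 0 < th) (h1 : th < 1 / 2) (hB : 0 < B) {N : ℕ} (hN : 1 ≤ N) :
    0 < qN th B N := by
  have hN' : (1 : ℝ) ≤ N := by exact_mod_cast hN
  rw [(qn_eq h0 h1 hB N).1]
  refine mul_pos (div_pos (by linarith) (by linarith)) ?_
  exact gauss_pos (by linarith) (by linarith) (by linarith) (by linarith)

theorem qn_zero {th B : ℝ} (h0 : 0 < th) (h1 : th < 1 / 2) (hB : 0 < B) : qN th B 0 < 0 := by
  rw [(qn_eq h0 h1 hB 0).1]
  refine mul_neg_of_neg_of_pos (div_neg_of_neg_of_pos ?_ (by linarith)) ?_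
  · push_cast; linarith
  · exact gauss_pos (by linarith) (by push_cast; linarith) (by push_cast; linarith)
      (by push_cast; linarith)

end Pool.Agent.Helper21.KP
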