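import Pool.Agent.Helper21.KP.Defs

/-!
# KP-A3: raising and lowering operators

`comm`: `L₋ L₊ - L₊ L₋ = 2 m + 1 + B` in degree `m` (direct computation; for `m = 0` the second term vanishes).
`lm_ev`: `(w - z)^N` is killed by `L₋`.  `lm_em`: induction on `M` with `comm`.
`solve`: triangular system: for `x` of degree `m + 1` the equations `(L₊ y)_a = x_a`, `a = 0, ..., m`, determine
`y_0, ..., y_m` (the coefficients `m - a - th` are not `0`).
-/

set_option autoImplicit false

namespace Pool.Agent.Helper21.KP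

open Complex Metric Set Real Finset

private theorem aLow_choose (a j : ℕ) :
    ((j : ℂ) + 1) * (a.choose (j + 1) : ℂ) = ((a : ℂ) - j) * (a.choose j : ℂ) := by
  rcases le_or_gt j a with h | h
  · have h1 := Nat.choose_succ_right_eq a j
    have h2 : ((a.choose (j + 1) * (j + 1) : ℕ) : ℂ) = ((a.choose j * (a - j) : ℕ) : ℂ) := by
      rw [h1]
    rw [Nat.cast_mul, Nat.cast_mul, Nat.cast_sub h] at h2
    push_cast at h2
    linear_combination h2
  · rw [Nat.choose_eq_zero_of_lt h, Nat.choose_eq_zero_of_lt (by omega)]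
    simp

private theorem aLow_lp_zero (th B : ℝ) (m : ℕ) (x : ℕ → ℂ) :
    Lp th B m x 0 = ((m : ℂ) - th) * x 0 := by
  simp [Lp]

private theorem aLow_lp_succ (th B : ℝ) (m : ℕ) (x : ℕ → ℂ) (a : ℕ) :
    Lp th B m x (a + 1) = ((a : ℂ) + 1 + th + B) * x a + ((m : ℂ) - (a + 1) - th) * x (a + 1) := by
  simp [Lp]

theorem sup_lp {th B : ℝ} {m : ℕ} {x : ℕ → ℂ} (hx : Sup m x) : Sup (m + 1) (Lp th B m x) := by
  intro a ha
  have h1 : x (a - 1) = 0 := hx _ (by omega)
  have h2 : x a = 0 := hx _ (by omega)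
  simp [Lp, h1, h2]

theorem sup_lm {m : ℕ} {x : ℕ → ℂ} (hx : Sup (m + 1) x) : Sup m (Lm (m + 1) x) := by
  intro a ha
  have h1 : x (a + 1) = 0 := hx _ (by omega)
  rcases Nat.lt_or_ge (m + 1) a with h | h
  · have h2 : x a = 0 := hx _ h
    simp [Lm, h1, h2]
  · have h3 : a = m + 1 := by omega
    subst h3
    simp [Lm, h1]

private theorem aLow_sup_ev (N : ℕ) : Sup N (ev N) := by
  intro a ha
  simp [ev, Nat.choose_eq_zero_of_lt ha]

theorem sup_em (th B : ℝ) (N M : ℕ) : Sup (N + M) (eM th B N M) := by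
  induction M with
  | zero => exact aLow_sup_ev N
  | succ M ih => exact sup_lp ih

/-- commutation relation -/
theorem comm (th B : ℝ) (m : ℕ) (x : ℕ → ℂ) (a : ℕ) :
    Lm (m + 2) (Lp th B (m + 1) x) a - Lp th B m (Lm (m + 1) x) a =
      (((2 * (m + 1 : ℝ) + 1 + B : ℝ)) : ℂ) * x a := by
  cases a with
  | zero =>
    rw [aLow_lp_zero, Lm, aLow_lp_zero, aLow_lp_succ, Lm]
    push_cast
    ring
  | succ a =>
    rw [aLow_lp_succ, Lm, aLow_lp_succ, aLow_lp_succ, Lm, Lm]
    push_cast
    ring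

theorem comm0 (th B : ℝ) {x : ℕ → ℂ} (hx : Sup 0 x) (a : ℕ) :
    Lm 1 (Lp th B 0 x) a = ((1 + B : ℝ) : ℂ) * x a := by
  cases a with
  | zero =>
    rw [Lm, aLow_lp_zero, aLow_lp_succ, hx (0 + 1) (by omega)]
    push_cast
    ring
  | succ a =>
    rw [Lm, aLow_lp_succ, aLow_lp_succ, hx (a + 1) (by omega), hx (a + 1 + 1) (by omega)]
    cases a with
    | zero => simp
    | succ a =>
      rw [hx (a + 1) (by omega)]
      simp

theorem lm_ev (N a : ℕ) : Lm (N + 1) (ev (N + 1)) a = 0 := by
  have h := aLow_choose (N + 1) a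
  rw [Lm, ev, ev]
  push_cast at h ⊢
  rw [pow_succ]
  linear_combination (-(-1 : ℂ) ^ a) * h

theorem lm_em (th B : ℝ) (N M a : ℕ) :
    Lm (N + M + 1) (eM th B N (M + 1)) a =
      ((((M : ℝ) + 1) * (2 * N + 1 + B + M) : ℝ) : ℂ) * eM th B N M a := by
  induction M generalizing a with
  | zero =>
    cases N with
    | zero =>
      have h := comm0 th B (aLow_sup_ev 0) a
      change Lm 1 (Lp th B 0 (ev 0)) a = _ * ev 0 a
      rw [h]
      push_cast
      ring
    | succ N =>
      have h := comm th B N (ev (N + 1)) a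
      have h0 : Lm (N + 1) (ev (N + 1)) = fun _ => 0 := funext (lm_ev N)
      have h1 : Lp th B N (fun _ => 0) a = 0 := by simp [Lp]
      rw [h0, h1, sub_zero] at h
      change Lm (N + 2) (Lp th B (N + 1) (ev (N + 1))) a = _ * ev (N + 1) a
      rw [h]
      push_cast
      ring
  | succ M ih =>
    have h := comm th B (N + M) (eM th B N (M + 1)) a
    have h0 : Lm (N + M + 1) (eM th B N (M + 1)) =
        fun a => ((((M : ℝ) + 1) * (2 * N + 1 + B + M) : ℝ) : ℂ) * eM th B N M a := funext ih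
    have h1 : ∀ (c : ℂ) (y : ℕ → ℂ), Lp th B (N + M) (fun a => c * y a) a =
        c * Lp th B (N + M) y a := by
      intro c y
      unfold Lp
      split_ifs <;> ring
    rw [h0, h1, sub_eq_iff_eq_add] at h
    change Lm (N + M + 2) (Lp th B (N + M + 1) (eM th B N (M + 1))) a = _
    rw [h]
    change _ + _ * eM th B N (M + 1) a = _
    push_cast
    ring

/-- the equations `(L₊ y)_a = x_a`, `a ≤ m`, can be solved -/
theorem solve {th : ℝ} (h0 : 0 < th) (h1 : th < 1 / 2) (B : ℝ) (m : ℕ) (x : ℕ → ℂ) :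
    ∃ y : ℕ → ℂ, Sup m y ∧ ∀ a ≤ m, x a = Lp th B m y a := by
  have hne : ∀ a : ℕ, ((m : ℂ) - a - th) ≠ 0 := by
    intro a ha
    have h2 : ((m : ℝ) - a - th : ℝ) = 0 := by exact_mod_cast ha
    have h3 : ((m : ℤ) - a : ℝ) = th := by push_cast; linarith
    have h4 : (0 : ℝ) < (((m : ℤ) - a : ℤ) : ℝ) := by push_cast at h3 ⊢; linarith
    have h5 : (((m : ℤ) - a : ℤ) : ℝ) < 1 := by push_cast at h3 ⊢; linarith
    have h6 : (0 : ℤ) < (m : ℤ) - a := by exact_mod_cast h4
    have h7 : (m : ℤ) - a < 1 := by exact_mod_cast h5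
    omega
  let y : ℕ → ℂ := fun a => Nat.rec (x 0 / ((m : ℂ) - th))
    (fun a z => (x (a + 1) - ((a : ℂ) + 1 + th + B) * z) / ((m : ℂ) - (a + 1) - th)) a
  have y0 : y 0 = x 0 / ((m : ℂ) - th) := rfl
  have ys : ∀ a, y (a + 1) = (x (a + 1) - ((a : ℂ) + 1 + th + B) * y a) /
      ((m : ℂ) - (a + 1) - th) := fun a => rfl
  refine ⟨fun a => if a ≤ m then y a else 0, ?_, ?_⟩
  · intro a ha
    simp [not_le.2 ha]
  · intro a ha
    cases a with
    | zero =>
      rw [aLow_lp_zero]
      simp only [Nat.zero_le, if_true]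
      rw [y0]
      have := hne 0
      push_cast at this
      rw [sub_zero] at this
      field_simp
    | succ a =>
      rw [aLow_lp_succ]
      have h2 : a ≤ m := by omega
      simp only [ha, h2, if_true]
      rw [ys]
      have := hne (a + 1)
      push_cast at this
      field_simp
      ring

/-- iterated lowering operator -/
def Li (m : ℕ) (x : ℕ → ℂ) : ℕ → ℕ → ℂ
  | 0 => x
  | k + 1 => Lm (m - k) (Li m x k)

private theorem aLow_li (m : ℕ) (x : ℕ → ℂ) (k : ℕ) (hk : k ≤ m) (j : ℕ) (hj : j ≤ m - k) :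
    Li m x k j = (k.factorial : ℂ) *
      ∑ a ∈ range (m + 1), (a.choose j : ℂ) * ((m - a).choose (m - k - j) : ℂ) * x a := by
  induction k generalizing j with
  | zero =>
    rw [Finset.sum_eq_single j]
    · simp [Li]
    · intro a ha haj
      rcases lt_or_gt_of_ne haj with h | h
      · rw [Nat.choose_eq_zero_of_lt h]
        simp
      · have hm : a < m + 1 := Finset.mem_range.1 ha
        rw [Nat.choose_eq_zero_of_lt (show m - a < m - 0 - j by omega)]
        simp
    · intro h
      exact absurd (Finset.mem_range.2 (by omega)) h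
  | succ k ih =>
    rw [Li, Lm, ih (by omega) (j + 1) (by omega), ih (by omega) j (by omega)]
    rw [Nat.factorial_succ, Nat.cast_mul]
    have key : ∀ a ∈ range (m + 1), ((j : ℂ) + 1) * ((a.choose (j + 1) : ℂ) *
        ((m - a).choose (m - k - (j + 1)) : ℂ) * x a) + (((m - k : ℕ) : ℂ) - j) *
        ((a.choose j : ℂ) * ((m - a).choose (m - k - j) : ℂ) * x a) = ((k : ℂ) + 1) *
        ((a.choose j : ℂ) * ((m - a).choose (m - (k + 1) - j) : ℂ) * x a) := by
      intro a ha
      have hm : a < m + 1 := Finset.mem_range.1 ha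
      obtain ⟨t, ht⟩ : ∃ t, m = k + (j + t + 1) := ⟨m - k - j - 1, by omega⟩
      have e1 : m - k - (j + 1) = t := by omega
      have e2 : m - k - j = t + 1 := by omega
      have e3 : m - (k + 1) - j = t := by omega
      have e4 : ((m - k : ℕ) : ℂ) = j + t + 1 := by
        rw [show m - k = j + t + 1 by omega]
        push_cast
        ring
      rw [e1, e2, e3, e4]
      have c1 := aLow_choose a j
      have c2 := aLow_choose (m - a) t
      rw [Nat.cast_sub (by omega : a ≤ m)] at c2
      have hmc : (m : ℂ) = k + (j + t + 1) := by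
        rw [ht]
        push_cast
        ring
      rw [hmc] at c2
      linear_combination ((m - a).choose t : ℂ) * x a * c1 + (a.choose j : ℂ) * x a * c2
    have h2 := Finset.sum_congr rfl key
    rw [Finset.sum_add_distrib, ← Finset.mul_sum, ← Finset.mul_sum, ← Finset.mul_sum] at h2
    push_cast
    linear_combination (k.factorial : ℂ) * h2

/-- formula for the iterated lowering operator -/
theorem li_eq {N M : ℕ} {x : ℕ → ℂ} (hx : Sup (N + M) x) {j : ℕ} (hj : j ≤ N) :
    Li (N + M) x M j = (M.factorial : ℂ) *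
      ∑ a ∈ range (N + M + 1), (a.choose j : ℂ) * ((N + M - a).choose (N - j) : ℂ) * x a := by
  have h := aLow_li (N + M) x M (by omega) j (by omega)
  rw [show N + M - M - j = N - j by omega] at h
  exact h

end Pool.Agent.Helper21.KP
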