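import Pool.Agent.Helper21.KP.AGauss

/-!
# KP-A6: numerical bounds for the weights at `th = 1/10`, `B = 1/24`

`c = 2 th + B + 1 = 149/120`.  Use `gauss_rec` `n = 20` (or more) times: `S a b c = (rational product) *
S a b (c+n)`; the last factor: for `N = 0` (`a = 11/10`, `b = 1/10`) all terms are positive, upper bound by the
first 6 terms and a geometric tail (the ratio of the terms is at most `(a+i)(b+i)/((i+1)(c+n+i)) ≤ 1/3` or any
bound from monotonicity); for `N = 1, 2, 3` the terms with `i ≥ N` have one sign (negative) and small size.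
True values: `wN 0 = -0.0594250152...`, `wN 1 = 6.48128152...`, `wN 2 = 1.93560845...`,
`wN 3 = 0.134270698...`.
-/

set_option autoImplicit false

namespace Pool.Agent.Helper21.KP

open Complex Metric Set Real Finset

private noncomputable def AN_T (a b c : ℝ) (i : ℕ) : ℝ :=
  poc a i * poc b i / (i.factorial * poc c i)

private theorem AN_poc_pos {c : ℝ} (hc : 0 < c) (n : ℕ) : 0 < poc c n := by
  induction n with
  | zero => simp [poc]
  | succ n ih =>
    rw [poc]
    have : (0 : ℝ) ≤ n := Nat.cast_nonneg n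
    exact mul_pos ih (by linarith)

private theorem AN_rec {a b c : ℝ} (hc : 0 < c) (i : ℕ) :
    AN_T a b c (i + 1) * (((i : ℝ) + 1) * (c + i)) = AN_T a b c i * ((a + i) * (b + i)) := by
  have h1 := (AN_poc_pos hc i).ne'
  have h2 : (i.factorial : ℝ) ≠ 0 := by exact_mod_cast i.factorial_ne_zero
  have h3 : (0 : ℝ) ≤ i := Nat.cast_nonneg i
  have h4 : (i : ℝ) + 1 ≠ 0 := by positivity
  have h5 : c + i ≠ 0 := by positivity
  rw [AN_T, AN_T, Nat.factorial_succ]
  simp only [poc]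
  push_cast
  field_simp

private theorem AN_n {a b c : ℝ} (hc : 0 < c) (h : 0 < c - a - b) (n : ℕ) :
    S21 a b c = (∏ i ∈ range n, ((c + i - a) * (c + i - b) / ((c + i) * (c + i - a - b)))) *
      S21 a b (c + n) := by
  induction n with
  | zero => simp
  | succ n ih =>
    have h3 : (0 : ℝ) ≤ n := Nat.cast_nonneg n
    have h4 := gauss_rec (a := a) (b := b) (c := c + n) (by linarith) (by linarith)
    rw [prod_range_succ, ih, h4]
    push_cast
    rw [add_assoc c]
    ring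

private theorem AN_tail {a b c : ℝ} (hc : 0 < c) (h : 0 ≤ c - 1 - a - b) {I : ℕ} (hI : 1 ≤ I)
    (ha : 0 ≤ a + I) (hb : 0 ≤ b + I) (hK : 0 < I * (c - 1 - a - b) - a * b) (s : ℝ)
    (hs : 0 ≤ s * AN_T a b c I) :
    s * S21 a b c ≤ s * (∑ i ∈ range I, AN_T a b c i +
      I * (c + I - 1) * AN_T a b c I / (I * (c - 1 - a - b) - a * b)) := by
  obtain ⟨K, hKd⟩ : ∃ K, K = I * (c - 1 - a - b) - a * b := ⟨_, rfl⟩
  rw [← hKd] at hK ⊢
  have hI1 : (1 : ℝ) ≤ I := by exact_mod_cast hI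
  have hsum : Summable (AN_T a b c) := s21_summable hc (by linarith)
  have hnn : ∀ m : ℕ, 0 ≤ s * AN_T a b c (m + I) := by
    intro m
    induction m with
    | zero => simpa using hs
    | succ m ih =>
      have h3 : (0 : ℝ) ≤ m := Nat.cast_nonneg m
      have h1 := AN_rec (a := a) (b := b) hc (m + I)
      have h2 : (0 : ℝ) < (((m + I : ℕ) : ℝ) + 1) * (c + ((m + I : ℕ) : ℝ)) := by
        push_cast; positivity
      have h4 : AN_T a b c (m + I + 1) = AN_T a b c (m + I) *
          ((a + ((m + I : ℕ) : ℝ)) * (b + ((m + I : ℕ) : ℝ))) /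
          ((((m + I : ℕ) : ℝ) + 1) * (c + ((m + I : ℕ) : ℝ))) := by
        rw [← h1]; field_simp
      have h5 : (m + 1 + I) = m + I + 1 := by ring
      rw [h5, h4]
      have h6 : 0 ≤ a + ((m + I : ℕ) : ℝ) := by push_cast; linarith
      have h7 : 0 ≤ b + ((m + I : ℕ) : ℝ) := by push_cast; linarith
      have h8 : s * (AN_T a b c (m + I) *
          ((a + ((m + I : ℕ) : ℝ)) * (b + ((m + I : ℕ) : ℝ))) /
          ((((m + I : ℕ) : ℝ) + 1) * (c + ((m + I : ℕ) : ℝ)))) =
          (s * AN_T a b c (m + I)) * ((a + ((m + I : ℕ) : ℝ)) * (b + ((m + I : ℕ) : ℝ))) /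
          ((((m + I : ℕ) : ℝ) + 1) * (c + ((m + I : ℕ) : ℝ))) := by ring
      rw [h8]
      exact div_nonneg (mul_nonneg ih (mul_nonneg h6 h7)) h2.le
  obtain ⟨D, hD⟩ : ∃ D : ℕ → ℝ, D = fun m : ℕ => ((m : ℝ) + I) * (c + ((m : ℝ) + I) - 1) *
      AN_T a b c (m + I) := ⟨_, rfl⟩
  have hDn : ∀ m, 0 ≤ s * D m := by
    intro m
    have h3 : (0 : ℝ) ≤ m := Nat.cast_nonneg m
    have h4 : s * D m = ((m : ℝ) + I) * (c + ((m : ℝ) + I) - 1) * (s * AN_T a b c (m + I)) := by
      rw [hD]; ring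
    rw [h4]
    have : 0 ≤ c + ((m : ℝ) + I) - 1 := by linarith
    exact mul_nonneg (mul_nonneg (by positivity) this) (hnn m)
  have hDr : ∀ m, s * D (m + 1) = s * D m - (s * AN_T a b c (m + I)) *
      (((m : ℝ) + I) * (c - 1 - a - b) - a * b) := by
    intro m
    have h1 := AN_rec (a := a) (b := b) hc (m + I)
    have h5 : (m + 1 + I) = m + I + 1 := by ring
    rw [hD]
    simp only
    rw [h5]
    push_cast at h1 ⊢
    linear_combination s * h1
  have hind : ∀ m : ℕ, ∑ i ∈ range m, s * AN_T a b c (i + I) ≤ s * D 0 / K - s * D m / K := by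
    intro m
    induction m with
    | zero => simp
    | succ m ih =>
      rw [sum_range_succ]
      have h3 : (0 : ℝ) ≤ m := Nat.cast_nonneg m
      have h6 : s * AN_T a b c (m + I) ≤ s * D m / K - s * D (m + 1) / K := by
        rw [← sub_div, le_div_iff₀ hK, hDr m]
        have h7 : K ≤ ((m : ℝ) + I) * (c - 1 - a - b) - a * b := by
          rw [hKd]
          nlinarith [mul_nonneg h3 h]
        have := mul_le_mul_of_nonneg_left h7 (hnn m)
        linarith
      linarith
  have htail : ∑' i, s * AN_T a b c (i + I) ≤ s * D 0 / K := by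
    apply Real.tsum_le_of_sum_range_le hnn
    intro m
    have h8 : 0 ≤ s * D m / K := div_nonneg (hDn m) hK.le
    linarith [hind m]
  have hS : S21 a b c = ∑ i ∈ range I, AN_T a b c i + ∑' i, AN_T a b c (i + I) := by
    rw [hsum.sum_add_tsum_nat_add I]
    rfl
  rw [tsum_mul_left] at htail
  rw [hS, mul_add, mul_add]
  have h9 : s * D 0 / K = s * (I * (c + I - 1) * AN_T a b c I / K) := by
    rw [hD]
    simp only [Nat.cast_zero, zero_add]
    ring
  rw [h9] at htail
  linarith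

theorem w0_bound : -(59426 / 10 ^ 6) ≤ wN (1 / 10) (1 / 24) 0 := by
  have h1 := (qn_eq (th := 1 / 10) (B := 1 / 24) (by norm_num) (by norm_num) (by norm_num) 0).1
  rw [wN, h1, AN_n (by norm_num) (by norm_num) 6]
  have h2 := AN_tail (a := 1 + 1 / 10 - ((0 : ℕ) : ℝ)) (b := 1 / 10 - ((0 : ℕ) : ℝ))
    (c := 2 * (1 / 10) + 1 / 24 + 1 + ((6 : ℕ) : ℝ)) (I := 6) (by norm_num) (by norm_num)
    (by norm_num) (by norm_num) (by norm_num) (by norm_num) 1
    (by simp [AN_T, poc, Nat.factorial]; norm_num)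
  simp [sum_range_succ, prod_range_succ, AN_T, poc, Nat.factorial] at h2 ⊢
  norm_num at h2 ⊢
  linarith

theorem w1_bound : 648126 / 10 ^ 5 ≤ wN (1 / 10) (1 / 24) 1 := by
  have h1 := (qn_eq (th := 1 / 10) (B := 1 / 24) (by norm_num) (by norm_num) (by norm_num) 1).1
  rw [wN, h1, AN_n (by norm_num) (by norm_num) 4]
  have h2 := AN_tail (a := 1 + 1 / 10 - ((1 : ℕ) : ℝ)) (b := 1 / 10 - ((1 : ℕ) : ℝ))
    (c := 2 * (1 / 10) + 1 / 24 + 1 + ((4 : ℕ) : ℝ)) (I := 4) (by norm_num) (by norm_num)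
    (by norm_num) (by norm_num) (by norm_num) (by norm_num) (-1)
    (by simp [AN_T, poc, Nat.factorial]; norm_num)
  simp [sum_range_succ, prod_range_succ, AN_T, poc, Nat.factorial] at h2 ⊢
  norm_num at h2 ⊢
  linarith

theorem w2_bound : 193559 / 10 ^ 5 ≤ wN (1 / 10) (1 / 24) 2 := by
  have h1 := (qn_eq (th := 1 / 10) (B := 1 / 24) (by norm_num) (by norm_num) (by norm_num) 2).1
  rw [wN, h1, AN_n (by norm_num) (by norm_num) 4]
  have h2 := AN_tail (a := 1 + 1 / 10 - ((2 : ℕ) : ℝ)) (b := 1 / 10 - ((2 : ℕ) : ℝ))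
    (c := 2 * (1 / 10) + 1 / 24 + 1 + ((4 : ℕ) : ℝ)) (I := 4) (by norm_num) (by norm_num)
    (by norm_num) (by norm_num) (by norm_num) (by norm_num) (-1)
    (by simp [AN_T, poc, Nat.factorial]; norm_num)
  simp [sum_range_succ, prod_range_succ, AN_T, poc, Nat.factorial] at h2 ⊢
  norm_num at h2 ⊢
  linarith

theorem w3_bound : 13427 / 10 ^ 5 ≤ wN (1 / 10) (1 / 24) 3 := by
  have h1 := (qn_eq (th := 1 / 10) (B := 1 / 24) (by norm_num) (by norm_num) (by norm_num) 3).1
  rw [wN, h1, AN_n (by norm_num) (by norm_num) 4]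
  have h2 := AN_tail (a := 1 + 1 / 10 - ((3 : ℕ) : ℝ)) (b := 1 / 10 - ((3 : ℕ) : ℝ))
    (c := 2 * (1 / 10) + 1 / 24 + 1 + ((4 : ℕ) : ℝ)) (I := 4) (by norm_num) (by norm_num)
    (by norm_num) (by norm_num) (by norm_num) (by norm_num) (-1)
    (by simp [AN_T, poc, Nat.factorial]; norm_num)
  simp [sum_range_succ, prod_range_succ, AN_T, poc, Nat.factorial] at h2 ⊢
  norm_num at h2 ⊢
  linarith

end Pool.Agent.Helper21.KP
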