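import Pool.Agent.Helper21.KP.AForm
import Pool.Agent.Helper21.KP.ALow

/-!
# KP-A4: orthogonality of the vectors `eM`

`adj_iter`: `Q_{m+k} (L₊^k x, y) = Q_m (x, L₋^k y)`, induction with `adj`.
`em_orth`: let `N < N'`, `N + M = N' + M'`; by `adj` (moving the raising operators of `eM N M` one by one to the
other side, `lm_em`) the form is a multiple of `Q (eM N (M - M'), L₋^...)`; after `M'` steps one gets a multiple
of `Q_{N'} (eM N (N' - N), ev N')`, one more step gives `L₋ (ev N') = 0` (`lm_ev`).  `em_norm`: the same.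
-/

set_option autoImplicit false

namespace Pool.Agent.Helper21.KP

open Complex Metric Set Real Finset

private lemma AOrth_yv_smul (th : ℝ) (c : ℂ) (x : ℕ → ℂ) (i : ℕ) :
    Yv th (fun a => c * x a) i = c * Yv th x i := by
  unfold Yv
  rw [Finset.mul_sum]
  exact Finset.sum_congr rfl fun p _ => by ring

private lemma AOrth_smul_left (th B : ℝ) (m : ℕ) (c : ℂ) (x y : ℕ → ℂ) :
    Qf th B m (fun a => c * x a) y = c * Qf th B m x y := by
  unfold Qf
  rw [← tsum_mul_left]
  congr 1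
  funext i
  rw [AOrth_yv_smul]
  ring

private lemma AOrth_smul_right (th B : ℝ) (m : ℕ) (c : ℂ) (x y : ℕ → ℂ) :
    Qf th B m x (fun a => c * y a) = (starRingEnd ℂ) c * Qf th B m x y := by
  rw [qf_symm th B m (fun a => c * y a) x, AOrth_smul_left, map_mul, ← qf_symm]

private lemma AOrth_zero_right (th B : ℝ) (m : ℕ) (x y : ℕ → ℂ) (hy : ∀ a, y a = 0) :
    Qf th B m x y = 0 := by
  have h : y = fun a => (0 : ℂ) * y a := by
    funext a
    rw [hy a, mul_zero]
  rw [h, AOrth_smul_right, map_zero, zero_mul]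

/-- the adjoint relation for the second argument -/
private lemma AOrth_adj {th B : ℝ} (h0 : 0 < th) (h1 : th < 1 / 2) (hB : 0 < B) {m : ℕ}
    {x y : ℕ → ℂ} (hx : Sup m x) (hy : Sup (m + 1) y) :
    Qf th B (m + 1) y (Lp th B m x) = Qf th B m (Lm (m + 1) y) x := by
  rw [qf_symm th B (m + 1) (Lp th B m x) y, adj h0 h1 hB hx hy, ← qf_symm]

private lemma AOrth_li_succ (m : ℕ) (x : ℕ → ℂ) (k : ℕ) :
    Li m (Lm (m + 1) x) k = Li (m + 1) x (k + 1) := by
  induction k with
  | zero => rfl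
  | succ k ih =>
    change Lm (m - k) (Li m (Lm (m + 1) x) k) = Lm (m + 1 - (k + 1)) (Li (m + 1) x (k + 1))
    rw [ih, Nat.add_sub_add_right]

private lemma AOrth_pair {th B : ℝ} (h0 : 0 < th) (h1 : th < 1 / 2) (hB : 0 < B) (N M : ℕ) :
    ∀ x : ℕ → ℂ, Sup (N + M) x →
      Qf th B (N + M) x (eM th B N M) = Qf th B N (Li (N + M) x M) (ev N) := by
  induction M with
  | zero => intro x _; rfl
  | succ M ih =>
    intro x hx
    change Qf th B (N + M + 1) x (Lp th B (N + M) (eM th B N M)) = _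
    rw [AOrth_adj h0 h1 hB (sup_em th B N M) hx, ih _ (sup_lm hx), AOrth_li_succ]
    rfl

private lemma AOrth_li_em (th B : ℝ) (N M : ℕ) (k : ℕ) (hk : k ≤ M) :
    ∃ c : ℂ, Li (N + M) (eM th B N M) k = fun a => c * eM th B N (M - k) a := by
  induction k with
  | zero =>
    refine ⟨1, ?_⟩
    funext a
    rw [one_mul]
    rfl
  | succ k ih =>
    obtain ⟨c, hc⟩ := ih (by omega)
    obtain ⟨j, hj⟩ : ∃ j, M - k = j + 1 := ⟨M - k - 1, by omega⟩
    have e1 : N + M - k = N + j + 1 := by omega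
    have e2 : M - (k + 1) = j := by omega
    refine ⟨c * ((((j : ℝ) + 1) * (2 * N + 1 + B + j) : ℝ) : ℂ), ?_⟩
    funext a
    change Lm (N + M - k) (Li (N + M) (eM th B N M) k) a = _
    rw [hc, hj, e1, e2, mul_assoc, ← lm_em th B N j a]
    unfold Lm
    ring

private lemma AOrth_lt {th B : ℝ} (h0 : 0 < th) (h1 : th < 1 / 2) (hB : 0 < B) {N M N' M' : ℕ}
    (h : N + M = N' + M') (hlt : N < N') :
    Qf th B (N + M) (eM th B N M) (eM th B N' M') = 0 := by
  have hsup : Sup (N' + M') (eM th B N M) := h ▸ sup_em th B N M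
  have e1 : Qf th B (N + M) (eM th B N M) (eM th B N' M') =
      Qf th B (N' + M') (eM th B N M) (eM th B N' M') := by rw [h]
  rw [e1, AOrth_pair h0 h1 hB N' M' _ hsup, ← h]
  obtain ⟨c, hc⟩ := AOrth_li_em th B N M M' (by omega)
  obtain ⟨j, hj⟩ : ∃ j, N' = N + j + 1 := ⟨N' - N - 1, by omega⟩
  have e2 : M - M' = j + 1 := by omega
  subst hj
  rw [hc, AOrth_smul_left, e2]
  change c * Qf th B (N + j + 1) (Lp th B (N + j) (eM th B N j)) (ev (N + j + 1)) = 0
  have hev : Sup (N + j + 1) (ev (N + j + 1)) := by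
    have := sup_em th B (N + j + 1) 0
    exact this
  rw [adj h0 h1 hB (sup_em th B N j) hev, AOrth_zero_right _ _ _ _ _ (lm_ev (N + j)), mul_zero]

theorem em_orth {th B : ℝ} (h0 : 0 < th) (h1 : th < 1 / 2) (hB : 0 < B) {N M N' M' : ℕ}
    (h : N + M = N' + M') (hne : N ≠ N') :
    Qf th B (N + M) (eM th B N M) (eM th B N' M') = 0 := by
  rcases lt_or_gt_of_ne hne with hlt | hlt
  · exact AOrth_lt h0 h1 hB h hlt
  · rw [qf_symm th B (N + M) (eM th B N' M') (eM th B N M)]
    have := AOrth_lt h0 h1 hB h.symm hlt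
    rw [← h] at this
    rw [this, map_zero]

theorem em_norm {th B : ℝ} (h0 : 0 < th) (h1 : th < 1 / 2) (hB : 0 < B) (N M : ℕ) :
    Qf th B (N + M) (eM th B N M) (eM th B N M) =
      ((M.factorial * poc (2 * N + 1 + B) M * qN th B N : ℝ) : ℂ) := by
  induction M with
  | zero =>
    change Qf th B N (ev N) (ev N) = _
    have h2 := qf_symm th B N (ev N) (ev N)
    have h3 := Complex.conj_eq_iff_real.1 h2.symm
    obtain ⟨r, hr⟩ := h3
    unfold qN poc
    rw [hr]
    simp
  | succ M ih =>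
    have e1 : Qf th B (N + (M + 1)) (eM th B N (M + 1)) (eM th B N (M + 1)) =
        Qf th B (N + M) (eM th B N M) (Lm (N + M + 1) (eM th B N (M + 1))) :=
      adj h0 h1 hB (sup_em th B N M) (sup_em th B N (M + 1))
    have e2 : Lm (N + M + 1) (eM th B N (M + 1)) = fun a =>
        ((((M : ℝ) + 1) * (2 * N + 1 + B + M) : ℝ) : ℂ) * eM th B N M a := by
      funext a
      exact lm_em th B N M a
    rw [e1, e2, AOrth_smul_right, ih, Complex.conj_ofReal, ← Complex.ofReal_mul]
    congr 1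
    rw [Nat.factorial_succ]
    change _ = _ * (poc (2 * N + 1 + B) M * (2 * N + 1 + B + M)) * _
    push_cast
    ring

/-- pairing with `eM N M` in terms of the iterated lowering operator -/
theorem em_pair {th B : ℝ} (h0 : 0 < th) (h1 : th < 1 / 2) (hB : 0 < B) (N M : ℕ) {x : ℕ → ℂ}
    (hx : Sup (N + M) x) :
    Qf th B (N + M) x (eM th B N M) = Qf th B N (Li (N + M) x M) (ev N) :=
  AOrth_pair h0 h1 hB N M x hx

end Pool.Agent.Helper21.KP
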