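import Pool.Agent.Helper21.KP.AOrth
import Pool.Agent.Helper21.KP.AGauss

/-!
# KP-A7: the functionals of degree at most 3

`tau_lp`, `tau_ev`: `N = 0, 1, 2, 3` by direct computation (`fin_cases`/`interval_cases`, `poc`, `Finset.sum_range_succ`,
`ring`).  `expand`: every `y` of degree `N` is `c ev N + L₊ y'` (`solve` for `y` and for `ev N`; the coefficient
of `z^N` of `ev N - L₊ y₁` is not `0`, otherwise `ev N = L₊ y₁` and `Q (ev N, ev N) = Q (ev N, L₊ y₁) =
Q (L₋ ev N, y₁) = 0` contradicts `qn_pos`).  `pair_tau`: `Q (c ev N + L₊ y', ev N) = c qN` (`adj`, `lm_ev`) and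
`∑ tau N j y_j = c poc (B+N) N`.
-/

set_option autoImplicit false

namespace Pool.Agent.Helper21.KP

open Complex Metric Set Real Finset

private theorem atau_sup_ev (N : ℕ) : Sup N (ev N) := by
  intro a ha
  rw [ev, Nat.choose_eq_zero_of_lt ha]
  simp

private theorem atau_yv_zero (th : ℝ) (i : ℕ) : Yv th (fun _ => 0) i = 0 := by
  simp [Yv]

private theorem atau_qf_zero_left (th B : ℝ) (m : ℕ) (y : ℕ → ℂ) :
    Qf th B m (fun _ => 0) y = 0 := by
  simp [Qf, atau_yv_zero]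

private theorem atau_qf_zero_right (th B : ℝ) (m : ℕ) (x : ℕ → ℂ) :
    Qf th B m x (fun _ => 0) = 0 := by
  simp [Qf, atau_yv_zero]

/-- `ev (N + 1)` is orthogonal to the image of `L₊` -/
private theorem atau_orth {th B : ℝ} (h0 : 0 < th) (h1 : th < 1 / 2) (hB : 0 < B) {N : ℕ}
    {y : ℕ → ℂ} (hy : Sup N y) : Qf th B (N + 1) (Lp th B N y) (ev (N + 1)) = 0 := by
  rw [adj h0 h1 hB hy (atau_sup_ev (N + 1)),
    show Lm (N + 1) (ev (N + 1)) = fun _ => 0 from funext fun a => lm_ev N a,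
    atau_qf_zero_right]

private theorem atau_lp_sub (th B : ℝ) (m : ℕ) (x y : ℕ → ℂ) (c : ℂ) (a : ℕ) :
    Lp th B m (fun a => x a - c * y a) a = Lp th B m x a - c * Lp th B m y a := by
  unfold Lp
  split_ifs <;> ring

theorem expand {th B : ℝ} (h0 : 0 < th) (h1 : th < 1 / 2) (hB : 0 < B) {N : ℕ} {y : ℕ → ℂ}
    (hy : Sup (N + 1) y) :
    ∃ (c : ℂ) (y' : ℕ → ℂ), Sup N y' ∧ ∀ a, y a = c * ev (N + 1) a + Lp th B N y' a := by
  obtain ⟨y₁, hs₁, he₁⟩ := solve h0 h1 B N (ev (N + 1))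
  obtain ⟨y₂, hs₂, he₂⟩ := solve h0 h1 B N y
  have hd : ev (N + 1) (N + 1) - Lp th B N y₁ (N + 1) ≠ 0 := by
    intro hd
    have h2 : ev (N + 1) = Lp th B N y₁ := by
      funext a
      rcases Nat.lt_trichotomy a (N + 1) with h | h | h
      · exact he₁ a (by omega)
      · rw [h]; exact sub_eq_zero.1 hd
      · rw [atau_sup_ev (N + 1) a h, sup_lp hs₁ a h]
    have h3 : Qf th B (N + 1) (ev (N + 1)) (ev (N + 1)) = 0 := by
      nth_rewrite 1 [h2]
      exact atau_orth h0 h1 hB hs₁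
    have h4 := qn_pos h0 h1 hB (N := N + 1) (by omega)
    rw [qN, h3] at h4
    simp at h4
  set d := ev (N + 1) (N + 1) - Lp th B N y₁ (N + 1) with hdd
  set c := (y (N + 1) - Lp th B N y₂ (N + 1)) / d with hc
  have hcd : c * d = y (N + 1) - Lp th B N y₂ (N + 1) := div_mul_cancel₀ _ hd
  refine ⟨c, fun a => y₂ a - c * y₁ a, fun a ha => ?_, fun a => ?_⟩
  · simp only
    rw [hs₁ a ha, hs₂ a ha]
    ring
  · rw [atau_lp_sub]
    rcases Nat.lt_trichotomy a (N + 1) with h | h | h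
    · rw [← he₁ a (by omega), ← he₂ a (by omega)]
      ring
    · rw [h]
      linear_combination (-1 : ℂ) * hcd + c * hdd
    · rw [atau_sup_ev (N + 1) a h, sup_lp hs₁ a h, sup_lp hs₂ a h, hy a h]
      ring

theorem tau_lp (th B : ℝ) {N : ℕ} (hN : N < 3) {y : ℕ → ℂ} (hy : Sup N y) :
    ∑ j ∈ range (N + 2), (tau th B (N + 1) j : ℂ) * Lp th B N y j = 0 := by
  interval_cases N
  · have h1 : y 1 = 0 := hy 1 (by norm_num)
    simp [Finset.sum_range_succ, tau, poc, Lp, h1]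
    ring
  · have h1 : y 2 = 0 := hy 2 (by norm_num)
    simp [Finset.sum_range_succ, tau, poc, Lp, h1]
    ring
  · have h1 : y 3 = 0 := hy 3 (by norm_num)
    simp [Finset.sum_range_succ, tau, poc, Lp, h1]
    ring

theorem tau_ev (th B : ℝ) {N : ℕ} (hN : N ≤ 3) :
    ∑ j ∈ range (N + 1), (tau th B N j : ℂ) * ev N j = ((poc (B + N) N : ℝ) : ℂ) := by
  interval_cases N
  · simp [tau, poc, ev]
  · simp [Finset.sum_range_succ, tau, poc, ev]
    ring
  · simp [Finset.sum_range_succ, tau, poc, ev]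
    ring
  · simp [Finset.sum_range_succ, tau, poc, ev, Nat.choose]
    ring

theorem pair_tau {th B : ℝ} (h0 : 0 < th) (h1 : th < 1 / 2) (hB : 0 < B) {N : ℕ} (hN : N ≤ 3)
    {y : ℕ → ℂ} (hy : Sup N y) :
    Qf th B N y (ev N) * ((poc (B + N) N : ℝ) : ℂ) =
      ((qN th B N : ℝ) : ℂ) * ∑ j ∈ range (N + 1), (tau th B N j : ℂ) * y j := by
  rcases N with _ | N
  · have h2 : y = fun a => (fun _ => (0 : ℂ)) a + y 0 * ev 0 a := by
      funext a
      rcases a with _ | a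
      · simp [ev]
      · simp [ev, hy (a + 1) (by omega)]
    have h3 : Qf th B 0 y (ev 0) = y 0 * ((qN th B 0 : ℝ) : ℂ) := by
      conv_lhs => rw [h2]
      rw [qf_add h0 h1 hB (fun _ _ => rfl) (atau_sup_ev 0) (atau_sup_ev 0),
        atau_qf_zero_left, zero_add, (qn_eq h0 h1 hB 0).2]
    rw [h3]
    simp [tau, poc]
    ring
  · obtain ⟨c, y', hs, he⟩ := expand h0 h1 hB hy
    have h2 : y = fun a => Lp th B N y' a + c * ev (N + 1) a := by
      funext a
      rw [he a]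
      ring
    have h3 : Qf th B (N + 1) y (ev (N + 1)) = c * ((qN th B (N + 1) : ℝ) : ℂ) := by
      rw [h2, qf_add h0 h1 hB (sup_lp hs) (atau_sup_ev (N + 1)) (atau_sup_ev (N + 1)),
        atau_orth h0 h1 hB hs, zero_add, (qn_eq h0 h1 hB (N + 1)).2]
    have h4 : ∑ j ∈ range (N + 1 + 1), (tau th B (N + 1) j : ℂ) * y j =
        c * ((poc (B + (N + 1 : ℕ)) (N + 1) : ℝ) : ℂ) := by
      rw [← tau_ev th B hN, Finset.mul_sum]
      rw [← sub_eq_zero, ← Finset.sum_sub_distrib]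
      rw [← tau_lp th B (N := N) (by omega) hs]
      refine Finset.sum_congr rfl fun j _ => ?_
      rw [he j]
      ring
    rw [h3, h4]
    ring

end Pool.Agent.Helper21.KP
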