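import Pool.Agent.Helper21.KP.PR
import Pool.Agent.Helper21.KP.ACoef
import Pool.Agent.Helper21.IM.Par

/-!
# KP-BE: weighted area integrals over the unit disc

`berg`: Parseval on the circle of radius `ρ ≤ 1 < R` (absolutely convergent series, `pr_bound`) and `bw_int`.
`berg_parts`: the coefficients of `z A' + A` are `(n+1) a n`, those of `z A` are `a (n-1)`, and
`(n+1) bw s n = s bw (s-1) (n+1)`.
-/

set_option autoImplicit false

namespace Pool.Agent.Helper21.KP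

open Complex Metric Set Real Finset MeasureTheory

/-- `π⁻¹ ∫ Φ(z) (1 - ‖z‖²)^s dA` over the unit disc -/
noncomputable def II (s : ℝ) (Φ : ℂ → ℝ) : ℝ :=
  ∫ ρ in (0 : ℝ)..1, 2 * ρ * (1 - ρ ^ 2) ^ s * circleAverage Φ 0 ρ

private theorem Berg_hs {f g : ℕ → ℝ} {x : ℝ} (h : HasSum f x) (e : ∀ n, f n = g n) :
    HasSum g x := by
  rwa [show g = f from (funext e).symm]

private theorem Berg_w {s : ℝ} (hs : -1 < s) :
    IntervalIntegrable (fun ρ : ℝ => 2 * ρ * (1 - ρ ^ 2) ^ s) volume 0 1 := by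
  have h := (bw_int hs 0).1
  simpa using h

private theorem Berg_avg_cont {Φ : ℂ → ℝ} (hΦ : ContinuousOn Φ (closedBall 0 1)) :
    ContinuousOn (fun ρ : ℝ => circleAverage Φ 0 ρ) (uIcc (0 : ℝ) 1) := by
  have hc : Continuous (fun q : ℝ × ℝ => Φ (circleMap 0 (max 0 (min 1 q.1)) q.2)) := by
    refine hΦ.comp_continuous ?_ fun q => ?_
    · simp only [circleMap]
      fun_prop
    · rw [mem_closedBall_zero_iff, norm_circleMap_zero, abs_of_nonneg (le_max_left _ _)]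
      exact max_le zero_le_one (min_le_left _ _)
  have h2 : Continuous (fun ρ : ℝ => ∫ θ in (0 : ℝ)..2 * π,
      Φ (circleMap 0 (max 0 (min 1 ρ)) θ)) :=
    intervalIntegral.continuous_parametric_intervalIntegral_of_continuous'
      (f := fun ρ θ => Φ (circleMap 0 (max 0 (min 1 ρ)) θ)) hc 0 (2 * π)
  have h3 : Continuous (fun ρ : ℝ => (2 * π)⁻¹ • ∫ θ in (0 : ℝ)..2 * π,
      Φ (circleMap 0 (max 0 (min 1 ρ)) θ)) := by
    simp only [smul_eq_mul]
    exact continuous_const.mul h2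
  refine h3.continuousOn.congr fun ρ hρ => ?_
  rw [Set.uIcc_of_le zero_le_one] at hρ
  have e : max 0 (min 1 ρ) = ρ := by rw [min_eq_right hρ.2, max_eq_right hρ.1]
  rw [circleAverage_def]
  beta_reduce
  rw [e]

private theorem Berg_ci {Φ : ℂ → ℝ} (hΦ : ContinuousOn Φ (closedBall 0 1)) {ρ : ℝ} (h0 : 0 ≤ ρ)
    (h1 : ρ ≤ 1) : CircleIntegrable Φ 0 ρ := by
  refine ContinuousOn.circleIntegrable h0 (hΦ.mono fun z hz => ?_)
  rw [mem_sphere_zero_iff_norm] at hz
  rw [mem_closedBall_zero_iff, hz]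
  exact h1

theorem ii_intble {s : ℝ} (hs : -1 < s) {Φ : ℂ → ℝ} (hΦ : ContinuousOn Φ (closedBall 0 1)) :
    IntervalIntegrable (fun ρ : ℝ => 2 * ρ * (1 - ρ ^ 2) ^ s * circleAverage Φ 0 ρ) volume 0 1 :=
  (Berg_w hs).mul_continuousOn (Berg_avg_cont hΦ)

theorem ii_add {s : ℝ} (hs : -1 < s) {Φ Ψ : ℂ → ℝ} (hΦ : ContinuousOn Φ (closedBall 0 1))
    (hΨ : ContinuousOn Ψ (closedBall 0 1)) : II s (fun z => Φ z + Ψ z) = II s Φ + II s Ψ := by
  unfold II
  rw [← intervalIntegral.integral_add (ii_intble hs hΦ) (ii_intble hs hΨ)]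
  refine intervalIntegral.integral_congr fun ρ hρ => ?_
  rw [Set.uIcc_of_le zero_le_one] at hρ
  beta_reduce
  rw [circleAverage_fun_add (Berg_ci hΦ hρ.1 hρ.2) (Berg_ci hΨ hρ.1 hρ.2), mul_add]

theorem ii_mul (s c : ℝ) (Φ : ℂ → ℝ) : II s (fun z => c * Φ z) = c * II s Φ := by
  unfold II
  rw [← intervalIntegral.integral_const_mul]
  refine intervalIntegral.integral_congr fun ρ _ => ?_
  have h : circleAverage (fun z => c * Φ z) 0 ρ = c * circleAverage Φ 0 ρ :=
    circleAverage_fun_smul (a := c) (f := Φ)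
  beta_reduce
  rw [h]
  ring

theorem ii_mono {s : ℝ} (hs : -1 < s) {Φ Ψ : ℂ → ℝ} (hΦ : ContinuousOn Φ (closedBall 0 1))
    (hΨ : ContinuousOn Ψ (closedBall 0 1)) (h : ∀ z ∈ closedBall (0 : ℂ) 1, Φ z ≤ Ψ z) :
    II s Φ ≤ II s Ψ := by
  unfold II
  refine intervalIntegral.integral_mono_on zero_le_one (ii_intble hs hΦ) (ii_intble hs hΨ)
    fun ρ hρ => ?_
  refine mul_le_mul_of_nonneg_left ?_ ?_
  · refine circleAverage_mono (Berg_ci hΦ hρ.1 hρ.2) (Berg_ci hΨ hρ.1 hρ.2) fun z hz => ?_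
    refine h z ?_
    rw [mem_sphere_zero_iff_norm, abs_of_nonneg hρ.1] at hz
    rw [mem_closedBall_zero_iff, hz]
    exact hρ.2
  · have : 0 ≤ 1 - ρ ^ 2 := by nlinarith [hρ.1, hρ.2]
    exact mul_nonneg (mul_nonneg zero_le_two hρ.1) (Real.rpow_nonneg this s)

/-- change of the weight -/
theorem ii_weight (s : ℝ) (k : ℕ) (Φ : ℂ → ℝ) :
    II (s + k) Φ = II s (fun z => (1 - ‖z‖ ^ 2) ^ k * Φ z) := by
  unfold II
  refine intervalIntegral.integral_congr_Ioo_of_le zero_le_one fun ρ hρ => ?_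
  have h1 : 0 < 1 - ρ ^ 2 := by nlinarith [hρ.1, hρ.2]
  have h2 : circleAverage (fun z => (1 - ‖z‖ ^ 2) ^ k * Φ z) 0 ρ =
      (1 - ρ ^ 2) ^ k * circleAverage Φ 0 ρ := by
    have h3 : circleAverage (fun z => (1 - ‖z‖ ^ 2) ^ k * Φ z) 0 ρ =
        circleAverage (fun z => (1 - ρ ^ 2) ^ k * Φ z) 0 ρ := by
      refine circleAverage_congr_sphere fun z hz => ?_
      rw [mem_sphere_zero_iff_norm, abs_of_pos hρ.1] at hz
      beta_reduce
      rw [hz]
    rw [h3]
    exact circleAverage_fun_smul (a := (1 - ρ ^ 2) ^ k) (f := Φ)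
  beta_reduce
  rw [h2, Real.rpow_add_natCast h1.ne']
  ring

private theorem Berg_scale {P : ℂ → ℂ} {a : ℕ → ℂ} {R : ℝ} (hP : PR P a R) {r : ℝ} (h0 : 0 < r)
    (hr : r < R) : IM.PS (fun z => P (r * z)) (fun m => a m * (r : ℂ) ^ m) := by
  intro z hz
  rw [mem_ball_zero_iff] at hz
  have h1 : (r : ℂ) * z ∈ ball (0 : ℂ) R := by
    rw [mem_ball_zero_iff, norm_mul, Complex.norm_real, Real.norm_eq_abs, abs_of_pos h0]
    nlinarith
  have h2 := hP _ h1
  simp only [mul_pow] at h2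
  simpa only [mul_assoc] using h2

private theorem Berg_cont {P : ℂ → ℂ} {a : ℕ → ℂ} {R : ℝ} (hR : 1 < R) (hP : PR P a R) :
    ContinuousOn P (closedBall 0 1) :=
  (pr_diff hP).continuousOn.mono fun z hz => by
    rw [mem_closedBall_zero_iff] at hz
    rw [mem_ball_zero_iff]
    exact hz.trans_lt hR

private theorem Berg_par {P Q : ℂ → ℂ} {a b : ℕ → ℂ} {R : ℝ} (hR : 1 < R) (hP : PR P a R)
    (hQ : PR Q b R) {ρ : ℝ} (h0 : 0 ≤ ρ) (h1 : ρ ≤ 1) :
    HasSum (fun n => (a n * (starRingEnd ℂ) (b n)).re * ρ ^ (2 * n))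
      (circleAverage (fun z => (P z * (starRingEnd ℂ) (Q z)).re) 0 ρ) := by
  obtain ⟨r, hr1, hr2⟩ := exists_between hR
  have hr0 : 0 < r := by linarith
  have hrc : (r : ℂ) ≠ 0 := by exact_mod_cast hr0.ne'
  have h2 := IM.parseval (Berg_scale hP hr0 hr2) (Berg_scale hQ hr0 hr2) (ρ := ρ / r)
    (div_nonneg h0 hr0.le) ((div_lt_one hr0).2 (h1.trans_lt hr1))
  have h3 : circleAverage (fun z => P (r * z) * (starRingEnd ℂ) (Q (r * z))) 0 (ρ / r) =
      circleAverage (fun z => P z * (starRingEnd ℂ) (Q z)) 0 ρ := by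
    have e : ∀ θ : ℝ, (r : ℂ) * circleMap 0 (ρ / r) θ = circleMap 0 ρ θ := by
      intro θ
      simp only [circleMap, zero_add]
      push_cast
      field_simp
    rw [circleAverage_def, circleAverage_def]
    simp only [e]
  rw [h3] at h2
  have h4 := Complex.reCLM.hasSum h2
  have h5 : CircleIntegrable (fun z => P z * (starRingEnd ℂ) (Q z)) 0 ρ := by
    refine ContinuousOn.circleIntegrable h0 ?_
    have hsub : sphere (0 : ℂ) ρ ⊆ closedBall 0 1 := fun z hz => by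
      rw [mem_sphere_zero_iff_norm] at hz
      rw [mem_closedBall_zero_iff, hz]
      exact h1
    exact ((Berg_cont hR hP).mono hsub).mul
      (continuous_star.comp_continuousOn ((Berg_cont hR hQ).mono hsub))
  have h6 := ContinuousLinearMap.circleAverage_comp_comm Complex.reCLM h5
  rw [← h6] at h4
  have h7 : (Complex.reCLM ∘ fun z => P z * (starRingEnd ℂ) (Q z)) =
      fun z => (P z * (starRingEnd ℂ) (Q z)).re := rfl
  rw [h7] at h4
  refine Berg_hs h4 fun n => ?_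
  have h8 : a n * (r : ℂ) ^ n * (starRingEnd ℂ) (b n * (r : ℂ) ^ n) *
      (((ρ / r : ℝ) : ℂ)) ^ (2 * n) = a n * (starRingEnd ℂ) (b n) * ((ρ ^ (2 * n) : ℝ) : ℂ) := by
    rw [map_mul, map_pow, Complex.conj_ofReal]
    push_cast
    rw [div_pow, pow_mul (r : ℂ) 2 n]
    have hr' : (r : ℂ) ^ n ≠ 0 := pow_ne_zero n hrc
    rw [← pow_mul, mul_comm 2 n, pow_mul (r : ℂ) n 2]
    field_simp
  simp only [Complex.reCLM_apply]
  rw [h8, Complex.re_mul_ofReal]

private theorem Berg_summ {P Q : ℂ → ℂ} {a b : ℕ → ℂ} {R : ℝ} (hR : 1 < R) (hP : PR P a R)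
    (hQ : PR Q b R) : Summable (fun n => |(a n * (starRingEnd ℂ) (b n)).re|) := by
  have h1 : (1 : ℂ) ∈ ball (0 : ℂ) R := by
    rw [mem_ball_zero_iff, norm_one]
    exact hR
  have ha : Summable (fun n => ‖a n‖) := by
    refine (hP 1 h1).summable.norm.congr fun n => ?_
    rw [one_pow, mul_one]
  have hb : Summable (fun n => ‖b n‖) := by
    refine (hQ 1 h1).summable.norm.congr fun n => ?_
    rw [one_pow, mul_one]
  refine Summable.of_nonneg_of_le (fun n => abs_nonneg _) (fun n => ?_)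
    (ha.mul_right (∑' m, ‖b m‖))
  refine (Complex.abs_re_le_norm _).trans ?_
  rw [norm_mul, RCLike.norm_conj]
  exact mul_le_mul_of_nonneg_left (hb.le_tsum n fun m _ => norm_nonneg _) (norm_nonneg _)

theorem berg {P Q : ℂ → ℂ} {a b : ℕ → ℂ} {R : ℝ} (hR : 1 < R) (hP : PR P a R) (hQ : PR Q b R) {s : ℝ}
    (hs : -1 < s) :
    HasSum (fun n => (a n * (starRingEnd ℂ) (b n)).re * bw s n)
      (II s (fun z => (P z * (starRingEnd ℂ) (Q z)).re)) := by
  have hw := Berg_w hs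
  have hsum := Berg_summ hR hP hQ
  have key := intervalIntegral.hasSum_integral_of_dominated_convergence (μ := volume)
    (a := 0) (b := 1)
    (F := fun n (ρ : ℝ) => (a n * (starRingEnd ℂ) (b n)).re *
      (2 * ρ * (1 - ρ ^ 2) ^ s * ρ ^ (2 * n)))
    (f := fun ρ : ℝ => 2 * ρ * (1 - ρ ^ 2) ^ s *
      circleAverage (fun z => (P z * (starRingEnd ℂ) (Q z)).re) 0 ρ)
    (fun n ρ => |(a n * (starRingEnd ℂ) (b n)).re| * (2 * ρ * (1 - ρ ^ 2) ^ s))
    (fun n => (intervalIntegrable_iff.1 ((bw_int hs n).1.const_mul _)).aestronglyMeasurable)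
    (fun n => Filter.Eventually.of_forall fun ρ hρ => ?_)
    (Filter.Eventually.of_forall fun ρ _ => hsum.mul_right _)
    ?_
    (Filter.Eventually.of_forall fun ρ hρ => ?_)
  · refine Berg_hs key fun n => ?_
    rw [intervalIntegral.integral_const_mul, (bw_int hs n).2]
  · rw [Set.uIoc_of_le zero_le_one] at hρ
    have h1 : 0 ≤ 1 - ρ ^ 2 := by nlinarith [hρ.1, hρ.2]
    have h2 : 0 ≤ 2 * ρ * (1 - ρ ^ 2) ^ s :=
      mul_nonneg (mul_nonneg zero_le_two hρ.1.le) (Real.rpow_nonneg h1 s)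
    have h3 : ρ ^ (2 * n) ≤ 1 := pow_le_one₀ hρ.1.le hρ.2
    have h4 : 0 ≤ ρ ^ (2 * n) := pow_nonneg hρ.1.le _
    rw [Real.norm_eq_abs, abs_mul, abs_mul, abs_of_nonneg h2, abs_of_nonneg h4]
    refine mul_le_mul_of_nonneg_left ?_ (abs_nonneg _)
    nlinarith
  · simp only [tsum_mul_right]
    exact hw.const_mul _
  · rw [Set.uIoc_of_le zero_le_one] at hρ
    have h1 := (Berg_par hR hP hQ hρ.1.le hρ.2).mul_left (2 * ρ * (1 - ρ ^ 2) ^ s)
    refine Berg_hs h1 fun n => ?_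
    ring

theorem berg_sq {P : ℂ → ℂ} {a : ℕ → ℂ} {R : ℝ} (hR : 1 < R) (hP : PR P a R) {s : ℝ} (hs : -1 < s) :
    HasSum (fun n => ‖a n‖ ^ 2 * bw s n) (II s (fun z => ‖P z‖ ^ 2)) := by
  have h := berg hR hP hP hs
  have e : ∀ z : ℂ, (z * (starRingEnd ℂ) z).re = ‖z‖ ^ 2 := by
    intro z
    rw [Complex.mul_conj, Complex.normSq_eq_norm_sq, Complex.ofReal_re]
  simp only [e] at h
  exact h

private theorem Berg_poc (x : ℝ) (n : ℕ) : poc x (n + 1) = x * poc (x + 1) n := by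
  induction n with
  | zero => simp [poc]
  | succ n ih =>
    rw [poc, ih, poc]
    push_cast
    ring

theorem berg_parts {A C : ℂ → ℂ} {R : ℝ} (hR : 1 < R) (hA : DifferentiableOn ℂ A (ball 0 R))
    (hC : DifferentiableOn ℂ C (ball 0 R)) {s : ℝ} (hs : 0 < s) :
    II s (fun z => ((z * deriv A z + A z) * (starRingEnd ℂ) (C z)).re) =
      s * II (s - 1) (fun z => ‖z‖ ^ 2 * (A z * (starRingEnd ℂ) (C z)).re) := by
  have hR0 : 0 < R := by linarith
  obtain ⟨a, ha⟩ := pr_exists hR0 hA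
  obtain ⟨c, hc⟩ := pr_exists hR0 hC
  have h1 := berg hR (pr_add (pr_zmul (pr_deriv ha)) ha) hc (s := s) (by linarith)
  have h2 := berg hR (pr_zmul ha) (pr_zmul hc) (s := s - 1) (by linarith)
  have e1 : (fun z => (z * A z * (starRingEnd ℂ) (z * C z)).re) =
      fun z => ‖z‖ ^ 2 * (A z * (starRingEnd ℂ) (C z)).re := by
    funext z
    have : z * A z * (starRingEnd ℂ) (z * C z) =
        ((‖z‖ ^ 2 : ℝ) : ℂ) * (A z * (starRingEnd ℂ) (C z)) := by
      rw [map_mul, ← Complex.normSq_eq_norm_sq, ← Complex.mul_conj]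
      ring
    rw [this, Complex.re_ofReal_mul]
  rw [e1] at h2
  have h3 := h2.mul_left s
  have h4 := (hasSum_nat_add_iff' 1).2 h3
  simp only [Finset.range_one, Finset.sum_singleton, if_true, map_zero, mul_zero,
    Complex.zero_re, zero_mul, sub_zero, Nat.add_sub_cancel, Nat.add_eq_zero_iff, one_ne_zero,
    and_false, if_false] at h4
  refine h1.unique (Berg_hs h4 fun n => ?_)
  have h5 : ((n : ℝ) + 1) * bw s n = s * bw (s - 1) (n + 1) := by
    unfold bw
    have h6 : s - 1 + 1 = s := by ring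
    have h7 : poc s (n + 1 + 1) = s * poc (s + 1) (n + 1) := Berg_poc s (n + 1)
    rw [h6, h7, Nat.factorial_succ]
    have h8 : poc (s + 1) (n + 1) ≠ 0 := (poc_pos (by linarith) _).ne'
    push_cast
    field_simp
  have h9 : (if n = 0 then 0 else (((n - 1 : ℕ) : ℂ) + 1) * a (n - 1 + 1)) + a n =
      (((n : ℝ) + 1 : ℝ) : ℂ) * a n := by
    rcases n with _ | m
    · simp
    · rw [if_neg (Nat.succ_ne_zero m), Nat.add_sub_cancel]
      push_cast
      ring
  rw [h9, mul_assoc, Complex.re_ofReal_mul]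
  linear_combination -(a n * (starRingEnd ℂ) (c n)).re * h5

end Pool.Agent.Helper21.KP
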