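import Mathlib

/-!
# KP-BT: from the two bounds to `β`

`beta_of`: for a univalent `f` with `intM f lam r ≤ B (1-r)^(-e)`, `0 < intM f lam r` (`hpos`):
`log I / log (1/(1-r)) ≤ e + log B / log (1/(1-r)) → e`; and for `k` the same from below, so the supremum is `e`
(`Filter.limsup_le_of_le`, `EReal`, `Filter.Tendsto.limsup_eq`, `Filter.limsup_le_limsup`).
-/

set_option autoImplicit false

namespace Pool.Agent.Helper21.KP

open Complex Metric Set Real Finset MeasureTheory

/-- `log I / log (1/(1-r))` for a family `I` -/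
noncomputable def ord (I : ℝ → ℝ) : EReal :=
  Filter.limsup (fun r : ℝ => ((Real.log (I r) / Real.log (1 / (1 - r)) : ℝ) : EReal)) (nhdsWithin 1 (Iio 1))

private theorem Beta_top :
    Filter.Tendsto (fun r : ℝ => Real.log (1 / (1 - r))) (nhdsWithin 1 (Iio 1)) Filter.atTop := by
  apply Real.tendsto_log_atTop.comp
  have h1 : Filter.Tendsto (fun r : ℝ => 1 - r) (nhdsWithin 1 (Iio 1)) (nhdsWithin 0 (Ioi 0)) := by
    rw [tendsto_nhdsWithin_iff]
    constructor
    · have h2 : Filter.Tendsto (fun r : ℝ => 1 - r) (nhds 1) (nhds (1 - 1)) :=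
        (continuous_const.sub continuous_id).tendsto 1
      rw [sub_self] at h2
      exact h2.mono_left nhdsWithin_le_nhds
    · filter_upwards [self_mem_nhdsWithin] with r hr
      have hr' : r < 1 := hr
      exact mem_Ioi.2 (by linarith)
  have h3 := tendsto_inv_nhdsGT_zero.comp h1
  refine h3.congr fun r => ?_
  simp [one_div]

private theorem Beta_lim (e B : ℝ) :
    Filter.limsup (fun r : ℝ => ((e + B / Real.log (1 / (1 - r)) : ℝ) : EReal))
      (nhdsWithin 1 (Iio 1)) = (e : EReal) := by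
  apply Filter.Tendsto.limsup_eq
  apply (continuous_coe_real_ereal.tendsto e).comp
  have h1 : Filter.Tendsto (fun r : ℝ => B / Real.log (1 / (1 - r))) (nhdsWithin 1 (Iio 1))
      (nhds 0) := Filter.Tendsto.const_div_atTop Beta_top B
  have h2 := h1.const_add e
  rw [add_zero] at h2
  exact h2

private theorem Beta_mem : ∀ᶠ r : ℝ in nhdsWithin 1 (Iio 1), 0 < r ∧ r < 1 := by
  have h1 : Ioi (0 : ℝ) ∈ nhds (1 : ℝ) := Ioi_mem_nhds one_pos
  filter_upwards [self_mem_nhdsWithin, mem_nhdsWithin_of_mem_nhds h1] with r hr hr0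
  exact ⟨hr0, hr⟩

private theorem Beta_L {r : ℝ} (h0 : 0 < r) (h1 : r < 1) : 0 < Real.log (1 / (1 - r)) := by
  apply Real.log_pos
  rw [lt_div_iff₀ (by linarith)]
  linarith

private theorem Beta_log {r e c : ℝ} (hc : 0 < c) (h1 : r < 1) :
    Real.log (c * (1 - r) ^ (-e)) = Real.log c + e * Real.log (1 / (1 - r)) := by
  have h2 : 0 < 1 - r := by linarith
  rw [Real.log_mul hc.ne' (Real.rpow_pos_of_pos h2 _).ne', Real.log_rpow h2, one_div,
    Real.log_inv]
  ring

theorem ord_le {I : ℝ → ℝ} {e B : ℝ} (hpos : ∀ r : ℝ, 0 < r → r < 1 → 0 < I r)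
    (h : ∀ r : ℝ, 0 < r → r < 1 → I r ≤ B * (1 - r) ^ (-e)) : ord I ≤ (e : EReal) := by
  have hB : 0 < B := by
    have h1 := (hpos (1 / 2) (by norm_num) (by norm_num)).trans_le
      (h (1 / 2) (by norm_num) (by norm_num))
    have h2 : (0 : ℝ) < (1 - 1 / 2) ^ (-e) := Real.rpow_pos_of_pos (by norm_num) _
    exact pos_of_mul_pos_left h1 h2.le
  rw [← Beta_lim e (Real.log B)]
  unfold ord
  refine Filter.limsup_le_limsup ?_
  filter_upwards [Beta_mem] with r hr
  rw [EReal.coe_le_coe_iff]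
  have h1 := Real.log_le_log (hpos r hr.1 hr.2) (h r hr.1 hr.2)
  rw [Beta_log hB hr.2] at h1
  have h2 := Beta_L hr.1 hr.2
  rw [div_le_iff₀ h2, add_mul, div_mul_cancel₀ _ h2.ne']
  linarith

theorem ord_ge {I : ℝ → ℝ} {e c : ℝ} (hc : 0 < c)
    (h : ∀ r : ℝ, 0 < r → r < 1 → c * (1 - r) ^ (-e) ≤ I r) : (e : EReal) ≤ ord I := by
  rw [← Beta_lim e (Real.log c)]
  unfold ord
  refine Filter.limsup_le_limsup ?_
  filter_upwards [Beta_mem] with r hr
  rw [EReal.coe_le_coe_iff]
  have h3 : 0 < c * (1 - r) ^ (-e) := mul_pos hc (Real.rpow_pos_of_pos (by linarith [hr.2]) _)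
  have h1 := Real.log_le_log h3 (h r hr.1 hr.2)
  rw [Beta_log hc hr.2] at h1
  have h2 := Beta_L hr.1 hr.2
  rw [le_div_iff₀ h2, add_mul, div_mul_cancel₀ _ h2.ne']
  linarith

end Pool.Agent.Helper21.KP
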