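import Pool.Agent.Helper21.KP.Prawitz
import Pool.Agent.Helper21.IM.LogDisc
import Pool.Agent.Helper21.IM.Koebe

/-!
# KP-BI: Bieberbach's inequality and the growth theorem

`bieb`: `L` from `log_disc` for `dslope G 0` (`= G ζ / ζ`), `exp (-th L) = 1 + g₁ ζ + ...`,
`g₁ = - th G''(0)/2`; `prawitz` and Parseval: `- th + (1 - th) ‖g₁‖² s² ≤ 0`, i.e.
`th (1 - th) ‖G''(0)/2‖² s² ≤ 1`; `s → 1`, `th → 1/2`.
`pre_sharp`: `(kt f a)''(0) = (1 - ‖a‖²) f''(a)/f'(a) - 2 conj a` (compare IM/Koebe.lean).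
`deriv_growth`: `d/dr log ‖f' (r e^(iθ))‖ = Re (e^(iθ) pre f) ≤ (2 r + 4)/(1 - r²)`, and the integral of the right
side is `log ((1 + r)/(1 - r)³)`.  `growth2`: `∫_0^r (1+s)/(1-s)³ ds = r/(1-r)² ≤ 1/(1-r)²`.
-/

set_option autoImplicit false

namespace Pool.Agent.Helper21.KP

open Complex Metric Set Real Finset MeasureTheory
open Pool.Agent.Helper21.IM

private theorem Bieb_log {F : ℂ → ℂ} (hF : Sch F) :
    ∃ L : ℂ → ℂ, DifferentiableOn ℂ L (ball 0 1) ∧ L 0 = 0 ∧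
      (∀ z ∈ ball (0 : ℂ) 1, Complex.exp (L z) * z = F z) ∧
      deriv L 0 = deriv (deriv F) 0 / 2 := by
  have h0m : (0 : ℂ) ∈ ball (0 : ℂ) 1 := by simp
  set φ : ℂ → ℂ := dslope F 0 with hφ
  have hφd : DifferentiableOn ℂ φ (ball 0 1) :=
    (differentiableOn_dslope (isOpen_ball.mem_nhds h0m)).mpr hF.an
  have hφ0 : φ 0 = 1 := by rw [hφ, dslope_same, hF.d0]
  have hFφ : ∀ z, z * φ z = F z := by
    intro z
    have := sub_smul_dslope F 0 z
    rw [hF.z0, sub_zero, sub_zero, smul_eq_mul] at this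
    exact this
  have hφn : ∀ z ∈ ball (0 : ℂ) 1, φ z ≠ 0 := by
    intro z hz h0
    by_cases hz0 : z = 0
    · rw [hz0, hφ0] at h0
      exact one_ne_zero h0
    · apply hz0
      apply hF.inj hz h0m
      rw [← hFφ z, h0, mul_zero, hF.z0]
  obtain ⟨L, hLd, hL0, hL⟩ := log_disc hφd hφn hφ0
  refine ⟨L, hLd, hL0, fun z hz => by rw [(hL z hz).1, mul_comm, hFφ], ?_⟩
  rw [(hL 0 h0m).2.deriv, hφ0, div_one]
  obtain ⟨c, hc⟩ := ps_exists hφd
  have h1 := ps_congr (ps_zmul hc) (fun z _ => hFφ z)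
  have h2 := ps_zero (ps_deriv (ps_deriv h1))
  have h3 := ps_zero (ps_deriv hc)
  rw [h2, h3]
  simp
  ring

/-- the real part of the circle average -/
private theorem Bieb_sum {g : ℂ → ℂ} {a : ℕ → ℂ} (hg : PS g a) {th s : ℝ} (hs : 0 ≤ s)
    (hs1 : s < 1) :
    HasSum (fun m : ℕ => ((m : ℝ) - th) * ‖a m‖ ^ 2 * s ^ (2 * m))
      (circleAverage (fun ζ => ((starRingEnd ℂ) (g ζ) * (ζ * deriv g ζ - th * g ζ)).re) 0 s) := by
  have h1 : PS (fun z => z * deriv g z - th * g z) (fun m => ((m : ℂ) - th) * a m) := by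
    have h2 := ps_sub (ps_zmul (ps_deriv hg)) (ps_smul (th : ℂ) hg)
    intro z hz
    have h3 := h2 z hz
    have h4 : (fun m : ℕ => ((if m = 0 then 0 else (((m - 1 : ℕ) : ℂ) + 1) * a (m - 1 + 1)) -
        (th : ℂ) * a m) * z ^ m) = fun m : ℕ => (((m : ℂ) - th) * a m) * z ^ m := by
      funext m
      rcases m with _ | m
      · simp
      · rw [if_neg (Nat.succ_ne_zero m), Nat.add_sub_cancel]
        push_cast
        ring
    rw [h4] at h3
    exact h3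
  have h5 := parseval h1 hg hs hs1
  have h6 := Complex.hasSum_re h5
  have h7 : (fun m : ℕ => (((m : ℂ) - th) * a m * (starRingEnd ℂ) (a m) * (s : ℂ) ^ (2 * m)).re) =
      fun m : ℕ => ((m : ℝ) - th) * ‖a m‖ ^ 2 * s ^ (2 * m) := by
    funext m
    have h8 : ((m : ℂ) - th) * a m * (starRingEnd ℂ) (a m) * (s : ℂ) ^ (2 * m) =
        (((((m : ℝ) - th) * ‖a m‖ ^ 2 * s ^ (2 * m) : ℝ)) : ℂ) := by
      rw [mul_assoc _ (a m), Complex.mul_conj, Complex.normSq_eq_norm_sq]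
      push_cast
      ring
    rw [h8, Complex.ofReal_re]
  rw [h7] at h6
  have hcg : ContinuousOn g (sphere 0 |s|) := (ps_diff hg).continuousOn.mono (by
    intro z hz
    rw [mem_sphere_zero_iff_norm, abs_of_nonneg hs] at hz
    rw [mem_ball_zero_iff, hz]
    exact hs1)
  have hcd : ContinuousOn (fun z => z * deriv g z - th * g z) (sphere 0 |s|) :=
    (ps_diff h1).continuousOn.mono (by
    intro z hz
    rw [mem_sphere_zero_iff_norm, abs_of_nonneg hs] at hz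
    rw [mem_ball_zero_iff, hz]
    exact hs1)
  have hci : CircleIntegrable (fun z => (z * deriv g z - th * g z) * (starRingEnd ℂ) (g z)) 0 s :=
    ContinuousOn.circleIntegrable' (hcd.mul (Complex.continuous_conj.comp_continuousOn hcg))
  have h9 := Complex.reCLM.circleAverage_comp_comm hci
  have h10 : (circleAverage (fun z => (z * deriv g z - th * g z) * (starRingEnd ℂ) (g z)) 0 s).re =
      circleAverage (fun ζ => ((starRingEnd ℂ) (g ζ) * (ζ * deriv g ζ - th * g ζ)).re) 0 s := by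
    refine Eq.trans h9.symm ?_
    congr 1
    funext z
    simp only [Function.comp_apply, Complex.reCLM_apply]
    rw [mul_comm]
  rw [h10] at h6
  exact h6

private theorem Bieb_one {G : ℂ → ℂ} (hG : Sch G) {th : ℝ} (h0 : 0 < th) (h1 : th < 1 / 2)
    {s : ℝ} (hs : 0 < s) (hs1 : s < 1) :
    th * (1 - th) * s ^ 2 * ‖deriv (deriv G) 0‖ ^ 2 ≤ 4 := by
  obtain ⟨L, hLd, hL0, hE, hL1⟩ := Bieb_log hG
  have h2 := prawitz hG hLd hL0 hE h0 h1 hs hs1
  have hgd : DifferentiableOn ℂ (fun ζ => exp (-(th : ℂ) * L ζ)) (ball 0 1) :=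
    (hLd.const_mul _).cexp
  obtain ⟨a, ha⟩ := ps_exists hgd
  have h3 := Bieb_sum (th := th) ha hs.le hs1
  have h4 := sum_le_hasSum (Finset.range 2) (fun m hm => by
    have h5 : 2 ≤ m := by
      by_contra h
      exact hm (Finset.mem_range.2 (by omega))
    have h6 : (2 : ℝ) ≤ m := by exact_mod_cast h5
    have h7 : 0 ≤ (m : ℝ) - th := by linarith
    positivity) h3
  have h5 := h4.trans h2
  rw [Finset.sum_range_succ, Finset.sum_range_one] at h5
  have e0 : a 0 = 1 := by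
    rw [← ps_zero ha]
    simp [hL0]
  have e1 : a 1 = -(th : ℂ) * (deriv (deriv G) 0 / 2) := by
    have h8 := ps_zero (ps_deriv ha)
    have h9 : HasDerivAt L (deriv (deriv G) 0 / 2) 0 := by
      rw [← hL1]
      exact (hLd.differentiableAt (isOpen_ball.mem_nhds (by simp))).hasDerivAt
    have h10 := (h9.const_mul (-(th : ℂ))).cexp.deriv
    rw [h10, hL0] at h8
    simpa using h8.symm
  rw [e0, e1] at h5
  have h11 : ‖-(th : ℂ) * (deriv (deriv G) 0 / 2)‖ ^ 2 =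
      th ^ 2 * (‖deriv (deriv G) 0‖ ^ 2 / 4) := by
    rw [norm_mul, norm_neg, norm_div, Complex.norm_real, Real.norm_of_nonneg h0.le]
    have : ‖(2 : ℂ)‖ = 2 := by norm_num
    rw [this]
    ring
  rw [h11, norm_one] at h5
  push_cast at h5
  have h12 : (1 - th) * (th ^ 2 * (‖deriv (deriv G) 0‖ ^ 2 / 4)) * s ^ 2 ≤ th := by
    have : (0 - th) * 1 ^ 2 * s ^ (2 * 0) = -th := by ring
    rw [this] at h5
    have : (1 - th) * (th ^ 2 * (‖deriv (deriv G) 0‖ ^ 2 / 4)) * s ^ (2 * 1) =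
      (1 - th) * (th ^ 2 * (‖deriv (deriv G) 0‖ ^ 2 / 4)) * s ^ 2 := by norm_num
    linarith
  have h13 : th * (th * (1 - th) * s ^ 2 * ‖deriv (deriv G) 0‖ ^ 2) ≤ th * 4 := by
    linarith [h12, show th * (th * (1 - th) * s ^ 2 * ‖deriv (deriv G) 0‖ ^ 2) =
      4 * ((1 - th) * (th ^ 2 * (‖deriv (deriv G) 0‖ ^ 2 / 4)) * s ^ 2) by ring]
  exact le_of_mul_le_mul_left h13 h0

theorem bieb {G : ℂ → ℂ} (hG : Sch G) : ‖deriv (deriv G) 0‖ ≤ 4 := by
  set K := ‖deriv (deriv G) 0‖ with hK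
  have h1 : ∀ s ∈ Ioo (0 : ℝ) 1, s / 2 * (1 - s / 2) * s ^ 2 * K ^ 2 ≤ 4 := by
    intro s hs
    exact Bieb_one hG (by linarith [hs.1]) (by linarith [hs.2]) hs.1 hs.2
  have hc : Continuous fun s : ℝ => s / 2 * (1 - s / 2) * s ^ 2 * K ^ 2 := by fun_prop
  have h2 : (1 : ℝ) / 2 * (1 - 1 / 2) * 1 ^ 2 * K ^ 2 ≤ 4 := by
    have h3 : Filter.Tendsto (fun s : ℝ => s / 2 * (1 - s / 2) * s ^ 2 * K ^ 2)
        (nhdsWithin 1 (Iio 1)) (nhds ((1 : ℝ) / 2 * (1 - 1 / 2) * 1 ^ 2 * K ^ 2)) :=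
      (hc.tendsto 1).mono_left nhdsWithin_le_nhds
    refine le_of_tendsto h3 ?_
    filter_upwards [Ioo_mem_nhdsLT (show (0 : ℝ) < 1 by norm_num)] with s hs
    exact h1 s hs
  have h4 : K ^ 2 ≤ 4 ^ 2 := by linarith
  exact abs_le_of_sq_le_sq' h4 (by norm_num) |>.2

private theorem Bieb_mob {a : ℂ} :
    HasDerivAt (mob a) ((1 - ‖a‖ ^ 2 : ℝ) : ℂ) 0 := by
  have h1 : 1 + (starRingEnd ℂ) a * 0 ≠ 0 := by simp
  have h2 : HasDerivAt (fun z : ℂ => z + a) 1 0 := (hasDerivAt_id 0).add_const a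
  have h3 : HasDerivAt (fun z : ℂ => 1 + (starRingEnd ℂ) a * z) ((starRingEnd ℂ) a) 0 := by
    simpa using ((hasDerivAt_id (0 : ℂ)).const_mul ((starRingEnd ℂ) a)).const_add 1
  have h4 := h2.fun_div h3 h1
  have h5 : ((1 - ‖a‖ ^ 2 : ℝ) : ℂ) =
      (1 * (1 + (starRingEnd ℂ) a * 0) - (0 + a) * (starRingEnd ℂ) a) /
        (1 + (starRingEnd ℂ) a * 0) ^ 2 := by
    rw [zero_add, Complex.mul_conj, Complex.normSq_eq_norm_sq]
    push_cast
    simp
  rw [h5]
  exact h4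

private theorem Bieb_second {f : ℂ → ℂ} (hf : DifferentiableOn ℂ f (ball 0 1))
    (hi : InjOn f (ball 0 1)) {a : ℂ} (ha : a ∈ ball (0 : ℂ) 1) :
    deriv (deriv (kt f a)) 0 = ((1 - ‖a‖ ^ 2 : ℝ) : ℂ) * pre f a - 2 * (starRingEnd ℂ) a := by
  have h0 := deriv_ne isOpen_ball hf hi ha
  have hb : (0 : ℂ) ∈ ball (0 : ℂ) 1 := mem_ball_self one_pos
  have hm0 : mob a 0 = a := by simp [mob]
  have e1 : deriv (kt f a) =ᶠ[nhds 0]
      fun ζ => deriv f (mob a ζ) / (deriv f a * (1 + (starRingEnd ℂ) a * ζ) ^ 2) := by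
    filter_upwards [isOpen_ball.mem_nhds hb] with ζ hζ
    exact kt_deriv hf hi ha hζ
  rw [e1.deriv_eq]
  have h1 := Bieb_mob (a := a)
  have h2 : HasDerivAt (deriv f) (deriv (deriv f) a) (mob a 0) := by
    rw [hm0]
    exact ((hf.deriv isOpen_ball).differentiableAt (isOpen_ball.mem_nhds ha)).hasDerivAt
  have h3 := h2.comp (0 : ℂ) h1
  have h4 : HasDerivAt (fun z : ℂ => 1 + (starRingEnd ℂ) a * z) ((starRingEnd ℂ) a) 0 := by
    simpa using ((hasDerivAt_id (0 : ℂ)).const_mul ((starRingEnd ℂ) a)).const_add 1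
  have h5 := (h4.fun_pow 2).const_mul (deriv f a)
  have h6 := h3.fun_div h5 (by simp [h0])
  have h7 := h6.deriv
  simp only [Function.comp_def] at h7
  rw [h7, hm0, pre]
  simp only [mul_zero, add_zero, one_pow, mul_one]
  field_simp
  push_cast
  ring

theorem pre_sharp {f : ℂ → ℂ} (hf : DifferentiableOn ℂ f (ball 0 1)) (hi : InjOn f (ball 0 1)) {z : ℂ}
    (hz : z ∈ ball (0 : ℂ) 1) : ‖((1 - ‖z‖ ^ 2 : ℝ) : ℂ) * pre f z - 2 * (starRingEnd ℂ) z‖ ≤ 4 := by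
  rw [← Bieb_second hf hi hz]
  exact bieb (kt_sch hf hi hz)

private theorem Bieb_ray {e : ℂ} (he : ‖e‖ = 1) {t : ℝ} (h0 : 0 ≤ t) (h1 : t < 1) :
    (t : ℂ) * e ∈ ball (0 : ℂ) 1 := by
  rw [mem_ball_zero_iff, norm_mul, he, Complex.norm_real, Real.norm_of_nonneg h0, mul_one]
  exact h1

private theorem Bieb_rayd (e : ℂ) (t : ℝ) : HasDerivAt (fun t : ℝ => (t : ℂ) * e) e t := by
  simpa using (Complex.ofRealCLM.hasDerivAt (x := t)).mul_const e

private theorem Bieb_polar (z : ℂ) : ∃ e : ℂ, ‖e‖ = 1 ∧ z = (‖z‖ : ℂ) * e := by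
  by_cases hz : z = 0
  · exact ⟨1, by simp, by simp [hz]⟩
  · have : (‖z‖ : ℂ) ≠ 0 := by exact_mod_cast (norm_ne_zero_iff.2 hz)
    refine ⟨z / (‖z‖ : ℂ), ?_, by field_simp⟩
    rw [norm_div, Complex.norm_real, norm_norm, div_self (norm_ne_zero_iff.2 hz)]

private theorem Bieb_re {f : ℂ → ℂ} (hf : DifferentiableOn ℂ f (ball 0 1))
    (hi : InjOn f (ball 0 1)) {e : ℂ} (he : ‖e‖ = 1) {t : ℝ} (h0 : 0 ≤ t) (h1 : t < 1) :
    (pre f ((t : ℂ) * e) * e).re ≤ 1 / (1 + t) + 3 / (1 - t) := by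
  have hz := Bieb_ray he h0 h1
  have h2 := pre_sharp hf hi hz
  have hn : ‖(t : ℂ) * e‖ = t := by
    rw [norm_mul, he, Complex.norm_real, Real.norm_of_nonneg h0, mul_one]
  rw [hn] at h2
  set q := pre f ((t : ℂ) * e) with hq
  have hee : (starRingEnd ℂ) e * e = 1 := by
    rw [mul_comm, Complex.mul_conj, Complex.normSq_eq_norm_sq, he]
    simp
  have h3 : (((1 - t ^ 2 : ℝ) : ℂ) * q - 2 * (starRingEnd ℂ) ((t : ℂ) * e)) * e =
      ((1 - t ^ 2 : ℝ) : ℂ) * (q * e) - ((2 * t : ℝ) : ℂ) := by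
    rw [map_mul, Complex.conj_ofReal]
    push_cast
    linear_combination (-2 * (t : ℂ)) * hee
  have h4 : (((1 - t ^ 2 : ℝ) : ℂ) * (q * e) - ((2 * t : ℝ) : ℂ)).re ≤ 4 := by
    rw [← h3]
    refine (Complex.re_le_norm _).trans ?_
    rw [norm_mul, he, mul_one]
    exact h2
  rw [Complex.sub_re, Complex.re_ofReal_mul, Complex.ofReal_re] at h4
  have h5 : 0 < 1 - t := by linarith
  have h6 : 0 < 1 + t := by linarith
  have h7 : 1 / (1 + t) + 3 / (1 - t) = (4 + 2 * t) / (1 - t ^ 2) := by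
    have : 1 - t ^ 2 = (1 - t) * (1 + t) := by ring
    rw [this]
    field_simp
    ring
  rw [h7, le_div_iff₀ (by nlinarith)]
  linarith

theorem deriv_growth {f : ℂ → ℂ} (hf : DifferentiableOn ℂ f (ball 0 1)) (hi : InjOn f (ball 0 1)) {z : ℂ}
    (hz : z ∈ ball (0 : ℂ) 1) : ‖deriv f z‖ ≤ ‖deriv f 0‖ * ((1 + ‖z‖) / (1 - ‖z‖) ^ 3) := by
  have h0m : (0 : ℂ) ∈ ball (0 : ℂ) 1 := by simp
  have hd0 := deriv_ne isOpen_ball hf hi h0m
  have hdf : DifferentiableOn ℂ (deriv f) (ball 0 1) := hf.deriv isOpen_ball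
  obtain ⟨L, hLd, hL0, hL⟩ := log_disc (h := fun w => deriv f w / deriv f 0)
    (hdf.div_const _) (fun w hw => div_ne_zero (deriv_ne isOpen_ball hf hi hw) hd0)
    (div_self hd0)
  have hLp : ∀ w ∈ ball (0 : ℂ) 1, HasDerivAt L (pre f w) w := by
    intro w hw
    have h1 := (hL w hw).2
    have h2 : deriv (fun w => deriv f w / deriv f 0) w / (deriv f w / deriv f 0) = pre f w := by
      rw [deriv_div_const, pre]
      have := deriv_ne isOpen_ball hf hi hw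
      field_simp
    rw [h2] at h1
    exact h1
  obtain ⟨e, he, hze⟩ := Bieb_polar z
  rw [mem_ball_zero_iff] at hz
  set r := ‖z‖ with hr
  have hr0 : 0 ≤ r := norm_nonneg z
  have hder : ∀ t : ℝ, 0 ≤ t → t < 1 → HasDerivAt (fun t : ℝ => (L ((t : ℂ) * e)).re)
      (pre f ((t : ℂ) * e) * e).re t := by
    intro t h0 h1
    have h2 := (hLp _ (Bieb_ray he h0 h1)).scomp t (Bieb_rayd e t)
    have h3 := (Complex.reCLM.hasFDerivAt.comp_hasDerivAt t h2)
    have h4 : (pre f ((t : ℂ) * e) * e).re = Complex.reCLM (e • pre f ((t : ℂ) * e)) := by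
      rw [smul_eq_mul, mul_comm]
      rfl
    rw [h4]
    exact h3
  have hB : ∀ t : ℝ, 0 ≤ t → t < 1 →
      HasDerivAt (fun t : ℝ => Real.log (1 + t) - 3 * Real.log (1 - t))
        (1 / (1 + t) + 3 / (1 - t)) t := by
    intro t h0 h1
    have h2 : HasDerivAt (fun t : ℝ => 1 + t) 1 t := by
      simpa using (hasDerivAt_id t).const_add 1
    have h3 : HasDerivAt (fun t : ℝ => 1 - t) (-1) t := by
      simpa using (hasDerivAt_id t).const_sub 1
    have h4 := (h2.log (by linarith)).sub ((h3.log (by linarith)).const_mul 3)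
    have h5 : 1 / (1 + t) + 3 / (1 - t) = 1 / (1 + t) - 3 * (-1 / (1 - t)) := by ring
    rw [h5]
    exact h4
  have h6 : (L ((r : ℂ) * e)).re ≤ Real.log (1 + r) - 3 * Real.log (1 - r) := by
    refine image_le_of_deriv_right_le_deriv_boundary (a := 0) (b := r)
      (f := fun t : ℝ => (L ((t : ℂ) * e)).re)
      (B := fun t : ℝ => Real.log (1 + t) - 3 * Real.log (1 - t))
      (f' := fun t : ℝ => (pre f ((t : ℂ) * e) * e).re)
      (B' := fun t : ℝ => 1 / (1 + t) + 3 / (1 - t)) ?_ ?_ ?_ ?_ ?_ ?_ ⟨hr0, le_refl r⟩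
    · intro t ht
      exact (hder t ht.1 (lt_of_le_of_lt ht.2 hz)).continuousAt.continuousWithinAt
    · intro t ht
      exact (hder t ht.1 (ht.2.trans hz)).hasDerivWithinAt
    · simp [hL0]
    · intro t ht
      exact (hB t ht.1 (lt_of_le_of_lt ht.2 hz)).continuousAt.continuousWithinAt
    · intro t ht
      exact (hB t ht.1 (ht.2.trans hz)).hasDerivWithinAt
    · intro t ht
      exact Bieb_re hf hi he ht.1 (ht.2.trans hz)
  rw [← hze] at h6
  have hz' : z ∈ ball (0 : ℂ) 1 := by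
    rw [mem_ball_zero_iff]
    exact hz
  have h7 : deriv f z = deriv f 0 * exp (L z) := by
    rw [(hL z hz').1]
    field_simp
  have h8 : 0 < 1 - r := by linarith
  have h9 : 0 < 1 + r := by linarith
  rw [h7, norm_mul, Complex.norm_exp]
  apply mul_le_mul_of_nonneg_left _ (norm_nonneg _)
  refine (Real.exp_le_exp.2 h6).trans (le_of_eq ?_)
  rw [Real.exp_sub, Real.exp_log h9, ← Real.log_rpow h8, Real.exp_log (by positivity)]
  congr 1
  exact_mod_cast Real.rpow_natCast (1 - r) 3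

theorem growth2 {f : ℂ → ℂ} (hf : DifferentiableOn ℂ f (ball 0 1)) (hi : InjOn f (ball 0 1)) {z : ℂ}
    (hz : z ∈ ball (0 : ℂ) 1) : ‖f z‖ ≤ ‖f 0‖ + ‖deriv f 0‖ / (1 - ‖z‖) ^ 2 := by
  obtain ⟨e, he, hze⟩ := Bieb_polar z
  rw [mem_ball_zero_iff] at hz
  set r := ‖z‖ with hr
  have hr0 : 0 ≤ r := norm_nonneg z
  set D := ‖deriv f 0‖ with hD
  have hD0 : 0 ≤ D := norm_nonneg _
  have hder : ∀ t : ℝ, 0 ≤ t → t < 1 → HasDerivAt (fun t : ℝ => f ((t : ℂ) * e))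
      (e • deriv f ((t : ℂ) * e)) t := by
    intro t h0 h1
    have h2 : HasDerivAt f (deriv f ((t : ℂ) * e)) ((t : ℂ) * e) :=
      (hf.differentiableAt (isOpen_ball.mem_nhds (Bieb_ray he h0 h1))).hasDerivAt
    exact h2.scomp t (Bieb_rayd e t)
  have hB : ∀ t : ℝ, 0 ≤ t → t < 1 →
      HasDerivAt (fun t : ℝ => ‖f 0‖ + D * (t / (1 - t) ^ 2)) (D * ((1 + t) / (1 - t) ^ 3)) t := by
    intro t h0 h1
    have h4 : (1 - t) ≠ 0 := by
      intro h
      linarith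
    have h3 : HasDerivAt (fun t : ℝ => 1 - t) (-1) t := by
      simpa using (hasDerivAt_id t).const_sub 1
    have h5 := ((((hasDerivAt_id t).fun_div (h3.fun_pow 2) (pow_ne_zero 2 h4)).const_mul D).const_add
      ‖f 0‖)
    have h6 : D * ((1 + t) / (1 - t) ^ 3) =
        D * ((1 * (1 - t) ^ 2 - id t * (((2 : ℕ) : ℝ) * (1 - t) ^ (2 - 1) * (-1))) /
          ((1 - t) ^ 2) ^ 2) := by
      simp only [id]
      push_cast
      field_simp
      ring
    rw [h6]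
    exact h5
  have h6 : ‖f ((r : ℂ) * e)‖ ≤ ‖f 0‖ + D * (r / (1 - r) ^ 2) := by
    refine image_norm_le_of_norm_deriv_right_le_deriv_boundary' (a := 0) (b := r)
      (f := fun t : ℝ => f ((t : ℂ) * e))
      (B := fun t : ℝ => ‖f 0‖ + D * (t / (1 - t) ^ 2))
      (f' := fun t : ℝ => e • deriv f ((t : ℂ) * e))
      (B' := fun t : ℝ => D * ((1 + t) / (1 - t) ^ 3)) ?_ ?_ ?_ ?_ ?_ ?_ ⟨hr0, le_refl r⟩
    · intro t ht
      exact (hder t ht.1 (lt_of_le_of_lt ht.2 hz)).continuousAt.continuousWithinAt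
    · intro t ht
      exact (hder t ht.1 (ht.2.trans hz)).hasDerivWithinAt
    · simp
    · intro t ht
      exact (hB t ht.1 (lt_of_le_of_lt ht.2 hz)).continuousAt.continuousWithinAt
    · intro t ht
      exact (hB t ht.1 (ht.2.trans hz)).hasDerivWithinAt
    · intro t ht
      have h1 := Bieb_ray he ht.1 (ht.2.trans hz)
      have h2 := deriv_growth hf hi h1
      have hn : ‖(t : ℂ) * e‖ = t := by
        rw [norm_mul, he, Complex.norm_real, Real.norm_of_nonneg ht.1, mul_one]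
      rw [hn] at h2
      rw [norm_smul, he, one_mul]
      exact h2
  rw [← hze] at h6
  refine h6.trans ?_
  have h8 : 0 < 1 - r := by linarith
  rw [div_eq_mul_inv D, div_eq_mul_inv r]
  have h9 : r * ((1 - r) ^ 2)⁻¹ ≤ ((1 - r) ^ 2)⁻¹ := by
    have : 0 ≤ ((1 - r) ^ 2)⁻¹ := by positivity
    nlinarith
  have := mul_le_mul_of_nonneg_left h9 hD0
  linarith

end Pool.Agent.Helper21.KP
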