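import Pool.Agent.Helper21.KP.KF
import Pool.Agent.Helper21.KP.Bieb
import Pool.Agent.Helper21.IM.CoverC

/-!
# KP-BD: bounds on the unit disc

`(1 - ‖z‖²) ‖pre F z‖ ≤ 14` (`pre_bound` of IM/Koebe);
Cauchy estimates on the disc of radius `(1 - ‖z‖)/2` about `z` for the first two derivatives of `pre F`
(`(1 - ‖w‖) ≥ (1 - ‖z‖)/2` there): `‖deriv (pre F) z‖ ≤ (7/((1-‖z‖)/2)) / ((1-‖z‖)/2)`, `(1-‖z‖²) ≤ 2 (1-‖z‖)`.
`hz`: the image of the ball of radius `1 - ‖z‖` about `z` contains the ball of radius `(1-‖z‖) ‖F' z‖/40` about `F z`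
(IM/CoverC.lean, applied to `F` on the unit disc) and does not contain `0`; so `(1-‖z‖) ‖F' z‖ ≤ 40 ‖F z‖`.
`cont_kf`: continuity on the closed unit disc (all functions are analytic on `ball 0 R`, `wz` is continuous).
-/

set_option autoImplicit false

namespace Pool.Agent.Helper21.KP

open Complex Metric Set Real Finset
open Pool.Agent.Helper21.IM

theorem cover_h {F : ℂ → ℂ} (hF : DifferentiableOn ℂ F (ball 0 1)) (hi : InjOn F (ball 0 1))
    (hne : ∀ z ∈ ball (0 : ℂ) 1, F z ≠ 0) {z : ℂ} (hz : z ∈ ball (0 : ℂ) 1) :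
    (1 - ‖z‖) * ‖deriv F z‖ ≤ 40 * ‖F z‖ := by
  have hz1 : ‖z‖ < 1 := by rwa [mem_ball, dist_zero_right] at hz
  by_contra hcon
  push Not at hcon
  have h1 := cover_const hF hi hz (r := 1 - ‖z‖) (by linarith) le_rfl
  have h2 : (0 : ℂ) ∈ ball (F z) ((1 - ‖z‖) / 40 * ‖deriv F z‖) := by
    rw [mem_ball, dist_eq_norm, zero_sub, norm_neg]
    linarith
  obtain ⟨w, hw, hw0⟩ := h1 h2
  refine hne w ?_ hw0
  rw [mem_ball, dist_eq_norm] at hw
  rw [mem_ball, dist_zero_right]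
  have : ‖w‖ ≤ ‖w - z‖ + ‖z‖ := by
    calc ‖w‖ = ‖(w - z) + z‖ := by rw [sub_add_cancel]
      _ ≤ _ := norm_add_le _ _
  linarith

private theorem bnd_pre_diff {F : ℂ → ℂ} {R : ℝ} (hF : DifferentiableOn ℂ F (ball 0 R))
    (hi : InjOn F (ball 0 R)) : DifferentiableOn ℂ (pre F) (ball 0 R) :=
  ((hF.deriv isOpen_ball).deriv isOpen_ball).div (hF.deriv isOpen_ball)
    (fun _ hz => deriv_ne isOpen_ball hF hi hz)

/-- Cauchy estimate with the radius `(1 - ‖z‖)/2` -/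
private theorem bnd_cauchy {f : ℂ → ℂ} (hf : DifferentiableOn ℂ f (ball 0 1)) {C : ℝ} {n : ℕ} (hC : 0 ≤ C)
    (h : ∀ z ∈ ball (0 : ℂ) 1, ‖f z‖ ≤ C / (1 - ‖z‖) ^ n) {z : ℂ} (hz : z ∈ ball (0 : ℂ) 1) :
    ‖deriv f z‖ ≤ (C * 2 ^ (n + 1)) / (1 - ‖z‖) ^ (n + 1) := by
  have hz1 : ‖z‖ < 1 := by rwa [mem_ball, dist_zero_right] at hz
  set d : ℝ := 1 - ‖z‖ with hd
  have hd0 : 0 < d := by linarith
  have hsub : ∀ w ∈ closedBall z (d / 2), d / 2 ≤ 1 - ‖w‖ := by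
    intro w hw
    rw [mem_closedBall, dist_eq_norm] at hw
    have : ‖w‖ ≤ ‖w - z‖ + ‖z‖ := by
      calc ‖w‖ = ‖(w - z) + z‖ := by rw [sub_add_cancel]
        _ ≤ _ := norm_add_le _ _
    linarith
  have hsub' : closedBall z (d / 2) ⊆ ball 0 1 := by
    intro w hw
    have := hsub w hw
    rw [mem_ball, dist_zero_right]
    linarith
  have h1 : ‖deriv f z‖ ≤ (C / (d / 2) ^ n) / (d / 2) := by
    refine Complex.norm_deriv_le_of_forall_mem_sphere_norm_le (by linarith) ?_ ?_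
    · exact (hf.mono hsub').diffContOnCl_ball le_rfl
    · intro w hw
      have hw' := sphere_subset_closedBall hw
      refine (h w (hsub' hw')).trans ?_
      exact div_le_div_of_nonneg_left hC (by positivity)
        (pow_le_pow_left₀ (by linarith) (hsub w hw') n)
  refine h1.trans (le_of_eq ?_)
  rw [div_pow, pow_succ, pow_succ]
  field_simp

theorem bnd {F ψ : ℂ → ℂ} {R t a : ℝ} (H : KF F ψ R t a) {z : ℂ} (hz' : z ∈ closedBall (0 : ℂ) 1) :
    ‖Xz F z‖ ≤ 2000 ∧ ‖Yz F z‖ ≤ 2000 ∧ ‖Zz F z‖ ≤ 2000 ∧ ‖hz F z‖ ≤ 2000 := by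
  have hs : ball (0 : ℂ) 1 ⊆ ball 0 R := ball_subset_ball H.hR.le
  have hF := H.dF.mono hs
  have hi := H.inj.mono hs
  rw [mem_closedBall, dist_zero_right] at hz'
  rcases hz'.eq_or_lt with h1 | h1
  · have hw : wz z = 0 := by
      unfold wz
      rw [h1]
      simp
    unfold Xz Yz Zz hz
    rw [hw]
    norm_num
  · have hzb : z ∈ ball (0 : ℂ) 1 := by rwa [mem_ball, dist_zero_right]
    have hd0 : 0 < 1 - ‖z‖ := by linarith
    have hn := norm_nonneg z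
    have hwz : ‖wz z‖ ≤ 2 * (1 - ‖z‖) := by
      unfold wz
      rw [norm_mul, Complex.norm_real, Real.norm_of_nonneg (by nlinarith)]
      have h2 : (1 + ‖z‖) * ‖z‖ ≤ 2 := by nlinarith
      calc (1 - ‖z‖ ^ 2) * ‖z‖ = (1 - ‖z‖) * ((1 + ‖z‖) * ‖z‖) := by ring
        _ ≤ (1 - ‖z‖) * 2 := mul_le_mul_of_nonneg_left h2 hd0.le
        _ = 2 * (1 - ‖z‖) := by ring
    have hX0 : ∀ w ∈ ball (0 : ℂ) 1, ‖pre F w‖ ≤ 7 / (1 - ‖w‖) ^ 1 := by
      intro w hw
      rw [pow_one]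
      exact pre_bound hF hi hw
    have hY0 : ∀ w ∈ ball (0 : ℂ) 1, ‖deriv (pre F) w‖ ≤ 28 / (1 - ‖w‖) ^ 2 := by
      intro w hw
      have := bnd_cauchy (bnd_pre_diff hF hi) (by norm_num) hX0 hw
      norm_num at this ⊢
      exact this
    have hZ0 : ‖deriv (deriv (pre F)) z‖ ≤ 224 / (1 - ‖z‖) ^ 3 := by
      have := bnd_cauchy ((bnd_pre_diff hF hi).deriv isOpen_ball) (by norm_num) hY0 hzb
      norm_num at this ⊢
      exact this
    have hw0 := norm_nonneg (wz z)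
    refine ⟨?_, ?_, ?_, ?_⟩
    · unfold Xz
      rw [norm_mul]
      calc ‖wz z‖ * ‖pre F z‖ ≤ (2 * (1 - ‖z‖)) * (7 / (1 - ‖z‖) ^ 1) :=
            mul_le_mul hwz (hX0 z hzb) (norm_nonneg _) (by positivity)
        _ = 14 := by field_simp; norm_num
        _ ≤ 2000 := by norm_num
    · unfold Yz
      rw [norm_mul, norm_pow]
      calc ‖wz z‖ ^ 2 * ‖deriv (pre F) z‖ ≤ (2 * (1 - ‖z‖)) ^ 2 * (28 / (1 - ‖z‖) ^ 2) :=
            mul_le_mul (pow_le_pow_left₀ hw0 hwz 2) (hY0 z hzb) (norm_nonneg _) (by positivity)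
        _ = 112 := by field_simp; norm_num
        _ ≤ 2000 := by norm_num
    · unfold Zz
      rw [norm_mul, norm_pow]
      calc ‖wz z‖ ^ 3 * ‖deriv (deriv (pre F)) z‖ ≤ (2 * (1 - ‖z‖)) ^ 3 * (224 / (1 - ‖z‖) ^ 3) :=
            mul_le_mul (pow_le_pow_left₀ hw0 hwz 3) hZ0 (norm_nonneg _) (by positivity)
        _ = 1792 := by field_simp; norm_num
        _ ≤ 2000 := by norm_num
    · unfold hz
      rw [norm_mul, norm_div]
      have hne : 0 < ‖F z‖ := norm_pos_iff.2 (H.ne z (hs hzb))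
      have hc := cover_h hF hi (fun w hw => H.ne w (hs hw)) hzb
      have h2 : ‖wz z‖ * (‖deriv F z‖ / ‖F z‖) ≤ 80 := by
        rw [← mul_div_assoc, div_le_iff₀ hne]
        calc ‖wz z‖ * ‖deriv F z‖ ≤ (2 * (1 - ‖z‖)) * ‖deriv F z‖ :=
              mul_le_mul_of_nonneg_right hwz (norm_nonneg _)
          _ ≤ 80 * ‖F z‖ := by linarith
      linarith

theorem cont_kf {F ψ : ℂ → ℂ} {R t a : ℝ} (H : KF F ψ R t a) :
    ContinuousOn ψ (closedBall 0 1) ∧ ContinuousOn (Xz F) (closedBall 0 1) ∧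
      ContinuousOn (Yz F) (closedBall 0 1) ∧ ContinuousOn (Zz F) (closedBall 0 1) ∧
      ContinuousOn (hz F) (closedBall 0 1) := by
  have hs : closedBall (0 : ℂ) 1 ⊆ ball 0 R := closedBall_subset_ball H.hR
  have hw : ContinuousOn wz (closedBall (0 : ℂ) 1) := by
    have : Continuous wz := by
      unfold wz
      exact (Complex.continuous_ofReal.comp (by fun_prop)).mul continuous_id
    exact this.continuousOn
  have hp := bnd_pre_diff H.dF H.inj
  have hp1 := hp.deriv isOpen_ball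
  have hp2 := hp1.deriv isOpen_ball
  have hq : DifferentiableOn ℂ (fun z => deriv F z / F z) (ball 0 R) :=
    (H.dF.deriv isOpen_ball).div H.dF H.ne
  exact ⟨H.dψ.continuousOn.mono hs, hw.mul (hp.continuousOn.mono hs),
    (hw.pow 2).mul (hp1.continuousOn.mono hs), (hw.pow 3).mul (hp2.continuousOn.mono hs),
    hw.mul (hq.continuousOn.mono hs)⟩

end Pool.Agent.Helper21.KP
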