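import Mathlib

/-!
# KP-DQ: the divided difference of a holomorphic function as a function of two variables

`dq F z w = ∫_0^1 F'(z + s (w - z)) ds`, `dw F z w = ∫_0^1 s F''(z + s (w - z)) ds` (the ball is convex).
Parametric integrals of jointly continuous functions (`intervalIntegral`, `hasDerivAt_integral_of_dominated_loc_of_deriv_le`,
`ContinuousOn` in both variables on compact subsets).
-/

set_option autoImplicit false

namespace Pool.Agent.Helper21.KP

open Complex Metric Set Real Finset MeasureTheory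

noncomputable def dq (F : ℂ → ℂ) (z w : ℂ) : ℂ := ∫ s in (0 : ℝ)..1, deriv F (z + s * (w - z))

noncomputable def dw (F : ℂ → ℂ) (z w : ℂ) : ℂ := ∫ s in (0 : ℝ)..1, (s : ℂ) * deriv (deriv F) (z + s * (w - z))

private theorem DQ_mem {R : ℝ} {z w : ℂ} (hz : z ∈ ball (0 : ℂ) R) (hw : w ∈ ball (0 : ℂ) R)
    {s : ℝ} (hs : s ∈ Set.Icc (0 : ℝ) 1) : z + s * (w - z) ∈ ball (0 : ℂ) R := by
  have h := (convex_ball (0 : ℂ) R).add_smul_sub_mem hz hw hs
  rwa [Complex.real_smul] at h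

private theorem DQ_cont1 {h : ℂ → ℂ} {R : ℝ} (hh : ContinuousOn h (ball 0 R)) {z w : ℂ}
    (hz : z ∈ ball (0 : ℂ) R) (hw : w ∈ ball (0 : ℂ) R) :
    ContinuousOn (fun s : ℝ => h (z + s * (w - z))) (Set.Icc (0 : ℝ) 1) := by
  refine hh.comp (Continuous.continuousOn ?_) fun s hs => DQ_mem hz hw hs
  fun_prop

/-- the parametric integrals are continuous -/
private theorem DQ_cont2 {h : ℂ → ℂ} {R : ℝ} (hh : ContinuousOn h (ball 0 R)) (φ : ℝ → ℂ)
    (hφ : Continuous φ) :
    ContinuousOn (fun p : ℂ × ℂ => ∫ s in (0 : ℝ)..1, φ s * h (p.1 + s * (p.2 - p.1)))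
      (ball 0 R ×ˢ ball 0 R) := by
  rw [continuousOn_iff_continuous_domRestrict]
  set cl : ℝ → ℝ := fun s => max 0 (min 1 s) with hcl
  have hcl1 : ∀ s, cl s ∈ Set.Icc (0 : ℝ) 1 := fun s =>
    ⟨le_max_left _ _, max_le zero_le_one (min_le_left _ _)⟩
  have hcl2 : ∀ s ∈ Set.Icc (0 : ℝ) 1, cl s = s := by
    intro s hs
    rw [hcl]
    simp only
    rw [min_eq_right hs.2, max_eq_right hs.1]
  have hclc : Continuous cl := continuous_const.max (continuous_const.min continuous_id)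
  set f : ↥(ball (0 : ℂ) R ×ˢ ball (0 : ℂ) R) → ℝ → ℂ := fun p s => φ s * h (p.1.1 + (cl s : ℂ) * (p.1.2 - p.1.1)) with hf
  have hfc : Continuous f.uncurry := by
    have h1 : Continuous fun q : ↥(ball (0 : ℂ) R ×ˢ ball (0 : ℂ) R) × ℝ => q.1.1.1 + ((cl q.2 : ℝ) : ℂ) * (q.1.1.2 - q.1.1.1) := by
      have h2 : Continuous fun q : ↥(ball (0 : ℂ) R ×ˢ ball (0 : ℂ) R) × ℝ => (q.1.1 : ℂ × ℂ) :=
        continuous_subtype_val.comp continuous_fst
      have h3 : Continuous fun q : ↥(ball (0 : ℂ) R ×ˢ ball (0 : ℂ) R) × ℝ => ((cl q.2 : ℝ) : ℂ) :=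
        Complex.continuous_ofReal.comp (hclc.comp continuous_snd)
      exact h2.fst.add (h3.mul (h2.snd.sub h2.fst))
    have h4 : Continuous fun q : ↥(ball (0 : ℂ) R ×ˢ ball (0 : ℂ) R) × ℝ => h (q.1.1.1 + ((cl q.2 : ℝ) : ℂ) * (q.1.1.2 - q.1.1.1)) :=
      hh.comp_continuous h1 fun q => DQ_mem q.1.2.1 q.1.2.2 (hcl1 q.2)
    exact (hφ.comp continuous_snd).mul h4
  have h5 := intervalIntegral.continuous_parametric_intervalIntegral_of_continuous' (μ := volume)
    hfc 0 1
  refine h5.congr fun p => ?_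
  refine intervalIntegral.integral_congr fun s hs => ?_
  rw [Set.uIcc_of_le zero_le_one] at hs
  rw [hf]
  simp only
  rw [hcl2 s hs]

theorem dq_eq {F : ℂ → ℂ} {R : ℝ} (hF : DifferentiableOn ℂ F (ball 0 R)) {z w : ℂ}
    (hz : z ∈ ball (0 : ℂ) R) (hw : w ∈ ball (0 : ℂ) R) : (w - z) * dq F z w = F w - F z := by
  have h1 : ∀ s ∈ Set.uIcc (0 : ℝ) 1, HasDerivAt (fun s : ℝ => F (z + s * (w - z)))
      (deriv F (z + s * (w - z)) * (w - z)) s := by
    intro s hs
    rw [Set.uIcc_of_le zero_le_one] at hs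
    have h2 : HasDerivAt F (deriv F (z + s * (w - z))) (z + s * (w - z)) :=
      (hF.differentiableAt (isOpen_ball.mem_nhds (DQ_mem hz hw hs))).hasDerivAt
    have h3 : HasDerivAt (fun s : ℝ => z + (s : ℂ) * (w - z)) (w - z) s := by
      have h4 := ((hasDerivAt_id s).ofReal_comp.mul_const (w - z)).const_add z
      simpa using h4
    exact HasDerivAt.comp s h2 h3
  have h5 : ContinuousOn (deriv F) (ball 0 R) := (hF.deriv isOpen_ball).continuousOn
  have h6 : IntervalIntegrable (fun s : ℝ => deriv F (z + s * (w - z)) * (w - z)) volume 0 1 := by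
    apply ContinuousOn.intervalIntegrable
    rw [Set.uIcc_of_le zero_le_one]
    exact (DQ_cont1 h5 hz hw).mul continuousOn_const
  have h7 := intervalIntegral.integral_eq_sub_of_hasDerivAt h1 h6
  rw [intervalIntegral.integral_mul_const] at h7
  have h8 : z + ((1 : ℝ) : ℂ) * (w - z) = w := by push_cast; ring
  have h9 : z + ((0 : ℝ) : ℂ) * (w - z) = z := by push_cast; ring
  rw [h8, h9] at h7
  rw [mul_comm]
  exact h7

theorem dq_diag (F : ℂ → ℂ) (z : ℂ) : dq F z z = deriv F z := by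
  simp [dq]

theorem dq_cont {F : ℂ → ℂ} {R : ℝ} (hF : DifferentiableOn ℂ F (ball 0 R)) :
    ContinuousOn (fun p : ℂ × ℂ => dq F p.1 p.2) (ball 0 R ×ˢ ball 0 R) := by
  have h5 : ContinuousOn (deriv F) (ball 0 R) := (hF.deriv isOpen_ball).continuousOn
  have h6 := DQ_cont2 h5 (fun _ => 1) continuous_const
  simp only [one_mul] at h6
  exact h6

theorem dw_cont {F : ℂ → ℂ} {R : ℝ} (hF : DifferentiableOn ℂ F (ball 0 R)) :
    ContinuousOn (fun p : ℂ × ℂ => dw F p.1 p.2) (ball 0 R ×ˢ ball 0 R) := by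
  have h5 : ContinuousOn (deriv (deriv F)) (ball 0 R) :=
    ((hF.deriv isOpen_ball).deriv isOpen_ball).continuousOn
  exact DQ_cont2 h5 (fun s => (s : ℂ)) Complex.continuous_ofReal

theorem dq_deriv {F : ℂ → ℂ} {R : ℝ} (hF : DifferentiableOn ℂ F (ball 0 R)) {z w : ℂ}
    (hz : z ∈ ball (0 : ℂ) R) (hw : w ∈ ball (0 : ℂ) R) : HasDerivAt (dq F z) (dw F z w) w := by
  have hd1 : DifferentiableOn ℂ (deriv F) (ball 0 R) := hF.deriv isOpen_ball
  have hd2 : ContinuousOn (deriv (deriv F)) (ball 0 R) := (hd1.deriv isOpen_ball).continuousOn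
  have hz' : ‖z‖ < R := by rwa [mem_ball_zero_iff] at hz
  have hw' : ‖w‖ < R := by rwa [mem_ball_zero_iff] at hw
  obtain ⟨ρ, hρ1, hρ2⟩ := exists_between (max_lt hz' hw')
  have hzρ : ‖z‖ < ρ := lt_of_le_of_lt (le_max_left _ _) hρ1
  have hwρ : ‖w‖ < ρ := lt_of_le_of_lt (le_max_right _ _) hρ1
  have hsub : closedBall (0 : ℂ) ρ ⊆ ball 0 R := closedBall_subset_ball hρ2
  obtain ⟨C, hC⟩ := (isCompact_closedBall (0 : ℂ) ρ).exists_bound_of_continuousOn (hd2.mono hsub)
  have hnb : ball (0 : ℂ) ρ ∈ nhds w := isOpen_ball.mem_nhds (by rwa [mem_ball_zero_iff])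
  have hmem : ∀ x ∈ ball (0 : ℂ) ρ, ∀ s ∈ Set.Icc (0 : ℝ) 1, z + s * (x - z) ∈ ball (0 : ℂ) ρ :=
    fun x hx s hs => DQ_mem (by rwa [mem_ball_zero_iff]) hx hs
  have hint : ∀ x ∈ ball (0 : ℂ) ρ,
      IntervalIntegrable (fun s : ℝ => deriv F (z + s * (x - z))) volume 0 1 := by
    intro x hx
    apply ContinuousOn.intervalIntegrable
    rw [Set.uIcc_of_le zero_le_one]
    exact DQ_cont1 hd1.continuousOn hz (hsub (ball_subset_closedBall hx))
  have hint2 : IntervalIntegrable (fun s : ℝ => (s : ℂ) * deriv (deriv F) (z + s * (w - z)))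
      volume 0 1 := by
    apply ContinuousOn.intervalIntegrable
    rw [Set.uIcc_of_le zero_le_one]
    exact (Complex.continuous_ofReal.continuousOn).mul (DQ_cont1 hd2 hz hw)
  have hI : ∀ s ∈ Set.uIoc (0 : ℝ) 1, s ∈ Set.Icc (0 : ℝ) 1 := by
    intro s hs
    rw [Set.uIoc_of_le zero_le_one] at hs
    exact ⟨hs.1.le, hs.2⟩
  have key := intervalIntegral.hasDerivAt_integral_of_dominated_loc_of_deriv_le
    (μ := volume) (a := 0) (b := 1) (𝕜 := ℂ)
    (F := fun x (s : ℝ) => deriv F (z + s * (x - z)))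
    (F' := fun x (s : ℝ) => (s : ℂ) * deriv (deriv F) (z + s * (x - z)))
    (x₀ := w) (s := ball (0 : ℂ) ρ) (bound := fun _ => C) hnb
    (Filter.eventually_of_mem hnb fun x hx => (intervalIntegrable_iff.1 (hint x hx)).1)
    (hint w (by rwa [mem_ball_zero_iff]))
    (intervalIntegrable_iff.1 hint2).1
    (Filter.Eventually.of_forall fun s hs x hx => by
      have h1 := hC _ (ball_subset_closedBall (hmem x hx s (hI s hs)))
      have h2 : ‖(s : ℂ)‖ ≤ 1 := by
        rw [Complex.norm_real, Real.norm_of_nonneg (hI s hs).1]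
        exact (hI s hs).2
      calc ‖(s : ℂ) * deriv (deriv F) (z + s * (x - z))‖
          = ‖(s : ℂ)‖ * ‖deriv (deriv F) (z + s * (x - z))‖ := norm_mul _ _
        _ ≤ 1 * C := mul_le_mul h2 h1 (norm_nonneg _) zero_le_one
        _ = C := one_mul C)
    intervalIntegrable_const
    (Filter.Eventually.of_forall fun s hs x hx => by
      have h1 : z + s * (x - z) ∈ ball (0 : ℂ) R :=
        hsub (ball_subset_closedBall (hmem x hx s (hI s hs)))
      have h2 : HasDerivAt (deriv F) (deriv (deriv F) (z + s * (x - z))) (z + s * (x - z)) :=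
        (hd1.differentiableAt (isOpen_ball.mem_nhds h1)).hasDerivAt
      have h3 : HasDerivAt (fun x : ℂ => z + (s : ℂ) * (x - z)) (s : ℂ) x := by
        have h4 := (((hasDerivAt_id x).sub_const z).const_mul (s : ℂ)).const_add z
        simpa using h4
      have h5 := HasDerivAt.comp x h2 h3
      rw [mul_comm] at h5
      exact h5)
  exact key.2

end Pool.Agent.Helper21.KP
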