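import Mathlib

/-!
# Algebraic definitions for the layer inequality

`th ∈ (0, 1/2)`, `B > 0`; vectors of degree `m` are functions `x : ℕ → ℂ` with `x a = 0` for `a > m`;
`x` stands for the polynomial `∑ x a z^a w^(m-a)`.
-/

set_option autoImplicit false

namespace Pool.Agent.Helper21.KP

open Finset

/-- rising factorial -/
def poc (x : ℝ) : ℕ → ℝ
  | 0 => 1
  | n + 1 => poc x n * (x + n)

/-- coefficients of `(1 - ζ)^(-th)` -/
noncomputable def cc (th : ℝ) (l : ℕ) : ℝ := poc th l / l.factorial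

/-- `∫_0^1 u^i (1-u)^k du = i! / ((k+1)(k+2)...(k+i+1))` -/
noncomputable def bw (k : ℝ) (i : ℕ) : ℝ := i.factorial / poc (k + 1) (i + 1)

/-- coefficients of `(1 - ζ)^(-th) ∑ x a ζ^a` -/
noncomputable def Yv (th : ℝ) (x : ℕ → ℂ) (i : ℕ) : ℂ :=
  ∑ p ∈ antidiagonal i, (cc th p.1 : ℂ) * x p.2

/-- vectors of degree `m` -/
def Sup (m : ℕ) (x : ℕ → ℂ) : Prop := ∀ a, m < a → x a = 0

/-- the form in degree `m` -/
noncomputable def Qf (th B : ℝ) (m : ℕ) (x y : ℕ → ℂ) : ℂ :=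
  ∑' i : ℕ, ((((m : ℝ) - i - th) * bw (2 * th - 1 + B) i : ℝ) : ℂ) *
    (Yv th x i * (starRingEnd ℂ) (Yv th y i))

/-- raising operator, degree `m` to `m + 1` -/
noncomputable def Lp (th B : ℝ) (m : ℕ) (x : ℕ → ℂ) (a : ℕ) : ℂ :=
  (if a = 0 then 0 else (((a : ℝ) + th + B : ℝ) : ℂ) * x (a - 1)) + (((m : ℝ) - a - th : ℝ) : ℂ) * x a

/-- lowering operator, degree `m` to `m - 1` -/
def Lm (m : ℕ) (x : ℕ → ℂ) (a : ℕ) : ℂ := ((a : ℂ) + 1) * x (a + 1) + ((m : ℂ) - a) * x a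

/-- coefficients of `(w - z)^N` -/
def ev (N : ℕ) (a : ℕ) : ℂ := (-1) ^ a * (N.choose a : ℂ)

/-- `L₊^M (w - z)^N`, degree `N + M` -/
noncomputable def eM (th B : ℝ) (N : ℕ) : ℕ → ℕ → ℂ
  | 0 => ev N
  | M + 1 => Lp th B (N + M) (eM th B N M)

/-- coefficients of the functional of degree `N` -/
noncomputable def tau (th B : ℝ) (N j : ℕ) : ℝ :=
  (-1) ^ j * poc (1 + th + B + j) (N - j) * poc ((N : ℝ) - j - th) j

/-- the functional of degree `N` on vectors of degree `m` -/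
noncomputable def tN (th B : ℝ) (N m : ℕ) (x : ℕ → ℂ) : ℂ :=
  ∑ j ∈ range (N + 1), (tau th B N j : ℂ) *
    ∑ a ∈ range (m + 1), (a.choose j : ℂ) * ((m - a).choose (N - j) : ℂ) * x a

/-- the form on `(w - z)^N` -/
noncomputable def qN (th B : ℝ) (N : ℕ) : ℝ := (Qf th B N (ev N) (ev N)).re

/-- weights of the layers -/
noncomputable def wN (th B : ℝ) (N : ℕ) : ℝ := qN th B N * (2 * N + B) / poc (B + N) N ^ 2

end Pool.Agent.Helper21.KP
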