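import Pool.Agent.Helper21.KP.KCert
import Pool.Agent.Helper21.IM.Par

/-!
# KP-EN: the energy inequality

`pl_lip`: `tpN (.., h) - tpN (.., 0)` is a polynomial without constant term in `h`; all arguments are bounded by
`2000`; `|‖u‖² - ‖v‖²| ≤ ‖u - v‖ (‖u‖ + ‖v‖)`.
`energy1`: `kcert` at `X = Xz F z`, ..., times `‖ψ z‖²`, integrated; `layer_num` with `pl_lip`; `rel_sum`.
`energy`: put `k = II (1/24 - 1) ‖ψ‖²`.  In `energy1` use `C * h ≤ δ + C² h² / (4 δ)`,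
and `C (1 - ‖z‖²) ≤ δ` for `‖z‖ ≥ ρ₀`, `ρ₀` close to `1`; for the part `ρ < ρ₀` of the integral: the circle averages
of `‖ψ‖²` are nondecreasing in the radius (IM/RMono.lean, IM/Mean.lean or power series: `berg_sq` and Parseval, or
subharmonicity), `∫_0^{ρ₀} 2 ρ (1-ρ²)^(B-1) dρ ≤ 1/B`.  With `δ = 1/800000` absorb `2 δ k` in the left side.
-/

set_option autoImplicit false

namespace Pool.Agent.Helper21.KP

open Complex Metric Set Real Finset MeasureTheory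
open Pool.Agent.Helper21.IM

private theorem Energy_zero (a : ℝ) (X Y Z : ℂ) : PL a X Y Z 0 = PL 0 X Y Z 0 := by
  unfold PL tp1 tp2 tp3 g0 g1 g2
  simp

theorem pl_lip (a : ℝ) : ∃ C : ℝ, 0 ≤ C ∧ ∀ X Y Z h : ℂ, ‖X‖ ≤ 2000 → ‖Y‖ ≤ 2000 → ‖Z‖ ≤ 2000 →
    ‖h‖ ≤ 2000 → |PL a X Y Z h - PL 0 X Y Z 0| ≤ C * ‖h‖ := by
  let f : ℂ × ℂ × ℂ × ℂ → ℝ := fun p => PL a p.1 p.2.1 p.2.2.1 p.2.2.2
  have hf : ContDiff ℝ 1 f := by
    have e : f = fun p => PL a p.1 p.2.1 p.2.2.1 p.2.2.2 := rfl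
    rw [e]
    unfold PL
    refine ((contDiff_const.mul (ContDiff.norm_sq ℂ ?_)).add
      (contDiff_const.mul (ContDiff.norm_sq ℂ ?_))).add (contDiff_const.mul (ContDiff.norm_sq ℂ ?_))
    · unfold tp1 g0 p1
      fun_prop
    · unfold tp2 g1 g0 p1 p2
      fun_prop
    · unfold tp3 g2 g1 g0 p1 p2 p3
      fun_prop
  have hfd : Continuous (fderiv ℝ f) := hf.continuous_fderiv (by norm_num)
  have hcpt : IsCompact (closedBall (0 : ℂ × ℂ × ℂ × ℂ) 2000) := isCompact_closedBall _ _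
  obtain ⟨C, hC⟩ := hcpt.exists_bound_of_continuousOn hfd.continuousOn
  have hC0 : 0 ≤ C := (norm_nonneg _).trans (hC 0 (mem_closedBall_self (by norm_num)))
  refine ⟨C, hC0, fun X Y Z h hX hY hZ hh => ?_⟩
  have m1 : (X, Y, Z, h) ∈ closedBall (0 : ℂ × ℂ × ℂ × ℂ) 2000 := by
    rw [mem_closedBall_zero_iff]
    simp only [Prod.norm_def]
    exact max_le hX (max_le hY (max_le hZ hh))
  have m0 : (X, Y, Z, (0 : ℂ)) ∈ closedBall (0 : ℂ × ℂ × ℂ × ℂ) 2000 := by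
    rw [mem_closedBall_zero_iff]
    simp only [Prod.norm_def]
    exact max_le hX (max_le hY (max_le hZ (by simp)))
  have h1 := (convex_closedBall (0 : ℂ × ℂ × ℂ × ℂ) 2000).norm_image_sub_le_of_norm_fderiv_le
    (f := f) (𝕜 := ℝ) (C := C) (fun x _ => hf.differentiable (by norm_num) x) hC m0 m1
  rw [← Energy_zero a]
  have h2 : ‖(X, Y, Z, h) - (X, Y, Z, (0 : ℂ))‖ = ‖h‖ := by
    simp [Prod.norm_def]
  rw [h2] at h1
  exact h1

/-- continuity of the functions of the energy -/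
private theorem Energy_cont {F ψ : ℂ → ℂ} {R t a : ℝ} (H : KF F ψ R t a) :
    ContinuousOn (fun z => ‖ψ z‖ ^ 2) (closedBall 0 1) ∧
      ContinuousOn (fun z => ‖ψ z‖ ^ 2 * ‖hz F z‖) (closedBall 0 1) ∧
      ContinuousOn (fun z => ‖ψ z‖ ^ 2 * ‖hz F z‖ ^ 2) (closedBall 0 1) ∧
      ContinuousOn (fun z => ‖ψ z‖ ^ 2 * (1 - ‖z‖ ^ 2)) (closedBall (0 : ℂ) 1) ∧
      ContinuousOn (fun z => ‖ψ z‖ ^ 2 * (‖hz F z‖ + (1 - ‖z‖ ^ 2))) (closedBall (0 : ℂ) 1) := by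
  obtain ⟨cψ, -, -, -, ch⟩ := cont_kf H
  have h1 : ContinuousOn (fun z => ‖ψ z‖ ^ 2) (closedBall 0 1) := cψ.norm.pow 2
  have h2 : ContinuousOn (fun z : ℂ => 1 - ‖z‖ ^ 2) (closedBall (0 : ℂ) 1) := by fun_prop
  exact ⟨h1, h1.mul ch.norm, h1.mul (ch.norm.pow 2), h1.mul h2, h1.mul (ch.norm.add h2)⟩

private theorem Energy_rs (L : List (ℝ × ℕ × ℕ × ℕ × ℕ × ℕ)) :
    Continuous (fun p : ℂ × ℂ × ℂ => RS L p.1 p.2.1 p.2.2) := by
  unfold RS
  induction L with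
  | nil => simpa using continuous_const
  | cons r L ih =>
    simp only [List.map_cons, List.sum_cons]
    refine Continuous.add ?_ ih
    unfold relp Dm mo
    fun_prop

private theorem Energy_pl (a : ℝ) :
    Continuous (fun p : ℂ × ℂ × ℂ × ℂ => PL a p.1 p.2.1 p.2.2.1 p.2.2.2) := by
  unfold PL tp1 tp2 tp3 g2 g1 g0 p1 p2 p3
  fun_prop

private theorem Energy_abs {s : ℝ} (hs : -1 < s) {w P S h d : ℂ → ℝ}
    (cw : ContinuousOn w (closedBall 0 1)) (cP : ContinuousOn P (closedBall 0 1))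
    (cS : ContinuousOn S (closedBall 0 1)) (ch : ContinuousOn h (closedBall 0 1))
    (cd : ContinuousOn d (closedBall 0 1)) (pw : ∀ z ∈ closedBall (0 : ℂ) 1, 0 ≤ w z)
    (pd : ∀ z ∈ closedBall (0 : ℂ) 1, 0 ≤ d z) {C1 C2 : ℝ} (hC1 : 0 ≤ C1)
    (hpt : ∀ z ∈ closedBall (0 : ℂ) 1, 1 / 200000 + S z ≤ P z + C1 * h z - 59426 / 10 ^ 6)
    (hP : II s (fun z => w z * P z) ≤ 59426 / 10 ^ 6 * II s w)
    (hS : -(C2 * II s (fun z => w z * (h z + d z))) ≤ II s (fun z => w z * S z)) :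
    1 / 200000 * II s w ≤ (C1 + C2) * II s (fun z => w z * (h z + d z)) := by
  have e1 : II s (fun z => 1 / 200000 * w z + w z * S z) ≤
      II s (fun z => w z * P z + (C1 * (w z * h z) + -(59426 / 10 ^ 6) * w z)) := by
    refine ii_mono hs ((continuousOn_const.mul cw).add (cw.mul cS))
      ((cw.mul cP).add ((continuousOn_const.mul (cw.mul ch)).add (continuousOn_const.mul cw)))
      fun z hz' => ?_
    have q := mul_nonneg (pw z hz') (sub_nonneg.2 (hpt z hz'))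
    linarith
  have f1 : II s (fun z => 1 / 200000 * w z + w z * S z) =
      II s (fun z => 1 / 200000 * w z) + II s (fun z => w z * S z) :=
    ii_add hs (continuousOn_const.mul cw) (cw.mul cS)
  have f2 : II s (fun z => w z * P z + (C1 * (w z * h z) + -(59426 / 10 ^ 6) * w z)) =
      II s (fun z => w z * P z) + II s (fun z => C1 * (w z * h z) + -(59426 / 10 ^ 6) * w z) :=
    ii_add hs (cw.mul cP) ((continuousOn_const.mul (cw.mul ch)).add (continuousOn_const.mul cw))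
  have f3 : II s (fun z => C1 * (w z * h z) + -(59426 / 10 ^ 6) * w z) =
      II s (fun z => C1 * (w z * h z)) + II s (fun z => -(59426 / 10 ^ 6) * w z) :=
    ii_add hs (continuousOn_const.mul (cw.mul ch)) (continuousOn_const.mul cw)
  rw [f1, f2, f3, ii_mul, ii_mul, ii_mul] at e1
  have e4 : II s (fun z => w z * h z) ≤ II s (fun z => w z * (h z + d z)) := by
    refine ii_mono hs (cw.mul ch) (cw.mul (ch.add cd)) fun z hz' => ?_
    have q := mul_nonneg (pw z hz') (pd z hz')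
    linarith
  have e5 := mul_le_mul_of_nonneg_left e4 hC1
  have e6 : II s (fun z => w z) = II s w := rfl
  rw [e6] at e1
  linarith

private theorem Energy_core (a : ℝ) (L : List (ℝ × ℕ × ℕ × ℕ × ℕ × ℕ))
    (kc : ∀ X Y Z : ℂ, 1 / 200000 + RS L X Y Z ≤ PL 0 X Y Z 0 - 59426 / 10 ^ 6) :
    ∃ C : ℝ, 0 ≤ C ∧ ∀ (F ψ : ℂ → ℂ) (R : ℝ), KF F ψ R (6 / 25) a →
    1 / 200000 * II (1 / 24 - 1) (fun z => ‖ψ z‖ ^ 2) ≤
      C * II (1 / 24 - 1) (fun z => ‖ψ z‖ ^ 2 * (‖hz F z‖ + (1 - ‖z‖ ^ 2))) := by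
  obtain ⟨C1, hC1, h1⟩ := pl_lip a
  obtain ⟨C2, hC2, h2⟩ := rel_sum a L
  refine ⟨C1 + C2, by positivity, fun F ψ R H => ?_⟩
  obtain ⟨cψ, cX, cY, cZ, ch⟩ := cont_kf H
  have cRS : ContinuousOn (fun z => RS L (Xz F z) (Yz F z) (Zz F z)) (closedBall 0 1) := by
    have h := (Energy_rs L).comp_continuousOn (cX.prodMk (cY.prodMk cZ))
    exact h
  have cPL : ContinuousOn (fun z => PL a (Xz F z) (Yz F z) (Zz F z) (hz F z)) (closedBall 0 1) := by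
    have h := (Energy_pl a).comp_continuousOn (cX.prodMk (cY.prodMk (cZ.prodMk ch)))
    exact h
  have hs : (-1 : ℝ) < 1 / 24 - 1 := by norm_num
  have hpd : ∀ z ∈ closedBall (0 : ℂ) 1, 0 ≤ 1 - ‖z‖ ^ 2 := by
    intro z hz'
    have q4 : ‖z‖ ≤ 1 := by simpa using hz'
    have := norm_nonneg z
    nlinarith
  have hpt : ∀ z ∈ closedBall (0 : ℂ) 1, 1 / 200000 + RS L (Xz F z) (Yz F z) (Zz F z) ≤
      PL a (Xz F z) (Yz F z) (Zz F z) (hz F z) + C1 * ‖hz F z‖ - 59426 / 10 ^ 6 := by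
    intro z hz'
    obtain ⟨b1, b2, b3, b4⟩ := bnd H hz'
    have q1 := kc (Xz F z) (Yz F z) (Zz F z)
    have q2 := (abs_le.1 (h1 _ _ _ _ b1 b2 b3 b4)).1
    linarith
  have h3 := (abs_le.1 (h2 F ψ R H)).1
  have h4 := layer_num H
  exact Energy_abs (w := fun z => ‖ψ z‖ ^ 2) (h := fun z => ‖hz F z‖)
    (d := fun z => 1 - ‖z‖ ^ 2) hs (cψ.norm.pow 2) cPL cRS ch.norm (by fun_prop)
    (fun z _ => sq_nonneg _) hpd hC1 hpt h4 h3

theorem energy1 (a : ℝ) : ∃ C : ℝ, 0 ≤ C ∧ ∀ (F ψ : ℂ → ℂ) (R : ℝ), KF F ψ R (6 / 25) a →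
    1 / 200000 * II (1 / 24 - 1) (fun z => ‖ψ z‖ ^ 2) ≤
      C * II (1 / 24 - 1) (fun z => ‖ψ z‖ ^ 2 * (‖hz F z‖ + (1 - ‖z‖ ^ 2))) :=
  Energy_core a relL kcert

theorem circ_mono {ψ : ℂ → ℂ} {R : ℝ} (hψ : DifferentiableOn ℂ ψ (ball 0 R)) {r s : ℝ} (h0 : 0 ≤ r)
    (h : r ≤ s) (hs : s < R) :
    circleAverage (fun z => ‖ψ z‖ ^ 2) 0 r ≤ circleAverage (fun z => ‖ψ z‖ ^ 2) 0 s := by
  obtain ⟨T, hT1, hT2⟩ := exists_between hs
  have hT : 0 < T := (h0.trans h).trans_lt hT1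
  have hd : DifferentiableOn ℂ (fun z => ψ ((T : ℂ) * z)) (ball 0 1) := by
    refine hψ.comp (by fun_prop) fun z hz => ?_
    rw [mem_ball_zero_iff] at hz ⊢
    rw [norm_mul, Complex.norm_real, Real.norm_eq_abs, abs_of_pos hT]
    nlinarith [norm_nonneg z]
  obtain ⟨a, ha⟩ := ps_exists hd
  have e : ∀ x : ℝ, circleAverage (fun z => ‖ψ z‖ ^ 2) 0 x =
      circleAverage (fun z => ‖(fun z => ψ ((T : ℂ) * z)) z‖ ^ 2) 0 (x / T) := by
    intro x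
    unfold circleAverage
    congr 1
    refine intervalIntegral.integral_congr fun θ _ => ?_
    have h1 : circleMap 0 x θ = (T : ℂ) * circleMap 0 (x / T) θ := by
      unfold circleMap
      have : (T : ℂ) ≠ 0 := by exact_mod_cast hT.ne'
      push_cast
      field_simp
      ring
    show ‖ψ (circleMap 0 x θ)‖ ^ 2 = ‖ψ ((T : ℂ) * circleMap 0 (x / T) θ)‖ ^ 2
    rw [h1]
  rw [e r, e s]
  exact mean_mono ha (by positivity) (by gcongr) ((div_lt_one hT).2 hT1)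

/-- the weight `1 - ‖z‖²` is small near the circle, the rest of the disc is controlled by one circle -/
private theorem Energy_inner {ψ : ℂ → ℂ} {R : ℝ} (hR : 1 < R) (hψ : DifferentiableOn ℂ ψ (ball 0 R))
    {C δ ρ₀ : ℝ} (hC : 0 ≤ C) (hδ : 0 < δ) (h0 : 0 < ρ₀) (h1 : ρ₀ < 1)
    (hρ : C * (1 - ρ₀ ^ 2) ≤ δ) :
    C * II (1 / 24 - 1) (fun z => ‖ψ z‖ ^ 2 * (1 - ‖z‖ ^ 2)) ≤
      δ * II (1 / 24 - 1) (fun z => ‖ψ z‖ ^ 2) +
        24 * C * circleAverage (fun z => ‖ψ z‖ ^ 2) 0 ρ₀ := by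
  have hs : (-1 : ℝ) < 1 / 24 - 1 := by norm_num
  have hcl : closedBall (0 : ℂ) 1 ⊆ ball 0 R := closedBall_subset_ball hR
  have k1 : ContinuousOn (fun z => ‖ψ z‖ ^ 2) (closedBall 0 1) :=
    (hψ.continuousOn.mono hcl).norm.pow 2
  have k2 : ContinuousOn (fun z => ‖ψ z‖ ^ 2 * (1 - ‖z‖ ^ 2)) (closedBall (0 : ℂ) 1) :=
    k1.mul (by fun_prop)
  set M : ℝ := circleAverage (fun z => ‖ψ z‖ ^ 2) 0 ρ₀ with hM
  have hb := bw_int hs 0
  have hc24 : II (1 / 24 - 1) (fun _ => C * M) = 24 * C * M := by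
    unfold II
    simp only [circleAverage_const]
    rw [intervalIntegral.integral_mul_const]
    have e1 : ∫ ρ in (0 : ℝ)..1, 2 * ρ * (1 - ρ ^ 2) ^ ((1 : ℝ) / 24 - 1) = bw (1 / 24 - 1) 0 := by
      rw [← hb.2]
      refine intervalIntegral.integral_congr fun ρ _ => ?_
      simp
    rw [e1]
    unfold bw
    simp only [Nat.factorial, poc]
    norm_num
    ring
  have e2 : C * II (1 / 24 - 1) (fun z => ‖ψ z‖ ^ 2 * (1 - ‖z‖ ^ 2)) =
      II (1 / 24 - 1) (fun z => C * (‖ψ z‖ ^ 2 * (1 - ‖z‖ ^ 2))) := (ii_mul _ _ _).symm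
  have e3 : δ * II (1 / 24 - 1) (fun z => ‖ψ z‖ ^ 2) + 24 * C * M =
      II (1 / 24 - 1) (fun z => δ * ‖ψ z‖ ^ 2 + C * M) := by
    have q : II (1 / 24 - 1) (fun z => δ * ‖ψ z‖ ^ 2 + C * M) =
        II (1 / 24 - 1) (fun z => δ * ‖ψ z‖ ^ 2) + II (1 / 24 - 1) (fun _ => C * M) :=
      ii_add hs (continuousOn_const.mul k1) continuousOn_const
    rw [q, hc24, ii_mul]
  rw [e2, e3]
  unfold II
  refine intervalIntegral.integral_mono_on zero_le_one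
    (ii_intble hs (continuousOn_const.mul k2))
    (ii_intble hs ((continuousOn_const.mul k1).add continuousOn_const)) fun ρ hρ' => ?_
  have w0 : 0 ≤ 2 * ρ * (1 - ρ ^ 2) ^ ((1 : ℝ) / 24 - 1) := by
    have : 0 ≤ 1 - ρ ^ 2 := by nlinarith [hρ'.1, hρ'.2]
    have := hρ'.1
    positivity
  refine mul_le_mul_of_nonneg_left ?_ w0
  have hsub : sphere (0 : ℂ) |ρ| ⊆ closedBall 0 1 := by
    intro z hz
    rw [mem_sphere_zero_iff_norm, abs_of_nonneg hρ'.1] at hz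
    rw [mem_closedBall_zero_iff, hz]
    exact hρ'.2
  have hci : CircleIntegrable (fun z => δ * ‖ψ z‖ ^ 2) 0 ρ :=
    ContinuousOn.circleIntegrable' ((continuousOn_const.mul k1).mono hsub)
  have e4 : circleAverage (fun z => C * (‖ψ z‖ ^ 2 * (1 - ‖z‖ ^ 2))) 0 ρ =
      C * (1 - ρ ^ 2) * circleAverage (fun z => ‖ψ z‖ ^ 2) 0 ρ := by
    rw [← smul_eq_mul, ← circleAverage_fun_smul]
    refine circleAverage_congr_sphere fun z hz => ?_
    rw [mem_sphere_zero_iff_norm, abs_of_nonneg hρ'.1] at hz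
    simp only [smul_eq_mul, hz]
    ring
  have e5 : circleAverage (fun z => δ * ‖ψ z‖ ^ 2 + C * M) 0 ρ =
      δ * circleAverage (fun z => ‖ψ z‖ ^ 2) 0 ρ + C * M := by
    rw [circleAverage_fun_add hci (circleIntegrable_const _ _ _), circleAverage_const]
    congr 1
    rw [← smul_eq_mul, ← circleAverage_fun_smul]
    rfl
  rw [e4, e5]
  have p0 : 0 ≤ circleAverage (fun z => ‖ψ z‖ ^ 2) 0 ρ :=
    circleAverage_nonneg_of_nonneg fun z _ => sq_nonneg _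
  have pM : 0 ≤ M := circleAverage_nonneg_of_nonneg fun z _ => sq_nonneg _
  rcases le_total ρ ρ₀ with h | h
  · have q1 := circ_mono hψ hρ'.1 h (h1.trans hR)
    have q2 : C * (1 - ρ ^ 2) ≤ C := by nlinarith [mul_nonneg hC (sq_nonneg ρ)]
    have q3 := mul_le_mul_of_nonneg_right q2 p0
    have q4 := mul_le_mul_of_nonneg_left q1 hC
    have q5 := mul_nonneg hδ.le p0
    linarith
  · have q1 : C * (1 - ρ ^ 2) ≤ δ := by
      have : ρ₀ ^ 2 ≤ ρ ^ 2 := by gcongr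
      nlinarith [mul_le_mul_of_nonneg_left this hC]
    have q3 := mul_le_mul_of_nonneg_right q1 p0
    have q4 := mul_nonneg hC pM
    linarith

theorem energy (a : ℝ) : ∃ C ρ₀ : ℝ, 0 ≤ C ∧ 0 < ρ₀ ∧ ρ₀ < 1 ∧ ∀ (F ψ : ℂ → ℂ) (R : ℝ),
    KF F ψ R (6 / 25) a →
      II (1 / 24 - 1) (fun z => ‖ψ z‖ ^ 2) ≤
        C * II (1 / 24 - 1) (fun z => ‖ψ z‖ ^ 2 * ‖hz F z‖ ^ 2) +
          C * circleAverage (fun z => ‖ψ z‖ ^ 2) 0 ρ₀ := by
  obtain ⟨C, hC, hen⟩ := energy1 a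
  have hs : (-1 : ℝ) < 1 / 24 - 1 := by norm_num
  -- the radius
  obtain ⟨ρ₀, h0, h1, hρ⟩ : ∃ ρ₀ : ℝ, 0 < ρ₀ ∧ ρ₀ < 1 ∧ C * (1 - ρ₀ ^ 2) ≤ 1 / 800000 := by
    refine ⟨1 - 1 / (1600000 * (C + 1)), ?_, ?_, ?_⟩
    · have : 1 / (1600000 * (C + 1)) < 1 := by
        rw [div_lt_one (by positivity)]
        linarith
      linarith
    · have : 0 < 1 / (1600000 * (C + 1)) := by positivity
      linarith
    · set e : ℝ := 1 / (1600000 * (C + 1)) with he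
      have he0 : 0 < e := by positivity
      have he1 : e * (C + 1) = 1 / 1600000 := by
        rw [he]
        field_simp
      have h2 : C * (1 - (1 - e) ^ 2) = C * e * (2 - e) := by ring
      rw [h2]
      nlinarith [mul_nonneg hC he0.le, mul_nonneg (mul_nonneg hC he0.le) he0.le]
  refine ⟨400000 * (200000 * C ^ 2 + 24 * C), ρ₀, by positivity, h0, h1, fun F ψ R H => ?_⟩
  obtain ⟨k1, k2, k3, k4, k5⟩ := Energy_cont H
  have e1 := hen F ψ R H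
  have e2 := Energy_inner H.hR H.dψ hC (by norm_num : (0 : ℝ) < 1 / 800000) h0 h1 hρ
  have e3 : II (1 / 24 - 1) (fun z => ‖ψ z‖ ^ 2 * (‖hz F z‖ + (1 - ‖z‖ ^ 2))) =
      II (1 / 24 - 1) (fun z => ‖ψ z‖ ^ 2 * ‖hz F z‖) +
        II (1 / 24 - 1) (fun z => ‖ψ z‖ ^ 2 * (1 - ‖z‖ ^ 2)) := by
    rw [← ii_add hs k2 k4]
    congr 1
    funext z
    ring
  have e4 : II (1 / 24 - 1) (fun z => C * (‖ψ z‖ ^ 2 * ‖hz F z‖)) ≤
      II (1 / 24 - 1) (fun z => 1 / 800000 * ‖ψ z‖ ^ 2 +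
        200000 * C ^ 2 * (‖ψ z‖ ^ 2 * ‖hz F z‖ ^ 2)) := by
    refine ii_mono hs (continuousOn_const.mul k2)
      ((continuousOn_const.mul k1).add (continuousOn_const.mul k3)) fun z _ => ?_
    have q : C * ‖hz F z‖ ≤ 1 / 800000 + 200000 * C ^ 2 * ‖hz F z‖ ^ 2 := by
      nlinarith [sq_nonneg (400000 * C * ‖hz F z‖ - 1)]
    nlinarith [mul_le_mul_of_nonneg_left q (sq_nonneg ‖ψ z‖)]
  have e5 : II (1 / 24 - 1) (fun z => 1 / 800000 * ‖ψ z‖ ^ 2 +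
        200000 * C ^ 2 * (‖ψ z‖ ^ 2 * ‖hz F z‖ ^ 2)) =
      1 / 800000 * II (1 / 24 - 1) (fun z => ‖ψ z‖ ^ 2) +
        200000 * C ^ 2 * II (1 / 24 - 1) (fun z => ‖ψ z‖ ^ 2 * ‖hz F z‖ ^ 2) := by
    rw [← ii_mul, ← ii_mul]
    exact ii_add hs (continuousOn_const.mul k1) (continuousOn_const.mul k3)
  rw [ii_mul, e5] at e4
  rw [e3, mul_add] at e1
  have p1 : 0 ≤ II (1 / 24 - 1) (fun z => ‖ψ z‖ ^ 2 * ‖hz F z‖ ^ 2) := by
    have h := ii_mono hs (continuousOn_const (c := (0 : ℝ))) k3 fun z _ => by positivity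
    have h' : II (1 / 24 - 1) (fun _ => (0 : ℝ)) = 0 := by
      have := ii_mul (1 / 24 - 1) 0 (fun _ => (0 : ℝ))
      simpa using this
    rwa [h'] at h
  have p2 : 0 ≤ circleAverage (fun z => ‖ψ z‖ ^ 2) 0 ρ₀ :=
    circleAverage_nonneg_of_nonneg fun z _ => sq_nonneg _
  have q1 : 0 ≤ C * circleAverage (fun z => ‖ψ z‖ ^ 2) 0 ρ₀ := mul_nonneg hC p2
  have q2 : 0 ≤ C ^ 2 * circleAverage (fun z => ‖ψ z‖ ^ 2) 0 ρ₀ := mul_nonneg (sq_nonneg C) p2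
  have q3 : 0 ≤ C * II (1 / 24 - 1) (fun z => ‖ψ z‖ ^ 2 * ‖hz F z‖ ^ 2) := mul_nonneg hC p1
  linarith

end Pool.Agent.Helper21.KP
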