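import Pool.Agent.Helper21.KP.Phi
import Pool.Agent.Helper21.KP.Energy

/-!
# KP-JA: circle means of `‖F'‖² ‖F‖^(-b)`

`ρ₁ = (1 + ρ)/2`, `G z = F (ρ₁ z)` (`dil`), `psi_exists` (`t = 2`, `a = -b`, `R = 1/ρ₁`): the circle averages `m s` of
`‖G'‖² ‖G‖^(-b)` are nondecreasing (`circ_mono`); `area_pow` with `η = 2 - b`, `M = C (1-ρ₁)^(-2)` (`growth2`):
`m (ρ/ρ₁) (1 - (ρ/ρ₁)²) ≤ ∫_0^1 2 s m s ds ≤ 2 M^(2-b)/(2-b)`, `m (ρ/ρ₁) = ρ₁² * (average at ρ)`,
`1 - (ρ/ρ₁)² ≥ 1 - ρ/ρ₁ ≥ (1-ρ)/2`.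
-/

set_option autoImplicit false

namespace Pool.Agent.Helper21.KP

open Complex Metric Set Real Finset MeasureTheory
open Pool.Agent.Helper21.IM

/-- rescaling of a circle average -/
private theorem JArea_scale (f : ℂ → ℝ) (r s : ℝ) :
    circleAverage (fun z => f (r * z)) 0 s = circleAverage f 0 (r * s) := by
  rw [circleAverage_def, circleAverage_def]
  congr 2
  funext θ
  congr 1
  simp only [circleMap, zero_add]
  push_cast
  ring

/-- a lower bound for the integral of a nondecreasing function -/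
private theorem JArea_low {m : ℝ → ℝ} {σ : ℝ} (h0 : 0 ≤ σ) (h1 : σ ≤ 1)
    (hm : MonotoneOn m (Icc 0 1)) (hnn : ∀ s, 0 ≤ m s) :
    m σ * (1 - σ ^ 2) ≤ ∫ s in (0 : ℝ)..1, 2 * s * m s := by
  have hmi : IntervalIntegrable m volume 0 1 := by
    apply MonotoneOn.intervalIntegrable
    rwa [Set.uIcc_of_le zero_le_one]
  have hint : IntervalIntegrable (fun s => 2 * s * m s) volume 0 1 :=
    hmi.continuousOn_mul (by fun_prop)
  have hσ : σ ∈ uIcc (0 : ℝ) 1 := by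
    rw [Set.uIcc_of_le zero_le_one]
    exact ⟨h0, h1⟩
  have hi1 : IntervalIntegrable (fun s => 2 * s * m s) volume 0 σ :=
    hint.mono_set (uIcc_subset_uIcc left_mem_uIcc hσ)
  have hi2 : IntervalIntegrable (fun s => 2 * s * m s) volume σ 1 :=
    hint.mono_set (uIcc_subset_uIcc hσ right_mem_uIcc)
  rw [← intervalIntegral.integral_add_adjacent_intervals hi1 hi2]
  have e1 : 0 ≤ ∫ s in (0 : ℝ)..σ, 2 * s * m s :=
    intervalIntegral.integral_nonneg h0 fun s hs =>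
      mul_nonneg (by linarith [hs.1]) (hnn s)
  have e2 : ∫ s in σ..1, 2 * s * m σ ≤ ∫ s in σ..1, 2 * s * m s := by
    have hc : Continuous fun s : ℝ => 2 * s * m σ := by fun_prop
    refine intervalIntegral.integral_mono_on h1 (hc.intervalIntegrable _ _) hi2 fun s hs => ?_
    have hs0 : 0 ≤ s := h0.trans hs.1
    exact mul_le_mul_of_nonneg_left (hm ⟨h0, h1⟩ ⟨hs0, hs.2⟩ hs.1) (by linarith)
  have e3 : ∫ s in σ..1, 2 * s * m σ = m σ * (1 - σ ^ 2) := by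
    have : (fun s : ℝ => 2 * s * m σ) = fun s => (2 * m σ) * s := by
      funext s
      ring
    rw [this, intervalIntegral.integral_const_mul, integral_id]
    ring
  linarith

theorem j_area {F : ℂ → ℂ} (hF : DifferentiableOn ℂ F (ball 0 1)) (hi : InjOn F (ball 0 1))
    (hne : ∀ z ∈ ball (0 : ℂ) 1, F z ≠ 0) {b : ℝ} (hb : b < 2) :
    ∃ C : ℝ, 0 < C ∧ ∀ ρ : ℝ, 0 ≤ ρ → ρ < 1 →
      circleAverage (fun z => ‖deriv F z‖ ^ 2 * ‖F z‖ ^ (-b)) 0 ρ ≤ C * (1 - ρ) ^ (-(5 - 2 * b)) := by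
  have h00 : (0 : ℂ) ∈ ball (0 : ℂ) 1 := by simp
  set K : ℝ := ‖F 0‖ + ‖deriv F 0‖ with hKdef
  have hK : 0 < K := by
    have := norm_pos_iff.2 (hne 0 h00)
    positivity
  have hη : 0 < 2 - b := by linarith
  refine ⟨16 * (K ^ (2 - b) * 2 ^ (2 * (2 - b))) / (2 - b), by positivity, fun ρ hρ0 hρ1 => ?_⟩
  set r : ℝ := (1 + ρ) / 2 with hr
  have hr0 : 0 < r := by rw [hr]; linarith
  have hr12 : 1 / 2 ≤ r := by rw [hr]; linarith
  have hr1 : r < 1 := by rw [hr]; linarith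
  have hR : 1 < 1 / r := by rw [one_lt_div hr0]; exact hr1
  obtain ⟨hG, hGi, hGn, hGd⟩ := dil hF hi hne hr0 hr1
  set G : ℂ → ℂ := fun z => F (r * z) with hGdef
  obtain ⟨ψ, hkf, hψ⟩ := psi_exists hR hG hGi hGn 2 (-b)
  set m : ℝ → ℝ := fun s => circleAverage (fun z => ‖ψ z‖ ^ 2) 0 s with hm
  have hmono : MonotoneOn m (Icc 0 1) := by
    intro s hs s' hs' hss
    exact circ_mono hkf.dψ hs.1 hss (lt_of_le_of_lt hs'.2 hR)
  have hnn : ∀ s, 0 ≤ m s := fun s =>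
    circleAverage_nonneg_of_nonneg fun z _ => sq_nonneg _
  -- the point `ρ / r`
  set σ : ℝ := ρ / r with hσ
  have hσ0 : 0 ≤ σ := by positivity
  have hσ1 : σ ≤ 1 := by
    rw [hσ, div_le_one hr0, hr]
    linarith
  have hlow := JArea_low hσ0 hσ1 hmono hnn
  -- the upper bound
  have hM : ∀ z ∈ ball (0 : ℂ) 1, ‖G z‖ ≤ K / (1 - r) ^ 2 := by
    intro z hz
    have hzn : ‖z‖ < 1 := by rwa [mem_ball, dist_zero_right] at hz
    have hwn : ‖(r : ℂ) * z‖ = r * ‖z‖ := by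
      rw [norm_mul, Complex.norm_real, Real.norm_of_nonneg hr0.le]
    have hw1 : r * ‖z‖ ≤ r := by
      have := mul_le_mul_of_nonneg_left hzn.le hr0.le
      rwa [mul_one] at this
    have hw : (r : ℂ) * z ∈ ball (0 : ℂ) 1 := by
      rw [mem_ball, dist_zero_right, hwn]
      linarith
    have h1 := growth2 hF hi hw
    rw [hwn] at h1
    have h1r : 0 < 1 - r := by linarith
    have h2 : (1 - r) ^ 2 ≤ (1 - r * ‖z‖) ^ 2 := pow_le_pow_left₀ h1r.le (by linarith) 2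
    have h3 : (1 - r) ^ 2 ≤ 1 := pow_le_one₀ h1r.le (by linarith)
    have h4 : 0 < (1 - r) ^ 2 := by positivity
    refine h1.trans ?_
    rw [hKdef, add_div]
    refine add_le_add ?_ (div_le_div_of_nonneg_left (norm_nonneg _) h4 h2)
    rw [le_div_iff₀ h4]
    calc ‖F 0‖ * (1 - r) ^ 2 ≤ ‖F 0‖ * 1 := mul_le_mul_of_nonneg_left h3 (norm_nonneg _)
      _ = ‖F 0‖ := mul_one _
  have harea := area_pow hR hG hGi hGn hη hM
  have hfun : ∀ s ∈ Ioo (0 : ℝ) (1 / r), circleAverage (fun z => ‖deriv G z‖ ^ 2 * ‖G z‖ ^ (2 - b - 2)) 0 s = m s := by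
    intro s hs
    refine circleAverage_congr_sphere fun z hz => ?_
    rw [mem_sphere_zero_iff_norm, abs_of_pos hs.1] at hz
    have hzR : z ∈ ball (0 : ℂ) (1 / r) := by
      rw [mem_ball, dist_zero_right, hz]
      exact hs.2
    have e : (2 - b - 2 : ℝ) = -b := by ring
    rw [hψ z hzR, e, Real.rpow_two]
  have hI : ∫ s in (0 : ℝ)..1, 2 * s * circleAverage (fun z => ‖deriv G z‖ ^ 2 * ‖G z‖ ^ (2 - b - 2)) 0 s =
      ∫ s in (0 : ℝ)..1, 2 * s * m s := by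
    rw [intervalIntegral.integral_of_le zero_le_one, intervalIntegral.integral_of_le zero_le_one]
    refine setIntegral_congr_fun measurableSet_Ioc fun s hs => ?_
    rw [hfun s ⟨hs.1, lt_of_le_of_lt hs.2 hR⟩]
  rw [hI] at harea
  have h1 : m σ * (1 - σ ^ 2) ≤ 2 * (K / (1 - r) ^ 2) ^ (2 - b) / (2 - b) := hlow.trans harea
  -- the average at `ρ`
  have h2 : m σ = r ^ 2 * circleAverage (fun z => ‖deriv F z‖ ^ 2 * ‖F z‖ ^ (-b)) 0 ρ := by
    have hrσ : r * σ = ρ := by rw [hσ]; field_simp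
    rw [← hrσ, ← JArea_scale, ← smul_eq_mul, ← circleAverage_fun_smul]
    refine circleAverage_congr_sphere fun z hz => ?_
    rw [mem_sphere_zero_iff_norm, abs_of_nonneg hσ0] at hz
    have hzR : z ∈ ball (0 : ℂ) (1 / r) := by
      rw [mem_ball, dist_zero_right, hz]
      exact lt_of_le_of_lt hσ1 hR
    simp only [smul_eq_mul]
    rw [hψ z hzR, hGd z hzR, Real.rpow_two, norm_mul, Complex.norm_real,
      Real.norm_of_nonneg hr0.le, mul_pow, mul_assoc]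
  set A : ℝ := circleAverage (fun z => ‖deriv F z‖ ^ 2 * ‖F z‖ ^ (-b)) 0 ρ with hA
  have hA0 : 0 ≤ A := circleAverage_nonneg_of_nonneg fun z _ => by positivity
  have hd : 0 < 1 - ρ := by linarith
  have h3 : (1 - ρ) / 2 ≤ 1 - σ ^ 2 := by
    have e1 : 1 - σ = (1 - ρ) / 2 / r := by
      rw [hσ, hr]
      field_simp
      ring
    have e2 : (1 - ρ) / 2 ≤ (1 - ρ) / 2 / r := by
      rw [le_div_iff₀ hr0]
      have := mul_le_mul_of_nonneg_left hr1.le (by linarith : 0 ≤ (1 - ρ) / 2)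
      linarith
    nlinarith
  have h4 : (1 : ℝ) / 4 ≤ r ^ 2 := by nlinarith
  have h5 : 1 / 4 * A * ((1 - ρ) / 2) ≤ m σ * (1 - σ ^ 2) := by
    rw [h2]
    exact mul_le_mul (mul_le_mul_of_nonneg_right h4 hA0) h3 (by linarith) (by positivity)
  have h6 : (K / (1 - r) ^ 2) ^ (2 - b) =
      K ^ (2 - b) * 2 ^ (2 * (2 - b)) * (1 - ρ) ^ (-(2 * (2 - b))) := by
    have e1 : 1 - r = (1 - ρ) / 2 := by rw [hr]; ring
    rw [e1, Real.div_rpow hK.le (by positivity), ← Real.rpow_natCast ((1 - ρ) / 2) 2,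
      ← Real.rpow_mul (by positivity), Real.div_rpow hd.le (by norm_num), Real.rpow_neg hd.le]
    push_cast
    field_simp
  have h7 : A * (1 - ρ) ≤ 16 * (K ^ (2 - b) * 2 ^ (2 * (2 - b))) / (2 - b) *
      (1 - ρ) ^ (-(2 * (2 - b))) := by
    have h8 := h5.trans h1
    rw [h6] at h8
    have e : 16 * (K ^ (2 - b) * 2 ^ (2 * (2 - b))) / (2 - b) * (1 - ρ) ^ (-(2 * (2 - b))) =
        8 * (2 * (K ^ (2 - b) * 2 ^ (2 * (2 - b)) * (1 - ρ) ^ (-(2 * (2 - b)))) / (2 - b)) := by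
      ring
    rw [e]
    linarith
  have h9 : (1 - ρ) ^ (-(5 - 2 * b)) = (1 - ρ) ^ (-(2 * (2 - b))) / (1 - ρ) := by
    rw [← Real.rpow_sub_one hd.ne']
    congr 1
    ring
  rw [h9, ← mul_div_assoc, le_div_iff₀ hd]
  exact h7

end Pool.Agent.Helper21.KP
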