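import Pool.Agent.Helper21.KP.JMean
import Pool.Agent.Helper21.KP.JArea

/-!
# KP-JH: interpolation

`t = 6/25`.  `371/1000 ≤ lam < 2`: `v = (lam - t)/(2 - t)`, `b = 1999999/1000000`, `a = b v/(1-v)`; then
`2 a = (b/2) * (4 (lam - t)/(2 - lam)) ≥ (b/2) * (524/1629) > 1/24 + 7/25`.  With `P = ‖F'‖^t ‖F‖^a`, `Q = ‖F'‖² ‖F‖^(-b)`
one has `P^(1-v) Q^v = ‖F'‖^lam`; Hölder's inequality for the circle average (`circleAverage` is an integral over a
probability measure; all functions are continuous on the circle; `Real.inner_le_Lp_mul_Lq`-type for integrals or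
`integral_mul_le_Lp_mul_Lq_of_nonneg`), `j_mean`, `j_area`;
`(1-v) (3 t + 2 a - 1) + v (5 - 2 b) = 3 lam - 1`.
`lam ≥ 2`: `‖F' z‖ ≤ C (1-ρ)^(-3)` (`deriv_growth`), `‖F'‖^lam = ‖F'‖^(lam-2) ‖F'‖²`, `j_area` with `b = 0`.
-/

set_option autoImplicit false

namespace Pool.Agent.Helper21.KP

open Complex Metric Set Real Finset MeasureTheory
open Pool.Agent.Helper21.IM

private theorem JHold_sphere {ρ : ℝ} (h0 : 0 ≤ ρ) (h1 : ρ < 1) {z : ℂ}
    (hz : z ∈ sphere (0 : ℂ) |ρ|) : z ∈ ball (0 : ℂ) 1 ∧ ‖z‖ = ρ := by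
  rw [abs_of_nonneg h0, mem_sphere_zero_iff_norm] at hz
  exact ⟨by rw [mem_ball_zero_iff, hz]; exact h1, hz⟩

private theorem JHold_cont {F : ℂ → ℂ} (hF : DifferentiableOn ℂ F (ball 0 1))
    (hne : ∀ z ∈ ball (0 : ℂ) 1, F z ≠ 0) {s c : ℝ} (hs : 0 ≤ s) {ρ : ℝ} (h0 : 0 ≤ ρ)
    (h1 : ρ < 1) : CircleIntegrable (fun z => ‖deriv F z‖ ^ s * ‖F z‖ ^ c) 0 ρ := by
  apply ContinuousOn.circleIntegrable'
  have hsub : sphere (0 : ℂ) |ρ| ⊆ ball 0 1 := fun z hz => (JHold_sphere h0 h1 hz).1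
  have hd : ContinuousOn (fun z => ‖deriv F z‖) (sphere (0 : ℂ) |ρ|) :=
    ((hF.deriv isOpen_ball).continuousOn.mono hsub).norm
  have hf : ContinuousOn (fun z => ‖F z‖) (sphere (0 : ℂ) |ρ|) := (hF.continuousOn.mono hsub).norm
  exact (hd.rpow_const fun z _ => Or.inr hs).mul
    (hf.rpow_const fun z hz => Or.inl (norm_ne_zero_iff.2 (hne z (hsub hz))))

private theorem JHold_sq {F : ℂ → ℂ} {b : ℝ} :
    (fun z => ‖deriv F z‖ ^ 2 * ‖F z‖ ^ (-b)) =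
      fun z => ‖deriv F z‖ ^ (2 : ℝ) * ‖F z‖ ^ (-b) := by
  funext z
  rw [Real.rpow_two]

private theorem JHold_small {F : ℂ → ℂ} (hF : DifferentiableOn ℂ F (ball 0 1))
    (hi : InjOn F (ball 0 1)) (hne : ∀ z ∈ ball (0 : ℂ) 1, F z ≠ 0) {lam : ℝ}
    (hl : 371 / 1000 ≤ lam) (hl2 : lam < 2) :
    ∃ C : ℝ, 0 < C ∧ ∀ ρ : ℝ, 0 ≤ ρ → ρ < 1 →
      circleAverage (fun z => ‖deriv F z‖ ^ lam) 0 ρ ≤ C * (1 - ρ) ^ (-(3 * lam - 1)) := by
  obtain ⟨b, hb⟩ : ∃ b : ℝ, b = 1999999 / 1000000 := ⟨_, rfl⟩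
  obtain ⟨v, hv⟩ : ∃ v : ℝ, v = (lam - 6 / 25) / (2 - 6 / 25) := ⟨_, rfl⟩
  obtain ⟨a, ha⟩ : ∃ a : ℝ, a = b * (lam - 6 / 25) / (2 - lam) := ⟨_, rfl⟩
  have hlp : 0 < 2 - lam := by linarith
  have hv0 : 0 < v := by
    rw [hv]
    exact div_pos (by linarith) (by norm_num)
  have hv1 : 0 < 1 - v := by
    have : v < 1 := by
      rw [hv, div_lt_one (by norm_num)]
      linarith
    linarith
  have hlv : (6 / 25) * (1 - v) + 2 * v = lam := by
    rw [hv]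
    ring
  have hav : a * (1 - v) = b * v := by
    have h1 : 1 - v = (2 - lam) / (2 - 6 / 25) := by
      rw [hv]
      ring
    rw [h1, ha, hv]
    field_simp
  have ha2 : 1 / 24 < 2 * a + 18 / 25 - 1 := by
    have h1 : 3216691 / 20000000 ≤ a := by
      rw [ha, le_div_iff₀ hlp, hb]
      linarith
    linarith
  obtain ⟨C₁, hC₁, hP⟩ := j_mean hF hi hne ha2
  obtain ⟨C₂, hC₂, hQ⟩ := j_area hF hi hne (b := b) (by rw [hb]; norm_num)
  refine ⟨C₁ ^ (1 - v) * C₂ ^ v, by positivity, fun ρ h0 h1 => ?_⟩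
  have h1ρ : 0 < 1 - ρ := by linarith
  obtain ⟨A, hA⟩ : ∃ A : ℝ, A = C₁ * (1 - ρ) ^ (-(18 / 25 + 2 * a - 1)) := ⟨_, rfl⟩
  obtain ⟨B, hB⟩ : ∃ B : ℝ, B = C₂ * (1 - ρ) ^ (-(5 - 2 * b)) := ⟨_, rfl⟩
  have hA0 : 0 < A := by rw [hA]; positivity
  have hB0 : 0 < B := by rw [hB]; positivity
  have hP' := hP ρ h0 h1
  have hQ' := hQ ρ h0 h1
  rw [← hA] at hP'
  rw [← hB, JHold_sq] at hQ'
  have hIP := JHold_cont hF hne (s := 6 / 25) (c := a) (by norm_num) h0 h1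
  have hIQ := JHold_cont hF hne (s := 2) (c := -b) (by norm_num) h0 h1
  have hI : CircleIntegrable (fun z => ‖deriv F z‖ ^ lam) 0 ρ := by
    have h := JHold_cont hF hne (s := lam) (c := 0) (by linarith) h0 h1
    simpa using h
  have key : circleAverage (fun z => ‖deriv F z‖ ^ lam) 0 ρ ≤
      circleAverage (fun z =>
        (A ^ (1 - v) * B ^ v * ((1 - v) / A)) • (‖deriv F z‖ ^ ((6 : ℝ) / 25) * ‖F z‖ ^ a) +
        (A ^ (1 - v) * B ^ v * (v / B)) • (‖deriv F z‖ ^ (2 : ℝ) * ‖F z‖ ^ (-b))) 0 ρ := by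
    refine circleAverage_mono hI ?_ fun z hz => ?_
    · exact (hIP.const_fun_smul).add (hIQ.const_fun_smul)
    · obtain ⟨hz1, -⟩ := JHold_sphere h0 h1 hz
      have hFz : 0 < ‖F z‖ := norm_pos_iff.2 (hne z hz1)
      have hdz : 0 ≤ ‖deriv F z‖ := norm_nonneg _
      set P := ‖deriv F z‖ ^ ((6 : ℝ) / 25) * ‖F z‖ ^ a with hPdef
      set Q := ‖deriv F z‖ ^ (2 : ℝ) * ‖F z‖ ^ (-b) with hQdef
      have hP0 : 0 ≤ P := by positivity
      have hQ0 : 0 ≤ Q := by positivity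
      have e1 : ‖deriv F z‖ ^ lam = P ^ (1 - v) * Q ^ v := by
        rw [hPdef, hQdef, Real.mul_rpow (by positivity) (by positivity),
          Real.mul_rpow (by positivity) (by positivity), ← Real.rpow_mul hdz, ← Real.rpow_mul hdz,
          ← Real.rpow_mul hFz.le, ← Real.rpow_mul hFz.le]
        have e2 : ‖F z‖ ^ (a * (1 - v)) * ‖F z‖ ^ (-b * v) = 1 := by
          rw [← Real.rpow_add hFz, hav]
          have : b * v + -b * v = 0 := by ring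
          rw [this, Real.rpow_zero]
        have e3 : ‖deriv F z‖ ^ ((6 : ℝ) / 25 * (1 - v)) * ‖deriv F z‖ ^ (2 * v) =
            ‖deriv F z‖ ^ lam := by
          rw [← Real.rpow_add_of_nonneg hdz (by positivity) (by positivity), hlv]
        calc ‖deriv F z‖ ^ lam = (‖deriv F z‖ ^ ((6 : ℝ) / 25 * (1 - v)) *
              ‖deriv F z‖ ^ (2 * v)) * (‖F z‖ ^ (a * (1 - v)) * ‖F z‖ ^ (-b * v)) := by
                rw [e2, e3, mul_one]
          _ = _ := by ring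
      have e4 := Real.geom_mean_le_arith_mean2_weighted hv1.le hv0.le (div_nonneg hP0 hA0.le)
        (div_nonneg hQ0 hB0.le) (by ring)
      rw [Real.div_rpow hP0 hA0.le, Real.div_rpow hQ0 hB0.le] at e4
      have hAv : 0 < A ^ (1 - v) := by positivity
      have hBv : 0 < B ^ v := by positivity
      rw [e1]
      have e5 : P ^ (1 - v) * Q ^ v =
          A ^ (1 - v) * B ^ v * (P ^ (1 - v) / A ^ (1 - v) * (Q ^ v / B ^ v)) := by
        field_simp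
      rw [e5]
      refine (mul_le_mul_of_nonneg_left e4 (by positivity)).trans (le_of_eq ?_)
      simp only [smul_eq_mul]
      ring
  refine key.trans ?_
  rw [circleAverage_fun_add hIP.const_fun_smul hIQ.const_fun_smul, circleAverage_fun_smul,
    circleAverage_fun_smul, smul_eq_mul, smul_eq_mul]
  have hK : 0 < A ^ (1 - v) * B ^ v := by positivity
  have e6 : A ^ (1 - v) * B ^ v * ((1 - v) / A) *
      circleAverage (fun z => ‖deriv F z‖ ^ ((6 : ℝ) / 25) * ‖F z‖ ^ a) 0 ρ ≤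
      A ^ (1 - v) * B ^ v * (1 - v) := by
    have h2 : 0 ≤ A ^ (1 - v) * B ^ v * ((1 - v) / A) := by positivity
    refine (mul_le_mul_of_nonneg_left hP' h2).trans (le_of_eq ?_)
    field_simp
  have e7 : A ^ (1 - v) * B ^ v * (v / B) *
      circleAverage (fun z => ‖deriv F z‖ ^ (2 : ℝ) * ‖F z‖ ^ (-b)) 0 ρ ≤
      A ^ (1 - v) * B ^ v * v := by
    have h2 : 0 ≤ A ^ (1 - v) * B ^ v * (v / B) := by positivity
    refine (mul_le_mul_of_nonneg_left hQ' h2).trans (le_of_eq ?_)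
    field_simp
  have e8 : A ^ (1 - v) * B ^ v = C₁ ^ (1 - v) * C₂ ^ v * (1 - ρ) ^ (-(3 * lam - 1)) := by
    rw [hA, hB, Real.mul_rpow hC₁.le (by positivity), Real.mul_rpow hC₂.le (by positivity),
      ← Real.rpow_mul h1ρ.le, ← Real.rpow_mul h1ρ.le]
    have e9 : (1 - ρ) ^ (-(18 / 25 + 2 * a - 1) * (1 - v)) * (1 - ρ) ^ (-(5 - 2 * b) * v) =
        (1 - ρ) ^ (-(3 * lam - 1)) := by
      rw [← Real.rpow_add h1ρ]
      congr 1
      have h3 : -(18 / 25 + 2 * a - 1) * (1 - v) + -(5 - 2 * b) * v =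
          -(18 / 25 - 1) * (1 - v) - 2 * (a * (1 - v)) - 5 * v + 2 * (b * v) := by ring
      rw [h3, hav, ← hlv]
      ring
    rw [← e9]
    ring
  have e10 : A ^ (1 - v) * B ^ v * (1 - v) + A ^ (1 - v) * B ^ v * v = A ^ (1 - v) * B ^ v := by
    ring
  rw [← e8]
  linarith

private theorem JHold_large {F : ℂ → ℂ} (hF : DifferentiableOn ℂ F (ball 0 1))
    (hi : InjOn F (ball 0 1)) (hne : ∀ z ∈ ball (0 : ℂ) 1, F z ≠ 0) {lam : ℝ}
    (hl2 : 2 ≤ lam) :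
    ∃ C : ℝ, 0 < C ∧ ∀ ρ : ℝ, 0 ≤ ρ → ρ < 1 →
      circleAverage (fun z => ‖deriv F z‖ ^ lam) 0 ρ ≤ C * (1 - ρ) ^ (-(3 * lam - 1)) := by
  obtain ⟨C₂, hC₂, hQ⟩ := j_area hF hi hne (b := 0) (by norm_num)
  obtain ⟨D, hD⟩ : ∃ D : ℝ, D = 2 * (‖deriv F 0‖ + 1) := ⟨_, rfl⟩
  have hD0 : 0 < D := by rw [hD]; positivity
  refine ⟨D ^ (lam - 2) * C₂, by positivity, fun ρ h0 h1 => ?_⟩
  have h1ρ : 0 < 1 - ρ := by linarith
  have hQ' := hQ ρ h0 h1
  rw [JHold_sq] at hQ'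
  have hIQ := JHold_cont hF hne (s := 2) (c := -0) (by norm_num) h0 h1
  have hI : CircleIntegrable (fun z => ‖deriv F z‖ ^ lam) 0 ρ := by
    have h := JHold_cont hF hne (s := lam) (c := 0) (by linarith) h0 h1
    simpa using h
  obtain ⟨M, hM⟩ : ∃ M : ℝ, M = D * (1 - ρ) ^ (-3 : ℝ) := ⟨_, rfl⟩
  have hM0 : 0 < M := by rw [hM]; positivity
  have key : circleAverage (fun z => ‖deriv F z‖ ^ lam) 0 ρ ≤
      circleAverage (fun z =>
        (M ^ (lam - 2)) • (‖deriv F z‖ ^ (2 : ℝ) * ‖F z‖ ^ (-0 : ℝ))) 0 ρ := by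
    refine circleAverage_mono hI hIQ.const_fun_smul fun z hz => ?_
    obtain ⟨hz1, hz2⟩ := JHold_sphere h0 h1 hz
    have hdz : 0 ≤ ‖deriv F z‖ := norm_nonneg _
    have hg := deriv_growth hF hi hz1
    rw [hz2] at hg
    have hle : ‖deriv F z‖ ≤ M := by
      refine hg.trans ?_
      have e1 : (1 - ρ) ^ (-3 : ℝ) = ((1 - ρ) ^ 3)⁻¹ := by
        rw [Real.rpow_neg h1ρ.le]
        norm_cast
      rw [hM, hD, e1, div_eq_mul_inv, ← mul_assoc]
      refine mul_le_mul_of_nonneg_right ?_ (by positivity)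
      have := norm_nonneg (deriv F 0)
      nlinarith
    rw [neg_zero, Real.rpow_zero, mul_one, smul_eq_mul]
    have e2 : ‖deriv F z‖ ^ lam = ‖deriv F z‖ ^ (lam - 2) * ‖deriv F z‖ ^ (2 : ℝ) := by
      rw [← Real.rpow_add_of_nonneg hdz (by linarith) (by norm_num)]
      congr 1
      ring
    rw [e2]
    refine mul_le_mul_of_nonneg_right ?_ (by positivity)
    exact Real.rpow_le_rpow hdz hle (by linarith)
  refine key.trans ?_
  rw [circleAverage_fun_smul, smul_eq_mul]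
  refine (mul_le_mul_of_nonneg_left hQ' (by positivity)).trans (le_of_eq ?_)
  rw [hM, Real.mul_rpow hD0.le (by positivity), ← Real.rpow_mul h1ρ.le]
  have e3 : (1 - ρ) ^ (-(3 * lam - 1)) = (1 - ρ) ^ (-3 * (lam - 2)) * (1 - ρ) ^ (-(5 - 2 * 0 : ℝ)) := by
    rw [← Real.rpow_add h1ρ]
    congr 1
    ring
  rw [e3]
  ring

theorem j_hold {F : ℂ → ℂ} (hF : DifferentiableOn ℂ F (ball 0 1)) (hi : InjOn F (ball 0 1))
    (hne : ∀ z ∈ ball (0 : ℂ) 1, F z ≠ 0) {lam : ℝ} (hl : 371 / 1000 ≤ lam) :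
    ∃ C : ℝ, 0 < C ∧ ∀ ρ : ℝ, 0 ≤ ρ → ρ < 1 →
      circleAverage (fun z => ‖deriv F z‖ ^ lam) 0 ρ ≤ C * (1 - ρ) ^ (-(3 * lam - 1)) := by
  rcases lt_or_ge lam 2 with h | h
  · exact JHold_small hF hi hne hl h
  · exact JHold_large hF hi hne h

end Pool.Agent.Helper21.KP
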