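import Pool.Agent.Helper21.KP.PhiIn

/-!
# KP-JM: circle means of `‖F'‖^t ‖F‖^a`

`1/2 ≤ r < 1`, `G z = F (r z)` (`dil`), `psi_exists` with `R = 1/r`: `m s := circleAverage (‖G'‖^t ‖G‖^a) 0 s` is
nondecreasing on `[0, 1/r)` (`circ_mono`), `m s = r^t J (r s)`.  `II ≥ ∫_r^1 2 s (1-s²)^(B-1) m s ds ≥
m r (1-r²)^B / B`, `B = 1/24`; `phi_in` gives `J (r²) ≤ C (1-r)^(-(2 a + 3 t - 1))`; `ρ = r²`,
`1 - √ρ ≥ (1-ρ)/2`.  For `ρ < 1/4` use monotonicity (`r = 1/2`): `J ρ ≤ J (1/4)`.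
-/

set_option autoImplicit false

namespace Pool.Agent.Helper21.KP

open Complex Metric Set Real Finset MeasureTheory
open Pool.Agent.Helper21.IM

/-- the mean -/
private noncomputable def JMean_J (F : ℂ → ℂ) (a ρ : ℝ) : ℝ :=
  circleAverage (fun z => ‖deriv F z‖ ^ ((6 : ℝ) / 25) * ‖F z‖ ^ a) 0 ρ

private theorem JMean_avg (f : ℂ → ℝ) (r s : ℝ) :
    circleAverage (fun z => f (r * z)) 0 s = circleAverage f 0 (r * s) := by
  have e : ∀ θ : ℝ, (r : ℂ) * circleMap 0 s θ = circleMap 0 (r * s) θ := by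
    intro θ
    simp only [circleMap, zero_add]
    push_cast
    ring
  rw [circleAverage_def, circleAverage_def]
  simp only [e]

private theorem JMean_psi {F : ℂ → ℂ} (hF : DifferentiableOn ℂ F (ball 0 1))
    (hi : InjOn F (ball 0 1)) (hne : ∀ z ∈ ball (0 : ℂ) 1, F z ≠ 0) (a : ℝ) {r : ℝ} (h0 : 0 < r)
    (h1 : r < 1) : ∃ ψ : ℂ → ℂ, DifferentiableOn ℂ ψ (ball 0 (1 / r)) ∧
      ∀ s : ℝ, 0 ≤ s → s < 1 / r →
        circleAverage (fun z => ‖ψ z‖ ^ 2) 0 s = circleAverage (fun z =>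
          ‖deriv (fun z => F (r * z)) z‖ ^ ((6 : ℝ) / 25) * ‖F (r * z)‖ ^ a) 0 s ∧
        circleAverage (fun z => ‖ψ z‖ ^ 2) 0 s =
          r ^ ((6 : ℝ) / 25) * JMean_J F a (r * s) := by
  obtain ⟨d1, d2, d3, d4⟩ := dil hF hi hne h0 h1
  have hR : 1 < 1 / r := (one_lt_div h0).2 h1
  obtain ⟨ψ, hK, hψ⟩ := psi_exists hR d1 d2 d3 (6 / 25) a
  refine ⟨ψ, hK.dψ, fun s hs0 hs1 => ?_⟩
  have hmem : ∀ z ∈ sphere (0 : ℂ) |s|, z ∈ ball (0 : ℂ) (1 / r) := by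
    intro z hz
    rw [mem_sphere_zero_iff_norm, abs_of_nonneg hs0] at hz
    rw [mem_ball_zero_iff, hz]
    exact hs1
  have e1 : circleAverage (fun z => ‖ψ z‖ ^ 2) 0 s = circleAverage (fun z =>
      ‖deriv (fun z => F (r * z)) z‖ ^ ((6 : ℝ) / 25) * ‖F (r * z)‖ ^ a) 0 s :=
    circleAverage_congr_sphere fun z hz => hψ z (hmem z hz)
  refine ⟨e1, ?_⟩
  rw [e1]
  have e2 : circleAverage (fun z => ‖deriv (fun z => F (r * z)) z‖ ^ ((6 : ℝ) / 25) *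
      ‖F (r * z)‖ ^ a) 0 s = circleAverage (fun z => r ^ ((6 : ℝ) / 25) *
        (‖deriv F (r * z)‖ ^ ((6 : ℝ) / 25) * ‖F (r * z)‖ ^ a)) 0 s := by
    refine circleAverage_congr_sphere fun z hz => ?_
    beta_reduce
    rw [d4 z (hmem z hz), norm_mul, Complex.norm_real, Real.norm_eq_abs, abs_of_pos h0,
      Real.mul_rpow h0.le (norm_nonneg _), mul_assoc]
  rw [e2]
  have e3 : circleAverage (fun z => r ^ ((6 : ℝ) / 25) *
        (‖deriv F (r * z)‖ ^ ((6 : ℝ) / 25) * ‖F (r * z)‖ ^ a)) 0 s = r ^ ((6 : ℝ) / 25) *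
        circleAverage (fun z => ‖deriv F (r * z)‖ ^ ((6 : ℝ) / 25) * ‖F (r * z)‖ ^ a) 0 s :=
    circleAverage_fun_smul (a := r ^ ((6 : ℝ) / 25))
      (f := fun z : ℂ => ‖deriv F (r * z)‖ ^ ((6 : ℝ) / 25) * ‖F (r * z)‖ ^ a)
  rw [e3, JMean_avg (fun z => ‖deriv F z‖ ^ ((6 : ℝ) / 25) * ‖F z‖ ^ a) r s]
  rfl

/-- the area integral bounds the mean -/
private theorem JMean_low {ψ : ℂ → ℂ} {r : ℝ} (h0 : 0 < r) (h1 : r < 1)
    (hψ : DifferentiableOn ℂ ψ (ball 0 (1 / r))) :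
    circleAverage (fun z => ‖ψ z‖ ^ 2) 0 r * (1 - r ^ 2) ^ ((1 : ℝ) / 24) ≤
      II (1 / 24 - 1) (fun z => ‖ψ z‖ ^ 2) := by
  have hR : 1 < 1 / r := (one_lt_div h0).2 h1
  have hc : ContinuousOn (fun z => ‖ψ z‖ ^ 2) (closedBall 0 1) := by
    refine ((hψ.continuousOn.mono ?_).norm).pow 2
    intro z hz
    rw [mem_closedBall_zero_iff] at hz
    rw [mem_ball_zero_iff]
    exact hz.trans_lt hR
  have hint := ii_intble (s := 1 / 24 - 1) (by norm_num) hc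
  have hr2 : 0 < 1 - r ^ 2 := by nlinarith
  have hm0 : ∀ s : ℝ, 0 ≤ circleAverage (fun z => ‖ψ z‖ ^ 2) 0 s := fun s =>
    circleAverage_nonneg_of_nonneg fun z _ => by positivity
  have hi1 : IntervalIntegrable (fun ρ : ℝ => 2 * ρ * (1 - ρ ^ 2) ^ ((1 : ℝ) / 24 - 1) *
      circleAverage (fun z => ‖ψ z‖ ^ 2) 0 ρ) volume 0 r := by
    refine hint.mono_set ?_
    rw [Set.uIcc_of_le h0.le, Set.uIcc_of_le zero_le_one]
    exact Set.Icc_subset_Icc_right h1.le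
  have hi2 : IntervalIntegrable (fun ρ : ℝ => 2 * ρ * (1 - ρ ^ 2) ^ ((1 : ℝ) / 24 - 1) *
      circleAverage (fun z => ‖ψ z‖ ^ 2) 0 ρ) volume r 1 := by
    refine hint.mono_set ?_
    rw [Set.uIcc_of_le h1.le, Set.uIcc_of_le zero_le_one]
    exact Set.Icc_subset_Icc_left h0.le
  unfold II
  rw [← intervalIntegral.integral_add_adjacent_intervals hi1 hi2]
  have p1 : 0 ≤ ∫ ρ in (0 : ℝ)..r, 2 * ρ * (1 - ρ ^ 2) ^ ((1 : ℝ) / 24 - 1) *
      circleAverage (fun z => ‖ψ z‖ ^ 2) 0 ρ := by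
    refine intervalIntegral.integral_nonneg h0.le fun ρ hρ => ?_
    have : 0 ≤ 1 - ρ ^ 2 := by nlinarith [hρ.1, hρ.2]
    exact mul_nonneg (mul_nonneg (mul_nonneg zero_le_two hρ.1) (Real.rpow_nonneg this _)) (hm0 ρ)
  have p2 : ∫ ρ in r..1, 2 * ρ * ((1 - r ^ 2) ^ ((1 : ℝ) / 24 - 1) *
      circleAverage (fun z => ‖ψ z‖ ^ 2) 0 r) ≤
      ∫ ρ in r..1, 2 * ρ * (1 - ρ ^ 2) ^ ((1 : ℝ) / 24 - 1) *
      circleAverage (fun z => ‖ψ z‖ ^ 2) 0 ρ := by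
    refine intervalIntegral.integral_mono_on_of_le_Ioo h1.le ?_ hi2 fun ρ hρ => ?_
    · exact Continuous.intervalIntegrable (by fun_prop) _ _
    · have hρ0 : 0 < ρ := h0.trans hρ.1
      have q1 : 0 < 1 - ρ ^ 2 := by nlinarith [hρ.1, hρ.2]
      have q2 : 1 - ρ ^ 2 ≤ 1 - r ^ 2 := by nlinarith [hρ.1, hρ.2]
      have q3 : (1 - r ^ 2) ^ ((1 : ℝ) / 24 - 1) ≤ (1 - ρ ^ 2) ^ ((1 : ℝ) / 24 - 1) :=
        Real.rpow_le_rpow_of_nonpos q1 q2 (by norm_num)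
      have q4 := circ_mono hψ h0.le hρ.1.le (hρ.2.trans hR)
      rw [mul_assoc (2 * ρ)]
      refine mul_le_mul_of_nonneg_left ?_ (by linarith)
      exact mul_le_mul q3 q4 (hm0 r) (Real.rpow_nonneg q1.le _)
  have p3 : ∫ ρ in r..1, 2 * ρ * ((1 - r ^ 2) ^ ((1 : ℝ) / 24 - 1) *
      circleAverage (fun z => ‖ψ z‖ ^ 2) 0 r) = circleAverage (fun z => ‖ψ z‖ ^ 2) 0 r *
      (1 - r ^ 2) ^ ((1 : ℝ) / 24) := by
    rw [intervalIntegral.integral_mul_const, intervalIntegral.integral_const_mul, integral_id]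
    have q5 : (1 - r ^ 2) ^ ((1 : ℝ) / 24) = (1 - r ^ 2) ^ ((1 : ℝ) / 24 - 1) * (1 - r ^ 2) := by
      rw [Real.rpow_sub_one hr2.ne']
      field_simp
    rw [q5]
    ring
  linarith

theorem j_mean {F : ℂ → ℂ} (hF : DifferentiableOn ℂ F (ball 0 1)) (hi : InjOn F (ball 0 1))
    (hne : ∀ z ∈ ball (0 : ℂ) 1, F z ≠ 0) {a : ℝ} (ha : 1 / 24 < 2 * a + 18 / 25 - 1) :
    ∃ C : ℝ, 0 < C ∧ ∀ ρ : ℝ, 0 ≤ ρ → ρ < 1 →
      circleAverage (fun z => ‖deriv F z‖ ^ ((6 : ℝ) / 25) * ‖F z‖ ^ a) 0 ρ ≤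
        C * (1 - ρ) ^ (-(18 / 25 + 2 * a - 1)) := by
  obtain ⟨C, hC, hb⟩ := phi_in hF hi hne ha
  set E := 18 / 25 + 2 * a - 1 with hE
  have hE0 : 0 < E := by rw [hE]; linarith
  have key : ∀ r : ℝ, 1 / 2 ≤ r → r < 1 → JMean_J F a (r * r) ≤ 2 * C * (1 - r) ^ (-E) := by
    intro r hr hr1
    have h0 : 0 < r := by linarith
    have hR : 1 < 1 / r := (one_lt_div h0).2 hr1
    obtain ⟨ψ, hψ, hs⟩ := JMean_psi hF hi hne a h0 hr1
    have k1 := JMean_low h0 hr1 hψ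
    have k2 : II (1 / 24 - 1) (fun z => ‖ψ z‖ ^ 2) = II (1 / 24 - 1) (fun z =>
        ‖deriv (fun z => F (r * z)) z‖ ^ ((6 : ℝ) / 25) * ‖F (r * z)‖ ^ a) := by
      unfold II
      refine intervalIntegral.integral_congr fun ρ hρ => ?_
      rw [Set.uIcc_of_le zero_le_one] at hρ
      beta_reduce
      rw [(hs ρ hρ.1 (hρ.2.trans_lt hR)).1]
    have k3 := hb r hr hr1
    rw [k2, (hs r h0.le (hr1.trans hR)).2] at k1
    have k4 := k1.trans k3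
    have hr' : 0 < 1 - r := by linarith
    have hr2 : 0 < 1 - r ^ 2 := by nlinarith
    have k5 : (1 - r) ^ ((1 : ℝ) / 24) ≤ (1 - r ^ 2) ^ ((1 : ℝ) / 24) :=
      Real.rpow_le_rpow hr'.le (by nlinarith) (by norm_num)
    have k6 : (1 : ℝ) / 2 ≤ r ^ ((6 : ℝ) / 25) := by
      calc (1 : ℝ) / 2 ≤ r := hr
        _ = r ^ (1 : ℝ) := (Real.rpow_one r).symm
        _ ≤ r ^ ((6 : ℝ) / 25) :=
          Real.rpow_le_rpow_of_exponent_ge h0 hr1.le (by norm_num)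
    have hJ : 0 ≤ JMean_J F a (r * r) := circleAverage_nonneg_of_nonneg fun z _ => by positivity
    have k7 : (1 : ℝ) / 2 * JMean_J F a (r * r) * (1 - r) ^ ((1 : ℝ) / 24) ≤
        r ^ ((6 : ℝ) / 25) * JMean_J F a (r * r) * (1 - r ^ 2) ^ ((1 : ℝ) / 24) := by
      refine mul_le_mul (mul_le_mul_of_nonneg_right k6 hJ) k5 (Real.rpow_nonneg hr'.le _) ?_
      exact mul_nonneg (Real.rpow_nonneg h0.le _) hJ
    have k8 := k7.trans k4
    have k9 : (1 - r) ^ (-(2 * a + 18 / 25 - 1 - 1 / 24)) =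
        (1 - r) ^ (-E) * (1 - r) ^ ((1 : ℝ) / 24) := by
      rw [← Real.rpow_add hr', hE]
      congr 1
      ring
    rw [k9] at k8
    have hp : 0 < (1 - r) ^ ((1 : ℝ) / 24) := Real.rpow_pos_of_pos hr' _
    have k10 : (1 : ℝ) / 2 * JMean_J F a (r * r) ≤ C * (1 - r) ^ (-E) := by
      refine le_of_mul_le_mul_right ?_ hp
      calc (1 : ℝ) / 2 * JMean_J F a (r * r) * (1 - r) ^ ((1 : ℝ) / 24)
          ≤ C * ((1 - r) ^ (-E) * (1 - r) ^ ((1 : ℝ) / 24)) := k8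
        _ = C * (1 - r) ^ (-E) * (1 - r) ^ ((1 : ℝ) / 24) := by ring
    linarith
  refine ⟨2 * C * 2 ^ E, by positivity, fun ρ hρ0 hρ1 => ?_⟩
  change JMean_J F a ρ ≤ _
  have h1ρ : 0 < 1 - ρ := by linarith
  rcases le_or_gt (1 / 4) ρ with h | h
  · have hs : √ρ * √ρ = ρ := Real.mul_self_sqrt hρ0
    have hs0 : 0 ≤ √ρ := Real.sqrt_nonneg ρ
    have hs1 : √ρ < 1 := by nlinarith
    have hs2 : 1 / 2 ≤ √ρ := by
      by_contra hcon
      push Not at hcon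
      nlinarith
    have k := key (√ρ) hs2 hs1
    rw [hs] at k
    refine k.trans ?_
    rw [mul_assoc (2 * C)]
    refine mul_le_mul_of_nonneg_left ?_ (by positivity)
    have e1 : (2 : ℝ) ^ E * (1 - ρ) ^ (-E) = ((1 - ρ) / 2) ^ (-E) := by
      rw [Real.div_rpow h1ρ.le zero_le_two, Real.rpow_neg zero_le_two, div_inv_eq_mul]
      ring
    rw [e1]
    exact Real.rpow_le_rpow_of_nonpos (by linarith) (by nlinarith) (by linarith)
  · have k := key (1 / 2) le_rfl (by norm_num)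
    obtain ⟨ψ, hψ, hs⟩ := JMean_psi hF hi hne a (r := 1 / 2) (by norm_num) (by norm_num)
    have m1 := circ_mono hψ (r := 2 * ρ) (s := 1 / 2) (by linarith) (by linarith) (by norm_num)
    rw [(hs (2 * ρ) (by linarith) (by linarith)).2, (hs (1 / 2) (by norm_num) (by norm_num)).2]
      at m1
    have e2 : (1 : ℝ) / 2 * (2 * ρ) = ρ := by ring
    rw [e2] at m1
    have hp : (0 : ℝ) < (1 / 2) ^ ((6 : ℝ) / 25) := by positivity
    have m2 : JMean_J F a ρ ≤ JMean_J F a (1 / 2 * (1 / 2)) := le_of_mul_le_mul_left m1 hp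
    refine (m2.trans k).trans ?_
    rw [mul_assoc (2 * C)]
    refine mul_le_mul_of_nonneg_left ?_ (by positivity)
    have e3 : (1 - 1 / 2 : ℝ) ^ (-E) = 2 ^ E := by
      rw [show (1 - 1 / 2 : ℝ) = 2⁻¹ by norm_num, Real.inv_rpow zero_le_two,
        Real.rpow_neg zero_le_two, inv_inv]
    rw [e3]
    have e4 : (1 : ℝ) ≤ (1 - ρ) ^ (-E) :=
      Real.one_le_rpow_of_pos_of_le_one_of_nonpos h1ρ (by linarith) (by linarith)
    have e5 : (0 : ℝ) < 2 ^ E := by positivity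
    nlinarith

end Pool.Agent.Helper21.KP
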