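import Pool.Agent.Helper21.KP.DQ
import Pool.Agent.Helper21.IM.DerivNe

/-!
# KP-LD: the logarithm of the divided difference

`dq F z w ≠ 0` (`F` injective, `deriv_ne` on the diagonal).  Put
`Λ z w = (w - z) ∫_0^1 (dw F z (z + s (w-z)) / dq F z (z + s (w-z))) ds`.  It is jointly continuous (parametric integral),
`Λ z z = 0`, and along the segment `d/ds [dq F z (z + s (w-z)) exp (-Λ z (z + s (w-z)))] = 0`, so
`exp (Λ z w) = dq F z w / F' z`.  A continuous logarithm of a holomorphic function without zeros is holomorphic;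
this gives `dw`, `dz` (`z ↦ dq F z w` is holomorphic because `dq F z w = dq F w z`).
-/

set_option autoImplicit false

namespace Pool.Agent.Helper21.KP

open Complex Metric Set Real Finset MeasureTheory

/-- `Λ z w` is the logarithm of `(F w - F z)/((w - z) F' z)` -/
structure LG (F : ℂ → ℂ) (R : ℝ) (Λ : ℂ → ℂ → ℂ) : Prop where
  cont : ContinuousOn (fun p : ℂ × ℂ => Λ p.1 p.2) (ball 0 R ×ˢ ball 0 R)
  dz : ∀ w ∈ ball (0 : ℂ) R, DifferentiableOn ℂ (fun z => Λ z w) (ball 0 R)
  dw : ∀ z ∈ ball (0 : ℂ) R, DifferentiableOn ℂ (Λ z) (ball 0 R)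
  diag : ∀ z ∈ ball (0 : ℂ) R, Λ z z = 0
  ex : ∀ z ∈ ball (0 : ℂ) R, ∀ w ∈ ball (0 : ℂ) R, exp (Λ z w) * ((w - z) * deriv F z) = F w - F z

private theorem LogDQ_mem {R : ℝ} {z w : ℂ} (hz : z ∈ ball (0 : ℂ) R) (hw : w ∈ ball (0 : ℂ) R)
    {s : ℝ} (hs : s ∈ Set.Icc (0 : ℝ) 1) : z + s * (w - z) ∈ ball (0 : ℂ) R := by
  have h := (convex_ball (0 : ℂ) R).add_smul_sub_mem hz hw hs
  rwa [Complex.real_smul] at h

/-- the projection to `[0, 1]` -/
private noncomputable def LogDQ_cl (s : ℝ) : ℝ := max 0 (min 1 s)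

private theorem LogDQ_cl1 (s : ℝ) : LogDQ_cl s ∈ Set.Icc (0 : ℝ) 1 :=
  ⟨le_max_left _ _, max_le zero_le_one (min_le_left _ _)⟩

private theorem LogDQ_cl2 {s : ℝ} (hs : s ∈ Set.Icc (0 : ℝ) 1) : LogDQ_cl s = s := by
  rw [LogDQ_cl, min_eq_right hs.2, max_eq_right hs.1]

private theorem LogDQ_clc : Continuous LogDQ_cl :=
  continuous_const.max (continuous_const.min continuous_id)

/-- the parametric integral is continuous -/
private theorem LogDQ_cont {h : ℂ × ℂ → ℂ} {R : ℝ}
    (hh : ContinuousOn h (ball 0 R ×ˢ ball 0 R)) :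
    ContinuousOn (fun p : ℂ × ℂ => ∫ s in (0 : ℝ)..1, (p.2 - p.1) *
      h (p.1, p.1 + s * (p.2 - p.1))) (ball 0 R ×ˢ ball 0 R) := by
  rw [continuousOn_iff_continuous_domRestrict]
  set f : ↥(ball (0 : ℂ) R ×ˢ ball (0 : ℂ) R) → ℝ → ℂ := fun p s =>
    (p.1.2 - p.1.1) * h (p.1.1, p.1.1 + (LogDQ_cl s : ℂ) * (p.1.2 - p.1.1)) with hf
  have hfc : Continuous f.uncurry := by
    have h2 : Continuous fun q : ↥(ball (0 : ℂ) R ×ˢ ball (0 : ℂ) R) × ℝ => (q.1.1 : ℂ × ℂ) :=
      continuous_subtype_val.comp continuous_fst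
    have h3 : Continuous fun q : ↥(ball (0 : ℂ) R ×ˢ ball (0 : ℂ) R) × ℝ =>
        ((LogDQ_cl q.2 : ℝ) : ℂ) :=
      Complex.continuous_ofReal.comp (LogDQ_clc.comp continuous_snd)
    have h1 : Continuous fun q : ↥(ball (0 : ℂ) R ×ˢ ball (0 : ℂ) R) × ℝ =>
        (q.1.1.1, q.1.1.1 + ((LogDQ_cl q.2 : ℝ) : ℂ) * (q.1.1.2 - q.1.1.1)) :=
      h2.fst.prodMk (h2.fst.add (h3.mul (h2.snd.sub h2.fst)))
    have h4 : Continuous fun q : ↥(ball (0 : ℂ) R ×ˢ ball (0 : ℂ) R) × ℝ =>
        h (q.1.1.1, q.1.1.1 + ((LogDQ_cl q.2 : ℝ) : ℂ) * (q.1.1.2 - q.1.1.1)) :=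
      hh.comp_continuous h1 fun q => ⟨q.1.2.1, LogDQ_mem q.1.2.1 q.1.2.2 (LogDQ_cl1 q.2)⟩
    exact (h2.snd.sub h2.fst).mul h4
  have h5 := intervalIntegral.continuous_parametric_intervalIntegral_of_continuous' (μ := volume)
    hfc 0 1
  refine h5.congr fun p => ?_
  refine intervalIntegral.integral_congr fun s hs => ?_
  rw [Set.uIcc_of_le zero_le_one] at hs
  rw [hf]
  simp only
  rw [LogDQ_cl2 hs]

/-- a continuous logarithm of a holomorphic function is holomorphic -/
private theorem LogDQ_holo {L G : ℂ → ℂ} {U : Set ℂ} (hU : IsOpen U) (hL : ContinuousOn L U)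
    (hG : DifferentiableOn ℂ G U) (h : ∀ w ∈ U, exp (L w) = G w) : DifferentiableOn ℂ L U := by
  intro a ha
  have hGa : G a ≠ 0 := by
    rw [← h a ha]
    exact exp_ne_zero _
  have hLa : ContinuousAt L a := hL.continuousAt (hU.mem_nhds ha)
  have hGd : DifferentiableAt ℂ G a := hG.differentiableAt (hU.mem_nhds ha)
  have h1 : DifferentiableAt ℂ (fun w => L a + Complex.log (G w / G a)) a := by
    apply (differentiableAt_const (L a)).add
    apply DifferentiableAt.clog
    · exact hGd.div_const _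
    · rw [div_self hGa]
      exact Complex.one_mem_slitPlane
  have h2 : L =ᶠ[nhds a] fun w => L a + Complex.log (G w / G a) := by
    have h3 : ∀ᶠ w in nhds a, ‖L w - L a‖ < 1 := by
      have h4 : ContinuousAt (fun w => ‖L w - L a‖) a := (hLa.sub continuousAt_const).norm
      have h5 := h4.tendsto.eventually (Iio_mem_nhds (show ‖L a - L a‖ < 1 by simp))
      exact h5
    filter_upwards [h3, hU.mem_nhds ha] with w hw hwU
    have h6 : G w / G a = exp (L w - L a) := by
      rw [Complex.exp_sub, h w hwU, h a ha]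
    have h7 := (Complex.abs_im_le_norm (L w - L a)).trans_lt hw
    rw [abs_lt] at h7
    have hpi := Real.pi_gt_three
    rw [h6, Complex.log_exp (by linarith) (by linarith)]
    ring
  exact (h1.congr_of_eventuallyEq h2).differentiableWithinAt

theorem lg_exists {F : ℂ → ℂ} {R : ℝ} (hR : 0 < R) (hF : DifferentiableOn ℂ F (ball 0 R))
    (hi : InjOn F (ball 0 R)) : ∃ Λ, LG F R Λ := by
  have hd : ∀ z ∈ ball (0 : ℂ) R, deriv F z ≠ 0 := fun z hz =>
    Pool.Agent.Helper21.IM.deriv_ne isOpen_ball hF hi hz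
  have hq0 : ∀ z ∈ ball (0 : ℂ) R, ∀ w ∈ ball (0 : ℂ) R, dq F z w ≠ 0 := by
    intro z hz w hw
    by_cases hzw : z = w
    · subst hzw
      rw [dq_diag]
      exact hd z hz
    · intro h0
      have h1 := dq_eq hF hz hw
      rw [h0, mul_zero] at h1
      exact hzw (hi hw hz (sub_eq_zero.1 h1.symm)).symm
  have hsymm : ∀ z ∈ ball (0 : ℂ) R, ∀ w ∈ ball (0 : ℂ) R, dq F z w = dq F w z := by
    intro z hz w hw
    by_cases hzw : z = w
    · rw [hzw]
    · have h1 := dq_eq hF hz hw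
      have h2 := dq_eq hF hw hz
      have h3 : w - z ≠ 0 := sub_ne_zero.2 (Ne.symm hzw)
      apply mul_left_cancel₀ h3
      rw [h1]
      linear_combination h2
  set h : ℂ × ℂ → ℂ := fun p => dw F p.1 p.2 / dq F p.1 p.2 with hh
  have hc : ContinuousOn h (ball 0 R ×ˢ ball 0 R) :=
    (dw_cont hF).div (dq_cont hF) fun p hp => hq0 _ hp.1 _ hp.2
  set Λ : ℂ → ℂ → ℂ := fun z w => ∫ s in (0 : ℝ)..1, (w - z) * h (z, z + s * (w - z)) with hΛ
  have hcont : ContinuousOn (fun p : ℂ × ℂ => Λ p.1 p.2) (ball 0 R ×ˢ ball 0 R) := LogDQ_cont hc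
  have hexp : ∀ z ∈ ball (0 : ℂ) R, ∀ w ∈ ball (0 : ℂ) R,
      exp (Λ z w) = dq F z w / deriv F z := by
    intro z hz w hw
    set f : ℝ → ℂ := fun t => (w - z) * h (z, z + (LogDQ_cl t : ℂ) * (w - z)) with hf
    have hfc : Continuous f := by
      have h1 : Continuous fun t : ℝ => (z, z + ((LogDQ_cl t : ℝ) : ℂ) * (w - z)) :=
        continuous_const.prodMk (continuous_const.add
          ((Complex.continuous_ofReal.comp LogDQ_clc).mul continuous_const))
      exact continuous_const.mul (hc.comp_continuous h1 fun t =>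
        ⟨hz, LogDQ_mem hz hw (LogDQ_cl1 t)⟩)
    have hLd : ∀ s : ℝ, HasDerivAt (fun s => ∫ t in (0 : ℝ)..s, f t) (f s) s := fun s =>
      intervalIntegral.integral_hasDerivAt_right (hfc.intervalIntegrable _ _)
        hfc.aestronglyMeasurable.stronglyMeasurableAtFilter hfc.continuousAt
    set v : ℝ → ℂ := fun s => dq F z (z + s * (w - z)) * exp (-∫ t in (0 : ℝ)..s, f t) with hv
    have hvd : ∀ s ∈ Set.Icc (0 : ℝ) 1, HasDerivAt v 0 s := by
      intro s hs
      have hm := LogDQ_mem hz hw hs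
      have h2 : HasDerivAt (fun s : ℝ => z + (s : ℂ) * (w - z)) (w - z) s := by
        have h4 := ((hasDerivAt_id s).ofReal_comp.mul_const (w - z)).const_add z
        simpa using h4
      have h3 : HasDerivAt (fun s : ℝ => dq F z (z + s * (w - z)))
          (dw F z (z + s * (w - z)) * (w - z)) s := HasDerivAt.comp s (dq_deriv hF hz hm) h2
      have hneg : HasDerivAt (fun s : ℝ => -∫ t in (0 : ℝ)..s, f t) (-f s) s := (hLd s).neg
      have h5 : HasDerivAt v _ s := h3.mul hneg.cexp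
      refine h5.congr_deriv ?_
      have h6 : f s = (w - z) * (dw F z (z + s * (w - z)) / dq F z (z + s * (w - z))) := by
        rw [hf]
        simp only
        rw [LogDQ_cl2 hs]
      rw [h6]
      have h7 := hq0 z hz _ hm
      field_simp
      ring
    have hconst := constant_of_has_deriv_right_zero (a := 0) (b := 1) (f := v)
      (fun s hs => (hvd s hs).continuousAt.continuousWithinAt)
      (fun s hs => (hvd s ⟨hs.1, hs.2.le⟩).hasDerivWithinAt) 1 ⟨zero_le_one, le_rfl⟩
    have h8 : Λ z w = ∫ t in (0 : ℝ)..1, f t := by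
      rw [hΛ]
      refine intervalIntegral.integral_congr fun s hs => ?_
      rw [Set.uIcc_of_le zero_le_one] at hs
      rw [hf]
      simp only
      rw [LogDQ_cl2 hs]
    rw [hv] at hconst
    simp only [intervalIntegral.integral_same, neg_zero, Complex.exp_zero, mul_one,
      Complex.ofReal_zero, zero_mul, add_zero, Complex.ofReal_one, one_mul, add_sub_cancel,
      dq_diag] at hconst
    rw [← h8, Complex.exp_neg] at hconst
    rw [eq_div_iff (hd z hz), ← hconst]
    field_simp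
  refine ⟨Λ, hcont, fun w hw => ?_, fun z hz => ?_, fun z _ => ?_, fun z hz w hw => ?_⟩
  · refine LogDQ_holo isOpen_ball (G := fun z => dq F w z / deriv F z) ?_ ?_ ?_
    · exact hcont.comp (f := fun z : ℂ => (z, w)) (by fun_prop) fun z hz => ⟨hz, hw⟩
    · refine DifferentiableOn.div (fun z hz => ?_) (hF.deriv isOpen_ball) hd
      exact (dq_deriv hF hw hz).differentiableAt.differentiableWithinAt
    · intro z hz
      rw [hexp z hz w hw, hsymm z hz w hw]
  · refine LogDQ_holo isOpen_ball (G := fun w => dq F z w / deriv F z) ?_ ?_ ?_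
    · exact hcont.comp (f := fun w : ℂ => (z, w)) (by fun_prop) fun w hw => ⟨hz, hw⟩
    · refine DifferentiableOn.div_const (fun w hw => ?_) _
      exact (dq_deriv hF hz hw).differentiableAt.differentiableWithinAt
    · intro w hw
      rw [hexp z hz w hw]
  · rw [hΛ]
    simp
  · rw [hexp z hz w hw, ← dq_eq hF hz hw]
    have h9 := hd z hz
    field_simp

end Pool.Agent.Helper21.KP
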