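import Mathlib

/-!
# KP-MC: Möbius change of variables on the unit circle

`w = e^(iθ)`, `J θ = (1 - ‖z‖²)/‖e^(iθ) - z‖²`, `φ θ = φ₀ + ∫_0^θ J`, with `e^(iφ₀)` the value of
`ζ(w) = (w - z)/(1 - conj z w)` at `w = 1`.  `w ζ'(w)/ζ(w) = (1 - ‖z‖²) w/((w - z)(1 - conj z w)) = J`, so
`d/dθ (ζ(e^(iθ)) e^(-iφ θ)) = 0` and `ζ(e^(iθ)) = e^(iφ θ)`.  `∫_0^(2π) J = 2π` (Poisson kernel; or: simple
fractions `w/(w-z) + conj z w/(1 - conj z w)` and power series).  `intervalIntegral.integral_comp_mul_deriv` and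
periodicity.
-/

set_option autoImplicit false

namespace Pool.Agent.Helper21.KP

open Complex Metric Set Real Finset MeasureTheory

private theorem MobCirc_J {z w : ℂ} (hw : ‖w‖ = 1) (h1 : w - z ≠ 0)
    (h2 : 1 - (starRingEnd ℂ) z * w ≠ 0) :
    (((1 - ‖z‖ ^ 2) / ‖w - z‖ ^ 2 : ℝ) : ℂ) =
      (1 - (starRingEnd ℂ) z * z) * w / ((w - z) * (1 - (starRingEnd ℂ) z * w)) := by
  have h3 : (starRingEnd ℂ) w * w = 1 := by
    rw [Complex.conj_mul', hw]
    simp
  have h4 : ((‖w - z‖ : ℂ)) ^ 2 = (w - z) * ((starRingEnd ℂ) w - (starRingEnd ℂ) z) := by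
    rw [← Complex.mul_conj', map_sub]
  have h5 : ((‖z‖ : ℂ)) ^ 2 = (starRingEnd ℂ) z * z := (Complex.conj_mul' z).symm
  have h6 : (starRingEnd ℂ) w - (starRingEnd ℂ) z =
      (starRingEnd ℂ) w * (1 - (starRingEnd ℂ) z * w) := by
    linear_combination (starRingEnd ℂ) z * h3
  have h7 : (starRingEnd ℂ) w ≠ 0 := left_ne_zero_of_mul_eq_one h3
  push_cast
  rw [h4, h5, h6, div_eq_div_iff (mul_ne_zero h1 (mul_ne_zero h7 h2)) (mul_ne_zero h1 h2)]
  linear_combination -(1 - (starRingEnd ℂ) z * z) * (w - z) * (1 - (starRingEnd ℂ) z * w) * h3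

theorem mob_circ {Φ : ℂ → ℝ} (hΦ : ContinuousOn Φ (sphere 0 1)) {z : ℂ} (hz : z ∈ ball (0 : ℂ) 1) :
    circleAverage (fun w => (1 - ‖z‖ ^ 2) / ‖w - z‖ ^ 2 *
      Φ ((w - z) / (1 - (starRingEnd ℂ) z * w))) 0 1 = circleAverage Φ 0 1 := by
  have hz1 : ‖z‖ < 1 := by simpa using hz
  have hE : ∀ θ : ℝ, circleMap 0 1 θ = Complex.exp (θ * I) := fun θ => by simp [circleMap]
  have hE1 : ∀ θ : ℝ, ‖circleMap 0 1 θ‖ = 1 := fun θ => by simp
  have hne : ∀ θ : ℝ, circleMap 0 1 θ - z ≠ 0 := by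
    intro θ h
    have h1 : circleMap 0 1 θ = z := sub_eq_zero.1 h
    have h2 := hE1 θ
    rw [h1] at h2
    linarith
  have hne2 : ∀ θ : ℝ, 1 - (starRingEnd ℂ) z * circleMap 0 1 θ ≠ 0 := by
    intro θ h
    have h1 : (starRingEnd ℂ) z * circleMap 0 1 θ = 1 := (sub_eq_zero.1 h).symm
    have h2 := congrArg norm h1
    rw [norm_mul, hE1, RCLike.norm_conj, mul_one, norm_one] at h2
    linarith
  set J : ℝ → ℝ := fun θ => (1 - ‖z‖ ^ 2) / ‖circleMap 0 1 θ - z‖ ^ 2 with hJ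
  have hJc : Continuous J := by
    refine Continuous.div continuous_const
      ((((continuous_circleMap 0 1).sub continuous_const).norm).pow 2) fun θ => ?_
    exact pow_ne_zero 2 (norm_ne_zero_iff.2 (hne θ))
  have hJint : ∫ θ in 0..2 * π, J θ = 2 * π := by
    have h1 := DiffContOnCl.circleAverage_poissonKernel_smul' (f := fun _ : ℂ => (1 : ℂ)) (c := 0)
      (R := 1) (w := z) diffContOnCl_const hz
    rw [circleAverage_def] at h1
    have h2 : ∀ θ : ℝ, ((‖circleMap 0 1 θ - 0‖ ^ 2 - ‖z - 0‖ ^ 2) /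
        ‖circleMap 0 1 θ - 0 - (z - 0)‖ ^ 2) • (1 : ℂ) = ((J θ : ℝ) : ℂ) := by
      intro θ
      rw [sub_zero, sub_zero, hE1, one_pow, Complex.real_smul, mul_one]
    simp only [h2] at h1
    rw [intervalIntegral.integral_ofReal, Complex.real_smul, ← Complex.ofReal_mul] at h1
    have h3 : (2 * π)⁻¹ * ∫ θ in 0..2 * π, J θ = 1 := by exact_mod_cast h1
    have h4 : (2 * π : ℝ) ≠ 0 := by positivity
    field_simp at h3
    linarith
  set ζ : ℝ → ℂ := fun θ => (circleMap 0 1 θ - z) / (1 - (starRingEnd ℂ) z * circleMap 0 1 θ)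
    with hζ
  have hζd : ∀ θ : ℝ, HasDerivAt ζ (J θ * I * ζ θ) θ := by
    intro θ
    have h1 := (hasDerivAt_circleMap 0 1 θ).sub_const z
    have h2 := ((hasDerivAt_circleMap 0 1 θ).const_mul ((starRingEnd ℂ) z)).const_sub 1
    have h3 := h1.div h2 (hne2 θ)
    refine h3.congr_deriv ?_
    have h4 : ((J θ : ℝ) : ℂ) = _ := MobCirc_J (hE1 θ) (hne θ) (hne2 θ)
    rw [h4]
    have h5 := hne θ
    have h6 := hne2 θ
    simp only [hζ]
    generalize circleMap 0 1 θ = w at h4 h5 h6 ⊢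
    field_simp
    ring
  have hζn : ∀ θ : ℝ, ‖ζ θ‖ = 1 := by
    intro θ
    have h3 : (starRingEnd ℂ) (circleMap 0 1 θ) * circleMap 0 1 θ = 1 := by
      rw [Complex.conj_mul', hE1]
      simp
    have h4 : (starRingEnd ℂ) (circleMap 0 1 θ - z) =
        (starRingEnd ℂ) (circleMap 0 1 θ) * (1 - (starRingEnd ℂ) z * circleMap 0 1 θ) := by
      rw [map_sub]
      linear_combination (starRingEnd ℂ) z * h3
    have h5 := congrArg norm h4
    rw [norm_mul, RCLike.norm_conj, RCLike.norm_conj, hE1, one_mul] at h5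
    simp only [hζ]
    rw [norm_div, h5, div_self (norm_ne_zero_iff.2 (hne2 θ))]
  set φ : ℝ → ℝ := fun θ => Complex.arg (ζ 0) + ∫ t in (0 : ℝ)..θ, J t with hφ
  have hφd : ∀ θ : ℝ, HasDerivAt φ (J θ) θ := by
    intro θ
    have h1 := intervalIntegral.integral_hasDerivAt_right (hJc.intervalIntegrable 0 θ)
      (hJc.stronglyMeasurableAtFilter _ _) hJc.continuousAt
    exact h1.const_add _
  have hφ0 : φ 0 = Complex.arg (ζ 0) := by simp [hφ]
  have hφ1 : φ (2 * π) = φ 0 + 2 * π := by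
    rw [hφ0]
    simp only [hφ]
    rw [hJint]
  have hH : ∀ θ : ℝ, ζ θ = Complex.exp (φ θ * I) := by
    have h1 : ∀ θ : ℝ, HasDerivAt (fun θ => ζ θ * Complex.exp (-(φ θ * I))) 0 θ := by
      intro θ
      have h2 : HasDerivAt (fun θ : ℝ => -((φ θ : ℂ) * I)) (-((J θ : ℂ) * I)) θ :=
        ((hφd θ).ofReal_comp.mul_const I).neg
      refine ((hζd θ).mul h2.cexp).congr_deriv ?_
      ring
    have h3 : ∀ θ : ℝ, ζ θ * Complex.exp (-(φ θ * I)) = 1 := by
      intro θ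
      have h4 := is_const_of_deriv_eq_zero (fun θ => (h1 θ).differentiableAt)
        (fun θ => (h1 θ).deriv) θ 0
      have h5 := Complex.norm_mul_exp_arg_mul_I (ζ 0)
      rw [hζn 0, Complex.ofReal_one, one_mul] at h5
      have h6 : ζ 0 ≠ 0 := norm_ne_zero_iff.1 (by rw [hζn 0]; exact one_ne_zero)
      rw [h4, hφ0, Complex.exp_neg, h5, mul_inv_cancel₀ h6]
    intro θ
    have h4 := h3 θ
    rw [Complex.exp_neg] at h4
    rwa [mul_inv_eq_one₀ (Complex.exp_ne_zero _)] at h4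
  have hg : Continuous fun t : ℝ => Φ (Complex.exp (t * I)) := by
    refine hΦ.comp_continuous (by fun_prop) fun t => ?_
    simp [Complex.norm_exp_ofReal_mul_I]
  have hper : Function.Periodic (fun t : ℝ => Φ (Complex.exp (t * I))) (2 * π) := by
    intro t
    simp only
    congr 1
    have := Complex.exp_periodic (t * I)
    rw [← this]
    congr 1
    push_cast
    ring
  rw [circleAverage_def, circleAverage_def]
  congr 1
  have h1 := intervalIntegral.integral_comp_mul_deriv (a := 0) (b := 2 * π) (f := φ) (f' := J)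
    (g := fun t : ℝ => Φ (Complex.exp (t * I))) (fun x _ => hφd x) hJc.continuousOn hg
  have h2 : ∀ θ : ℝ, (1 - ‖z‖ ^ 2) / ‖circleMap 0 1 θ - z‖ ^ 2 *
      Φ ((circleMap 0 1 θ - z) / (1 - (starRingEnd ℂ) z * circleMap 0 1 θ)) =
      ((fun t : ℝ => Φ (Complex.exp (t * I))) ∘ φ) θ * J θ := by
    intro θ
    rw [mul_comm]
    change Φ (ζ θ) * J θ = Φ (Complex.exp (φ θ * I)) * J θ
    rw [hH θ]
  simp only [h2]
  rw [h1, hφ1, hper.intervalIntegral_add_eq (φ 0) 0, zero_add]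
  simp only [hE]

end Pool.Agent.Helper21.KP
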