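import Pool.Agent.Helper21.KP.Prawitz
import Pool.Agent.Helper21.KP.MobCirc
import Pool.Agent.Helper21.KP.LogDQ
import Pool.Agent.Helper21.IM.Koebe

/-!
# KP-PZ: Prawitz's inequality with respect to the point `z`

`G = kt F z` (Koebe transform, `kt_sch`), `w = mob z ζ`.  `G ζ / ζ = exp (Λ z w) / (1 + conj z ζ)` because
`w - z = (1 - ‖z‖²) ζ / (1 + conj z ζ)`.  So `L ζ = Λ z (mob z ζ) - log (1 + conj z ζ)` is analytic for `‖ζ‖ < 1 + δ`,
`L 0 = 0`, and `g = exp (-th L)`.  `prawitz` for `s < 1`, let `s → 1` (continuity): the average of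
`Φ ζ = Re (conj g (ζ g' - th g))` over the unit circle is `≤ 0`.  `mob_circ`; on `‖w‖ = 1`, `ζ = (w-z)/(1 - conj z w)`:
`g ζ = E w ((1 - ‖z‖²)/(1 - conj z w))^th`, `E w = exp (-th Λ z w)`, `J = (1-‖z‖²)/‖w-z‖² =
w (1-‖z‖²)/((w-z)(1 - conj z w)) = w/(w-z) + conj z w/(1 - conj z w)`, `ζ g' = (w/J) d/dw g(ζ(w))`, hence
`J Φ = (1-‖z‖²)^(2 th) ‖1 - conj z w‖^(-2 th) Re (conj E (w E' - th (w/(w-z)) E))`, and `‖1 - conj z w‖ = ‖1 - z/w‖`.
-/

set_option autoImplicit false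

namespace Pool.Agent.Helper21.KP

open Complex Metric Set Real Finset MeasureTheory
open Pool.Agent.Helper21.IM

private theorem Praw_ne {z ζ : ℂ} (h : ‖(starRingEnd ℂ) z * ζ‖ < 1) :
    1 + (starRingEnd ℂ) z * ζ ≠ 0 :=
  slitPlane_ne_zero (mem_slitPlane_of_norm_lt_one h)

private theorem Praw_conj (z : ℂ) : (starRingEnd ℂ) z * z = ((‖z‖ ^ 2 : ℝ) : ℂ) := by
  rw [mul_comm, Complex.mul_conj, Complex.normSq_eq_norm_sq]

private theorem Praw_mob {z ζ : ℂ} (h : ‖(starRingEnd ℂ) z * ζ‖ < 1) :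
    HasDerivAt (mob z) (((1 - ‖z‖ ^ 2 : ℝ) : ℂ) / (1 + (starRingEnd ℂ) z * ζ) ^ 2) ζ := by
  have h1 := Praw_ne h
  have h2 : HasDerivAt (fun x : ℂ => x + z) 1 ζ := (hasDerivAt_id ζ).add_const z
  have h3 : HasDerivAt (fun x : ℂ => 1 + (starRingEnd ℂ) z * x) ((starRingEnd ℂ) z) ζ := by
    simpa using ((hasDerivAt_id ζ).const_mul ((starRingEnd ℂ) z)).const_add 1
  have h4 := h2.fun_div h3 h1
  have h5 : ((1 - ‖z‖ ^ 2 : ℝ) : ℂ) / (1 + (starRingEnd ℂ) z * ζ) ^ 2 =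
      (1 * (1 + (starRingEnd ℂ) z * ζ) - (ζ + z) * (starRingEnd ℂ) z) /
        (1 + (starRingEnd ℂ) z * ζ) ^ 2 := by
    congr 1
    have := Praw_conj z
    push_cast at this ⊢
    linear_combination this
  rw [h5]
  exact h4

private theorem Praw_norm {z ζ : ℂ} (h : ‖(starRingEnd ℂ) z * ζ‖ < 1) :
    1 - ‖mob z ζ‖ ^ 2 = (1 - ‖z‖ ^ 2) * (1 - ‖ζ‖ ^ 2) / ‖1 + (starRingEnd ℂ) z * ζ‖ ^ 2 := by
  have h1 : 0 < ‖1 + (starRingEnd ℂ) z * ζ‖ ^ 2 := by
    have := norm_pos_iff.2 (Praw_ne h)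
    positivity
  rw [mob, norm_div, div_pow, eq_div_iff h1.ne', sub_mul, one_mul, div_mul_cancel₀ _ h1.ne']
  rw [Complex.sq_norm, Complex.sq_norm, Complex.sq_norm, Complex.sq_norm]
  simp only [Complex.normSq_apply, Complex.add_re, Complex.add_im, Complex.mul_re,
    Complex.mul_im, Complex.conj_re, Complex.conj_im, Complex.one_re, Complex.one_im]
  ring

/-- the part of the plane where everything is analytic -/
private def Praw_U (z : ℂ) (R : ℝ) : Set ℂ :=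
  {ζ : ℂ | ‖(starRingEnd ℂ) z * ζ‖ < 1} ∩ mob z ⁻¹' ball 0 R

private theorem Praw_open (z : ℂ) (R : ℝ) : IsOpen (Praw_U z R) := by
  have h1 : IsOpen {ζ : ℂ | ‖(starRingEnd ℂ) z * ζ‖ < 1} :=
    isOpen_lt (by fun_prop) continuous_const
  have h2 : ContinuousOn (mob z) {ζ : ℂ | ‖(starRingEnd ℂ) z * ζ‖ < 1} := fun ζ hζ =>
    (Praw_mob hζ).continuousAt.continuousWithinAt
  exact h2.isOpen_inter_preimage h1 isOpen_ball

private theorem Praw_sub {z : ℂ} (hz : z ∈ ball (0 : ℂ) 1) {R : ℝ} (hR : 1 < R) :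
    closedBall (0 : ℂ) 1 ⊆ Praw_U z R := by
  intro ζ hζ
  rw [mem_closedBall_zero_iff] at hζ
  rw [mem_ball_zero_iff] at hz
  have h1 : ‖(starRingEnd ℂ) z * ζ‖ < 1 := by
    rw [norm_mul, RCLike.norm_conj]
    nlinarith only [hz, hζ, norm_nonneg z, norm_nonneg ζ]
  refine ⟨h1, ?_⟩
  rw [Set.mem_preimage, mem_ball_zero_iff]
  have h2 := Praw_norm h1
  have h3 : 0 ≤ 1 - ‖mob z ζ‖ ^ 2 := by
    rw [h2]
    have h4 : 0 ≤ 1 - ‖z‖ ^ 2 := by nlinarith only [hz, norm_nonneg z]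
    have h5 : 0 ≤ 1 - ‖ζ‖ ^ 2 := by nlinarith only [hζ, norm_nonneg ζ]
    positivity
  nlinarith only [h3, hR, norm_nonneg (mob z ζ)]

theorem praw {F : ℂ → ℂ} {R : ℝ} (hR : 1 < R) (hF : DifferentiableOn ℂ F (ball 0 R))
    (hi : InjOn F (ball 0 R)) {Λ : ℂ → ℂ → ℂ} (hΛ : LG F R Λ) {th : ℝ} (h0 : 0 < th) (h1 : th < 1 / 2)
    {z : ℂ} (hz : z ∈ ball (0 : ℂ) 1) :
    circleAverage (fun w => ‖1 - z / w‖ ^ (-2 * th) *
      ((starRingEnd ℂ) (exp (-(th : ℂ) * Λ z w)) *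
        (w * deriv (fun w => exp (-(th : ℂ) * Λ z w)) w
          - th * (w / (w - z)) * exp (-(th : ℂ) * Λ z w))).re) 0 1 ≤ 0 := by
  have hzR : z ∈ ball (0 : ℂ) R := ball_subset_ball hR.le hz
  have hz1 : ‖z‖ < 1 := mem_ball_zero_iff.1 hz
  have hA0 : 0 < 1 - ‖z‖ ^ 2 := by nlinarith only [hz1, norm_nonneg z]
  have hAc : ((1 - ‖z‖ ^ 2 : ℝ) : ℂ) ≠ 0 := by exact_mod_cast hA0.ne'
  have hAe : ((1 - ‖z‖ ^ 2 : ℝ) : ℂ) = 1 - (starRingEnd ℂ) z * z := by
    rw [Praw_conj]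
    push_cast
    ring
  set c : ℂ := (starRingEnd ℂ) z with hc
  have hUo := Praw_open z R
  have hUs := Praw_sub hz hR
  set U := Praw_U z R with hU
  -- the function `E`
  set E : ℂ → ℂ := fun w => exp (-(th : ℂ) * Λ z w) with hE
  have hEd : ∀ w ∈ ball (0 : ℂ) R, DifferentiableAt ℂ E w := fun w hw =>
    ((((hΛ.dw z hzR).differentiableAt (isOpen_ball.mem_nhds hw)).const_mul _).cexp)
  -- the logarithm of the Koebe transform
  set L : ℂ → ℂ := fun ζ => Λ z (mob z ζ) - log (1 + c * ζ) with hLdef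
  have hlog : ∀ ζ ∈ U, HasDerivAt (fun ζ => log (1 + c * ζ)) (c / (1 + c * ζ)) ζ := by
    intro ζ hζ
    have h3 : HasDerivAt (fun x : ℂ => 1 + c * x) c ζ := by
      simpa using ((hasDerivAt_id ζ).const_mul c).const_add 1
    exact h3.clog (mem_slitPlane_of_norm_lt_one hζ.1)
  have hLd : ∀ ζ ∈ U, DifferentiableAt ℂ L ζ := by
    intro ζ hζ
    have h2 : DifferentiableAt ℂ (Λ z) (mob z ζ) :=
      (hΛ.dw z hzR).differentiableAt (isOpen_ball.mem_nhds hζ.2)
    have h3 : DifferentiableAt ℂ (fun ζ => Λ z (mob z ζ)) ζ :=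
      h2.comp ζ (Praw_mob hζ.1).differentiableAt
    exact h3.sub (hlog ζ hζ).differentiableAt
  have hb1 : ball (0 : ℂ) 1 ⊆ U := ball_subset_closedBall.trans hUs
  have hFd : deriv F z ≠ 0 := deriv_ne isOpen_ball hF hi hzR
  have hF1 : DifferentiableOn ℂ F (ball 0 1) := hF.mono (ball_subset_ball hR.le)
  have hi1 : InjOn F (ball 0 1) := hi.mono (ball_subset_ball hR.le)
  have hGS : Sch (kt F z) := kt_sch hF1 hi1 hz
  have hL0 : L 0 = 0 := by
    simp only [hLdef, mul_zero, add_zero, Complex.log_one, sub_zero]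
    have h2 : mob z 0 = z := by simp [mob]
    rw [h2]
    exact hΛ.diag z hzR
  have hLE : ∀ ζ ∈ ball (0 : ℂ) 1, exp (L ζ) * ζ = kt F z ζ := by
    intro ζ hζ
    have h2 := hb1 hζ
    have h3 := Praw_ne h2.1
    rw [← hc] at h3
    have h4 := hΛ.ex z hzR (mob z ζ) h2.2
    have h5 : mob z ζ - z = ((1 - ‖z‖ ^ 2 : ℝ) : ℂ) * ζ / (1 + c * ζ) := by
      rw [hAe, mob, ← hc, eq_div_iff h3, sub_mul, div_mul_cancel₀ _ h3]
      ring
    rw [h5] at h4
    simp only [hLdef]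
    rw [Complex.exp_sub, Complex.exp_log h3, kt, ← h4]
    field_simp
  -- the function `g`
  set g : ℂ → ℂ := fun ζ => exp (-(th : ℂ) * L ζ) with hg
  have hgd : DifferentiableOn ℂ g U := fun ζ hζ =>
    (((hLd ζ hζ).const_mul _).cexp).differentiableWithinAt
  set Φ : ℂ → ℝ := fun ζ => ((starRingEnd ℂ) (g ζ) * (ζ * deriv g ζ - th * g ζ)).re with hΦ
  have hΦc : ContinuousOn Φ U := by
    have h2 : ContinuousOn (deriv g) U := (hgd.deriv hUo).continuousOn
    have h3 : ContinuousOn (fun ζ => (starRingEnd ℂ) (g ζ)) U :=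
      Complex.continuous_conj.comp_continuousOn hgd.continuousOn
    exact Complex.continuous_re.comp_continuousOn
      (h3.mul ((continuousOn_id.mul h2).sub (continuousOn_const.mul hgd.continuousOn)))
  have hpr : ∀ s : ℝ, 0 < s → s < 1 → circleAverage Φ 0 s ≤ 0 := fun s hs hs1 =>
    prawitz hGS (fun ζ hζ => (hLd ζ (hb1 hζ)).differentiableWithinAt) hL0 hLE h0 h1 hs hs1
  -- the limit
  have hlim : circleAverage Φ 0 1 ≤ 0 := by
    have h2 : ContinuousOn (circleAverage Φ 0) (Icc (1 / 2 : ℝ) 1) := by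
      apply ContinuousOn.circleAverage
      · refine hΦc.mono fun ζ hζ => hUs ?_
        rw [Set.mem_ofPred_eq, sub_zero] at hζ
        rw [mem_closedBall_zero_iff]
        exact hζ.2
      · intro r hr
        linarith only [hr.1]
    have h3 : Filter.Tendsto (circleAverage Φ 0) (nhdsWithin 1 (Ico (1 / 2 : ℝ) 1))
        (nhds (circleAverage Φ 0 1)) :=
      (h2 1 ⟨by norm_num, le_rfl⟩).mono_left (nhdsWithin_mono _ Ico_subset_Icc_self)
    have h4 : (nhdsWithin (1 : ℝ) (Ico (1 / 2 : ℝ) 1)).NeBot := by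
      rw [← mem_closure_iff_nhdsWithin_neBot, closure_Ico (by norm_num)]
      exact ⟨by norm_num, le_rfl⟩
    refine le_of_tendsto h3 ?_
    filter_upwards [self_mem_nhdsWithin] with s hs
    exact hpr s (by linarith only [hs.1]) hs.2
  rw [← mob_circ (hΦc.mono (sphere_subset_closedBall.trans hUs)) hz] at hlim
  -- pointwise
  set H : ℂ → ℝ := fun w => ‖1 - z / w‖ ^ (-2 * th) *
      ((starRingEnd ℂ) (E w) * (w * deriv E w - th * (w / (w - z)) * E w)).re with hH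
  have hpt : ∀ w ∈ sphere (0 : ℂ) |1|, (1 - ‖z‖ ^ 2) / ‖w - z‖ ^ 2 *
      Φ ((w - z) / (1 - (starRingEnd ℂ) z * w)) = (1 - ‖z‖ ^ 2) ^ (2 * th) * H w := by
    intro w hw
    rw [abs_one, mem_sphere_zero_iff_norm] at hw
    rw [← hc]
    have hw0 : w ≠ 0 := by
      intro h
      rw [h, norm_zero] at hw
      exact zero_ne_one hw
    have hwc : w * (starRingEnd ℂ) w = 1 := by
      rw [Complex.mul_conj, Complex.normSq_eq_norm_sq, hw]
      norm_num
    have hcw : ‖c * w‖ < 1 := by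
      rw [norm_mul, hc, RCLike.norm_conj, hw, mul_one]
      exact hz1
    have hD : 1 - c * w ≠ 0 := by
      intro h
      have h2 : c * w = 1 := by linear_combination -h
      rw [h2, norm_one] at hcw
      exact lt_irrefl _ hcw
    have hwz : w - z ≠ 0 := by
      intro h
      have h2 : w = z := by linear_combination h
      rw [h2] at hw
      exact hz1.ne hw
    have hcj : (starRingEnd ℂ) (1 - c * w) = 1 - z / w := by
      rw [map_sub, map_one, map_mul, hc, Complex.conj_conj]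
      congr 1
      field_simp
      linear_combination z * hwc
    have hnD : ‖1 - z / w‖ = ‖1 - c * w‖ := by rw [← hcj, RCLike.norm_conj]
    set ζ : ℂ := (w - z) / (1 - c * w) with hζ
    have hcz : ((1 - ‖z‖ ^ 2 : ℝ) : ℂ) = 1 - c * z := hAe
    have e1 : 1 + c * ζ = ((1 - ‖z‖ ^ 2 : ℝ) : ℂ) / (1 - c * w) := by
      rw [hcz, hζ]
      field_simp
      ring
    have hnz : ‖w - z‖ = ‖1 - c * w‖ := by
      have h2 : w - z = w * (1 - z / w) := by field_simp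
      rw [h2, norm_mul, hw, one_mul, hnD]
    have hζ1 : ‖ζ‖ = 1 := by
      rw [hζ, norm_div, hnz, div_self (norm_ne_zero_iff.2 hD)]
    have hζU : ζ ∈ U := hUs (by rw [mem_closedBall_zero_iff, hζ1])
    have hm : mob z ζ = w := by
      rw [mob, ← hc, e1, div_eq_iff (div_ne_zero hAc hD), hcz, hζ, mul_div_assoc', eq_div_iff hD,
        add_mul, div_mul_cancel₀ _ hD]
      ring
    have hwR : w ∈ ball (0 : ℂ) R := by
      rw [mem_ball_zero_iff, hw]
      exact hR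
    have h1c : 1 + c * ζ ≠ 0 := by
      have := Praw_ne hζU.1
      rwa [← hc] at this
    -- the values at the point
    set u : ℂ := exp ((th : ℂ) * log (1 + c * ζ)) with hu
    have hgv : ∀ x : ℂ, g x = E (mob z x) * exp ((th : ℂ) * log (1 + c * x)) := by
      intro x
      simp only [hg, hE, hLdef]
      rw [← Complex.exp_add]
      congr 1
      ring
    have hgfun : g = fun x => E (mob z x) * exp ((th : ℂ) * log (1 + c * x)) := funext hgv
    have hgu : g ζ = E w * u := by rw [hgv, hm]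
    have hgdv : HasDerivAt g (deriv E w * (((1 - ‖z‖ ^ 2 : ℝ) : ℂ) / (1 + c * ζ) ^ 2) * u +
        E w * (u * ((th : ℂ) * (c / (1 + c * ζ))))) ζ := by
      have h2 : HasDerivAt E (deriv E w) (mob z ζ) := by
        rw [hm]
        exact (hEd w hwR).hasDerivAt
      have h3 : HasDerivAt (fun x => E (mob z x))
          (deriv E w * (((1 - ‖z‖ ^ 2 : ℝ) : ℂ) / (1 + c * ζ) ^ 2)) ζ :=
        h2.comp ζ (Praw_mob hζU.1)
      have h4 : HasDerivAt (fun x => exp ((th : ℂ) * log (1 + c * x)))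
          (u * ((th : ℂ) * (c / (1 + c * ζ)))) ζ :=
        ((hlog ζ hζU).const_mul _).cexp
      rw [hgfun]
      have h5 := h3.mul h4
      rw [hm] at h5
      exact h5
    have hJ : (((1 - ‖z‖ ^ 2) / ‖w - z‖ ^ 2 : ℝ) : ℂ) =
        ((1 - ‖z‖ ^ 2 : ℝ) : ℂ) * w / ((w - z) * (1 - c * w)) := by
      have h2 : ((‖w - z‖ ^ 2 : ℝ) : ℂ) = (w - z) * ((starRingEnd ℂ) w - c) := by
        rw [← Complex.normSq_eq_norm_sq, ← Complex.mul_conj, map_sub, hc]
      have h3 : (starRingEnd ℂ) w - c = (1 - c * w) / w := by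
        rw [eq_div_iff hw0]
        linear_combination hwc
      rw [Complex.ofReal_div, h2, h3]
      field_simp
    have hnu : ‖u‖ ^ 2 = (1 - ‖z‖ ^ 2) ^ (2 * th) * ‖1 - z / w‖ ^ (-2 * th) := by
      have h2 : ‖u‖ = ‖1 + c * ζ‖ ^ th := by
        rw [hu, Complex.norm_exp, Complex.re_ofReal_mul, Complex.log_re, mul_comm,
          Real.rpow_def_of_pos (norm_pos_iff.2 h1c)]
      have h3 : ‖1 + c * ζ‖ = (1 - ‖z‖ ^ 2) / ‖1 - c * w‖ := by
        rw [e1, norm_div, Complex.norm_real, Real.norm_of_nonneg hA0.le]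
      have h4 : 0 < ‖1 - c * w‖ := norm_pos_iff.2 hD
      rw [h2, h3, ← Real.rpow_natCast, ← Real.rpow_mul (by positivity),
        Real.div_rpow hA0.le h4.le, hnD, neg_mul, Real.rpow_neg h4.le, div_eq_mul_inv]
      push_cast
      rw [mul_comm th 2]
    -- conclusion
    have hkey : (((1 - ‖z‖ ^ 2) / ‖w - z‖ ^ 2 : ℝ) : ℂ) *
        ((starRingEnd ℂ) (g ζ) * (ζ * deriv g ζ - th * g ζ)) =
        ((‖u‖ ^ 2 : ℝ) : ℂ) *
          ((starRingEnd ℂ) (E w) * (w * deriv E w - th * (w / (w - z)) * E w)) := by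
      have hn2 : ((‖u‖ ^ 2 : ℝ) : ℂ) = u * (starRingEnd ℂ) u := by
        rw [← Complex.normSq_eq_norm_sq, ← Complex.mul_conj]
      rw [hgdv.deriv, hgu, hJ, map_mul, hn2]
      have h2 : ζ * (deriv E w * (((1 - ‖z‖ ^ 2 : ℝ) : ℂ) / (1 + c * ζ) ^ 2) * u +
          E w * (u * ((th : ℂ) * (c / (1 + c * ζ))))) - th * (E w * u) =
          u * (ζ * ((1 - ‖z‖ ^ 2 : ℝ) : ℂ) / (1 + c * ζ) ^ 2 * deriv E w
            - th * (1 / (1 + c * ζ)) * E w) := by
        have hv : (1 + c * ζ) * (1 + c * ζ)⁻¹ = 1 := mul_inv_cancel₀ h1c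
        simp only [div_eq_mul_inv]
        linear_combination (th * E w * u) * hv
      have h3 : ((1 - ‖z‖ ^ 2 : ℝ) : ℂ) * w / ((w - z) * (1 - c * w)) *
          (ζ * ((1 - ‖z‖ ^ 2 : ℝ) : ℂ) / (1 + c * ζ) ^ 2) = w := by
        rw [e1, hζ]
        generalize ((1 - ‖z‖ ^ 2 : ℝ) : ℂ) = A at hAc
        field_simp
        rw [mul_comm w c]
        exact div_self hD
      have h4 : ((1 - ‖z‖ ^ 2 : ℝ) : ℂ) * w / ((w - z) * (1 - c * w)) *
          (1 / (1 + c * ζ)) = w / (w - z) := by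
        rw [e1]
        generalize ((1 - ‖z‖ ^ 2 : ℝ) : ℂ) = A at hAc
        field_simp
        rw [mul_comm w c]
        exact div_self hD
      rw [h2]
      linear_combination (u * (starRingEnd ℂ) u * (starRingEnd ℂ) (E w) * deriv E w) * h3 -
        (u * (starRingEnd ℂ) u * (starRingEnd ℂ) (E w) * th * E w) * h4
    have h2 := congrArg Complex.re hkey
    rw [Complex.re_ofReal_mul, Complex.re_ofReal_mul] at h2
    change (1 - ‖z‖ ^ 2) / ‖w - z‖ ^ 2 * ((starRingEnd ℂ) (g ζ) *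
      (ζ * deriv g ζ - th * g ζ)).re = _
    rw [h2, hnu, hH]
    ring
  rw [circleAverage_congr_sphere hpt] at hlim
  have h2 : circleAverage (fun w => (1 - ‖z‖ ^ 2) ^ (2 * th) * H w) 0 1 =
      (1 - ‖z‖ ^ 2) ^ (2 * th) * circleAverage H 0 1 := by
    have := circleAverage_fun_smul (a := (1 - ‖z‖ ^ 2) ^ (2 * th)) (f := H) (c := 0) (R := 1)
    simpa only [smul_eq_mul] using this
  rw [h2] at hlim
  have h3 : 0 < (1 - ‖z‖ ^ 2) ^ (2 * th) := Real.rpow_pos_of_pos hA0 _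
  by_contra h4
  push Not at h4
  exact absurd hlim (not_le.2 (mul_pos h3 h4))

end Pool.Agent.Helper21.KP
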