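import Pool.Agent.Helper21.KP.Uk

/-!
# KP-TP: the layers as differential polynomials

With `ψ' = g ψ`, `g = t/2 n0 + a/2 h`, `n0' = n1`, `n1' = n2`, `h' = h (n0 - h)` (`h = F'/F`): `g' = g1`, `g'' = g2`,
`(ψ p)' = ψ (p' + g p)` etc.; `Tf N = ∑_k gam N k (d/ds)^(N-k) (ψ p_k)` by `uk`.
`tp_zero`: `a = 0`, `th = 1/10`, `B = 1/24`, `t = 6/25`: unfold everything, `norm_num`, `ring`.
-/

set_option autoImplicit false

namespace Pool.Agent.Helper21.KP

open Complex Metric Set Real Finset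
open Pool.Agent.Helper21.IM

noncomputable def g0 (t a : ℝ) (n0 h : ℂ) : ℂ := (t : ℂ) / 2 * n0 + (a : ℂ) / 2 * h

noncomputable def g1 (t a : ℝ) (n0 n1 h : ℂ) : ℂ := (t : ℂ) / 2 * n1 + (a : ℂ) / 2 * (h * (n0 - h))

noncomputable def g2 (t a : ℝ) (n0 n1 n2 h : ℂ) : ℂ :=
  (t : ℂ) / 2 * n2 + (a : ℂ) / 2 * (h * (n0 - h) ^ 2 + h * (n1 - h * (n0 - h)))

noncomputable def tp1 (th B t a : ℝ) (n0 h : ℂ) : ℂ :=
  (gam th B 1 0 : ℂ) * g0 t a n0 h + (gam th B 1 1 : ℂ) * p1 th n0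

noncomputable def tp2 (th B t a : ℝ) (n0 n1 h : ℂ) : ℂ :=
  (gam th B 2 0 : ℂ) * (g1 t a n0 n1 h + g0 t a n0 h ^ 2)
    + (gam th B 2 1 : ℂ) * (p1 th n1 + g0 t a n0 h * p1 th n0) + (gam th B 2 2 : ℂ) * p2 th n0 n1

noncomputable def tp3 (th B t a : ℝ) (n0 n1 n2 h : ℂ) : ℂ :=
  (gam th B 3 0 : ℂ) * (g2 t a n0 n1 n2 h + 3 * g0 t a n0 h * g1 t a n0 n1 h + g0 t a n0 h ^ 3)
    + (gam th B 3 1 : ℂ) * (p1 th n2 + 2 * g0 t a n0 h * p1 th n1
        + (g1 t a n0 n1 h + g0 t a n0 h ^ 2) * p1 th n0)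
    + (gam th B 3 2 : ℂ) * (-((th : ℂ) / 6) * (n2 + 2 * n0 * n1) + (th : ℂ) * (th + 1) / 4 * (n0 * n1)
        + g0 t a n0 h * p2 th n0 n1)
    + (gam th B 3 3 : ℂ) * p3 th n0 n1 n2

/-- product rule in a ball -/
private theorem Tp_step {ψ g : ℂ → ℂ} {R : ℝ} (hψ : DifferentiableOn ℂ ψ (ball 0 R))
    (hd : ∀ z ∈ ball (0 : ℂ) R, deriv ψ z = g z * ψ z) {f P P' Q : ℂ → ℂ} {n : ℕ}
    (hf : ∀ z ∈ ball (0 : ℂ) R, iteratedDeriv n f z = ψ z * P z)
    (hP : ∀ z ∈ ball (0 : ℂ) R, HasDerivAt P (P' z) z)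
    (hQ : ∀ z ∈ ball (0 : ℂ) R, Q z = P' z + g z * P z) :
    ∀ z ∈ ball (0 : ℂ) R, iteratedDeriv (n + 1) f z = ψ z * Q z := by
  intro z hz
  have hnhds : ball (0 : ℂ) R ∈ nhds z := isOpen_ball.mem_nhds hz
  have hψz : HasDerivAt ψ (g z * ψ z) z := by
    rw [← hd z hz]
    exact (hψ.differentiableAt hnhds).hasDerivAt
  have h1 : iteratedDeriv n f =ᶠ[nhds z] fun y => ψ y * P y := by
    filter_upwards [hnhds] with y hy
    exact hf y hy
  have h2 : HasDerivAt (fun y => ψ y * P y) (g z * ψ z * P z + ψ z * P' z) z := hψz.mul (hP z hz)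
  rw [iteratedDeriv_succ, h1.deriv_eq, h2.deriv, hQ z hz]
  ring

theorem tf_eq {F ψ : ℂ → ℂ} {R : ℝ} (hF : DifferentiableOn ℂ F (ball 0 R)) (hi : InjOn F (ball 0 R))
    (hne : ∀ z ∈ ball (0 : ℂ) R, F z ≠ 0) (hψ : DifferentiableOn ℂ ψ (ball 0 R)) {t a : ℝ}
    (hd : ∀ z ∈ ball (0 : ℂ) R, deriv ψ z = g0 t a (pre F z) (deriv F z / F z) * ψ z)
    {Λ : ℂ → ℂ → ℂ} (hΛ : LG F R Λ) (th B : ℝ) {s : ℂ} (hs : s ∈ ball (0 : ℂ) R) :
    Tf th B (fun z w => ψ z * exp (-(th : ℂ) * Λ z w)) 1 s =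
      ψ s * tp1 th B t a (pre F s) (deriv F s / F s) ∧
    Tf th B (fun z w => ψ z * exp (-(th : ℂ) * Λ z w)) 2 s =
      ψ s * tp2 th B t a (pre F s) (deriv (pre F) s) (deriv F s / F s) ∧
    Tf th B (fun z w => ψ z * exp (-(th : ℂ) * Λ z w)) 3 s =
      ψ s * tp3 th B t a (pre F s) (deriv (pre F) s) (deriv (deriv (pre F)) s) (deriv F s / F s) := by
  have hF' : ∀ z ∈ ball (0 : ℂ) R, deriv F z ≠ 0 := fun z hz => deriv_ne isOpen_ball hF hi hz
  have hdF : DifferentiableOn ℂ (deriv F) (ball 0 R) := hF.deriv isOpen_ball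
  have hddF : DifferentiableOn ℂ (deriv (deriv F)) (ball 0 R) := hdF.deriv isOpen_ball
  have hn0 : DifferentiableOn ℂ (pre F) (ball 0 R) := hddF.div hdF hF'
  have hn1 : DifferentiableOn ℂ (deriv (pre F)) (ball 0 R) := hn0.deriv isOpen_ball
  have d0 : ∀ z ∈ ball (0 : ℂ) R, HasDerivAt (pre F) (deriv (pre F) z) z := fun z hz =>
    (hn0.differentiableAt (isOpen_ball.mem_nhds hz)).hasDerivAt
  have d1 : ∀ z ∈ ball (0 : ℂ) R,
      HasDerivAt (deriv (pre F)) (deriv (deriv (pre F)) z) z := fun z hz =>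
    (hn1.differentiableAt (isOpen_ball.mem_nhds hz)).hasDerivAt
  have dh : ∀ z ∈ ball (0 : ℂ) R, HasDerivAt (fun y => deriv F y / F y)
      (deriv F z / F z * (pre F z - deriv F z / F z)) z := by
    intro z hz
    have e1 := (hdF.differentiableAt (isOpen_ball.mem_nhds hz)).hasDerivAt
    have e2 := (hF.differentiableAt (isOpen_ball.mem_nhds hz)).hasDerivAt
    have e3 := e1.div e2 (hne z hz)
    refine e3.congr_deriv ?_
    unfold pre
    have := hne z hz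
    have := hF' z hz
    field_simp
  have dg0 : ∀ z ∈ ball (0 : ℂ) R, HasDerivAt (fun y => g0 t a (pre F y) (deriv F y / F y))
      (g1 t a (pre F z) (deriv (pre F) z) (deriv F z / F z)) z := by
    intro z hz
    exact ((d0 z hz).const_mul _).add ((dh z hz).const_mul _)
  have dg1 : ∀ z ∈ ball (0 : ℂ) R,
      HasDerivAt (fun y => g1 t a (pre F y) (deriv (pre F) y) (deriv F y / F y))
      (g2 t a (pre F z) (deriv (pre F) z) (deriv (deriv (pre F)) z) (deriv F z / F z)) z := by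
    intro z hz
    have e := ((d1 z hz).const_mul ((t : ℂ) / 2)).add
      (((dh z hz).mul ((d0 z hz).sub (dh z hz))).const_mul ((a : ℂ) / 2))
    refine e.congr_deriv ?_
    unfold g2
    simp only [Pi.sub_apply]
    ring
  set U : ℂ → ℂ → ℂ := fun z w => ψ z * exp (-(th : ℂ) * Λ z w) with hU
  have hu : ∀ z ∈ ball (0 : ℂ) R, ud U 0 z = ψ z ∧ ud U 1 z = ψ z * p1 th (pre F z) ∧
      ud U 2 z = ψ z * p2 th (pre F z) (deriv (pre F) z) ∧
      ud U 3 z = ψ z * p3 th (pre F z) (deriv (pre F) z) (deriv (deriv (pre F)) z) :=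
    fun z hz => uk hF hi hΛ th hz
  -- k = 0
  have a0 : ∀ z ∈ ball (0 : ℂ) R, iteratedDeriv 0 (ud U 0) z = ψ z * (fun _ => (1 : ℂ)) z := by
    intro z hz
    rw [iteratedDeriv_zero, (hu z hz).1, mul_one]
  have a1 := Tp_step hψ hd a0 (P' := fun _ => 0)
    (Q := fun z => g0 t a (pre F z) (deriv F z / F z)) (fun z _ => hasDerivAt_const z 1)
    (fun z _ => by ring)
  have a2 := Tp_step hψ hd a1 dg0
    (Q := fun z => g1 t a (pre F z) (deriv (pre F) z) (deriv F z / F z) +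
      g0 t a (pre F z) (deriv F z / F z) ^ 2) (fun z _ => by ring)
  have a3 := Tp_step hψ hd a2 (fun z hz => (dg1 z hz).add ((dg0 z hz).pow 2))
    (Q := fun z => g2 t a (pre F z) (deriv (pre F) z) (deriv (deriv (pre F)) z) (deriv F z / F z) +
      3 * g0 t a (pre F z) (deriv F z / F z) *
        g1 t a (pre F z) (deriv (pre F) z) (deriv F z / F z) +
      g0 t a (pre F z) (deriv F z / F z) ^ 3) (fun z _ => by push_cast; ring)
  -- k = 1
  have dp1 : ∀ z ∈ ball (0 : ℂ) R, HasDerivAt (fun y => p1 th (pre F y))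
      (p1 th (deriv (pre F) z)) z := fun z hz => (d0 z hz).const_mul _
  have dp1' : ∀ z ∈ ball (0 : ℂ) R, HasDerivAt (fun y => p1 th (deriv (pre F) y))
      (p1 th (deriv (deriv (pre F)) z)) z := fun z hz => (d1 z hz).const_mul _
  have b0 : ∀ z ∈ ball (0 : ℂ) R,
      iteratedDeriv 0 (ud U 1) z = ψ z * (fun y => p1 th (pre F y)) z := by
    intro z hz
    rw [iteratedDeriv_zero, (hu z hz).2.1]
  have b1 := Tp_step hψ hd b0 dp1
    (Q := fun z => p1 th (deriv (pre F) z) +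
      g0 t a (pre F z) (deriv F z / F z) * p1 th (pre F z)) (fun z _ => rfl)
  have b2 := Tp_step hψ hd b1
    (fun z hz => (dp1' z hz).add ((dg0 z hz).mul (dp1 z hz)))
    (Q := fun z => p1 th (deriv (deriv (pre F)) z) +
      2 * g0 t a (pre F z) (deriv F z / F z) * p1 th (deriv (pre F) z) +
      (g1 t a (pre F z) (deriv (pre F) z) (deriv F z / F z) +
        g0 t a (pre F z) (deriv F z / F z) ^ 2) * p1 th (pre F z)) (fun z _ => by ring)
  -- k = 2
  have dp2 : ∀ z ∈ ball (0 : ℂ) R, HasDerivAt (fun y => p2 th (pre F y) (deriv (pre F) y))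
      (-((th : ℂ) / 6) * (deriv (deriv (pre F)) z + 2 * pre F z * deriv (pre F) z) +
        (th : ℂ) * (th + 1) / 4 * (pre F z * deriv (pre F) z)) z := by
    intro z hz
    have e := (((d1 z hz).add ((d0 z hz).pow 2)).const_mul (-((th : ℂ) / 6))).add
      (((d0 z hz).pow 2).const_mul ((th : ℂ) * (th + 1) / 8))
    refine e.congr_deriv ?_
    push_cast
    ring
  have c0 : ∀ z ∈ ball (0 : ℂ) R,
      iteratedDeriv 0 (ud U 2) z = ψ z * (fun y => p2 th (pre F y) (deriv (pre F) y)) z := by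
    intro z hz
    rw [iteratedDeriv_zero, (hu z hz).2.2.1]
  have c1 := Tp_step hψ hd c0 dp2
    (Q := fun z => -((th : ℂ) / 6) * (deriv (deriv (pre F)) z + 2 * pre F z * deriv (pre F) z) +
        (th : ℂ) * (th + 1) / 4 * (pre F z * deriv (pre F) z) +
      g0 t a (pre F z) (deriv F z / F z) * p2 th (pre F z) (deriv (pre F) z)) (fun z _ => rfl)
  obtain ⟨-, u1, u2, u3⟩ := hu s hs
  refine ⟨?_, ?_, ?_⟩
  · unfold Tf tp1
    rw [Finset.sum_range_succ, Finset.sum_range_one]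
    norm_num only [Nat.sub_zero, Nat.sub_self]
    rw [a1 s hs, iteratedDeriv_zero, u1]
    ring
  · unfold Tf tp2
    rw [Finset.sum_range_succ, Finset.sum_range_succ, Finset.sum_range_one]
    norm_num only [Nat.sub_zero, Nat.sub_self]
    rw [a2 s hs, b1 s hs, iteratedDeriv_zero, u2]
    ring
  · unfold Tf tp3
    rw [Finset.sum_range_succ, Finset.sum_range_succ, Finset.sum_range_succ, Finset.sum_range_one]
    norm_num only [Nat.sub_zero, Nat.sub_self]
    rw [a3 s hs, b2 s hs, c1 s hs, iteratedDeriv_zero, u3]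
    ring

private theorem Tp_gam10 : gam (1 / 10) (1 / 24) 1 0 = 1 / 10 := by
  norm_num [gam, tau, poc, Finset.sum_range_succ, Nat.factorial, Nat.choose]

private theorem Tp_gam11 : gam (1 / 10) (1 / 24) 1 1 = 25 / 24 := by
  norm_num [gam, tau, poc, Finset.sum_range_succ, Nat.factorial, Nat.choose]

private theorem Tp_gam20 : gam (1 / 10) (1 / 24) 2 0 = -(9 / 200) := by
  norm_num [gam, tau, poc, Finset.sum_range_succ, Nat.factorial, Nat.choose]

private theorem Tp_gam21 : gam (1 / 10) (1 / 24) 2 1 = -(147 / 80) := by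
  norm_num [gam, tau, poc, Finset.sum_range_succ, Nat.factorial, Nat.choose]

private theorem Tp_gam22 : gam (1 / 10) (1 / 24) 2 2 = 3577 / 576 := by
  norm_num [gam, tau, poc, Finset.sum_range_succ, Nat.factorial, Nat.choose]

private theorem Tp_gam30 : gam (1 / 10) (1 / 24) 3 0 = 57 / 2000 := by
  norm_num [gam, tau, poc, Finset.sum_range_succ, Nat.factorial, Nat.choose]

private theorem Tp_gam31 : gam (1 / 10) (1 / 24) 3 1 = 4161 / 1600 := by
  norm_num [gam, tau, poc, Finset.sum_range_succ, Nat.factorial, Nat.choose]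

private theorem Tp_gam32 : gam (1 / 10) (1 / 24) 3 2 = -(134539 / 5760) := by
  norm_num [gam, tau, poc, Finset.sum_range_succ, Nat.factorial, Nat.choose]

private theorem Tp_gam33 : gam (1 / 10) (1 / 24) 3 3 = 856801 / 13824 := by
  norm_num [gam, tau, poc, Finset.sum_range_succ, Nat.factorial, Nat.choose]

theorem tp_zero (X Y Z : ℂ) :
    tp1 (1 / 10) (1 / 24) (6 / 25) 0 X 0 = -(481 / 12000) * X ∧
    tp2 (1 / 10) (1 / 24) (6 / 25) 0 X Y 0 = -(73553 / 4320000) * Y - 6683647 / 864000000 * X ^ 2 ∧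
    tp3 (1 / 10) (1 / 24) (6 / 25) 0 X Y Z 0 =
      9192287 / 2073600000 * Z - 448485349 / 6480000000 * (X * Y)
        + 20704916921 / 1152000000000 * X ^ 3 := by
  refine ⟨?_, ?_, ?_⟩
  · unfold tp1 g0 p1
    rw [Tp_gam10, Tp_gam11]
    push_cast
    ring
  · unfold tp2 g1 g0 p1 p2
    rw [Tp_gam20, Tp_gam21, Tp_gam22]
    push_cast
    ring
  · unfold tp3 g2 g1 g0 p1 p2 p3
    rw [Tp_gam30, Tp_gam31, Tp_gam32, Tp_gam33]
    push_cast
    ring

end Pool.Agent.Helper21.KP
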