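import Mathlib

/-!
# KP-TV: double power series of a function of two variables

Let `R < r < R'`.  `x j k` = circle average over `‖z‖ = r` and over `‖w‖ = r` of `U z w z^(-j) w^(-k)`; it is bounded by
`M r^(-j-k)`, `M` a bound of `U` on the torus.  For `‖w‖ < r`, fixed `z`: `U z w = ∑_k P_k(z) w^k`,
`P_k z` = average over `w` of `U z w w^(-k)` (`hasSum_cauchyPowerSeries_integral`, `circleAverage`); expand `U z w` for
fixed `w` on the circle in powers of `z` in the same way and exchange the sum and the average.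
-/

set_option autoImplicit false

namespace Pool.Agent.Helper21.KP

open Complex Metric Set Real Finset MeasureTheory

/-- double power series, converging absolutely for `‖z‖, ‖w‖ < R` -/
structure DPS (U : ℂ → ℂ → ℂ) (x : ℕ → ℕ → ℂ) (R : ℝ) : Prop where
  bd : ∃ C : ℝ, ∀ j k, ‖x j k‖ ≤ C / R ^ (j + k)
  hs : ∀ z ∈ ball (0 : ℂ) R, ∀ w ∈ ball (0 : ℂ) R,
    HasSum (fun p : ℕ × ℕ => x p.1 p.2 * z ^ p.1 * w ^ p.2) (U z w)

private noncomputable def TV_ca (r : ℝ) (f : ℂ → ℂ) (n : ℕ) : ℂ :=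
  (2 * π : ℂ)⁻¹ * ∫ θ in (0 : ℝ)..2 * π, ((circleMap 0 r θ)⁻¹) ^ n * f (circleMap 0 r θ)

private theorem TV_cauchy (f : ℂ → ℂ) {r : ℝ} (h0 : 0 < r) (w : ℂ) (n : ℕ) :
    (cauchyPowerSeries f 0 r n fun _ => w) = TV_ca r f n * w ^ n := by
  rw [cauchyPowerSeries_apply, TV_ca, circleIntegral]
  simp only [deriv_circleMap, sub_zero, smul_eq_mul]
  rw [mul_comm _ (w ^ n), ← mul_assoc (w ^ n), ← intervalIntegral.integral_const_mul,
    ← intervalIntegral.integral_const_mul]
  congr 1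
  funext θ
  have hz : circleMap 0 r θ ≠ 0 := circleMap_ne_center h0.ne'
  have hπ : (π : ℂ) ≠ 0 := by exact_mod_cast Real.pi_ne_zero
  have hI := Complex.I_ne_zero
  rw [div_eq_mul_inv, mul_pow]
  field_simp

private theorem TV_one {f : ℂ → ℂ} {r R' : ℝ} (h0 : 0 < r) (h : r < R')
    (hf : DifferentiableOn ℂ f (ball 0 R')) {w : ℂ} (hw : w ∈ ball (0 : ℂ) r) :
    HasSum (fun n => TV_ca r f n * w ^ n) (f w) := by
  have hsub : closedBall (0 : ℂ) r ⊆ ball 0 R' := closedBall_subset_ball h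
  have hcl : DiffContOnCl ℂ f (ball 0 r) :=
    (hf.mono (closure_ball_subset_closedBall.trans hsub)).diffContOnCl
  have h1 := hcl.two_pi_i_inv_smul_circleIntegral_sub_inv_smul hw
  have hci : CircleIntegrable f 0 r := by
    apply ContinuousOn.circleIntegrable h0.le
    exact hf.continuousOn.mono (sphere_subset_closedBall.trans hsub)
  have h2 := hasSum_cauchyPowerSeries_integral hci (w := w) (by simpa using hw)
  rw [zero_add, h1] at h2
  have h3 : (fun n => TV_ca r f n * w ^ n) = fun n => cauchyPowerSeries f 0 r n fun _ => w := by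
    funext n
    rw [TV_cauchy f h0]
  rw [h3]
  exact h2

private theorem TV_bd {f : ℂ → ℂ} {r M : ℝ} (h0 : 0 < r)
    (hf : ∀ θ : ℝ, ‖f (circleMap 0 r θ)‖ ≤ M) (n : ℕ) : ‖TV_ca r f n‖ ≤ M / r ^ n := by
  have hn : ∀ θ : ℝ, ‖circleMap 0 r θ‖ = r := by
    intro θ
    rw [norm_circleMap_zero, abs_of_pos h0]
  have h1 : ‖∫ θ in (0 : ℝ)..2 * π, ((circleMap 0 r θ)⁻¹) ^ n * f (circleMap 0 r θ)‖ ≤
      (M / r ^ n) * |2 * π - 0| := by
    apply intervalIntegral.norm_integral_le_of_norm_le_const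
    intro θ _
    rw [norm_mul, norm_pow, norm_inv, hn, inv_pow, mul_comm, div_eq_mul_inv]
    exact mul_le_mul_of_nonneg_right (hf θ) (by positivity)
  rw [TV_ca, norm_mul, norm_inv]
  have h2 : ‖(2 * π : ℂ)‖ = 2 * π := by
    rw [norm_mul, Complex.norm_real, Real.norm_eq_abs, abs_of_pos Real.pi_pos]
    simp
  rw [h2]
  rw [sub_zero, abs_of_pos Real.two_pi_pos] at h1
  calc (2 * π)⁻¹ * ‖∫ θ in (0 : ℝ)..2 * π, ((circleMap 0 r θ)⁻¹) ^ n * f (circleMap 0 r θ)‖
      ≤ (2 * π)⁻¹ * ((M / r ^ n) * (2 * π)) := by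
        apply mul_le_mul_of_nonneg_left h1
        positivity
    _ = M / r ^ n := by
        have := Real.pi_pos.ne'
        field_simp

theorem two_var {U : ℂ → ℂ → ℂ} {R R' : ℝ} (h1 : 0 < R) (h : R < R')
    (hc : ContinuousOn (fun p : ℂ × ℂ => U p.1 p.2) (ball 0 R' ×ˢ ball 0 R'))
    (hz : ∀ w ∈ ball (0 : ℂ) R', DifferentiableOn ℂ (fun z => U z w) (ball 0 R'))
    (hw : ∀ z ∈ ball (0 : ℂ) R', DifferentiableOn ℂ (U z) (ball 0 R')) : ∃ x, DPS U x R := by
  obtain ⟨r, hr1, hr2⟩ := exists_between h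
  have h0 : 0 < r := h1.trans hr1
  have hcm : ∀ θ : ℝ, circleMap 0 r θ ∈ ball (0 : ℂ) R' := by
    intro θ
    rw [mem_ball_zero_iff, norm_circleMap_zero, abs_of_pos h0]
    exact hr2
  have hcn : ∀ θ : ℝ, circleMap 0 r θ ≠ 0 := fun θ => circleMap_ne_center h0.ne'
  -- the bound on the torus
  obtain ⟨M, hM⟩ : ∃ M : ℝ, ∀ θ φ : ℝ, ‖U (circleMap 0 r θ) (circleMap 0 r φ)‖ ≤ M := by
    have hK : IsCompact (sphere (0 : ℂ) r ×ˢ sphere (0 : ℂ) r) :=
      (isCompact_sphere 0 r).prod (isCompact_sphere 0 r)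
    have hs : sphere (0 : ℂ) r ×ˢ sphere (0 : ℂ) r ⊆ ball 0 R' ×ˢ ball 0 R' := by
      have : sphere (0 : ℂ) r ⊆ ball 0 R' :=
        sphere_subset_closedBall.trans (closedBall_subset_ball hr2)
      exact Set.prod_mono this this
    obtain ⟨M, hM⟩ := hK.exists_bound_of_continuousOn (hc.mono hs)
    refine ⟨M, fun θ φ => hM (circleMap 0 r θ, circleMap 0 r φ) ⟨?_, ?_⟩⟩
    · exact circleMap_mem_sphere 0 h0.le θ
    · exact circleMap_mem_sphere 0 h0.le φ
  have hM0 : 0 ≤ M := (norm_nonneg _).trans (hM 0 0)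
  -- joint continuity on the torus
  have hG : Continuous fun p : ℝ × ℝ => U (circleMap 0 r p.1) (circleMap 0 r p.2) := by
    have h2 : Continuous fun p : ℝ × ℝ => (circleMap 0 r p.1, circleMap 0 r p.2) :=
      ((continuous_circleMap 0 r).comp continuous_fst).prodMk
        ((continuous_circleMap 0 r).comp continuous_snd)
    exact hc.comp_continuous h2 fun p => ⟨hcm p.1, hcm p.2⟩
  have hinv : Continuous fun θ : ℝ => (circleMap 0 r θ)⁻¹ :=
    (continuous_circleMap 0 r).inv₀ hcn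
  -- the coefficients
  obtain ⟨P, hP⟩ : ∃ P : ℕ → ℂ → ℂ, P = fun k ζ => TV_ca r (U ζ) k := ⟨_, rfl⟩
  have hPc : ∀ k, Continuous fun θ : ℝ => P k (circleMap 0 r θ) := by
    intro k
    rw [hP]
    simp only [TV_ca]
    refine continuous_const.mul ?_
    apply intervalIntegral.continuous_parametric_intervalIntegral_of_continuous'
    exact ((hinv.comp continuous_snd).pow k).mul hG
  have hPb : ∀ k (θ : ℝ), ‖P k (circleMap 0 r θ)‖ ≤ M / r ^ k := by
    intro k θ
    rw [hP]
    exact TV_bd h0 (fun φ => hM θ φ) k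
  have hxb : ∀ j k, ‖TV_ca r (P k) j‖ ≤ M / r ^ (j + k) := by
    intro j k
    have := TV_bd h0 (f := P k) (hPb k) j
    rwa [div_div, ← pow_add, add_comm k j] at this
  -- the second sum
  have hQ : ∀ j, ∀ w ∈ ball (0 : ℂ) r,
      HasSum (fun k => TV_ca r (P k) j * w ^ k) (TV_ca r (fun ζ => U ζ w) j) := by
    intro j w hw'
    have hwn : ‖w‖ < r := by simpa using hw'
    have hq1 : ‖w‖ / r < 1 := (div_lt_one h0).2 hwn
    have hq0 : 0 ≤ ‖w‖ / r := by positivity
    have key : HasSum (fun k => ∫ θ in (0 : ℝ)..2 * π,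
        ((circleMap 0 r θ)⁻¹) ^ j * (P k (circleMap 0 r θ) * w ^ k))
        (∫ θ in (0 : ℝ)..2 * π, ((circleMap 0 r θ)⁻¹) ^ j * U (circleMap 0 r θ) w) := by
      apply intervalIntegral.hasSum_integral_of_dominated_convergence
        (fun k _ => M / r ^ j * (‖w‖ / r) ^ k)
      · intro k
        exact ((hinv.pow j).mul ((hPc k).mul continuous_const)).aestronglyMeasurable
      · intro k
        refine Filter.Eventually.of_forall fun θ _ => ?_
        rw [norm_mul, norm_mul, norm_pow, norm_inv, norm_circleMap_zero, abs_of_pos h0, norm_pow,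
          inv_pow]
        have h3 := hPb k θ
        calc (r ^ j)⁻¹ * (‖P k (circleMap 0 r θ)‖ * ‖w‖ ^ k)
            ≤ (r ^ j)⁻¹ * ((M / r ^ k) * ‖w‖ ^ k) := by gcongr
          _ = M / r ^ j * (‖w‖ / r) ^ k := by rw [div_pow]; field_simp
      · refine Filter.Eventually.of_forall fun θ _ => ?_
        exact (summable_geometric_of_lt_one hq0 hq1).mul_left _
      · exact intervalIntegrable_const
      · refine Filter.Eventually.of_forall fun θ _ => ?_
        refine HasSum.mul_left _ ?_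
        rw [hP]
        exact TV_one h0 hr2 (hw _ (hcm θ)) hw'
    have key2 := key.mul_left ((2 * π : ℂ)⁻¹)
    have e : (fun k => (2 * π : ℂ)⁻¹ * ∫ θ in (0 : ℝ)..2 * π,
        ((circleMap 0 r θ)⁻¹) ^ j * (P k (circleMap 0 r θ) * w ^ k)) =
        fun k => TV_ca r (P k) j * w ^ k := by
      funext k
      rw [TV_ca, mul_assoc, ← intervalIntegral.integral_mul_const]
      congr 2
      funext θ
      ring
    rw [e] at key2
    exact key2
  refine ⟨fun j k => TV_ca r (P k) j, ⟨M, fun j k => (hxb j k).trans ?_⟩, ?_⟩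
  · apply div_le_div_of_nonneg_left hM0 (by positivity)
    exact pow_le_pow_left₀ h1.le hr1.le _
  · intro z hz' w hw'
    have hzr : z ∈ ball (0 : ℂ) r := ball_subset_ball hr1.le hz'
    have hwr : w ∈ ball (0 : ℂ) r := ball_subset_ball hr1.le hw'
    have hzn : ‖z‖ < r := by simpa using hzr
    have hwn : ‖w‖ < r := by simpa using hwr
    have hwR : w ∈ ball (0 : ℂ) R' := ball_subset_ball hr2.le hwr
    have hsum : Summable fun p : ℕ × ℕ => TV_ca r (P p.2) p.1 * z ^ p.1 * w ^ p.2 := by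
      have hg : Summable fun p : ℕ × ℕ => M * ((‖z‖ / r) ^ p.1 * (‖w‖ / r) ^ p.2) := by
        apply Summable.mul_left
        exact (summable_geometric_of_lt_one (by positivity) ((div_lt_one h0).2 hzn)).mul_of_nonneg
          (summable_geometric_of_lt_one (by positivity) ((div_lt_one h0).2 hwn))
          (fun n => by positivity) (fun n => by positivity)
      refine Summable.of_norm_bounded hg fun p => ?_
      rw [norm_mul, norm_mul, norm_pow, norm_pow]
      calc ‖TV_ca r (P p.2) p.1‖ * ‖z‖ ^ p.1 * ‖w‖ ^ p.2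
          ≤ (M / r ^ (p.1 + p.2)) * ‖z‖ ^ p.1 * ‖w‖ ^ p.2 := by
            gcongr
            exact hxb p.1 p.2
        _ = M * ((‖z‖ / r) ^ p.1 * (‖w‖ / r) ^ p.2) := by
            rw [div_pow, div_pow, pow_add]
            field_simp
    have hfib : ∀ j, HasSum (fun k => TV_ca r (P k) j * z ^ j * w ^ k)
        (TV_ca r (fun ζ => U ζ w) j * z ^ j) := by
      intro j
      have h3 := (hQ j w hwr).mul_right (z ^ j)
      have e : (fun k => TV_ca r (P k) j * z ^ j * w ^ k) =
          fun k => TV_ca r (P k) j * w ^ k * z ^ j := by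
        funext k
        ring
      rw [e]
      exact h3
    have h4 := hsum.hasSum.prod_fiberwise hfib
    have h5 := TV_one h0 hr2 (hz w hwR) hzr
    rw [← h4.unique h5]
    exact hsum.hasSum

end Pool.Agent.Helper21.KP
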