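import Pool.Agent.Helper21.KP.LayerU
import Pool.Agent.Helper21.KP.TwoVar
import Pool.Agent.Helper21.KP.Praw
import Pool.Agent.Helper21.KP.Tp
import Pool.Agent.Helper21.KP.ANum

/-!
# KP-KF: the layer inequality for a univalent function

`KF F ψ R t a`: `ψ` is a branch of `F'^(t/2) F^(a/2)`.
`layer_kf`: `Λ` from `lg_exists`, `U z w = ψ z * exp (-th Λ z w)`, `two_var` (radius `(1 + R)/2`); `praw` times `‖ψ z‖²`
is the hypothesis of `layer_u`; `U z z = ψ z`; `tf_eq`.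
`layer_num`: `layer_kf` with `th = 1/10`, `B = 1/24`, the bounds of `ANum`, `0 ≤ II`, `ii_weight`, and
`‖(1-‖z‖²)^N tpN (n0, n1, n2, h)‖ ≥ ‖(wz z)^N tpN (n0, n1, n2, h)‖`, `(wz z)^N tpN (n0, n1, n2, h) = tpN (Xz, Yz, Zz, hz)`
(homogeneity, `ring`), `N = 1, 2, 3`.
-/

set_option autoImplicit false

namespace Pool.Agent.Helper21.KP

open Complex Metric Set Real Finset
open Pool.Agent.Helper21.IM

structure KF (F ψ : ℂ → ℂ) (R t a : ℝ) : Prop where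
  hR : 1 < R
  dF : DifferentiableOn ℂ F (ball 0 R)
  inj : InjOn F (ball 0 R)
  ne : ∀ z ∈ ball (0 : ℂ) R, F z ≠ 0
  dψ : DifferentiableOn ℂ ψ (ball 0 R)
  eq : ∀ z ∈ ball (0 : ℂ) R, deriv ψ z = g0 t a (pre F z) (deriv F z / F z) * ψ z

private theorem KF_congr {s : ℝ} {Φ Ψ : ℂ → ℝ} (h : ∀ z ∈ closedBall (0 : ℂ) 1, Φ z = Ψ z) :
    II s Φ = II s Ψ := by
  unfold II
  refine intervalIntegral.integral_congr fun ρ hρ => ?_
  rw [Set.uIcc_of_le zero_le_one] at hρ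
  have h1 : circleAverage Φ 0 ρ = circleAverage Ψ 0 ρ := by
    refine circleAverage_congr_sphere fun z hz => h z ?_
    rw [mem_sphere_zero_iff_norm, abs_of_nonneg hρ.1] at hz
    rw [mem_closedBall_zero_iff, hz]
    exact hρ.2
  simp only [h1]

private theorem KF_nonneg (s : ℝ) {Φ : ℂ → ℝ} (h : ∀ z, 0 ≤ Φ z) : 0 ≤ II s Φ := by
  unfold II
  refine intervalIntegral.integral_nonneg zero_le_one fun ρ hρ => ?_
  have h1 : 0 ≤ circleAverage Φ 0 ρ := circleAverage_nonneg_of_nonneg fun z _ => h z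
  have h2 : 0 ≤ 1 - ρ ^ 2 := by nlinarith [hρ.1, hρ.2]
  have h3 := Real.rpow_nonneg h2 s
  exact mul_nonneg (mul_nonneg (by linarith [hρ.1]) h3) h1

theorem layer_kf {F ψ : ℂ → ℂ} {R t a : ℝ} (H : KF F ψ R t a) {th B : ℝ}
    (h0 : 0 < th) (h1 : th < 1 / 2) (hB : 0 < B) :
    wN th B 1 * II (B + 1) (fun z => ‖ψ z * tp1 th B t a (pre F z) (deriv F z / F z)‖ ^ 2) +
      wN th B 2 * II (B + 3)
        (fun z => ‖ψ z * tp2 th B t a (pre F z) (deriv (pre F) z) (deriv F z / F z)‖ ^ 2) +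
      wN th B 3 * II (B + 5)
        (fun z => ‖ψ z * tp3 th B t a (pre F z) (deriv (pre F) z) (deriv (deriv (pre F)) z)
          (deriv F z / F z)‖ ^ 2) ≤
      - wN th B 0 * II (B - 1) (fun z => ‖ψ z‖ ^ 2) := by
  have hR := H.hR
  obtain ⟨Λ, hΛ⟩ := lg_exists (by linarith) H.dF H.inj
  have hsub : closedBall (0 : ℂ) 1 ⊆ ball 0 R := closedBall_subset_ball hR
  obtain ⟨U, hU⟩ : ∃ U : ℂ → ℂ → ℂ, U = fun z w => ψ z * exp (-(th : ℂ) * Λ z w) := ⟨_, rfl⟩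
  have hr1 : 1 < (1 + R) / 2 := by linarith
  have hr2 : (1 + R) / 2 < R := by linarith
  obtain ⟨x, D⟩ : ∃ x, DPS U x ((1 + R) / 2) := by
    refine two_var (R' := R) (by linarith) hr2 ?_ ?_ ?_
    · rw [hU]
      refine ContinuousOn.mul ?_ ?_
      · exact H.dψ.continuousOn.comp continuousOn_fst fun p hp => hp.1
      · exact Complex.continuous_exp.comp_continuousOn (continuousOn_const.mul hΛ.cont)
    · intro w hw
      rw [hU]
      exact H.dψ.mul ((hΛ.dz w hw).const_mul _).cexp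
    · intro z hz
      rw [hU]
      exact (((hΛ.dw z hz).const_mul _).cexp).const_mul _
  have key := layer_u hr1 D h0 h1 hB ?_
  · have e0 : ∀ z ∈ closedBall (0 : ℂ) 1, ‖U z z‖ ^ 2 = ‖ψ z‖ ^ 2 := by
      intro z hz
      rw [hU]
      simp only [hΛ.diag z (hsub hz), mul_zero, Complex.exp_zero, mul_one]
    have e1 := fun z (hz : z ∈ closedBall (0 : ℂ) 1) =>
      tf_eq H.dF H.inj H.ne H.dψ H.eq hΛ th B (hsub hz)
    rw [← hU] at e1
    rw [KF_congr (s := B - 1) e0,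
      KF_congr (s := B + 1) (Φ := fun z => ‖Tf th B U 1 z‖ ^ 2)
        (Ψ := fun z => ‖ψ z * tp1 th B t a (pre F z) (deriv F z / F z)‖ ^ 2)
        (fun z hz => by simp only [(e1 z hz).1]),
      KF_congr (s := B + 3) (Φ := fun z => ‖Tf th B U 2 z‖ ^ 2)
        (Ψ := fun z => ‖ψ z * tp2 th B t a (pre F z) (deriv (pre F) z) (deriv F z / F z)‖ ^ 2)
        (fun z hz => by simp only [(e1 z hz).2.1]),
      KF_congr (s := B + 5) (Φ := fun z => ‖Tf th B U 3 z‖ ^ 2)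
        (Ψ := fun z => ‖ψ z * tp3 th B t a (pre F z) (deriv (pre F) z) (deriv (deriv (pre F)) z)
          (deriv F z / F z)‖ ^ 2)
        (fun z hz => by simp only [(e1 z hz).2.2])] at key
    exact key
  · intro z hz
    have hp := praw H.hR H.dF H.inj hΛ h0 h1 hz
    have e : (fun w => ‖1 - z / w‖ ^ (-2 * th) *
        ((starRingEnd ℂ) (U z w) * (w * deriv (U z) w - th * (w / (w - z)) * U z w)).re) =
        fun w => (‖ψ z‖ ^ 2) • (‖1 - z / w‖ ^ (-2 * th) *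
          ((starRingEnd ℂ) (exp (-(th : ℂ) * Λ z w)) *
            (w * deriv (fun w => exp (-(th : ℂ) * Λ z w)) w
              - th * (w / (w - z)) * exp (-(th : ℂ) * Λ z w))).re) := by
      funext w
      have e2 : deriv (U z) w = ψ z * deriv (fun w => exp (-(th : ℂ) * Λ z w)) w := by
        rw [hU]
        exact deriv_const_mul_field _
      have e3 : U z w = ψ z * exp (-(th : ℂ) * Λ z w) := by rw [hU]
      have e4 : (starRingEnd ℂ) (U z w) * (w * deriv (U z) w - th * (w / (w - z)) * U z w) =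
          ((‖ψ z‖ ^ 2 : ℝ) : ℂ) * ((starRingEnd ℂ) (exp (-(th : ℂ) * Λ z w)) *
            (w * deriv (fun w => exp (-(th : ℂ) * Λ z w)) w
              - th * (w / (w - z)) * exp (-(th : ℂ) * Λ z w))) := by
        have e5 : (starRingEnd ℂ) (ψ z) * ψ z = ((‖ψ z‖ ^ 2 : ℝ) : ℂ) := by
          rw [Complex.conj_mul']
          push_cast
          rfl
        rw [e2, e3, map_mul, ← e5]
        ring
      rw [e4, Complex.re_ofReal_mul, smul_eq_mul]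
      ring
    rw [e, circleAverage_fun_smul, smul_eq_mul]
    exact mul_nonpos_of_nonneg_of_nonpos (by positivity) hp

/-- `z (1 - ‖z‖²)` -/
noncomputable def wz (z : ℂ) : ℂ := ((1 - ‖z‖ ^ 2 : ℝ) : ℂ) * z

noncomputable def Xz (F : ℂ → ℂ) (z : ℂ) : ℂ := wz z * pre F z

noncomputable def Yz (F : ℂ → ℂ) (z : ℂ) : ℂ := wz z ^ 2 * deriv (pre F) z

noncomputable def Zz (F : ℂ → ℂ) (z : ℂ) : ℂ := wz z ^ 3 * deriv (deriv (pre F)) z

noncomputable def hz (F : ℂ → ℂ) (z : ℂ) : ℂ := wz z * (deriv F z / F z)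

/-- the left side of the layer inequality, `th = 1/10`, `B = 1/24`, `t = 6/25` -/
noncomputable def PL (a : ℝ) (X Y Z h : ℂ) : ℝ :=
  648126 / 10 ^ 5 * ‖tp1 (1 / 10) (1 / 24) (6 / 25) a X h‖ ^ 2 +
    193559 / 10 ^ 5 * ‖tp2 (1 / 10) (1 / 24) (6 / 25) a X Y h‖ ^ 2 +
    13427 / 10 ^ 5 * ‖tp3 (1 / 10) (1 / 24) (6 / 25) a X Y Z h‖ ^ 2

private theorem KF_hom (a : ℝ) (u X Y Z h : ℂ) :
    tp1 (1 / 10) (1 / 24) (6 / 25) a (u * X) (u * h) =
      u * tp1 (1 / 10) (1 / 24) (6 / 25) a X h ∧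
    tp2 (1 / 10) (1 / 24) (6 / 25) a (u * X) (u ^ 2 * Y) (u * h) =
      u ^ 2 * tp2 (1 / 10) (1 / 24) (6 / 25) a X Y h ∧
    tp3 (1 / 10) (1 / 24) (6 / 25) a (u * X) (u ^ 2 * Y) (u ^ 3 * Z) (u * h) =
      u ^ 3 * tp3 (1 / 10) (1 / 24) (6 / 25) a X Y Z h := by
  refine ⟨?_, ?_, ?_⟩
  · unfold tp1 g0 p1
    ring
  · unfold tp2 g1 g0 p1 p2
    ring
  · unfold tp3 g2 g1 g0 p1 p2 p3
    ring

private theorem KF_wz {z : ℂ} (hz : z ∈ closedBall (0 : ℂ) 1) : ‖wz z‖ ≤ 1 - ‖z‖ ^ 2 := by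
  rw [mem_closedBall_zero_iff] at hz
  have h0 : 0 ≤ 1 - ‖z‖ ^ 2 := by nlinarith [norm_nonneg z]
  unfold wz
  rw [norm_mul, Complex.norm_real, Real.norm_eq_abs, abs_of_nonneg h0]
  exact mul_le_of_le_one_right h0 hz

private theorem KF_cont1 (a : ℝ) {S : Set ℂ} {X h : ℂ → ℂ} (hX : ContinuousOn X S)
    (hh : ContinuousOn h S) :
    ContinuousOn (fun z => tp1 (1 / 10) (1 / 24) (6 / 25) a (X z) (h z)) S := by
  unfold tp1 g0 p1
  fun_prop

private theorem KF_cont2 (a : ℝ) {S : Set ℂ} {X Y h : ℂ → ℂ} (hX : ContinuousOn X S)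
    (hY : ContinuousOn Y S) (hh : ContinuousOn h S) :
    ContinuousOn (fun z => tp2 (1 / 10) (1 / 24) (6 / 25) a (X z) (Y z) (h z)) S := by
  unfold tp2 g1 g0 p1 p2
  fun_prop

private theorem KF_cont3 (a : ℝ) {S : Set ℂ} {X Y Z h : ℂ → ℂ} (hX : ContinuousOn X S)
    (hY : ContinuousOn Y S) (hZ : ContinuousOn Z S) (hh : ContinuousOn h S) :
    ContinuousOn (fun z => tp3 (1 / 10) (1 / 24) (6 / 25) a (X z) (Y z) (Z z) (h z)) S := by
  unfold tp3 g2 g1 g0 p1 p2 p3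
  fun_prop

private theorem KF_mono {s : ℝ} (hs : -1 < s) (k : ℕ) {ψ T T' : ℂ → ℂ}
    (hψ : ContinuousOn ψ (closedBall 0 1)) (hT : ContinuousOn T (closedBall 0 1))
    (hT' : ContinuousOn T' (closedBall 0 1))
    (h : ∀ z ∈ closedBall (0 : ℂ) 1, T' z = wz z ^ k * T z) :
    II s (fun z => ‖ψ z‖ ^ 2 * ‖T' z‖ ^ 2) ≤ II (s + (2 * k : ℕ)) (fun z => ‖ψ z * T z‖ ^ 2) := by
  rw [ii_weight s (2 * k)]
  refine ii_mono hs ((hψ.norm.pow 2).mul (hT'.norm.pow 2)) ?_ fun z hz => ?_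
  · refine ContinuousOn.mul ?_ ((hψ.mul hT).norm.pow 2)
    exact ((continuous_const.sub (continuous_norm.pow 2)).pow (2 * k)).continuousOn
  · have h1 : ‖wz z‖ ^ k ≤ (1 - ‖z‖ ^ 2) ^ k := pow_le_pow_left₀ (norm_nonneg _) (KF_wz hz) k
    have h2 : (‖wz z‖ ^ k) ^ 2 ≤ ((1 - ‖z‖ ^ 2) ^ k) ^ 2 := pow_le_pow_left₀ (by positivity) h1 2
    have h3 : (1 - ‖z‖ ^ 2) ^ (2 * k) = ((1 - ‖z‖ ^ 2) ^ k) ^ 2 := by
      rw [← pow_mul, mul_comm k 2]
    rw [h z hz, norm_mul, norm_mul, norm_pow, h3, mul_pow, mul_pow]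
    have h4 : 0 ≤ ‖ψ z‖ ^ 2 * ‖T z‖ ^ 2 := by positivity
    calc ‖ψ z‖ ^ 2 * ((‖wz z‖ ^ k) ^ 2 * ‖T z‖ ^ 2) =
        (‖wz z‖ ^ k) ^ 2 * (‖ψ z‖ ^ 2 * ‖T z‖ ^ 2) := by ring
      _ ≤ ((1 - ‖z‖ ^ 2) ^ k) ^ 2 * (‖ψ z‖ ^ 2 * ‖T z‖ ^ 2) :=
        mul_le_mul_of_nonneg_right h2 h4

private theorem KF_sum {s : ℝ} (hs : -1 < s) (c1 c2 c3 : ℝ) {A1 A2 A3 : ℂ → ℝ}
    (h1 : ContinuousOn A1 (closedBall 0 1)) (h2 : ContinuousOn A2 (closedBall 0 1))
    (h3 : ContinuousOn A3 (closedBall 0 1)) :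
    II s (fun z => c1 * A1 z + c2 * A2 z + c3 * A3 z) =
      c1 * II s A1 + c2 * II s A2 + c3 * II s A3 := by
  have k1 : ContinuousOn (fun z => c1 * A1 z) (closedBall 0 1) := continuousOn_const.mul h1
  have k2 : ContinuousOn (fun z => c2 * A2 z) (closedBall 0 1) := continuousOn_const.mul h2
  have k3 : ContinuousOn (fun z => c3 * A3 z) (closedBall 0 1) := continuousOn_const.mul h3
  have k4 : ContinuousOn (fun z => c1 * A1 z + c2 * A2 z) (closedBall 0 1) := k1.add k2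
  rw [ii_add hs k4 k3, ii_add hs k1 k2, ii_mul, ii_mul, ii_mul]

theorem layer_num {F ψ : ℂ → ℂ} {R a : ℝ} (H : KF F ψ R (6 / 25) a) :
    II (1 / 24 - 1) (fun z => ‖ψ z‖ ^ 2 * PL a (Xz F z) (Yz F z) (Zz F z) (hz F z)) ≤
      59426 / 10 ^ 6 * II (1 / 24 - 1) (fun z => ‖ψ z‖ ^ 2) := by
  have hsub : closedBall (0 : ℂ) 1 ⊆ ball 0 R := closedBall_subset_ball H.hR
  have hs : (-1 : ℝ) < 1 / 24 - 1 := by norm_num
  -- continuity
  have hF' : ∀ z ∈ ball (0 : ℂ) R, deriv F z ≠ 0 := fun z hz => deriv_ne isOpen_ball H.dF H.inj hz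
  have hdF : DifferentiableOn ℂ (deriv F) (ball 0 R) := H.dF.deriv isOpen_ball
  have hddF : DifferentiableOn ℂ (deriv (deriv F)) (ball 0 R) := hdF.deriv isOpen_ball
  have hn0 : DifferentiableOn ℂ (pre F) (ball 0 R) := hddF.div hdF hF'
  have hn1 : DifferentiableOn ℂ (deriv (pre F)) (ball 0 R) := hn0.deriv isOpen_ball
  have hn2 : DifferentiableOn ℂ (deriv (deriv (pre F))) (ball 0 R) := hn1.deriv isOpen_ball
  have hh : DifferentiableOn ℂ (fun z => deriv F z / F z) (ball 0 R) := hdF.div H.dF H.ne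
  have cψ : ContinuousOn ψ (closedBall 0 1) := H.dψ.continuousOn.mono hsub
  have c0 : ContinuousOn (pre F) (closedBall 0 1) := hn0.continuousOn.mono hsub
  have c1 : ContinuousOn (deriv (pre F)) (closedBall 0 1) := hn1.continuousOn.mono hsub
  have c2 : ContinuousOn (deriv (deriv (pre F))) (closedBall 0 1) := hn2.continuousOn.mono hsub
  have ch : ContinuousOn (fun z => deriv F z / F z) (closedBall 0 1) := hh.continuousOn.mono hsub
  have cw : ContinuousOn wz (closedBall 0 1) := by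
    unfold wz
    refine Continuous.continuousOn ?_
    exact (Complex.continuous_ofReal.comp (continuous_const.sub (continuous_norm.pow 2))).mul
      continuous_id
  have cX : ContinuousOn (Xz F) (closedBall 0 1) := cw.mul c0
  have cY : ContinuousOn (Yz F) (closedBall 0 1) := (cw.pow 2).mul c1
  have cZ : ContinuousOn (Zz F) (closedBall 0 1) := (cw.pow 3).mul c2
  have cH : ContinuousOn (hz F) (closedBall 0 1) := cw.mul ch
  have cT1 : ContinuousOn (fun z => tp1 (1 / 10) (1 / 24) (6 / 25) a (pre F z)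
      (deriv F z / F z)) (closedBall 0 1) := KF_cont1 a c0 ch
  have cT2 : ContinuousOn (fun z => tp2 (1 / 10) (1 / 24) (6 / 25) a (pre F z) (deriv (pre F) z)
      (deriv F z / F z)) (closedBall 0 1) :=
    KF_cont2 a c0 c1 ch
  have cT3 : ContinuousOn (fun z => tp3 (1 / 10) (1 / 24) (6 / 25) a (pre F z) (deriv (pre F) z)
      (deriv (deriv (pre F)) z) (deriv F z / F z)) (closedBall 0 1) :=
    KF_cont3 a c0 c1 c2 ch
  have cS1 : ContinuousOn (fun z => tp1 (1 / 10) (1 / 24) (6 / 25) a (Xz F z) (hz F z))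
      (closedBall 0 1) := KF_cont1 a cX cH
  have cS2 : ContinuousOn (fun z => tp2 (1 / 10) (1 / 24) (6 / 25) a (Xz F z) (Yz F z) (hz F z))
      (closedBall 0 1) := KF_cont2 a cX cY cH
  have cS3 : ContinuousOn (fun z => tp3 (1 / 10) (1 / 24) (6 / 25) a (Xz F z) (Yz F z) (Zz F z)
      (hz F z)) (closedBall 0 1) :=
    KF_cont3 a cX cY cZ cH
  -- comparison of the layers
  have m1 : II (1 / 24 - 1) (fun z => ‖ψ z‖ ^ 2 *
      ‖tp1 (1 / 10) (1 / 24) (6 / 25) a (Xz F z) (hz F z)‖ ^ 2) ≤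
      II (1 / 24 - 1 + ((2 * 1 : ℕ) : ℝ)) (fun z => ‖ψ z * tp1 (1 / 10) (1 / 24) (6 / 25) a
        (pre F z) (deriv F z / F z)‖ ^ 2) := by
    refine KF_mono hs 1 cψ cT1 cS1 (fun z _ => ?_)
    rw [pow_one]
    exact (KF_hom a (wz z) (pre F z) (deriv (pre F) z) (deriv (deriv (pre F)) z)
      (deriv F z / F z)).1
  have m2 : II (1 / 24 - 1) (fun z => ‖ψ z‖ ^ 2 *
      ‖tp2 (1 / 10) (1 / 24) (6 / 25) a (Xz F z) (Yz F z) (hz F z)‖ ^ 2) ≤
      II (1 / 24 - 1 + ((2 * 2 : ℕ) : ℝ)) (fun z => ‖ψ z * tp2 (1 / 10) (1 / 24) (6 / 25) a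
        (pre F z) (deriv (pre F) z) (deriv F z / F z)‖ ^ 2) := by
    refine KF_mono hs 2 cψ cT2 cS2 (fun z _ => ?_)
    exact (KF_hom a (wz z) (pre F z) (deriv (pre F) z) (deriv (deriv (pre F)) z)
      (deriv F z / F z)).2.1
  have m3 : II (1 / 24 - 1) (fun z => ‖ψ z‖ ^ 2 *
      ‖tp3 (1 / 10) (1 / 24) (6 / 25) a (Xz F z) (Yz F z) (Zz F z) (hz F z)‖ ^ 2) ≤
      II (1 / 24 - 1 + ((2 * 3 : ℕ) : ℝ)) (fun z => ‖ψ z * tp3 (1 / 10) (1 / 24) (6 / 25) a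
        (pre F z) (deriv (pre F) z) (deriv (deriv (pre F)) z) (deriv F z / F z)‖ ^ 2) := by
    refine KF_mono hs 3 cψ cT3 cS3 (fun z _ => ?_)
    exact (KF_hom a (wz z) (pre F z) (deriv (pre F) z) (deriv (deriv (pre F)) z)
      (deriv F z / F z)).2.2
  have key := layer_kf H (th := 1 / 10) (B := 1 / 24) (by norm_num) (by norm_num) (by norm_num)
  have e1 : (1 / 24 - 1 + ((2 * 1 : ℕ) : ℝ) : ℝ) = 1 / 24 + 1 := by norm_num
  have e2 : (1 / 24 - 1 + ((2 * 2 : ℕ) : ℝ) : ℝ) = 1 / 24 + 3 := by norm_num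
  have e3 : (1 / 24 - 1 + ((2 * 3 : ℕ) : ℝ) : ℝ) = 1 / 24 + 5 := by norm_num
  rw [e1] at m1
  rw [e2] at m2
  rw [e3] at m3
  have n0 : 0 ≤ II (1 / 24 - 1) (fun z => ‖ψ z‖ ^ 2) := KF_nonneg _ fun z => by positivity
  have n1 : 0 ≤ II (1 / 24 - 1) (fun z => ‖ψ z‖ ^ 2 *
      ‖tp1 (1 / 10) (1 / 24) (6 / 25) a (Xz F z) (hz F z)‖ ^ 2) :=
    KF_nonneg _ fun z => by positivity
  have n2 : 0 ≤ II (1 / 24 - 1) (fun z => ‖ψ z‖ ^ 2 *
      ‖tp2 (1 / 10) (1 / 24) (6 / 25) a (Xz F z) (Yz F z) (hz F z)‖ ^ 2) :=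
    KF_nonneg _ fun z => by positivity
  have n3 : 0 ≤ II (1 / 24 - 1) (fun z => ‖ψ z‖ ^ 2 *
      ‖tp3 (1 / 10) (1 / 24) (6 / 25) a (Xz F z) (Yz F z) (Zz F z) (hz F z)‖ ^ 2) :=
    KF_nonneg _ fun z => by positivity
  have hsum : II (1 / 24 - 1) (fun z => ‖ψ z‖ ^ 2 * PL a (Xz F z) (Yz F z) (Zz F z) (hz F z)) =
      648126 / 10 ^ 5 * II (1 / 24 - 1) (fun z => ‖ψ z‖ ^ 2 *
        ‖tp1 (1 / 10) (1 / 24) (6 / 25) a (Xz F z) (hz F z)‖ ^ 2) +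
      193559 / 10 ^ 5 * II (1 / 24 - 1) (fun z => ‖ψ z‖ ^ 2 *
        ‖tp2 (1 / 10) (1 / 24) (6 / 25) a (Xz F z) (Yz F z) (hz F z)‖ ^ 2) +
      13427 / 10 ^ 5 * II (1 / 24 - 1) (fun z => ‖ψ z‖ ^ 2 *
        ‖tp3 (1 / 10) (1 / 24) (6 / 25) a (Xz F z) (Yz F z) (Zz F z) (hz F z)‖ ^ 2) := by
    have k1 : ContinuousOn (fun z => ‖ψ z‖ ^ 2 *
        ‖tp1 (1 / 10) (1 / 24) (6 / 25) a (Xz F z) (hz F z)‖ ^ 2) (closedBall 0 1) :=
      (cψ.norm.pow 2).mul (cS1.norm.pow 2)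
    have k2 : ContinuousOn (fun z => ‖ψ z‖ ^ 2 *
        ‖tp2 (1 / 10) (1 / 24) (6 / 25) a (Xz F z) (Yz F z) (hz F z)‖ ^ 2) (closedBall 0 1) :=
      (cψ.norm.pow 2).mul (cS2.norm.pow 2)
    have k3 : ContinuousOn (fun z => ‖ψ z‖ ^ 2 *
        ‖tp3 (1 / 10) (1 / 24) (6 / 25) a (Xz F z) (Yz F z) (Zz F z) (hz F z)‖ ^ 2)
        (closedBall 0 1) := (cψ.norm.pow 2).mul (cS3.norm.pow 2)
    rw [← KF_sum hs _ _ _ k1 k2 k3]
    congr 1
    funext z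
    unfold PL
    ring
  rw [hsum]
  have w0 := w0_bound
  have w1 := w1_bound
  have w2 := w2_bound
  have w3 := w3_bound
  have f1 := mul_le_mul w1 m1 n1 (by linarith)
  have f2 := mul_le_mul w2 m2 n2 (by linarith)
  have f3 := mul_le_mul w3 m3 n3 (by linarith)
  have f0 : -wN (1 / 10) (1 / 24) 0 * II (1 / 24 - 1) (fun z => ‖ψ z‖ ^ 2) ≤
      59426 / 10 ^ 6 * II (1 / 24 - 1) (fun z => ‖ψ z‖ ^ 2) :=
    mul_le_mul_of_nonneg_right (by linarith) n0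
  linarith

end Pool.Agent.Helper21.KP
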