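import Mathlib

/-!
# KP-KL: the Koebe function

`z/(1-z)² = w/(1-w)²` gives `(z - w)(1 - z w) = 0`.  `kb' = (1+z)/(1-z)³`.  For `|θ| ≤ 1 - r`, `z = r e^(iθ)`:
`‖1 - z‖ ≤ (1-r) + |θ| ≤ 2 (1-r)`, `‖1 + z‖ ≥ 1 + r cos θ ≥ 1`, so `‖kb' z‖ ≥ (1-r)^(-3)/8`; the average is at least
`(1/(2π)) * 2 (1-r) * ((1-r)^(-3)/8)^lam`.
-/

set_option autoImplicit false

namespace Pool.Agent.Helper21.KP

open Complex Metric Set Real Finset MeasureTheory

/-- the Koebe function -/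
noncomputable def kb (z : ℂ) : ℂ := z / (1 - z) ^ 2

private theorem KLow_ne {z : ℂ} (hz : ‖z‖ < 1) : 1 - z ≠ 0 := by
  intro h
  rw [← sub_eq_zero.1 h, norm_one] at hz
  exact lt_irrefl _ hz

private theorem KLow_deriv {z : ℂ} (hz : ‖z‖ < 1) :
    HasDerivAt kb ((1 + z) / (1 - z) ^ 3) z := by
  have h0 := KLow_ne hz
  have h1 : HasDerivAt (fun z : ℂ => (1 - z) ^ 2) (-(2 * (1 - z))) z := by
    have h2 := ((hasDerivAt_id z).const_sub 1).pow 2
    refine h2.congr_deriv ?_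
    simp
  have h2 := (hasDerivAt_id z).div h1 (pow_ne_zero 2 h0)
  refine h2.congr_deriv ?_
  simp only [id]
  field_simp
  ring

theorem kb_diff : DifferentiableOn ℂ kb (ball 0 1) := by
  intro z hz
  rw [mem_ball_zero_iff] at hz
  exact (KLow_deriv hz).differentiableAt.differentiableWithinAt

theorem kb_inj : InjOn kb (ball 0 1) := by
  intro z hz w hw h
  rw [mem_ball_zero_iff] at hz hw
  have hz0 := KLow_ne hz
  have hw0 := KLow_ne hw
  unfold kb at h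
  rw [div_eq_div_iff (pow_ne_zero 2 hz0) (pow_ne_zero 2 hw0)] at h
  have h1 : (z - w) * (1 - z * w) = 0 := by linear_combination h
  have h2 : ‖z * w‖ < 1 := by
    rw [norm_mul]
    exact mul_lt_one_of_nonneg_of_lt_one_left (norm_nonneg z) hz hw.le
  rcases mul_eq_zero.1 h1 with h3 | h3
  · exact sub_eq_zero.1 h3
  · exact absurd h3 (KLow_ne h2)

private theorem KLow_pt {r θ : ℝ} (h0 : 0 < r) (h1 : r < 1) (ht0 : 0 ≤ θ) (ht1 : θ ≤ 1 - r) :
    (1 / 8) * (1 - r) ^ (-(3 : ℝ)) ≤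
      ‖(1 + circleMap 0 r θ) / (1 - circleMap 0 r θ) ^ 3‖ := by
  have hr : 0 < 1 - r := by linarith
  have hz : circleMap 0 r θ = r * Complex.exp (θ * I) := by
    rw [circleMap, zero_add]
  have hnorm : ‖circleMap 0 r θ‖ = r := by
    rw [norm_circleMap_zero, abs_of_pos h0]
  have h2 : ‖1 - circleMap 0 r θ‖ ≤ 2 * (1 - r) := by
    have h3 : 1 - circleMap 0 r θ = ((1 - r : ℝ) : ℂ) - r * (Complex.exp (I * θ) - 1) := by
      rw [hz, mul_comm I]
      push_cast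
      ring
    rw [h3]
    refine (norm_sub_le _ _).trans ?_
    have h4 : ‖((1 - r : ℝ) : ℂ)‖ = 1 - r := by
      rw [Complex.norm_real, Real.norm_of_nonneg hr.le]
    have h5 : ‖(r : ℂ) * (Complex.exp (I * θ) - 1)‖ ≤ 1 * (1 - r) := by
      rw [norm_mul, Complex.norm_real, Real.norm_of_nonneg h0.le]
      have h6 : ‖Complex.exp (I * θ) - 1‖ ≤ ‖θ‖ := Real.norm_exp_I_mul_ofReal_sub_one_le
      rw [Real.norm_of_nonneg ht0] at h6
      exact mul_le_mul h1.le (h6.trans ht1) (norm_nonneg _) zero_le_one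
    linarith
  have h3 : 1 ≤ ‖1 + circleMap 0 r θ‖ := by
    have h4 : (1 + circleMap 0 r θ).re ≤ ‖1 + circleMap 0 r θ‖ := Complex.re_le_norm _
    have h5 : (1 + circleMap 0 r θ).re = 1 + r * Real.cos θ := by
      rw [hz, Complex.add_re, Complex.one_re, Complex.re_ofReal_mul, Complex.exp_ofReal_mul_I_re]
    have h6 : 0 ≤ Real.cos θ := by
      apply Real.cos_nonneg_of_neg_pi_div_two_le_of_le
      · linarith [Real.pi_pos]
      · linarith [Real.pi_gt_three]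
    have h7 := mul_nonneg h0.le h6
    linarith
  have h4 : 0 < ‖1 - circleMap 0 r θ‖ := norm_pos_iff.2 (KLow_ne (by rw [hnorm]; exact h1))
  rw [norm_div, norm_pow, Real.rpow_neg hr.le, le_div_iff₀ (pow_pos h4 3)]
  have h5 : ‖1 - circleMap 0 r θ‖ ^ 3 ≤ (2 * (1 - r)) ^ 3 := pow_le_pow_left₀ h4.le h2 3
  have h6 : (1 - r) ^ (3 : ℝ) = (1 - r) ^ 3 := by
    rw [← Real.rpow_natCast]
    norm_num
  rw [h6]
  calc (1 / 8) * ((1 - r) ^ 3)⁻¹ * ‖1 - circleMap 0 r θ‖ ^ 3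
      ≤ (1 / 8) * ((1 - r) ^ 3)⁻¹ * (2 * (1 - r)) ^ 3 :=
        mul_le_mul_of_nonneg_left h5 (by positivity)
    _ = 1 := by
        field_simp
        norm_num
    _ ≤ _ := h3

theorem kb_low {lam : ℝ} (hl : 0 < lam) : ∃ c : ℝ, 0 < c ∧ ∀ r : ℝ, 0 < r → r < 1 →
    c * (1 - r) ^ (-(3 * lam - 1)) ≤ circleAverage (fun z => ‖deriv kb z‖ ^ lam) 0 r := by
  refine ⟨(2 * π)⁻¹ * (1 / 8) ^ lam, by positivity, fun r h0 h1 => ?_⟩
  have hr : 0 < 1 - r := by linarith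
  have hz : ∀ θ, ‖circleMap 0 r θ‖ < 1 := fun θ => by
    rw [norm_circleMap_zero, abs_of_pos h0]
    exact h1
  have hG : circleAverage (fun z => ‖deriv kb z‖ ^ lam) 0 r = (2 * π)⁻¹ *
      ∫ θ in (0 : ℝ)..2 * π, ‖(1 + circleMap 0 r θ) / (1 - circleMap 0 r θ) ^ 3‖ ^ lam := by
    rw [circleAverage_def, smul_eq_mul]
    congr 2
    ext θ
    rw [(KLow_deriv (hz θ)).deriv]
  have hc : Continuous (fun θ : ℝ => ‖(1 + circleMap 0 r θ) / (1 - circleMap 0 r θ) ^ 3‖ ^ lam) := by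
    have h2 : Continuous (fun θ : ℝ => (1 + circleMap 0 r θ) / (1 - circleMap 0 r θ) ^ 3) :=
      (continuous_const.add (continuous_circleMap 0 r)).div₀
        ((continuous_const.sub (continuous_circleMap 0 r)).pow 3)
        fun θ => pow_ne_zero 3 (KLow_ne (hz θ))
    exact h2.norm.rpow_const fun θ => Or.inr hl.le
  rw [hG, mul_assoc]
  refine mul_le_mul_of_nonneg_left ?_ (by positivity)
  have h2 : ∫ θ in (0 : ℝ)..(1 - r), ‖(1 + circleMap 0 r θ) / (1 - circleMap 0 r θ) ^ 3‖ ^ lam ≤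
      ∫ θ in (0 : ℝ)..2 * π, ‖(1 + circleMap 0 r θ) / (1 - circleMap 0 r θ) ^ 3‖ ^ lam := by
    apply intervalIntegral.integral_mono_interval le_rfl hr.le
    · linarith [Real.pi_gt_three]
    · exact Filter.Eventually.of_forall fun θ => Real.rpow_nonneg (norm_nonneg _) _
    · exact hc.intervalIntegrable _ _
  refine le_trans ?_ h2
  have h3 : ∫ θ in (0 : ℝ)..(1 - r), ((1 / 8) * (1 - r) ^ (-(3 : ℝ))) ^ lam ≤
      ∫ θ in (0 : ℝ)..(1 - r), ‖(1 + circleMap 0 r θ) / (1 - circleMap 0 r θ) ^ 3‖ ^ lam := by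
    apply intervalIntegral.integral_mono_on hr.le
    · exact continuous_const.intervalIntegrable _ _
    · exact hc.intervalIntegrable _ _
    · intro θ hθ
      exact Real.rpow_le_rpow (by positivity) (KLow_pt h0 h1 hθ.1 hθ.2) hl.le
  refine le_trans (le_of_eq ?_) h3
  rw [intervalIntegral.integral_const, smul_eq_mul, sub_zero,
    Real.mul_rpow (by norm_num) (by positivity), ← Real.rpow_mul hr.le]
  have h4 : -(3 * lam - 1) = -3 * lam + 1 := by ring
  rw [h4, Real.rpow_add_one hr.ne']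
  ring

end Pool.Agent.Helper21.KP
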