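import Pool.Agent.Helper21.KP.Torus

/-!
# KP-QN: integration over the radius

Multiply the inequality of `torus` by `2 ρ (1 - ρ²)^k`, `k = 2 th - 1 + B > -1`, and integrate over `(0, 1)`: `bw_int`,
exchange of sum and integral (`hasSum_integral_of_summable_integral_norm`): by `yd_bound` and `bw_bound` the
sum of the integrals of the absolute values is at most
`∑ C R^(-2m) (m+1)^4 (m + i + 1) (i+1)^(2th-2) (i+1)^(-2th-B) < ∞`.
-/

set_option autoImplicit false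

namespace Pool.Agent.Helper21.KP

open Complex Metric Set Real Finset MeasureTheory

private theorem QNeg_qf (th B : ℝ) (m : ℕ) (y : ℕ → ℂ) :
    (Qf th B m y y).re =
      ∑' i : ℕ, (((m : ℝ) - i - th) * ‖Yv th y i‖ ^ 2) * bw (2 * th - 1 + B) i := by
  unfold Qf
  have h1 : ∀ i : ℕ, ((((m : ℝ) - i - th) * bw (2 * th - 1 + B) i : ℝ) : ℂ) *
      (Yv th y i * (starRingEnd ℂ) (Yv th y i)) =
      (((((m : ℝ) - i - th) * ‖Yv th y i‖ ^ 2) * bw (2 * th - 1 + B) i : ℝ) : ℂ) := by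
    intro i
    rw [Complex.mul_conj, Complex.normSq_eq_norm_sq]
    push_cast
    ring
  simp only [h1]
  rw [← Complex.ofReal_tsum, Complex.ofReal_re]

private theorem QNeg_sum_m {R : ℝ} (hR : 1 < R) :
    Summable (fun m : ℕ => (1 / R ^ m) ^ 2 * ((m : ℝ) + 1) ^ 5) := by
  have hR0 : 0 < R := by linarith
  have hr : ‖(1 / R ^ 2 : ℝ)‖ < 1 := by
    rw [Real.norm_eq_abs, abs_of_pos (by positivity), div_lt_one (by positivity)]
    nlinarith
  have h1 := summable_pow_mul_geometric_of_norm_lt_one 5 hr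
  have h2 := (summable_nat_add_iff 1).2 h1
  have h3 := h2.mul_left (R ^ 2)
  refine h3.congr fun m => ?_
  have e : (1 / R ^ 2) ^ (m + 1) = (1 / R ^ m) ^ 2 * (1 / R ^ 2) := by
    rw [pow_succ, one_div_pow, one_div_pow, ← pow_mul, ← pow_mul, mul_comm 2 m]
  have e2 : R ^ 2 * (1 / R ^ 2) = 1 := mul_one_div_cancel (by positivity)
  rw [e, Nat.cast_add, Nat.cast_one]
  linear_combination (((m : ℝ) + 1) ^ 5 * (1 / R ^ m) ^ 2) * e2

private theorem QNeg_sum_i {B : ℝ} (hB : 0 < B) :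
    Summable (fun i : ℕ => ((i : ℝ) + 1) ^ (-1 - B)) := by
  have h1 : Summable (fun i : ℕ => (i : ℝ) ^ (-1 - B)) :=
    Real.summable_nat_rpow.2 (by linarith)
  have h2 := (summable_nat_add_iff 1).2 h1
  refine h2.congr fun i => ?_
  push_cast
  rfl

private theorem QNeg_bound {U : ℂ → ℂ → ℂ} {x : ℕ → ℕ → ℂ} {R : ℝ} (hR : 1 < R)
    (D : DPS U x R) {th B : ℝ} (h0 : 0 < th) (h1 : th < 1 / 2) (hB : 0 < B) :
    Summable (fun p : ℕ × ℕ => |((p.1 : ℝ) - p.2 - th) * ‖Yv th (dg x p.1) p.2‖ ^ 2| *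
      bw (2 * th - 1 + B) p.2) := by
  have hk : -1 < 2 * th - 1 + B := by linarith
  obtain ⟨C, hC⟩ := yd_bound hR D h0 h1
  obtain ⟨C', hC'0, hC'⟩ := bw_bound hk
  have hR0 : 0 < R := by linarith
  have hs := (QNeg_sum_m hR).mul_of_nonneg (QNeg_sum_i hB)
    (fun m => by positivity) (fun i => by positivity)
  have hs2 := hs.mul_left (C ^ 2 * C')
  refine Summable.of_nonneg_of_le (fun p => mul_nonneg (abs_nonneg _) (bw_pos hk p.2).le) ?_ hs2
  rintro ⟨m, i⟩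
  simp only
  have hi1 : (0 : ℝ) < (i : ℝ) + 1 := by positivity
  have hm1 : (0 : ℝ) < (m : ℝ) + 1 := by positivity
  have e1 : |((m : ℝ) - i - th)| ≤ ((m : ℝ) + 1) * ((i : ℝ) + 1) := by
    have hm0 : (0 : ℝ) ≤ m := Nat.cast_nonneg m
    have hi0 : (0 : ℝ) ≤ i := Nat.cast_nonneg i
    rw [abs_le]
    constructor <;> nlinarith [mul_nonneg hm0 hi0]
  have e2 : ‖Yv th (dg x m) i‖ ^ 2 ≤
      (C / R ^ m * ((m : ℝ) + 1) ^ 2 * ((i : ℝ) + 1) ^ (th - 1)) ^ 2 :=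
    pow_le_pow_left₀ (norm_nonneg _) (hC m i) 2
  have e3 := hC' i
  rw [abs_mul, abs_of_nonneg (pow_nonneg (norm_nonneg _) 2)]
  calc |((m : ℝ) - i - th)| * ‖Yv th (dg x m) i‖ ^ 2 * bw (2 * th - 1 + B) i
      ≤ (((m : ℝ) + 1) * ((i : ℝ) + 1)) *
          (C / R ^ m * ((m : ℝ) + 1) ^ 2 * ((i : ℝ) + 1) ^ (th - 1)) ^ 2 *
          (C' * ((i : ℝ) + 1) ^ (-(2 * th - 1 + B) - 1)) := by
        refine mul_le_mul (mul_le_mul e1 e2 (by positivity) (by positivity)) e3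
          (bw_pos hk i).le (by positivity)
    _ = C ^ 2 * C' * ((1 / R ^ m) ^ 2 * ((m : ℝ) + 1) ^ 5 * ((i : ℝ) + 1) ^ (-1 - B)) := by
        have e4 : ((i : ℝ) + 1) ^ (-1 - B) = ((i : ℝ) + 1) * (((i : ℝ) + 1) ^ (th - 1)) ^ 2 *
            ((i : ℝ) + 1) ^ (-(2 * th - 1 + B) - 1) := by
          rw [← Real.rpow_natCast (((i : ℝ) + 1) ^ (th - 1)) 2, ← Real.rpow_mul hi1.le]
          nth_rewrite 2 [← Real.rpow_one ((i : ℝ) + 1)]
          rw [← Real.rpow_add hi1, ← Real.rpow_add hi1]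
          congr 1
          push_cast
          ring
        rw [e4]
        ring

theorem qneg {U : ℂ → ℂ → ℂ} {x : ℕ → ℕ → ℂ} {R : ℝ} (hR : 1 < R) (D : DPS U x R) {th B : ℝ}
    (h0 : 0 < th) (h1 : th < 1 / 2) (hB : 0 < B)
    (hP : ∀ z ∈ ball (0 : ℂ) 1, circleAverage (fun w => ‖1 - z / w‖ ^ (-2 * th) *
      ((starRingEnd ℂ) (U z w) * (w * deriv (U z) w - th * (w / (w - z)) * U z w)).re) 0 1 ≤ 0) :
    Summable (fun m : ℕ => (Qf th B m (dg x m) (dg x m)).re) ∧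
      ∑' m : ℕ, (Qf th B m (dg x m) (dg x m)).re ≤ 0 := by
  have hk : -1 < 2 * th - 1 + B := by linarith
  set k : ℝ := 2 * th - 1 + B with hkdef
  let a : ℕ × ℕ → ℝ := fun p => ((p.1 : ℝ) - p.2 - th) * ‖Yv th (dg x p.1) p.2‖ ^ 2
  let W : ℕ → ℝ → ℝ := fun n ρ => 2 * ρ * (1 - ρ ^ 2) ^ k * ρ ^ (2 * n)
  let μ : Measure ℝ := volume.restrict (Ioo (0 : ℝ) 1)
  have hWint : ∀ n, Integrable (W n) μ := by
    intro n
    have h := ((intervalIntegrable_iff_integrableOn_Ioc_of_le zero_le_one).1 (bw_int hk n).1)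
    exact h.mono_set Ioo_subset_Ioc_self
  have hWval : ∀ n, ∫ ρ, W n ρ ∂μ = bw k n := by
    intro n
    rw [← (bw_int hk n).2, intervalIntegral.integral_of_le zero_le_one, integral_Ioc_eq_integral_Ioo]
  have hWnn : ∀ n, ∀ ρ ∈ Ioo (0 : ℝ) 1, 0 ≤ W n ρ := by
    intro n ρ hρ
    have h2 : 0 ≤ 1 - ρ ^ 2 := by nlinarith [hρ.1, hρ.2]
    have := hρ.1
    exact mul_nonneg (mul_nonneg (by linarith) (Real.rpow_nonneg h2 _)) (pow_nonneg hρ.1.le _)
  let F : ℕ × ℕ → ℝ → ℝ := fun p ρ => a p * W p.2 ρ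
  have hFint : ∀ p, Integrable (F p) μ := fun p => (hWint p.2).const_mul (a p)
  have hFval : ∀ p, ∫ ρ, F p ρ ∂μ = a p * bw k p.2 := by
    intro p
    rw [integral_const_mul, hWval]
  have hFnorm : ∀ p, ∫ ρ, ‖F p ρ‖ ∂μ = |a p| * bw k p.2 := by
    intro p
    rw [← hWval, ← integral_const_mul]
    refine setIntegral_congr_fun measurableSet_Ioo fun ρ hρ => ?_
    simp only [F, norm_mul, Real.norm_eq_abs]
    rw [abs_of_nonneg (hWnn _ ρ hρ)]
  have hFsum : Summable fun p => ∫ ρ, ‖F p ρ‖ ∂μ := by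
    simp only [hFnorm]
    exact QNeg_bound hR D h0 h1 hB
  have hH := hasSum_integral_of_summable_integral_norm hFint hFsum
  simp only [hFval] at hH
  have hle : ∫ ρ, ∑' p, F p ρ ∂μ ≤ 0 := by
    refine setIntegral_nonpos measurableSet_Ioo fun ρ hρ => ?_
    obtain ⟨-, h3⟩ := torus hR D h0 h1 hP hρ.1 hρ.2
    have h2 : 0 ≤ 1 - ρ ^ 2 := by nlinarith [hρ.1, hρ.2]
    have h4 : ∑' p, F p ρ = (2 * ρ * (1 - ρ ^ 2) ^ k) *
        ∑' p : ℕ × ℕ, ((p.1 : ℝ) - p.2 - th) * ‖Yv th (dg x p.1) p.2‖ ^ 2 * ρ ^ (2 * p.2) := by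
      rw [← tsum_mul_left]
      refine tsum_congr fun p => ?_
      simp only [F, W, a]
      ring
    rw [h4]
    have := hρ.1
    exact mul_nonpos_of_nonneg_of_nonpos (mul_nonneg (by linarith) (Real.rpow_nonneg h2 _)) h3
  have hS : Summable fun p : ℕ × ℕ => a p * bw k p.2 := hH.summable
  have hq : ∀ m : ℕ, (Qf th B m (dg x m) (dg x m)).re = ∑' i : ℕ, a (m, i) * bw k i := by
    intro m
    rw [QNeg_qf]
  simp only [hq]
  refine ⟨hS.prod, ?_⟩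
  rw [← hS.tsum_prod, hH.tsum_eq]
  exact hle

end Pool.Agent.Helper21.KP
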