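import Pool.Agent.Helper21.KP.TwoVar
import Pool.Agent.Helper21.KP.AForm

/-!
# KP-TO: average over the torus

Let `g m` be the vector `dg x m` (degree `m`), `Y m i = Yv th (dg x m) i`.  Average the hypothesis over `‖z‖ = ρ` and
substitute `z = w ζ`, `‖ζ‖ = ρ` (exchange of the two circle averages, shift of the angle).  For fixed `ζ`, `‖w‖ = 1`:
`(1-ζ)^(-th) U (wζ) w = ∑_m A_m w^m`, `A_m = ∑_i Y m i ζ^i` (`cc_series`, Cauchy product), and
`(1-ζ)^(-th) (w ∂_w U - th/(1-ζ) U)(wζ, w) = ∑_m B_m w^m` with `B_m = ∑_i (m - i - th) Y m i ζ^i`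
(`w ∂_w` at fixed `z` is `m - ζ d/dζ` on the `m`-th term; `ζ d/dζ (1-ζ)^(-th) = th ζ (1-ζ)^(-th-1)`).
`‖1-ζ‖^(-2 th) = conj ((1-ζ)^(-th)) (1-ζ)^(-th)`.  Average over `w`: `∑_m Re (conj A_m B_m)`; average over `ζ`:
`∑_m ∑_i (m - i - th) ‖Y m i‖² ρ^(2i)`.  Everything converges absolutely: `‖dg x m a‖ ≤ C R^(-m)`, `ρ < 1`
(`yd_bound`: `‖Y m i‖ ≤ C R^(-m) (m+1)² (i+1)^(th-1)`, because `(i - a + 1)(m + 1) ≥ i + 1` for `a ≤ min(i, m)`).
-/

set_option autoImplicit false

namespace Pool.Agent.Helper21.KP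

open Complex Metric Set Real Finset MeasureTheory

/-- homogeneous part of degree `m` -/
def dg (x : ℕ → ℕ → ℂ) (m a : ℕ) : ℂ := if a ≤ m then x a (m - a) else 0

theorem yd_bound {U : ℂ → ℂ → ℂ} {x : ℕ → ℕ → ℂ} {R : ℝ} (hR : 1 < R) (D : DPS U x R) {th : ℝ}
    (h0 : 0 < th) (h1 : th < 1 / 2) :
    ∃ C : ℝ, ∀ m i : ℕ, ‖Yv th (dg x m) i‖ ≤ C / R ^ m * ((m : ℝ) + 1) ^ 2 * ((i : ℝ) + 1) ^ (th - 1) := by
  obtain ⟨C, hC⟩ := D.bd
  have hR0 : 0 < R := by linarith
  have hC0 : 0 ≤ C := by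
    have := (norm_nonneg _).trans (hC 0 0)
    simpa using this
  refine ⟨C, fun m i => ?_⟩
  have hm1 : (0 : ℝ) < (m : ℝ) + 1 := by positivity
  have hi1 : (0 : ℝ) < (i : ℝ) + 1 := by positivity
  set K : ℝ := C / R ^ m * (((m : ℝ) + 1) * ((i : ℝ) + 1) ^ (th - 1)) with hK
  have hK0 : 0 ≤ K := by positivity
  -- termwise
  have hterm : ∀ q ∈ antidiagonal i, ‖(cc th q.1 : ℂ) * dg x m q.2‖ ≤
      if q.2 ∈ range (m + 1) then K else 0 := by
    rintro ⟨l, a⟩ hq
    rw [HasAntidiagonal.mem_antidiagonal] at hq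
    simp only at hq ⊢
    by_cases ha : a ≤ m
    · rw [if_pos (mem_range.2 (Nat.lt_succ_of_le ha))]
      have e1 : ‖dg x m a‖ ≤ C / R ^ m := by
        unfold dg
        rw [if_pos ha]
        refine (hC a (m - a)).trans (le_of_eq ?_)
        rw [Nat.add_sub_cancel' ha]
      obtain ⟨hc0, hc1⟩ := cc_bound h0 (by linarith) l
      have e2 : ‖(cc th l : ℂ)‖ ≤ ((m : ℝ) + 1) * ((i : ℝ) + 1) ^ (th - 1) := by
        rw [Complex.norm_real, Real.norm_eq_abs, abs_of_pos hc0]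
        refine hc1.trans ?_
        have hl1 : (0 : ℝ) < (l : ℝ) + 1 := by positivity
        have e3 : (i : ℝ) + 1 ≤ ((l : ℝ) + 1) * ((m : ℝ) + 1) := by
          have e4 : i + 1 ≤ (l + 1) * (m + 1) := by nlinarith
          exact_mod_cast e4
        have e5 : (((l : ℝ) + 1) * ((m : ℝ) + 1)) ^ (th - 1) ≤ ((i : ℝ) + 1) ^ (th - 1) :=
          Real.rpow_le_rpow_of_nonpos hi1 e3 (by linarith)
        rw [Real.mul_rpow hl1.le hm1.le] at e5
        have e6 : (((m : ℝ) + 1)) ^ (th - 1) * ((m : ℝ) + 1) = ((m : ℝ) + 1) ^ th := by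
          rw [← Real.rpow_add_one hm1.ne']
          congr 1
          ring
        have e7 : (1 : ℝ) ≤ ((m : ℝ) + 1) ^ th :=
          Real.one_le_rpow (by linarith [(Nat.cast_nonneg m : (0 : ℝ) ≤ m)]) h0.le
        calc ((l : ℝ) + 1) ^ (th - 1) ≤ ((l : ℝ) + 1) ^ (th - 1) * ((m : ℝ) + 1) ^ th :=
              le_mul_of_one_le_right (by positivity) e7
          _ = ((m : ℝ) + 1) * (((l : ℝ) + 1) ^ (th - 1) * ((m : ℝ) + 1) ^ (th - 1)) := by
              rw [← e6]; ring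
          _ ≤ _ := mul_le_mul_of_nonneg_left e5 hm1.le
      rw [norm_mul, hK, mul_comm]
      exact mul_le_mul e1 e2 (norm_nonneg _) (by positivity)
    · rw [if_neg (fun h => ha (Nat.le_of_lt_succ (mem_range.1 h)))]
      unfold dg
      rw [if_neg ha, mul_zero, norm_zero]
  have hsum : ∑ q ∈ antidiagonal i, (if q.2 ∈ range (m + 1) then K else 0) ≤ ((m : ℝ) + 1) * K := by
    rw [← sum_filter, sum_const, nsmul_eq_mul]
    refine mul_le_mul_of_nonneg_right ?_ hK0
    have hcard : ((antidiagonal i).filter fun q => q.2 ∈ range (m + 1)).card ≤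
        (range (m + 1)).card := by
      refine card_le_card_of_injOn (fun q => q.2) (fun q hq => ?_) ?_
      · exact (mem_filter.1 hq).2
      · rintro ⟨l, a⟩ hq ⟨l', a'⟩ hq' he
        have h1 := HasAntidiagonal.mem_antidiagonal.1 (mem_filter.1 hq).1
        have h2 := HasAntidiagonal.mem_antidiagonal.1 (mem_filter.1 hq').1
        simp only at h1 h2 he
        subst he
        have : l = l' := by omega
        rw [this]
    rw [card_range] at hcard
    exact_mod_cast hcard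
  calc ‖Yv th (dg x m) i‖ ≤ ∑ q ∈ antidiagonal i, ‖(cc th q.1 : ℂ) * dg x m q.2‖ := norm_sum_le _ _
    _ ≤ ∑ q ∈ antidiagonal i, (if q.2 ∈ range (m + 1) then K else 0) := sum_le_sum hterm
    _ ≤ ((m : ℝ) + 1) * K := hsum
    _ = C / R ^ m * ((m : ℝ) + 1) ^ 2 * ((i : ℝ) + 1) ^ (th - 1) := by rw [hK]; ring

/-! ### Averages -/

/-- termwise average -/
private theorem To_avg {ι : Type*} [Countable ι] {F : ι → ℂ → ℂ} {f : ℂ → ℂ} {bd : ι → ℝ} {ρ : ℝ}
    (hbd : Summable bd) (hc : ∀ n, Continuous (fun θ : ℝ => F n (circleMap 0 ρ θ)))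
    (hb : ∀ n, ∀ θ : ℝ, ‖F n (circleMap 0 ρ θ)‖ ≤ bd n)
    (hs : ∀ θ : ℝ, HasSum (fun n => F n (circleMap 0 ρ θ)) (f (circleMap 0 ρ θ))) :
    HasSum (fun n => circleAverage (F n) 0 ρ) (circleAverage f 0 ρ) := by
  have h := intervalIntegral.hasSum_integral_of_dominated_convergence (μ := MeasureTheory.volume)
    (a := 0) (b := 2 * π) (F := fun n (θ : ℝ) => F n (circleMap 0 ρ θ))
    (f := fun θ : ℝ => f (circleMap 0 ρ θ)) (fun n _ => bd n)
    (fun n => (hc n).aestronglyMeasurable)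
    (fun n => Filter.Eventually.of_forall fun θ _ => hb n θ)
    (Filter.Eventually.of_forall fun θ _ => hbd) intervalIntegrable_const
    (Filter.Eventually.of_forall fun θ _ => hs θ)
  exact h.const_smul _

private theorem To_mul {ι κ : Type*} {f : ι → ℂ} {g : κ → ℂ} {s t : ℂ} (hf : HasSum f s)
    (hg : HasSum g t) : HasSum (fun x : ι × κ => f x.1 * g x.2) (s * t) :=
  hf.mul hg (summable_mul_of_summable_norm (f := f) (g := g) hf.summable.norm hg.summable.norm)

/-- the average of `e^(i n θ)` -/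
private theorem To_exp (n : ℤ) (c : ℂ) :
    (2 * π)⁻¹ • ∫ θ in (0 : ℝ)..2 * π, c * Complex.exp ((n : ℂ) * I * θ) =
      if n = 0 then c else 0 := by
  rw [intervalIntegral.integral_const_mul]
  by_cases hn : n = 0
  · subst hn
    rw [if_pos rfl]
    have e3 : ∀ θ : ℝ, Complex.exp (((0 : ℤ) : ℂ) * I * θ) = 1 := by
      intro θ
      rw [Int.cast_zero, zero_mul, zero_mul, Complex.exp_zero]
    simp only [e3]
    rw [intervalIntegral.integral_const, sub_zero]
    have e4 : (2 * π : ℝ) ≠ 0 := by positivity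
    rw [mul_smul_comm, smul_smul, inv_mul_cancel₀ e4, one_smul, mul_one]
  · rw [if_neg hn]
    have hne : (n : ℂ) * I ≠ 0 := mul_ne_zero (by exact_mod_cast hn) I_ne_zero
    rw [integral_exp_mul_complex hne]
    have e5 : Complex.exp ((n : ℂ) * I * ((2 * π : ℝ) : ℂ)) = 1 := by
      rw [Complex.exp_eq_one_iff]
      refine ⟨n, ?_⟩
      push_cast
      ring
    rw [e5, Complex.ofReal_zero, mul_zero, Complex.exp_zero, sub_self, zero_div, mul_zero,
      smul_zero]

/-- the monomials -/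
private noncomputable def To_E (p : ℕ × ℕ) (z w : ℂ) : ℂ := (z / w) ^ p.2 * w ^ p.1

private theorem To_E_norm {z w : ℂ} {ρ : ℝ} (hz : ‖z‖ = ρ) (hw : ‖w‖ = 1) (p : ℕ × ℕ) :
    ‖To_E p z w‖ = ρ ^ p.2 := by
  unfold To_E
  rw [norm_mul, norm_pow, norm_pow, norm_div, hz, hw, div_one, one_pow, mul_one]

private theorem To_w (p q : ℕ × ℕ) (z : ℂ) :
    circleAverage (fun w => (starRingEnd ℂ) (To_E p z w) * To_E q z w) 0 1 =
      if (q.1 : ℤ) - q.2 - (p.1 - p.2) = 0 then (starRingEnd ℂ) (z ^ p.2) * z ^ q.2 else 0 := by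
  rw [circleAverage_def, ← To_exp]
  congr 1
  refine intervalIntegral.integral_congr fun θ _ => ?_
  have hw : circleMap 0 1 θ = Complex.exp (θ * I) := by
    rw [circleMap, zero_add, Complex.ofReal_one, one_mul]
  have hE : ∀ p : ℕ × ℕ, To_E p z (circleMap 0 1 θ) =
      z ^ p.2 * Complex.exp ((((p.1 : ℤ) - p.2 : ℤ) : ℂ) * I * θ) := by
    intro p
    unfold To_E
    rw [hw, div_pow, ← Complex.exp_nat_mul, ← Complex.exp_nat_mul, div_mul_eq_mul_div, mul_div_assoc,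
      ← Complex.exp_sub]
    congr 2
    push_cast
    ring
  rw [hE, hE, map_mul, ← Complex.exp_conj]
  have e1 : (starRingEnd ℂ) ((((p.1 : ℤ) - p.2 : ℤ) : ℂ) * I * θ) =
      -((((p.1 : ℤ) - p.2 : ℤ) : ℂ) * I * θ) := by
    rw [map_mul, map_mul, Complex.conj_I, Complex.conj_ofReal, map_intCast]
    ring
  rw [e1]
  have e2 : Complex.exp (((((q.1 : ℤ) - q.2 - (p.1 - p.2)) : ℤ) : ℂ) * I * θ) =
      Complex.exp (-((((p.1 : ℤ) - p.2 : ℤ) : ℂ) * I * θ)) *
        Complex.exp ((((q.1 : ℤ) - q.2 : ℤ) : ℂ) * I * θ) := by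
    rw [← Complex.exp_add]
    congr 1
    push_cast
    ring
  rw [e2]
  ring

private theorem To_z (i j : ℕ) (ρ : ℝ) :
    circleAverage (fun z => (starRingEnd ℂ) (z ^ i) * z ^ j) 0 ρ =
      if (j : ℤ) - i = 0 then (ρ : ℂ) ^ (i + j) else 0 := by
  rw [circleAverage_def, ← To_exp]
  congr 1
  refine intervalIntegral.integral_congr fun θ _ => ?_
  have hz : circleMap 0 ρ θ = ρ * Complex.exp (θ * I) := by
    rw [circleMap, zero_add]
  rw [hz, map_pow, map_mul, Complex.conj_ofReal, ← Complex.exp_conj, map_mul, Complex.conj_I,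
    Complex.conj_ofReal, mul_pow, mul_pow, ← Complex.exp_nat_mul, ← Complex.exp_nat_mul]
  have e2 : Complex.exp ((((j : ℤ) - i : ℤ) : ℂ) * I * θ) =
      Complex.exp ((i : ℂ) * (θ * -I)) * Complex.exp ((j : ℂ) * (θ * I)) := by
    rw [← Complex.exp_add]
    congr 1
    push_cast
    ring
  rw [e2, pow_add]
  ring

/-- Parseval on the torus -/
private theorem To_parseval {a b : ℕ × ℕ → ℂ} {A B : ℂ → ℂ → ℂ} {ρ : ℝ} (hρ : 0 < ρ)
    (ha : Summable fun p => ‖a p‖ * ρ ^ p.2) (hb : Summable fun p => ‖b p‖ * ρ ^ p.2)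
    (hA : ∀ z w : ℂ, ‖z‖ = ρ → ‖w‖ = 1 → HasSum (fun p => a p * To_E p z w) (A z w))
    (hB : ∀ z w : ℂ, ‖z‖ = ρ → ‖w‖ = 1 → HasSum (fun p => b p * To_E p z w) (B z w)) :
    HasSum (fun p => (starRingEnd ℂ) (a p) * b p * (ρ : ℂ) ^ (2 * p.2))
      (circleAverage (fun z => circleAverage (fun w => (starRingEnd ℂ) (A z w) * B z w) 0 1) 0 ρ)
    := by
  have hnz : ∀ θ : ℝ, ‖circleMap 0 ρ θ‖ = ρ := fun θ => by
    rw [norm_circleMap_zero, abs_of_pos hρ]
  have hnw : ∀ θ : ℝ, ‖circleMap 0 1 θ‖ = 1 := fun θ => by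
    rw [norm_circleMap_zero, abs_one]
  have hw0 : ∀ θ : ℝ, circleMap 0 1 θ ≠ 0 := fun θ => by
    rw [← norm_ne_zero_iff, hnw]; exact one_ne_zero
  have hbd : Summable fun x : (ℕ × ℕ) × (ℕ × ℕ) =>
      (‖a x.1‖ * ρ ^ x.1.2) * (‖b x.2‖ * ρ ^ x.2.2) :=
    ha.mul_of_nonneg hb (fun p => by positivity) (fun p => by positivity)
  -- average over `w`
  have hW : ∀ z : ℂ, ‖z‖ = ρ → HasSum (fun x : (ℕ × ℕ) × (ℕ × ℕ) =>
      (starRingEnd ℂ) (a x.1) * b x.2 *
        (if (x.2.1 : ℤ) - x.2.2 - (x.1.1 - x.1.2) = 0 then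
          (starRingEnd ℂ) (z ^ x.1.2) * z ^ x.2.2 else 0))
      (circleAverage (fun w => (starRingEnd ℂ) (A z w) * B z w) 0 1) := by
    intro z hz
    have h := To_avg (ι := (ℕ × ℕ) × (ℕ × ℕ)) (ρ := 1)
      (F := fun x w => (starRingEnd ℂ) (a x.1) * b x.2 *
        ((starRingEnd ℂ) (To_E x.1 z w) * To_E x.2 z w))
      (f := fun w => (starRingEnd ℂ) (A z w) * B z w) hbd (fun x => ?_) (fun x θ => ?_)
      (fun θ => ?_)
    · have e : ∀ x : (ℕ × ℕ) × (ℕ × ℕ), circleAverage (fun w => (starRingEnd ℂ) (a x.1) * b x.2 *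
          ((starRingEnd ℂ) (To_E x.1 z w) * To_E x.2 z w)) 0 1 =
          (starRingEnd ℂ) (a x.1) * b x.2 *
            circleAverage (fun w => (starRingEnd ℂ) (To_E x.1 z w) * To_E x.2 z w) 0 1 := by
        intro x
        rw [circleAverage_def, circleAverage_def, intervalIntegral.integral_const_mul,
          mul_smul_comm]
      simp only [e, To_w] at h
      exact h
    · have hE : ∀ p : ℕ × ℕ, Continuous fun θ : ℝ => To_E p z (circleMap 0 1 θ) := fun p =>
        ((continuous_const.div (continuous_circleMap 0 1) hw0).pow _).mul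
          ((continuous_circleMap 0 1).pow _)
      exact continuous_const.mul ((continuous_star.comp (hE _)).mul (hE _))
    · rw [norm_mul, norm_mul, norm_mul, RCLike.norm_conj, RCLike.norm_conj,
        To_E_norm hz (hnw θ), To_E_norm hz (hnw θ)]
      apply le_of_eq
      ring
    · generalize hwθ : circleMap 0 1 θ = w
      have hw1 : ‖w‖ = 1 := by rw [← hwθ]; exact hnw θ
      have h1 : HasSum (fun p => (starRingEnd ℂ) (a p * To_E p z w)) ((starRingEnd ℂ) (A z w)) :=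
        Complex.hasSum_conj'.2 (hA z w hz hw1)
      have h2 : HasSum (fun p => b p * To_E p z w) (B z w) := hB z w hz hw1
      have h3 := To_mul h1 h2
      have e : (fun x : (ℕ × ℕ) × (ℕ × ℕ) =>
          (starRingEnd ℂ) (a x.1 * To_E x.1 z w) * (b x.2 * To_E x.2 z w)) =
          fun x => (starRingEnd ℂ) (a x.1) * b x.2 *
            ((starRingEnd ℂ) (To_E x.1 z w) * To_E x.2 z w) := by
        funext x
        rw [map_mul]
        ring
      rw [e] at h3
      exact h3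
  -- average over `z`
  have hZ := To_avg (ι := (ℕ × ℕ) × (ℕ × ℕ)) (ρ := ρ)
      (F := fun x z => (starRingEnd ℂ) (a x.1) * b x.2 *
        (if (x.2.1 : ℤ) - x.2.2 - (x.1.1 - x.1.2) = 0 then
          (starRingEnd ℂ) (z ^ x.1.2) * z ^ x.2.2 else 0))
      (f := fun z => circleAverage (fun w => (starRingEnd ℂ) (A z w) * B z w) 0 1) hbd
      (fun x => ?_) (fun x θ => ?_) (fun θ => hW _ (hnz θ))
  · have hinj : Function.Injective (fun p : ℕ × ℕ => (p, p)) := fun p q h => (Prod.mk.inj h).1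
    have hcm : ∀ (c : ℂ) (g : ℂ → ℂ), circleAverage (fun z => c * g z) 0 ρ =
        c * circleAverage g 0 ρ := by
      intro c g
      rw [circleAverage_def, circleAverage_def, intervalIntegral.integral_const_mul,
        mul_smul_comm]
    have key : ∀ p : ℕ × ℕ, circleAverage (fun z => (starRingEnd ℂ) (a p) * b p *
        (if (p.1 : ℤ) - p.2 - (p.1 - p.2) = 0 then (starRingEnd ℂ) (z ^ p.2) * z ^ p.2 else 0))
        0 ρ = (starRingEnd ℂ) (a p) * b p * (ρ : ℂ) ^ (2 * p.2) := by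
      intro p
      have e : (p.1 : ℤ) - p.2 - (p.1 - p.2) = 0 := sub_self _
      simp only [if_pos e]
      rw [hcm, To_z, if_pos (sub_self _), two_mul]
    rw [← hinj.hasSum_iff] at hZ
    · have e0 : ((fun x : (ℕ × ℕ) × (ℕ × ℕ) => circleAverage (fun z => (starRingEnd ℂ) (a x.1) *
          b x.2 * (if (x.2.1 : ℤ) - x.2.2 - (x.1.1 - x.1.2) = 0 then
          (starRingEnd ℂ) (z ^ x.1.2) * z ^ x.2.2 else 0)) 0 ρ) ∘ fun p : ℕ × ℕ => (p, p)) =
          fun p => (starRingEnd ℂ) (a p) * b p * (ρ : ℂ) ^ (2 * p.2) := by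
        funext p
        simp only [Function.comp]
        exact key p
      rw [e0] at hZ
      exact hZ
    · rintro ⟨p, q⟩ hpq
      simp only
      rw [hcm]
      by_cases h1 : (q.1 : ℤ) - q.2 - (p.1 - p.2) = 0
      · simp only [if_pos h1]
        rw [To_z]
        by_cases h2 : (q.2 : ℤ) - p.2 = 0
        · exfalso
          apply hpq
          refine ⟨p, ?_⟩
          have h3 : p = q := by
            refine Prod.ext ?_ ?_
            · omega
            · omega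
          simp only [h3]
        · rw [if_neg h2, mul_zero]
      · simp only [if_neg h1]
        rw [circleAverage_def, intervalIntegral.integral_zero, smul_zero, mul_zero]
  · refine continuous_const.mul ?_
    by_cases h1 : (x.2.1 : ℤ) - x.2.2 - (x.1.1 - x.1.2) = 0
    · simp only [if_pos h1]
      exact (continuous_star.comp ((continuous_circleMap 0 ρ).pow _)).mul
        ((continuous_circleMap 0 ρ).pow _)
    · simp only [if_neg h1]
      exact continuous_const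
  · rw [norm_mul, norm_mul, RCLike.norm_conj]
    have h2 : ‖(if (x.2.1 : ℤ) - x.2.2 - (x.1.1 - x.1.2) = 0 then
          (starRingEnd ℂ) ((circleMap 0 ρ θ) ^ x.1.2) * (circleMap 0 ρ θ) ^ x.2.2 else 0)‖ ≤
        ρ ^ x.1.2 * ρ ^ x.2.2 := by
      split_ifs
      · rw [norm_mul, RCLike.norm_conj, norm_pow, norm_pow, hnz]
      · rw [norm_zero]
        positivity
    calc _ ≤ ‖a x.1‖ * ‖b x.2‖ * (ρ ^ x.1.2 * ρ ^ x.2.2) :=
          mul_le_mul_of_nonneg_left h2 (by positivity)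
      _ = _ := by ring

/-! ### Series on the torus -/

private theorem To_graded {h : ℕ × ℕ → ℂ} {V : ℂ} (hV : HasSum h V) :
    HasSum (fun m => ∑ q ∈ antidiagonal m, h q) V := by
  have h1 : HasSum (h ∘ HasAntidiagonal.sigmaAntidiagonalEquivProd (A := ℕ)) V :=
    (HasAntidiagonal.sigmaAntidiagonalEquivProd (A := ℕ)).hasSum_iff.2 hV
  have h2 := h1.sigma (g := fun m => ∑ q ∈ antidiagonal m, h q) (fun m => ?_)
  · exact h2
  · have h3 := hasSum_fintype (fun c : ((antidiagonal m : Finset (ℕ × ℕ))) => h c.1)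
    rw [sum_coe_sort (antidiagonal m) h] at h3
    exact h3

/-- Cauchy product with a graded double series -/
private theorem To_cauchy {f : ℕ → ℂ} {g : ℕ → ℕ → ℂ} (hg : ∀ m a, m < a → g m a = 0)
    {ζ w F V : ℂ} (hF : HasSum (fun l => f l * ζ ^ l) F)
    (hV : HasSum (fun q : ℕ × ℕ => g (q.1 + q.2) q.1 * ζ ^ q.1 * w ^ (q.1 + q.2)) V) :
    ∃ X : ℕ → ℂ, (∀ m, HasSum (fun i => (∑ q ∈ antidiagonal i, f q.1 * g m q.2) * ζ ^ i) (X m)) ∧
      HasSum (fun m => X m * w ^ m) (F * V) := by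
  refine ⟨fun m => F * ∑ a ∈ range (m + 1), g m a * ζ ^ a, fun m => ?_, ?_⟩
  · have h1 : HasSum (fun a => g m a * ζ ^ a) (∑ a ∈ range (m + 1), g m a * ζ ^ a) :=
      hasSum_sum_of_ne_finset_zero fun a ha => by
        rw [hg m a (by rw [Finset.mem_range] at ha; omega), zero_mul]
    have h2 := To_graded (To_mul hF h1)
    have e : (fun i => ∑ q ∈ antidiagonal i, f q.1 * ζ ^ q.1 * (g m q.2 * ζ ^ q.2)) =
        fun i => (∑ q ∈ antidiagonal i, f q.1 * g m q.2) * ζ ^ i := by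
      funext i
      rw [sum_mul]
      refine sum_congr rfl fun q hq => ?_
      rw [← HasAntidiagonal.mem_antidiagonal.1 hq, pow_add]
      ring
    rw [← e]
    exact h2
  · have h1 := (To_graded hV).mul_left F
    have e : (fun m => F * ∑ q ∈ antidiagonal m, g (q.1 + q.2) q.1 * ζ ^ q.1 * w ^ (q.1 + q.2)) =
        fun m => (F * ∑ a ∈ range (m + 1), g m a * ζ ^ a) * w ^ m := by
      funext m
      rw [mul_assoc]
      congr 1
      rw [sum_mul]
      have e1 : ∀ q ∈ antidiagonal m, g (q.1 + q.2) q.1 * ζ ^ q.1 * w ^ (q.1 + q.2) =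
          g m q.1 * ζ ^ q.1 * w ^ m := by
        intro q hq
        rw [HasAntidiagonal.mem_antidiagonal.1 hq]
      rw [sum_congr rfl e1, Finset.Nat.sum_antidiagonal_eq_sum_range_succ
        (fun a _ => g m a * ζ ^ a * w ^ m) m]
    rw [e] at h1
    exact h1

private theorem To_pairs {c : ℕ × ℕ → ℂ} {X : ℕ → ℂ} {ζ w T : ℂ}
    (hs : Summable fun p : ℕ × ℕ => c p * (ζ ^ p.2 * w ^ p.1))
    (hi : ∀ m, HasSum (fun i => c (m, i) * ζ ^ i) (X m)) (ho : HasSum (fun m => X m * w ^ m) T) :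
    HasSum (fun p : ℕ × ℕ => c p * (ζ ^ p.2 * w ^ p.1)) T := by
  have h1 := hs.hasSum
  have h2 := h1.prod_fiberwise (g := fun m => X m * w ^ m) (fun m => by
    have h3 := (hi m).mul_right (w ^ m)
    have e : (fun i => c (m, i) * ζ ^ i * w ^ m) = fun i => c (m, i) * (ζ ^ i * w ^ m) := by
      funext i
      ring
    rw [e] at h3
    exact h3)
  rw [← h2.unique ho]
  exact h1

/-- the derivative with respect to `w` -/
private theorem To_deriv {U : ℂ → ℂ → ℂ} {x : ℕ → ℕ → ℂ} {R : ℝ} (hR : 1 < R) (D : DPS U x R)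
    {z w : ℂ} (hz : ‖z‖ < 1) (hw : ‖w‖ = 1) :
    HasSum (fun q : ℕ × ℕ => (q.2 : ℂ) * x q.1 q.2 * z ^ q.1 * w ^ q.2) (w * deriv (U z) w) := by
  obtain ⟨C, hC⟩ := D.bd
  have hC0 : 0 ≤ C := by
    have := (norm_nonneg _).trans (hC 0 0)
    simpa using this
  obtain ⟨r, hr1, hrR⟩ := exists_between hR
  have hr0 : 0 < r := by linarith
  have hR0 : 0 < R := by linarith
  set s : ℝ := r / R with hs
  have hs0 : 0 < s := by positivity
  have hs1 : s < 1 := (div_lt_one hR0).2 hrR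
  have hzb : z ∈ ball (0 : ℂ) R := by
    rw [mem_ball_zero_iff]; linarith
  -- bound
  have hu : Summable fun q : ℕ × ℕ => C * (s ^ q.1 * ((q.2 : ℝ) * s ^ q.2)) := by
    refine Summable.mul_left C ?_
    refine Summable.mul_of_nonneg (f := fun n : ℕ => s ^ n) (g := fun n : ℕ => (n : ℝ) * s ^ n)
      (summable_geometric_of_lt_one hs0.le hs1) ?_ (fun n => by positivity)
      (fun n => by positivity)
    have := summable_pow_mul_geometric_of_norm_lt_one (R := ℝ) 1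
      (r := s) (by rw [Real.norm_eq_abs, abs_of_pos hs0]; exact hs1)
    simpa using this
  have bound : ∀ (q : ℕ × ℕ) (y : ℂ), y ∈ ball (0 : ℂ) r →
      ‖x q.1 q.2 * z ^ q.1 * ((q.2 : ℂ) * y ^ (q.2 - 1))‖ ≤
        C * (s ^ q.1 * ((q.2 : ℝ) * s ^ q.2)) := by
    intro q y hy
    rw [mem_ball_zero_iff] at hy
    rw [norm_mul, norm_mul, norm_mul, norm_pow, norm_pow, Complex.norm_natCast]
    have e1 : ‖z‖ ^ q.1 ≤ r ^ q.1 := pow_le_pow_left₀ (norm_nonneg _) (by linarith) _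
    have e2 : ‖y‖ ^ (q.2 - 1) ≤ r ^ q.2 :=
      (pow_le_pow_left₀ (norm_nonneg _) hy.le _).trans
        (pow_le_pow_right₀ hr1.le (Nat.sub_le _ _))
    calc ‖x q.1 q.2‖ * ‖z‖ ^ q.1 * ((q.2 : ℝ) * ‖y‖ ^ (q.2 - 1))
        ≤ C / R ^ (q.1 + q.2) * r ^ q.1 * ((q.2 : ℝ) * r ^ q.2) := by
          refine mul_le_mul (mul_le_mul (hC _ _) e1 (by positivity) (by positivity))
            (mul_le_mul_of_nonneg_left e2 (Nat.cast_nonneg _)) (by positivity) (by positivity)
      _ = C * (s ^ q.1 * ((q.2 : ℝ) * s ^ q.2)) := by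
          rw [hs, div_pow, div_pow, pow_add]
          field_simp
  have hder := hasDerivAt_tsum_of_isPreconnected (u := fun q : ℕ × ℕ =>
      C * (s ^ q.1 * ((q.2 : ℝ) * s ^ q.2)))
    (g := fun (q : ℕ × ℕ) (y : ℂ) => x q.1 q.2 * z ^ q.1 * y ^ q.2)
    (g' := fun (q : ℕ × ℕ) (y : ℂ) => x q.1 q.2 * z ^ q.1 * ((q.2 : ℂ) * y ^ (q.2 - 1)))
    (t := ball (0 : ℂ) r) (y₀ := 0) (y := w) hu isOpen_ball
    (convex_ball (0 : ℂ) r).isPreconnected
    (fun q y _ => (hasDerivAt_pow q.2 y).const_mul _) (fun q y hy => ?_)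
    (mem_ball_self hr0) (D.hs z hzb 0 (mem_ball_self hR0)).summable
    (by rw [mem_ball_zero_iff, hw]; exact hr1)
  · have hEq : (fun y => ∑' q : ℕ × ℕ, x q.1 q.2 * z ^ q.1 * y ^ q.2) =ᶠ[nhds w] U z := by
      have : ball (0 : ℂ) R ∈ nhds w := isOpen_ball.mem_nhds (by
        rw [mem_ball_zero_iff, hw]; exact hR)
      filter_upwards [this] with y hy
      exact (D.hs z hzb y hy).tsum_eq
    have hd := (hder.congr_of_eventuallyEq hEq.symm).deriv
    have hsum : Summable fun q : ℕ × ℕ =>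
        x q.1 q.2 * z ^ q.1 * ((q.2 : ℂ) * w ^ (q.2 - 1)) := by
      refine Summable.of_norm_bounded hu fun q => ?_
      exact bound q w (by rw [mem_ball_zero_iff, hw]; exact hr1)
    have h1 := hsum.hasSum.mul_left w
    rw [← hd] at h1
    have e : (fun q : ℕ × ℕ => w * (x q.1 q.2 * z ^ q.1 * ((q.2 : ℂ) * w ^ (q.2 - 1)))) =
        fun q => (q.2 : ℂ) * x q.1 q.2 * z ^ q.1 * w ^ q.2 := by
      funext q
      rcases Nat.eq_zero_or_pos q.2 with h0 | h0
      · rw [h0]; simp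
      · obtain ⟨n, hn⟩ := Nat.exists_eq_succ_of_ne_zero h0.ne'
        rw [hn, Nat.succ_sub_one, pow_succ]
        ring
    rw [e] at h1
    exact h1
  · exact bound q y hy

private theorem To_cc (th : ℝ) (l : ℕ) : th * cc (th + 1) l = (th + l) * cc th l := by
  have h : ∀ n : ℕ, th * poc (th + 1) n = poc th n * (th + n) := by
    intro n
    induction n with
    | zero => simp [poc]
    | succ n ih =>
      have e1 : poc (th + 1) (n + 1) = poc (th + 1) n * (th + 1 + n) := rfl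
      have e2 : poc th (n + 1) = poc th n * (th + n) := rfl
      rw [e1, e2, ← mul_assoc, ih]
      push_cast
      ring
  unfold cc
  rw [← mul_div_assoc, h, mul_div_assoc', mul_comm (poc th l)]

private theorem To_geom {s : ℝ} (h0 : 0 < s) (h1 : s < 1) (k : ℕ) :
    Summable (fun n : ℕ => ((n : ℝ) + 1) ^ k * s ^ n) := by
  have h2 := summable_pow_mul_geometric_of_norm_lt_one (R := ℝ) k
      (r := s) (by rw [Real.norm_eq_abs, abs_of_pos h0]; exact h1)
  have h3 := ((summable_nat_add_iff 1).2 h2).mul_left s⁻¹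
  have e : (fun n : ℕ => s⁻¹ * (((n + 1 : ℕ) : ℝ) ^ k * s ^ (n + 1))) =
      fun n : ℕ => ((n : ℝ) + 1) ^ k * s ^ n := by
    funext n
    push_cast
    rw [pow_succ]
    field_simp
  rw [← e]
  exact h3

private theorem To_neg {f : ℂ → ℂ} {r : ℝ} (h : ∀ z ∈ sphere (0 : ℂ) |r|, (f z).re ≤ 0) :
    (circleAverage f 0 r).re ≤ 0 := by
  by_cases hf : CircleIntegrable f 0 r
  · have h1 := ContinuousLinearMap.circleAverage_comp_comm (-Complex.reCLM) hf
    have h2 : 0 ≤ circleAverage ((-Complex.reCLM : ℂ →L[ℝ] ℝ) ∘ f) 0 r := by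
      refine circleAverage_nonneg_of_nonneg fun z hz => ?_
      have := h z hz
      change 0 ≤ -(f z).re
      linarith
    rw [h1] at h2
    have h3 : (0 : ℝ) ≤ -(circleAverage f 0 r).re := h2
    linarith
  · rw [circleAverage.integral_undef hf]
    simp

private theorem To_neg' {f : ℂ → ℂ} {r : ℝ} (h : circleAverage (fun w => (f w).re) 0 r ≤ 0) :
    (circleAverage f 0 r).re ≤ 0 := by
  by_cases hf : CircleIntegrable f 0 r
  · have h1 := ContinuousLinearMap.circleAverage_comp_comm Complex.reCLM hf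
    have h2 : (circleAverage f 0 r).re = circleAverage (fun w => (f w).re) 0 r := h1.symm
    rw [h2]
    exact h
  · rw [circleAverage.integral_undef hf]
    simp

theorem torus {U : ℂ → ℂ → ℂ} {x : ℕ → ℕ → ℂ} {R : ℝ} (hR : 1 < R) (D : DPS U x R) {th : ℝ}
    (h0 : 0 < th) (h1 : th < 1 / 2)
    (hP : ∀ z ∈ ball (0 : ℂ) 1, circleAverage (fun w => ‖1 - z / w‖ ^ (-2 * th) *
      ((starRingEnd ℂ) (U z w) * (w * deriv (U z) w - th * (w / (w - z)) * U z w)).re) 0 1 ≤ 0)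
    {ρ : ℝ} (hρ : 0 < ρ) (hρ1 : ρ < 1) :
    Summable (fun p : ℕ × ℕ => ((p.1 : ℝ) - p.2 - th) * ‖Yv th (dg x p.1) p.2‖ ^ 2 * ρ ^ (2 * p.2)) ∧
      ∑' p : ℕ × ℕ, ((p.1 : ℝ) - p.2 - th) * ‖Yv th (dg x p.1) p.2‖ ^ 2 * ρ ^ (2 * p.2) ≤ 0 := by
  obtain ⟨C, hC⟩ := yd_bound hR D h0 h1
  have hR0 : 0 < R := by linarith
  have hC0 : 0 ≤ C := by
    have h2 := (norm_nonneg _).trans (hC 0 0)
    simpa using h2
  set a : ℕ × ℕ → ℂ := fun p => Yv th (dg x p.1) p.2 with ha
  set b : ℕ × ℕ → ℂ := fun p => (((p.1 : ℝ) - p.2 - th : ℝ) : ℂ) * a p with hb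
  -- bounds
  have hu : Summable fun p : ℕ × ℕ =>
      C * ((((p.1 : ℝ) + 1) ^ 3 * (1 / R) ^ p.1) * (((p.2 : ℝ) + 1) ^ 1 * ρ ^ p.2)) := by
    refine Summable.mul_left C ?_
    exact Summable.mul_of_nonneg (f := fun n : ℕ => ((n : ℝ) + 1) ^ 3 * (1 / R) ^ n)
      (g := fun n : ℕ => ((n : ℝ) + 1) ^ 1 * ρ ^ n)
      (To_geom (by positivity) ((div_lt_one hR0).2 hR) 3) (To_geom hρ hρ1 1)
      (fun n => by positivity) (fun n => by positivity)
  have hcore : ∀ p : ℕ × ℕ, ((p.1 : ℝ) + p.2 + 1) * (‖a p‖ * ρ ^ p.2) ≤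
      C * ((((p.1 : ℝ) + 1) ^ 3 * (1 / R) ^ p.1) * (((p.2 : ℝ) + 1) ^ 1 * ρ ^ p.2)) := by
    rintro ⟨m, i⟩
    simp only [ha]
    have hm : (0 : ℝ) ≤ m := Nat.cast_nonneg m
    have hi : (0 : ℝ) ≤ i := Nat.cast_nonneg i
    have e1 : ((i : ℝ) + 1) ^ (th - 1) ≤ 1 :=
      Real.rpow_le_one_of_one_le_of_nonpos (by linarith) (by linarith)
    have e2 : ‖Yv th (dg x m) i‖ ≤ C / R ^ m * ((m : ℝ) + 1) ^ 2 :=
      (hC m i).trans (mul_le_of_le_one_right (by positivity) e1)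
    have e3 : (m : ℝ) + i + 1 ≤ (m + 1) * (i + 1) := by nlinarith
    calc ((m : ℝ) + i + 1) * (‖Yv th (dg x m) i‖ * ρ ^ i)
        ≤ ((m + 1) * (i + 1)) * (C / R ^ m * ((m : ℝ) + 1) ^ 2 * ρ ^ i) := by
          refine mul_le_mul e3 (mul_le_mul_of_nonneg_right e2 (by positivity)) (by positivity)
            (by positivity)
      _ = _ := by
          rw [div_pow, one_pow]
          ring
  have hsa : Summable fun p => ‖a p‖ * ρ ^ p.2 := by
    refine Summable.of_nonneg_of_le (fun p => by positivity) (fun p => ?_) hu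
    refine le_trans ?_ (hcore p)
    refine le_mul_of_one_le_left (by positivity) ?_
    have : (0 : ℝ) ≤ p.1 := Nat.cast_nonneg _
    have : (0 : ℝ) ≤ p.2 := Nat.cast_nonneg _
    linarith
  have hsb : Summable fun p => ‖b p‖ * ρ ^ p.2 := by
    refine Summable.of_nonneg_of_le (fun p => by positivity) (fun p => ?_) hu
    refine le_trans ?_ (hcore p)
    rw [hb]
    simp only
    rw [norm_mul, Complex.norm_real, mul_assoc]
    refine mul_le_mul_of_nonneg_right ?_ (by positivity)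
    have h2 : (0 : ℝ) ≤ p.1 := Nat.cast_nonneg _
    have h3 : (0 : ℝ) ≤ p.2 := Nat.cast_nonneg _
    rw [Real.norm_eq_abs, abs_le]
    constructor <;> linarith
  -- the two series
  set A : ℂ → ℂ → ℂ := fun z w => (1 - z / w) ^ (-(th : ℂ)) * U z w with hA
  set B : ℂ → ℂ → ℂ := fun z w => (1 - z / w) ^ (-(th : ℂ)) *
    (w * deriv (U z) w - th * (w / (w - z)) * U z w) with hB
  have hdg : ∀ m a, m < a → dg x m a = 0 := by
    intro m a hma
    unfold dg
    rw [if_neg (not_le.2 hma)]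
  have hdg' : ∀ j k, dg x (j + k) j = x j k := by
    intro j k
    unfold dg
    rw [if_pos (Nat.le_add_right j k), Nat.add_sub_cancel_left]
  have hzw : ∀ (z w : ℂ), w ≠ 0 → ∀ j k : ℕ, (z / w) ^ j * w ^ (j + k) = z ^ j * w ^ k := by
    intro z w hw j k
    rw [div_pow, pow_add]
    field_simp
  have hpair : ∀ (z w : ℂ), ‖z‖ = ρ → ‖w‖ = 1 → ‖z / w‖ < 1 ∧ w ≠ 0 ∧ w - z ≠ 0 ∧ 1 - z / w ≠ 0 ∧
      (∀ c : ℕ × ℕ → ℂ, (Summable fun p => ‖c p‖ * ρ ^ p.2) →
        Summable fun p : ℕ × ℕ => c p * ((z / w) ^ p.2 * w ^ p.1)) := by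
    intro z w hz hw
    have hw0 : w ≠ 0 := by
      rw [← norm_ne_zero_iff, hw]; exact one_ne_zero
    have hζ : ‖z / w‖ < 1 := by rw [norm_div, hz, hw, div_one]; exact hρ1
    have hne : 1 - z / w ≠ 0 := by
      intro h
      rw [sub_eq_zero] at h
      rw [← h, norm_one] at hζ
      exact lt_irrefl _ hζ
    refine ⟨hζ, hw0, ?_, hne, fun c hc => ?_⟩
    · intro h
      apply hne
      rw [sub_eq_zero] at h
      rw [← h, div_self hw0, sub_self]
    · refine Summable.of_norm ?_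
      have e : (fun p : ℕ × ℕ => ‖c p * ((z / w) ^ p.2 * w ^ p.1)‖) =
          fun p => ‖c p‖ * ρ ^ p.2 := by
        funext p
        rw [norm_mul]
        congr 1
        exact To_E_norm hz hw p
      rw [e]
      exact hc
  have hball : ∀ z : ℂ, ‖z‖ = ρ → z ∈ ball (0 : ℂ) R := by
    intro z hz
    rw [mem_ball_zero_iff, hz]; linarith
  have hballw : ∀ w : ℂ, ‖w‖ = 1 → w ∈ ball (0 : ℂ) R := by
    intro w hw
    rw [mem_ball_zero_iff, hw]; exact hR
  have hVU : ∀ (z w : ℂ), ‖z‖ = ρ → ‖w‖ = 1 → HasSum (fun q : ℕ × ℕ =>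
      dg x (q.1 + q.2) q.1 * (z / w) ^ q.1 * w ^ (q.1 + q.2)) (U z w) := by
    intro z w hz hw
    obtain ⟨-, hw0, -⟩ := hpair z w hz hw
    have h2 := D.hs z (hball z hz) w (hballw w hw)
    have e : (fun q : ℕ × ℕ => dg x (q.1 + q.2) q.1 * (z / w) ^ q.1 * w ^ (q.1 + q.2)) =
        fun q => x q.1 q.2 * z ^ q.1 * w ^ q.2 := by
      funext q
      rw [hdg', mul_assoc, hzw z w hw0, ← mul_assoc]
    rw [e]
    exact h2
  have hAs : ∀ z w : ℂ, ‖z‖ = ρ → ‖w‖ = 1 → HasSum (fun p => a p * To_E p z w) (A z w) := by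
    intro z w hz hw
    obtain ⟨hζ, hw0, -, -, hsum⟩ := hpair z w hz hw
    obtain ⟨X, hX1, hX2⟩ := To_cauchy (f := fun l => (cc th l : ℂ)) (g := dg x) hdg
      (cc_series h0 hζ) (hVU z w hz hw)
    exact To_pairs (c := a) (hsum a hsa) hX1 hX2
  have hBs : ∀ z w : ℂ, ‖z‖ = ρ → ‖w‖ = 1 → HasSum (fun p => b p * To_E p z w) (B z w) := by
    intro z w hz hw
    obtain ⟨hζ, hw0, hwz, hne, hsum⟩ := hpair z w hz hw
    have hV1 : HasSum (fun q : ℕ × ℕ => (((q.1 + q.2 : ℕ) : ℂ) - q.1) * dg x (q.1 + q.2) q.1 *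
        (z / w) ^ q.1 * w ^ (q.1 + q.2)) (w * deriv (U z) w) := by
      have h2 := To_deriv hR D (z := z) (w := w) (by rw [hz]; exact hρ1) hw
      have e : (fun q : ℕ × ℕ => (((q.1 + q.2 : ℕ) : ℂ) - q.1) * dg x (q.1 + q.2) q.1 *
          (z / w) ^ q.1 * w ^ (q.1 + q.2)) = fun q => (q.2 : ℂ) * x q.1 q.2 * z ^ q.1 * w ^ q.2 := by
        funext q
        rw [hdg', mul_assoc, hzw z w hw0]
        push_cast
        ring
      rw [e]
      exact h2
    obtain ⟨X1, hX1, hY1⟩ := To_cauchy (f := fun l => (cc th l : ℂ))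
      (g := fun m a => ((m : ℂ) - a) * dg x m a) (fun m a hma => by rw [hdg m a hma, mul_zero])
      (cc_series h0 hζ) hV1
    have hF2 : HasSum (fun l : ℕ => (((th + l : ℝ) : ℂ) * (cc th l : ℂ)) * (z / w) ^ l)
        ((th : ℂ) * (1 - z / w) ^ (-((th + 1 : ℝ) : ℂ))) := by
      have h2 := (cc_series (th := th + 1) (by linarith) hζ).mul_left (th : ℂ)
      have e : (fun l : ℕ => (((th + l : ℝ) : ℂ) * (cc th l : ℂ)) * (z / w) ^ l) =
          fun l => (th : ℂ) * ((cc (th + 1) l : ℂ) * (z / w) ^ l) := by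
        funext l
        rw [← mul_assoc, ← Complex.ofReal_mul, ← Complex.ofReal_mul, To_cc]
      rw [e]
      exact h2
    obtain ⟨X2, hX2, hY2⟩ := To_cauchy (f := fun l => ((th + l : ℝ) : ℂ) * (cc th l : ℂ))
      (g := dg x) hdg hF2 (hVU z w hz hw)
    have hBval : B z w = (1 - z / w) ^ (-(th : ℂ)) * (w * deriv (U z) w) -
        (th : ℂ) * (1 - z / w) ^ (-((th + 1 : ℝ) : ℂ)) * U z w := by
      rw [hB]
      simp only
      have e1 : (1 - z / w) ^ (-((th + 1 : ℝ) : ℂ)) =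
          (1 - z / w) ^ (-(th : ℂ)) * (1 - z / w)⁻¹ := by
        rw [← Complex.cpow_neg_one, ← Complex.cpow_add _ _ hne]
        congr 1
        push_cast
        ring
      have e2 : (1 - z / w)⁻¹ = w / (w - z) := by
        rw [show 1 - z / w = (w - z) / w by field_simp, inv_div]
      rw [e1, e2]
      ring
    rw [hBval]
    refine To_pairs (c := b) (hsum b hsb) (X := fun m => X1 m - X2 m) (fun m => ?_) ?_
    · have h2 := (hX1 m).sub (hX2 m)
      have e : (fun i : ℕ => (∑ q ∈ antidiagonal i, (cc th q.1 : ℂ) *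
          (((m : ℂ) - q.2) * dg x m q.2)) * (z / w) ^ i -
          (∑ q ∈ antidiagonal i, ((th + q.1 : ℝ) : ℂ) * (cc th q.1 : ℂ) * dg x m q.2) *
            (z / w) ^ i) = fun i => b (m, i) * (z / w) ^ i := by
        funext i
        rw [← sub_mul, ← sum_sub_distrib]
        congr 1
        rw [hb, ha]
        simp only
        unfold Yv
        rw [mul_sum]
        refine sum_congr rfl fun q hq => ?_
        have h3 := HasAntidiagonal.mem_antidiagonal.1 hq
        rw [← h3]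
        push_cast
        ring
      rw [← e]
      exact h2
    · have h2 := hY1.sub hY2
      have e : (fun m => X1 m * w ^ m - X2 m * w ^ m) = fun m => (X1 m - X2 m) * w ^ m := by
        funext m
        ring
      rw [e] at h2
      exact h2
  have hmain := To_parseval hρ hsa hsb hAs hBs
  have hre := Complex.hasSum_re hmain
  have e : (fun p : ℕ × ℕ => ((starRingEnd ℂ) (a p) * b p * (ρ : ℂ) ^ (2 * p.2)).re) =
      fun p : ℕ × ℕ => ((p.1 : ℝ) - p.2 - th) * ‖Yv th (dg x p.1) p.2‖ ^ 2 * ρ ^ (2 * p.2) := by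
    funext p
    have e1 : (starRingEnd ℂ) (a p) * b p * (ρ : ℂ) ^ (2 * p.2) =
        ((((p.1 : ℝ) - p.2 - th) * ‖a p‖ ^ 2 * ρ ^ (2 * p.2) : ℝ) : ℂ) := by
      rw [hb]
      simp only
      have e2 : (starRingEnd ℂ) (a p) * a p = ((‖a p‖ ^ 2 : ℝ) : ℂ) := by
        rw [mul_comm, Complex.mul_conj, Complex.normSq_eq_norm_sq]
      calc (starRingEnd ℂ) (a p) * ((((p.1 : ℝ) - p.2 - th : ℝ) : ℂ) * a p) * (ρ : ℂ) ^ (2 * p.2)
          = (((p.1 : ℝ) - p.2 - th : ℝ) : ℂ) * ((starRingEnd ℂ) (a p) * a p) *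
            (ρ : ℂ) ^ (2 * p.2) := by ring
        _ = _ := by
            rw [e2]
            push_cast
            ring
    rw [e1, Complex.ofReal_re]
  rw [e] at hre
  refine ⟨hre.summable, ?_⟩
  rw [hre.tsum_eq]
  refine To_neg fun z hz => ?_
  have hz' : ‖z‖ = ρ := by
    rw [mem_sphere_zero_iff_norm, abs_of_pos hρ] at hz
    exact hz
  refine To_neg' ?_
  refine le_trans (le_of_eq ?_) (hP z (by rw [mem_ball_zero_iff, hz']; exact hρ1))
  refine circleAverage_congr_sphere fun w hw => ?_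
  have hw' : ‖w‖ = 1 := by
    rw [mem_sphere_zero_iff_norm, abs_one] at hw
    exact hw
  simp only [hA, hB]
  set α : ℂ := (1 - z / w) ^ (-(th : ℂ)) with hα
  set W : ℂ := w * deriv (U z) w - th * (w / (w - z)) * U z w with hW
  have e3 : (starRingEnd ℂ) (α * U z w) * (α * W) =
      ((‖1 - z / w‖ ^ (-2 * th) : ℝ) : ℂ) * ((starRingEnd ℂ) (U z w) * W) := by
    have e4 : (starRingEnd ℂ) α * α = ((‖1 - z / w‖ ^ (-2 * th) : ℝ) : ℂ) := by
      rw [mul_comm, Complex.mul_conj, Complex.normSq_eq_norm_sq, hα]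
      congr 1
      rw [← Complex.ofReal_neg, Complex.norm_cpow_real, ← Real.rpow_natCast, ← Real.rpow_mul
        (norm_nonneg _)]
      congr 1
      push_cast
      ring
    rw [← e4, map_mul]
    ring
  rw [e3, Complex.re_ofReal_mul]

end Pool.Agent.Helper21.KP
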