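import Pool.Agent.Helper21.KP.PR
import Pool.Agent.Helper21.KP.Torus

/-!
# KP-UD: Taylor coefficients at the diagonal

`ud_pr`: `U s w = ∑ x a b s^a w^b`, `(1/k!) (d/dw)^k` at `w = s` gives `∑ x a b C(b, k) s^(a+b-k)`; collect the terms
with `a + b = n + k` (absolute convergence from `D.bd`).
`tn_id`: for every `a ≤ m = n + N` the identity
`∑_j tau N j C(a, j) C(m-a, N-j) = ∑_k gam N k (m-k)!/(m-N)! C(m-a, k)` for `N = 0, 1, 2, 3`; both sides are
polynomials in `a` and `m - a` (write `C(b, j)` as `b (b-1) .../j!`, `ring`).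
-/

set_option autoImplicit false

namespace Pool.Agent.Helper21.KP

open Complex Metric Set Real Finset

noncomputable def dc (x : ℕ → ℕ → ℂ) (k n : ℕ) : ℂ :=
  ∑ a ∈ range (n + k + 1), ((n + k - a).choose k : ℂ) * x a (n + k - a)

/-- `(1/k!) ∂_w^k U (s, w)` at `w = s` -/
noncomputable def ud (U : ℂ → ℂ → ℂ) (k : ℕ) (s : ℂ) : ℂ := iteratedDeriv k (U s) s / (k.factorial : ℂ)

noncomputable def gam (th B : ℝ) (N k : ℕ) : ℝ :=
  (∑ i ∈ range (k + 1), tau th B N (N - k + i) * (-1) ^ i * (k.choose i : ℝ)) / ((N - k).factorial : ℝ)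

private theorem UD_hs {κ : Type*} {f g : κ → ℂ} {s : ℂ} (h : HasSum f s) (e : ∀ m, f m = g m) :
    HasSum g s := by
  rwa [show g = f from (funext e).symm]

/-- the terms of the double series are dominated -/
private theorem UD_summ {U : ℂ → ℂ → ℂ} {x : ℕ → ℕ → ℂ} {R : ℝ} (hR : 0 < R) (D : DPS U x R)
    (k : ℕ) {s : ℂ} (hs : s ∈ ball (0 : ℂ) R) :
    Summable fun p : ℕ × ℕ => ((p.1 + k).choose k : ℂ) * x p.2 (p.1 + k) * s ^ p.2 * s ^ p.1 := by
  obtain ⟨C, hC⟩ := D.bd
  have hsn : ‖s‖ < R := by simpa using hs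
  set q : ℝ := ‖s‖ / R with hq
  have hq0 : 0 ≤ q := by positivity
  have hq1 : q < 1 := (div_lt_one hR).2 hsn
  have hg1 : Summable fun m : ℕ => ((m + k).choose k : ℝ) * q ^ m :=
    summable_choose_mul_geometric_of_norm_lt_one k (by rwa [Real.norm_of_nonneg hq0])
  have hg2 : Summable fun m : ℕ => q ^ m := summable_geometric_of_lt_one hq0 hq1
  have hg : Summable fun p : ℕ × ℕ => C / R ^ k * (((p.1 + k).choose k : ℝ) * q ^ p.1 * q ^ p.2) := by
    apply Summable.mul_left
    exact hg1.mul_of_nonneg hg2 (fun n => by positivity) (fun n => by positivity)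
  refine Summable.of_norm_bounded hg fun p => ?_
  rw [norm_mul, norm_mul, norm_mul, norm_pow, norm_pow, Complex.norm_natCast]
  calc ((p.1 + k).choose k : ℝ) * ‖x p.2 (p.1 + k)‖ * ‖s‖ ^ p.2 * ‖s‖ ^ p.1
      ≤ ((p.1 + k).choose k : ℝ) * (C / R ^ (p.2 + (p.1 + k))) * ‖s‖ ^ p.2 * ‖s‖ ^ p.1 := by
        gcongr
        exact hC _ _
    _ = C / R ^ k * (((p.1 + k).choose k : ℝ) * q ^ p.1 * q ^ p.2) := by
        rw [hq, div_pow, div_pow, pow_add, pow_add]
        field_simp

private theorem UD_row {U : ℂ → ℂ → ℂ} {x : ℕ → ℕ → ℂ} {R : ℝ} (hR : 0 < R) (D : DPS U x R)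
    (b : ℕ) {s : ℂ} (hs : s ∈ ball (0 : ℂ) R) : Summable fun a : ℕ => x a b * s ^ a := by
  obtain ⟨C, hC⟩ := D.bd
  have hsn : ‖s‖ < R := by simpa using hs
  have hq1 : ‖s‖ / R < 1 := (div_lt_one hR).2 hsn
  have hg2 : Summable fun m : ℕ => C / R ^ b * (‖s‖ / R) ^ m :=
    (summable_geometric_of_lt_one (by positivity) hq1).mul_left _
  refine Summable.of_norm_bounded hg2 fun a => ?_
  rw [norm_mul, norm_pow]
  calc ‖x a b‖ * ‖s‖ ^ a ≤ (C / R ^ (a + b)) * ‖s‖ ^ a := by
        gcongr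
        exact hC _ _
    _ = C / R ^ b * (‖s‖ / R) ^ a := by
        rw [div_pow, pow_add]
        field_simp

/-- expansion in the second variable -/
private theorem UD_pr_row {U : ℂ → ℂ → ℂ} {x : ℕ → ℕ → ℂ} {R : ℝ} (hR : 0 < R) (D : DPS U x R)
    {s : ℂ} (hs : s ∈ ball (0 : ℂ) R) : PR (U s) (fun b => ∑' a, x a b * s ^ a) R := by
  intro w hw
  have h1 := D.hs s hs w hw
  have h2 : HasSum (fun p : ℕ × ℕ => x p.2 p.1 * s ^ p.2 * w ^ p.1) (U s w) :=
    (Equiv.prodComm ℕ ℕ).hasSum_iff.2 h1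
  exact h2.prod_fiberwise fun b => (UD_row hR D b hs).hasSum.mul_right (w ^ b)

/-- sums over the antidiagonals -/
private theorem UD_anti {f : ℕ × ℕ → ℂ} {S : ℂ} (h : HasSum f S) :
    HasSum (fun n => ∑ p ∈ antidiagonal n, f p) S := by
  have h6 := (Finset.HasAntidiagonal.sigmaAntidiagonalEquivProd (A := ℕ)).hasSum_iff.2 h
  have h7 := h6.sigma fun n => hasSum_fintype _
  refine UD_hs h7 fun n => ?_
  rw [← Finset.sum_coe_sort (antidiagonal n) f]
  rfl

theorem ud_pr {U : ℂ → ℂ → ℂ} {x : ℕ → ℕ → ℂ} {R : ℝ} (hR : 0 < R) (D : DPS U x R) (k : ℕ) :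
    PR (ud U k) (dc x k) R := by
  intro s hs
  have h1 := pr_iter (UD_pr_row hR D hs) k s hs
  have h2 : HasSum (fun m : ℕ => ((m + k).choose k : ℂ) * (∑' a, x a (m + k) * s ^ a) * s ^ m)
      (ud U k s) := by
    refine UD_hs (h1.div_const (k.factorial : ℂ)) fun m => ?_
    have hk : (k.factorial : ℂ) ≠ 0 := by exact_mod_cast k.factorial_ne_zero
    beta_reduce
    rw [Nat.descFactorial_eq_factorial_mul_choose]
    push_cast
    field_simp
  have h3 := UD_summ hR D k hs
  have h4 : HasSum (fun m : ℕ => ((m + k).choose k : ℂ) * (∑' a, x a (m + k) * s ^ a) * s ^ m)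
      (∑' p : ℕ × ℕ, ((p.1 + k).choose k : ℂ) * x p.2 (p.1 + k) * s ^ p.2 * s ^ p.1) := by
    refine h3.hasSum.prod_fiberwise fun m => ?_
    refine UD_hs (((UD_row hR D (m + k) hs).hasSum.mul_left ((m + k).choose k : ℂ)).mul_right (s ^ m))
      fun a => ?_
    ring
  have h5 := h3.hasSum
  rw [← h2.unique h4] at h5
  refine UD_hs (UD_anti h5) fun n => ?_
  rw [dc, Finset.sum_mul]
  have h8 : ∀ p ∈ antidiagonal n,
      ((p.1 + k).choose k : ℂ) * x p.2 (p.1 + k) * s ^ p.2 * s ^ p.1 =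
        ((n + k - p.2).choose k : ℂ) * x p.2 (n + k - p.2) * s ^ n := by
    intro p hp
    have hp' := mem_antidiagonal.1 hp
    have e1 : n + k - p.2 = p.1 + k := by omega
    rw [e1, mul_assoc, ← pow_add, add_comm p.2 p.1, hp']
  rw [Finset.sum_congr rfl h8, Finset.Nat.sum_antidiagonal_eq_sum_range_succ_mk,
    ← Finset.sum_range_reflect, Finset.sum_congr rfl (g := fun a =>
      ((n + k - a).choose k : ℂ) * x a (n + k - a) * s ^ n)]
  · refine Finset.sum_subset (Finset.range_mono (by omega)) fun a ha ha' => ?_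
    rw [Finset.mem_range] at ha ha'
    rw [Nat.choose_eq_zero_of_lt (by omega)]
    simp
  · intro a ha
    rw [Finset.mem_range] at ha
    have e2 : n - (n + 1 - 1 - a) = a := by omega
    simp only [e2]

private theorem UD_step (a k : ℕ) :
    (a.choose (k + 1) : ℂ) * ((k : ℂ) + 1) = (a.choose k : ℂ) * ((a : ℂ) - k) := by
  rcases Nat.lt_or_ge a k with h | h
  · rw [Nat.choose_eq_zero_of_lt h, Nat.choose_eq_zero_of_lt (by omega)]
    simp
  · have h1 := Nat.choose_succ_right_eq a k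
    have h2 : ((a.choose (k + 1) * (k + 1) : ℕ) : ℂ) = ((a.choose k * (a - k) : ℕ) : ℂ) := by
      rw [h1]
    rw [Nat.cast_mul, Nat.cast_mul, Nat.cast_sub h] at h2
    push_cast at h2
    exact h2

private theorem UD_c2 (a : ℕ) : (a.choose 2 : ℂ) = a * (a - 1) / 2 := by
  have h1 := UD_step a 1
  rw [Nat.choose_one_right] at h1
  push_cast at h1
  linear_combination h1 / 2

private theorem UD_c3 (a : ℕ) : (a.choose 3 : ℂ) = a * (a - 1) * (a - 2) / 6 := by
  have h1 := UD_step a 2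
  rw [UD_c2] at h1
  push_cast at h1
  linear_combination h1 / 3

/-- the identity for one coefficient -/
private theorem UD_id (th B : ℝ) {N : ℕ} (hN : N ≤ 3) (n a : ℕ) (ha : a ≤ n + N) :
    ∑ j ∈ range (N + 1), (tau th B N j : ℂ) *
        ((a.choose j : ℂ) * ((n + N - a).choose (N - j) : ℂ)) =
      ∑ k ∈ range (N + 1), (gam th B N k : ℂ) * ((n + N - k).descFactorial (N - k) : ℂ) *
        ((n + N - a).choose k : ℂ) := by
  obtain ⟨b, hb⟩ : ∃ b, b = n + N - a := ⟨_, rfl⟩
  rw [← hb]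
  have hab : (a : ℂ) + b = n + N := by
    have : a + b = n + N := by omega
    exact_mod_cast this
  interval_cases N
  · simp [gam]
  · simp only [gam, Finset.sum_range_succ, Finset.sum_range_zero]
    simp
    push_cast at hab
    have hn : (n : ℂ) = a + b - 1 := by linear_combination -hab
    rw [hn]
    ring
  · push_cast at hab
    have hn : (n : ℂ) = a + b - 2 := by linear_combination -hab
    simp only [gam, Finset.sum_range_succ, Finset.sum_range_zero]
    simp [UD_c2]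
    rw [hn]
    ring
  · push_cast at hab
    have hn : (n : ℂ) = a + b - 3 := by linear_combination -hab
    simp only [gam, Finset.sum_range_succ, Finset.sum_range_zero]
    have e5 : (Nat.factorial 3 : ℂ) = 6 := by norm_num [Nat.factorial]
    simp [UD_c2, UD_c3, e5]
    rw [hn]
    ring

theorem tn_id (th B : ℝ) {N : ℕ} (hN : N ≤ 3) (x : ℕ → ℕ → ℂ) (n : ℕ) :
    tN th B N (n + N) (dg x (n + N)) =
      ∑ k ∈ range (N + 1), (gam th B N k : ℂ) * ((n + N - k).descFactorial (N - k) : ℂ) *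
        dc x k (n + N - k) := by
  have h1 : ∀ k ∈ range (N + 1), (gam th B N k : ℂ) * ((n + N - k).descFactorial (N - k) : ℂ) *
        dc x k (n + N - k) = ∑ a ∈ range (n + N + 1), (gam th B N k : ℂ) *
          ((n + N - k).descFactorial (N - k) : ℂ) * (((n + N - a).choose k : ℂ) * x a (n + N - a)) := by
    intro k hk
    rw [Finset.mem_range] at hk
    have e1 : n + N - k + k = n + N := by omega
    rw [dc, e1, Finset.mul_sum]
  rw [Finset.sum_congr rfl h1, Finset.sum_comm, tN]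
  have h2 : ∀ j ∈ range (N + 1), (tau th B N j : ℂ) *
      ∑ a ∈ range (n + N + 1), (a.choose j : ℂ) * ((n + N - a).choose (N - j) : ℂ) * dg x (n + N) a =
      ∑ a ∈ range (n + N + 1), (tau th B N j : ℂ) * ((a.choose j : ℂ) *
        ((n + N - a).choose (N - j) : ℂ)) * dg x (n + N) a := by
    intro j _
    rw [Finset.mul_sum]
    exact Finset.sum_congr rfl fun a _ => by ring
  rw [Finset.sum_congr rfl h2, Finset.sum_comm]
  refine Finset.sum_congr rfl fun a ha => ?_
  rw [Finset.mem_range] at ha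
  rw [← Finset.sum_mul, UD_id th B hN n a (by omega), Finset.sum_mul]
  refine Finset.sum_congr rfl fun k _ => ?_
  rw [dg, if_pos (by omega)]
  ring

/-- the function of the layer `N` -/
noncomputable def Tf (th B : ℝ) (U : ℂ → ℂ → ℂ) (N : ℕ) (s : ℂ) : ℂ :=
  ∑ k ∈ range (N + 1), (gam th B N k : ℂ) * iteratedDeriv (N - k) (ud U k) s

theorem tf_pr (th B : ℝ) {U : ℂ → ℂ → ℂ} {x : ℕ → ℕ → ℂ} {R : ℝ} (hR : 0 < R) (D : DPS U x R) {N : ℕ}
    (hN : N ≤ 3) : PR (Tf th B U N) (fun n => tN th B N (n + N) (dg x (n + N))) R := by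
  intro s hs
  have h1 : ∀ k ∈ range (N + 1), HasSum (fun n : ℕ => (gam th B N k : ℂ) *
      (((n + (N - k)).descFactorial (N - k) : ℂ) * dc x k (n + (N - k)) * s ^ n))
      ((gam th B N k : ℂ) * iteratedDeriv (N - k) (ud U k) s) :=
    fun k _ => (pr_iter (ud_pr hR D k) (N - k) s hs).mul_left _
  refine UD_hs (hasSum_sum h1) fun n => ?_
  beta_reduce
  rw [tn_id th B hN, Finset.sum_mul]
  refine Finset.sum_congr rfl fun k hk => ?_
  rw [Finset.mem_range] at hk
  have e1 : n + (N - k) = n + N - k := by omega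
  rw [e1]
  ring

end Pool.Agent.Helper21.KP
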