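import Pool.Agent.Helper21.KP.AFin
import Pool.Agent.Helper21.KP.QNeg
import Pool.Agent.Helper21.KP.UDiag
import Pool.Agent.Helper21.KP.Berg

/-!
# KP-LU: the layer inequality for `U`

`alg` for `x = dg x m`, summed over `m`, and `qneg`; the sum over `m ≥ N` of
`wN N bw (2N+B-1) (m-N) ‖tN N m (dg x m)‖²` is `wN N II (2N+B-1) ‖Tf N‖²` (`tf_pr`, `berg_sq`).
`Tf 0 = ud U 0 = (U s s)`.
-/

set_option autoImplicit false

namespace Pool.Agent.Helper21.KP

open Complex Metric Set Real Finset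

private theorem LayerU_sup (x : ℕ → ℕ → ℂ) (m : ℕ) : Sup m (dg x m) := by
  intro a ha
  unfold dg
  rw [if_neg (by omega)]

private theorem LayerU_zero (th B : ℝ) (U : ℂ → ℂ → ℂ) (s : ℂ) : Tf th B U 0 s = U s s := by
  simp [Tf, gam, tau, poc, ud]

private theorem LayerU_sum {U : ℂ → ℂ → ℂ} {x : ℕ → ℕ → ℂ} {R : ℝ} (hR : 1 < R) (D : DPS U x R)
    {th B : ℝ} (hB : 0 < B) {N : ℕ} (hN : N ≤ 3) :
    HasSum (fun m : ℕ => if N ≤ m then
      wN th B N * bw (2 * N + B - 1) (m - N) * ‖tN th B N m (dg x m)‖ ^ 2 else 0)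
      (wN th B N * II (2 * N + B - 1) (fun z => ‖Tf th B U N z‖ ^ 2)) := by
  have hs : -1 < 2 * (N : ℝ) + B - 1 := by
    have : (0 : ℝ) ≤ N := Nat.cast_nonneg N
    linarith
  have h1 := (berg_sq hR (tf_pr th B (by linarith : 0 < R) D hN) hs).mul_left (wN th B N)
  have h2 : ∑ i ∈ range N, (if N ≤ i then
      wN th B N * bw (2 * N + B - 1) (i - N) * ‖tN th B N i (dg x i)‖ ^ 2 else 0) = 0 := by
    refine Finset.sum_eq_zero fun i hi => ?_
    rw [if_neg (by have := Finset.mem_range.1 hi; omega)]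
  rw [← hasSum_nat_add_iff' N, h2, sub_zero]
  refine h1.congr_fun ?_
  intro n
  rw [if_pos (by omega), Nat.add_sub_cancel]
  ring

theorem layer_u {U : ℂ → ℂ → ℂ} {x : ℕ → ℕ → ℂ} {R : ℝ} (hR : 1 < R) (D : DPS U x R) {th B : ℝ}
    (h0 : 0 < th) (h1 : th < 1 / 2) (hB : 0 < B)
    (hP : ∀ z ∈ ball (0 : ℂ) 1, circleAverage (fun w => ‖1 - z / w‖ ^ (-2 * th) *
      ((starRingEnd ℂ) (U z w) * (w * deriv (U z) w - th * (w / (w - z)) * U z w)).re) 0 1 ≤ 0) :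
    wN th B 1 * II (B + 1) (fun z => ‖Tf th B U 1 z‖ ^ 2) +
      wN th B 2 * II (B + 3) (fun z => ‖Tf th B U 2 z‖ ^ 2) +
      wN th B 3 * II (B + 5) (fun z => ‖Tf th B U 3 z‖ ^ 2) ≤
      - wN th B 0 * II (B - 1) (fun z => ‖U z z‖ ^ 2) := by
  obtain ⟨hs, hle⟩ := qneg hR D h0 h1 hB hP
  have hH := hasSum_sum (s := range 4) fun N hN =>
    LayerU_sum (th := th) hR D hB (show N ≤ 3 from Nat.le_of_lt_succ (Finset.mem_range.1 hN))
  have h2 := hasSum_le (fun m => alg h0 h1 hB m (LayerU_sup x m)) hH hs.hasSum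
  have h3 := h2.trans hle
  simp only [Finset.sum_range_succ, Finset.sum_range_zero, LayerU_zero] at h3
  have e0 : (2 * ((0 : ℕ) : ℝ) + B - 1) = B - 1 := by push_cast; ring
  have e1 : (2 * ((1 : ℕ) : ℝ) + B - 1) = B + 1 := by push_cast; ring
  have e2 : (2 * ((2 : ℕ) : ℝ) + B - 1) = B + 3 := by push_cast; ring
  have e3 : (2 * ((3 : ℕ) : ℝ) + B - 1) = B + 5 := by push_cast; ring
  rw [e0, e1, e2, e3] at h3
  linarith

end Pool.Agent.Helper21.KP
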