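import Pool.Agent.Helper21.IM.DerivNe

/-!
# KP-OM: a univalent function on the disc omits a value

Otherwise `f` maps the disc onto `ℂ`; `g = Function.invFunOn f (ball 0 1)` is the inverse; `deriv f z ≠ 0`
(`deriv_ne`, IM/DerivNe.lean) and the inverse function theorem (`HasStrictDerivAt.to_localInverse`, uniqueness of the
local inverse by injectivity; or: `f` is open, hence `g` continuous, and `HasDerivAt.of_local_left_inverse`) show
that `g` is entire; it is bounded, so constant (Liouville), a contradiction.
-/

set_option autoImplicit false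

namespace Pool.Agent.Helper21.KP

open Complex Metric Set Real Finset
open Pool.Agent.Helper21.IM

theorem omit_val {f : ℂ → ℂ} (hf : DifferentiableOn ℂ f (ball 0 1)) (hi : InjOn f (ball 0 1)) :
    ∃ w₀ : ℂ, ∀ z ∈ ball (0 : ℂ) 1, f z ≠ w₀ := by
  by_contra hcon
  push Not at hcon
  choose g hg hfg using hcon
  have hgf : ∀ z ∈ ball (0 : ℂ) 1, g (f z) = z := fun z hz => hi (hg _) hz (hfg _)
  have hd : Differentiable ℂ g := by
    intro w
    have h0 : AnalyticAt ℂ f (g w) := hf.analyticAt (isOpen_ball.mem_nhds (hg w))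
    have h1 : HasStrictDerivAt f (deriv f (g w)) (g w) := h0.hasStrictDerivAt
    have h2 : deriv f (g w) ≠ 0 := deriv_ne isOpen_ball hf hi (hg w)
    have h3 : ContinuousAt g w := by
      intro V hV
      have h4 : V ∩ ball (0 : ℂ) 1 ∈ nhds (g w) :=
        Filter.inter_mem hV (isOpen_ball.mem_nhds (hg w))
      have h5 : f '' (V ∩ ball (0 : ℂ) 1) ∈ nhds (f (g w)) := by
        rw [← h1.map_nhds_eq h2]
        exact Filter.image_mem_map h4
      rw [hfg] at h5
      refine Filter.mem_map.2 (Filter.mem_of_superset h5 ?_)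
      rintro _ ⟨z, ⟨hzV, hz⟩, rfl⟩
      change g (f z) ∈ V
      rw [hgf z hz]
      exact hzV
    exact (HasDerivAt.of_local_left_inverse h3 h1.hasDerivAt h2
      (Filter.Eventually.of_forall hfg)).differentiableAt
  have hb : Bornology.IsBounded (range g) := by
    refine (isBounded_ball (x := (0 : ℂ)) (r := 1)).subset ?_
    rintro _ ⟨w, rfl⟩
    exact hg w
  have h6 := hd.apply_eq_apply_of_bounded hb 0 1
  have h7 := congrArg f h6
  rw [hfg, hfg] at h7
  exact zero_ne_one h7

end Pool.Agent.Helper21.KP
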