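import Pool.Agent.Helper21.KP.JHold
import Pool.Agent.Helper21.KP.Omit
import Pool.Agent.Helper21.KP.KLow
import Pool.Agent.Helper21.KP.Beta

/-!
# KP-MA: the main theorem

`km_le`: `w₀` from `omit_val`, `F = f - w₀`, `F' = f'`, `j_hold`; `circleAverage` is
`(2π)⁻¹ ∫ θ in 0..2π, ...` with `circleMap 0 r θ = r exp (θ I)`; take the power `1/lam`.
`km_ge`: `kb_low` in the same way.  `km_pos`: `f' ≠ 0` (`deriv_ne`), the integrand is continuous and positive.
-/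

set_option autoImplicit false

namespace Pool.Agent.Helper21.KP

open Complex Metric Set Real Finset MeasureTheory
open Pool.Agent.Helper21.IM

private theorem Main_avg (g : ℂ → ℂ) (lam r : ℝ) :
    circleAverage (fun z => ‖g z‖ ^ lam) 0 r =
      (2 * π)⁻¹ * ∫ θ in (0 : ℝ)..2 * π, ‖g (r * Complex.exp (θ * I))‖ ^ lam := by
  rw [circleAverage_def, smul_eq_mul]
  congr 2
  ext θ
  rw [circleMap, zero_add]

private theorem Main_pow {lam : ℝ} (hl : 0 < lam) {C r : ℝ} (hC : 0 < C) (h1 : r < 1) :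
    (C * (1 - r) ^ (-(3 * lam - 1))) ^ (1 / lam) =
      C ^ (1 / lam) * (1 - r) ^ (-(3 - 1 / lam)) := by
  have hr : 0 < 1 - r := by linarith
  rw [Real.mul_rpow hC.le (Real.rpow_nonneg hr.le _), ← Real.rpow_mul hr.le]
  congr 2
  field_simp

theorem km_le {lam : ℝ} (hl : 371 / 1000 ≤ lam) {f : ℂ → ℂ} (hf : DifferentiableOn ℂ f (ball 0 1))
    (hi : InjOn f (ball 0 1)) : ∃ B : ℝ, 0 < B ∧ ∀ r : ℝ, 0 < r → r < 1 →
      ((2 * π)⁻¹ * ∫ θ in (0 : ℝ)..2 * π, ‖deriv f (r * Complex.exp (θ * I))‖ ^ lam) ^ (1 / lam) ≤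
        B * (1 - r) ^ (-(3 - 1 / lam)) := by
  have hl0 : 0 < lam := lt_of_lt_of_le (by norm_num) hl
  obtain ⟨w₀, hw⟩ := omit_val hf hi
  have hd : deriv (fun z => f z - w₀) = deriv f := by
    ext z
    exact deriv_sub_const _
  obtain ⟨C, hC, h⟩ := j_hold (F := fun z => f z - w₀) (hf.sub_const w₀)
    (fun z hz w hz' hzw => hi hz hz' (sub_left_injective hzw))
    (fun z hz => sub_ne_zero.2 (hw z hz)) hl
  rw [hd] at h
  refine ⟨C ^ (1 / lam), Real.rpow_pos_of_pos hC _, fun r h0 h1 => ?_⟩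
  rw [← Main_pow hl0 hC h1, ← Main_avg]
  refine Real.rpow_le_rpow ?_ (h r h0.le h1) (by positivity)
  rw [Main_avg]
  refine mul_nonneg (by positivity) ?_
  exact intervalIntegral.integral_nonneg (by positivity) fun θ _ => Real.rpow_nonneg (norm_nonneg _) _

theorem km_ge {lam : ℝ} (hl : 0 < lam) : ∃ c : ℝ, 0 < c ∧ ∀ r : ℝ, 0 < r → r < 1 →
    c * (1 - r) ^ (-(3 - 1 / lam)) ≤
      ((2 * π)⁻¹ * ∫ θ in (0 : ℝ)..2 * π, ‖deriv kb (r * Complex.exp (θ * I))‖ ^ lam) ^ (1 / lam) := by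
  obtain ⟨c, hc, h⟩ := kb_low hl
  refine ⟨c ^ (1 / lam), Real.rpow_pos_of_pos hc _, fun r h0 h1 => ?_⟩
  rw [← Main_pow hl hc h1, ← Main_avg]
  have hr : 0 < 1 - r := by linarith
  exact Real.rpow_le_rpow (by positivity) (h r h0 h1) (by positivity)

theorem km_pos (lam : ℝ) {f : ℂ → ℂ} (hf : DifferentiableOn ℂ f (ball 0 1))
    (hi : InjOn f (ball 0 1)) {r : ℝ} (h0 : 0 < r) (h1 : r < 1) :
      0 < ((2 * π)⁻¹ * ∫ θ in (0 : ℝ)..2 * π, ‖deriv f (r * Complex.exp (θ * I))‖ ^ lam) ^ (1 / lam) := by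
  have hz : ∀ θ : ℝ, (r : ℂ) * Complex.exp (θ * I) ∈ ball (0 : ℂ) 1 := fun θ => by
    rw [mem_ball_zero_iff, norm_mul, Complex.norm_exp_ofReal_mul_I, Complex.norm_real,
      Real.norm_of_nonneg h0.le, mul_one]
    exact h1
  have hp : ∀ θ : ℝ, 0 < ‖deriv f (r * Complex.exp (θ * I))‖ := fun θ =>
    norm_pos_iff.2 (deriv_ne isOpen_ball hf hi (hz θ))
  have hc : Continuous fun θ : ℝ => deriv f (r * Complex.exp (θ * I)) := by
    have h2 : ContinuousOn (deriv f) (ball 0 1) := (hf.deriv isOpen_ball).continuousOn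
    exact h2.comp_continuous (by fun_prop) hz
  have hc2 : Continuous fun θ : ℝ => ‖deriv f (r * Complex.exp (θ * I))‖ ^ lam :=
    hc.norm.rpow_const fun θ => Or.inl (hp θ).ne'
  refine Real.rpow_pos_of_pos (mul_pos (by positivity) ?_) _
  exact intervalIntegral.intervalIntegral_pos_of_pos (hc2.intervalIntegrable _ _)
    (fun θ => Real.rpow_pos_of_pos (hp θ) _) (by positivity)

end Pool.Agent.Helper21.KP
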