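import Mathlib

/-!
# KP-PW: power series on the disc of radius `R`

Standard; the case `R = 1` is `Pool.Agent.Helper21.IM.PS` (file IM/PSBasic.lean), to which one can reduce by
scaling, or prove directly (`DifferentiableOn.hasFPowerSeriesOnBall`, `HasFPowerSeriesOnBall`).
-/

set_option autoImplicit false

namespace Pool.Agent.Helper21.KP

open Complex Metric Set Real Finset

/-- `P z = ∑ a m z^m` for `‖z‖ < R` -/
def PR (P : ℂ → ℂ) (a : ℕ → ℂ) (R : ℝ) : Prop :=
  ∀ z ∈ ball (0 : ℂ) R, HasSum (fun m => a m * z ^ m) (P z)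

private theorem PR_hs {f g : ℕ → ℂ} {s : ℂ} (h : HasSum f s) (e : ∀ m, f m = g m) :
    HasSum g s := by
  rwa [show g = f from (funext e).symm]

private theorem PR_has {P : ℂ → ℂ} {a : ℕ → ℂ} {R : ℝ} (hR : 0 < R) (h : PR P a R) :
    HasFPowerSeriesOnBall P (FormalMultilinearSeries.ofScalars ℂ a) 0 (ENNReal.ofReal R) := by
  refine ⟨?_, ENNReal.ofReal_pos.2 hR, ?_⟩
  · refine ENNReal.le_of_forall_nnreal_lt fun r hr => ?_
    have hr1 : (r : ℝ) < R := Real.lt_toNNReal_iff_coe_lt.1 (ENNReal.coe_lt_coe.1 hr)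
    have hz : (((r : ℝ) : ℂ)) ∈ ball (0 : ℂ) R := by
      rw [mem_ball_zero_iff, Complex.norm_real, Real.norm_eq_abs, abs_of_nonneg (NNReal.coe_nonneg r)]
      exact hr1
    have hs := (h _ hz).summable.tendsto_atTop_zero.norm
    refine FormalMultilinearSeries.le_radius_of_tendsto _ (l := ‖(0 : ℂ)‖) ?_
    refine hs.congr fun m => ?_
    rw [FormalMultilinearSeries.ofScalars_norm, norm_mul, norm_pow, Complex.norm_real,
      Real.norm_eq_abs, abs_of_nonneg (NNReal.coe_nonneg r)]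
  · intro y hy
    have hy' : y ∈ ball (0 : ℂ) R := by
      have := hy
      rw [mem_ball_zero_iff]
      rw [Metric.mem_eball, edist_zero_right] at this
      rwa [← ofReal_norm, ENNReal.ofReal_lt_ofReal_iff hR] at this
    have h1 := h y hy'
    simp only [zero_add]
    refine PR_hs h1 fun m => ?_
    rw [FormalMultilinearSeries.ofScalars_apply_eq, smul_eq_mul]

/-- the Taylor series -/
private theorem PR_taylor {P : ℂ → ℂ} {R : ℝ} (hR : 0 < R) (h : DifferentiableOn ℂ P (ball 0 R)) :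
    PR P (fun m => (m.factorial : ℂ)⁻¹ * iteratedDeriv m P 0) R := by
  lift R to NNReal using hR.le
  intro z hz
  refine PR_hs (Complex.hasSum_taylorSeries_on_ball h hz) fun m => ?_
  simp only [sub_zero, smul_eq_mul]
  ring

private theorem PR_empty {R : ℝ} (hR : ¬ 0 < R) : ball (0 : ℂ) R = ∅ :=
  Metric.ball_eq_empty.2 (not_lt.1 hR)

private theorem PR_summable {P : ℂ → ℂ} {a : ℕ → ℂ} {R : ℝ} (h : PR P a R) {r : ℝ} (h0 : 0 ≤ r)
    (h1 : r < R) : Summable (fun m => ‖a m‖ * r ^ m) := by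
  have hz : ((r : ℂ)) ∈ ball (0 : ℂ) R := by
    rw [mem_ball_zero_iff, Complex.norm_real, Real.norm_eq_abs, abs_of_nonneg h0]
    exact h1
  have := (h _ hz).summable.norm
  refine this.congr fun m => ?_
  rw [norm_mul, norm_pow, Complex.norm_real, Real.norm_eq_abs, abs_of_nonneg h0]

theorem pr_exists {P : ℂ → ℂ} {R : ℝ} (hR : 0 < R) (h : DifferentiableOn ℂ P (ball 0 R)) :
    ∃ a, PR P a R :=
  ⟨_, PR_taylor hR h⟩

theorem pr_diff {P : ℂ → ℂ} {a : ℕ → ℂ} {R : ℝ} (h : PR P a R) : DifferentiableOn ℂ P (ball 0 R) := by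
  by_cases hR : 0 < R
  · have := (PR_has hR h).differentiableOn
    refine this.mono fun z hz => ?_
    rw [mem_ball_zero_iff] at hz
    rw [Metric.mem_eball, edist_zero_right, ← ofReal_norm]
    exact (ENNReal.ofReal_lt_ofReal_iff hR).2 hz
  · rw [PR_empty hR]
    exact differentiableOn_empty

theorem pr_bound {P : ℂ → ℂ} {a : ℕ → ℂ} {R : ℝ} (h : PR P a R) {r : ℝ} (h0 : 0 < r) (hr : r < R) :
    ∃ C : ℝ, ∀ n, ‖a n‖ ≤ C / r ^ n := by
  have hs := PR_summable h h0.le hr
  refine ⟨∑' m, ‖a m‖ * r ^ m, fun n => ?_⟩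
  rw [le_div_iff₀ (pow_pos h0 n)]
  exact hs.le_tsum n fun m _ => mul_nonneg (norm_nonneg _) (pow_nonneg h0.le m)

theorem pr_unique {P : ℂ → ℂ} {a b : ℕ → ℂ} {R : ℝ} (hR : 0 < R) (h : PR P a R) (h' : PR P b R) :
    a = b := by
  have := (PR_has hR h).hasFPowerSeriesAt.eq_formalMultilinearSeries
    (PR_has hR h').hasFPowerSeriesAt
  exact FormalMultilinearSeries.ofScalars_series_injective ℂ ℂ this

theorem pr_deriv {P : ℂ → ℂ} {a : ℕ → ℂ} {R : ℝ} (h : PR P a R) :
    PR (deriv P) (fun m => ((m : ℂ) + 1) * a (m + 1)) R := by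
  by_cases hR : 0 < R
  · have hd := pr_diff h
    have hd' : DifferentiableOn ℂ (deriv P) (ball 0 R) := hd.deriv isOpen_ball
    have ha := pr_unique hR h (PR_taylor hR hd)
    intro z hz
    refine PR_hs (PR_taylor hR hd' z hz) fun m => ?_
    rw [ha]
    simp only
    rw [iteratedDeriv_succ', Nat.factorial_succ, Nat.cast_mul, Nat.cast_succ, mul_inv, ← mul_assoc,
      ← mul_assoc, mul_inv_cancel₀ (Nat.cast_add_one_ne_zero m), one_mul]
  · intro z hz
    rw [PR_empty hR] at hz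
    exact absurd hz (Set.notMem_empty z)

theorem pr_iter {P : ℂ → ℂ} {a : ℕ → ℂ} {R : ℝ} (h : PR P a R) (k : ℕ) :
    PR (iteratedDeriv k P) (fun m => ((m + k).descFactorial k : ℂ) * a (m + k)) R := by
  induction k with
  | zero =>
    intro z hz
    rw [iteratedDeriv_zero]
    refine PR_hs (h z hz) fun m => ?_
    simp
  | succ k ih =>
    intro z hz
    rw [iteratedDeriv_succ]
    refine PR_hs (pr_deriv ih z hz) fun m => ?_
    have h1 : m + (k + 1) = m + 1 + k := by ring
    beta_reduce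
    rw [h1, Nat.descFactorial_succ, Nat.add_sub_cancel]
    push_cast
    ring

theorem pr_zmul {P : ℂ → ℂ} {a : ℕ → ℂ} {R : ℝ} (h : PR P a R) :
    PR (fun z => z * P z) (fun m => if m = 0 then 0 else a (m - 1)) R := by
  intro z hz
  have h1 := (h z hz).mul_left z
  refine (hasSum_nat_add_iff' 1).1 ?_
  simp only [Finset.range_one, Finset.sum_singleton, if_true, zero_mul, sub_zero]
  refine PR_hs h1 fun m => ?_
  rw [if_neg (Nat.succ_ne_zero m), Nat.add_sub_cancel, pow_succ]
  ring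

theorem pr_add {P Q : ℂ → ℂ} {a b : ℕ → ℂ} {R : ℝ} (h : PR P a R) (h' : PR Q b R) :
    PR (fun z => P z + Q z) (fun m => a m + b m) R := by
  intro z hz
  have := (h z hz).add (h' z hz)
  simpa only [add_mul] using this

theorem pr_smul {P : ℂ → ℂ} {a : ℕ → ℂ} {R : ℝ} (c : ℂ) (h : PR P a R) :
    PR (fun z => c * P z) (fun m => c * a m) R := by
  intro z hz
  have := (h z hz).mul_left c
  simpa only [mul_assoc] using this

end Pool.Agent.Helper21.KP
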