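import Pool.Agent.Helper21.KP.Psi
import Pool.Agent.Helper21.KP.Bnd

/-!
# KP-PH: the bound for the error term

`t = 6/25`, `B = 1/24`, `η = (2 a + 3 t - 1 - B)/2 > 0`.  For `‖z‖ < 1`, `G z = F (r z)`, `‖hz G z‖ ≤ (1-‖z‖²) ‖G'‖/‖G‖`.
`area_pow`: change of variables (`G` injective, image in `closedBall 0 M`, IM/Area*.lean or Mathlib
`integral_image_eq_integral_abs_det_fderiv_smul`): `∫_{ball 0 1} ‖G'‖² ‖G‖^(η-2) = ∫_{G(ball 0 1)} ‖w‖^(η-2) ≤
2 π M^η/η`; in polar coordinates `∫_{ball 0 1} Φ = 2 π ∫_0^1 ρ circleAverage Φ 0 ρ dρ`.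
`phi_pt` (pointwise, `C` depends on `F`, `a` only): `(1 - ‖z‖²)^(B-1) ‖G'‖^t ‖G‖^a ‖hz G‖² ≤ C ‖G'‖² ‖G‖^(η-2)`:
with `s = 1 - ‖z‖ ≤ 1 - r ‖z‖ =: s'`, `1-‖z‖² ≤ 2 s`: left `≤ C s^(B+1) ‖G'‖^(t+2) ‖G‖^(a-2)`; `cover_h` for `F` at `r z`:
`s' ‖G'‖ ≤ 40 ‖G‖`, so `‖G'‖^t ≤ 40^t ‖G‖^t s'^(-t)`, `s^(B+1) ≤ s'^(B+1)`, and `s'^(B+1-t) ≤ C ‖G‖^(-(B+1-t)/2)` since
`‖G‖ ≤ C s'^(-2)` (`growth2`).  `a + t - 2 - (B+1-t)/2 = η - 2`.
`phi_bound`: `M = C (1 - r)^(-2)` (`growth2`).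
-/

set_option autoImplicit false

namespace Pool.Agent.Helper21.KP

open Complex Metric Set Real Finset MeasureTheory
open Pool.Agent.Helper21.IM

private theorem Phi_rpow {M η : ℝ} (hM : 0 < M) (hη : 0 < η) :
    ∫⁻ v in closedBall (0 : ℂ) M, ENNReal.ofReal (‖v‖ ^ (η - 2)) =
      ENNReal.ofReal (2 * π * (M ^ η / η)) := by
  set f : ℝ → ℝ := (Iic M).indicator fun y => y ^ (η - 2) with hf
  have h1 : ∫⁻ v in closedBall (0 : ℂ) M, ENNReal.ofReal (‖v‖ ^ (η - 2)) =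
      ∫⁻ v : ℂ, ENNReal.ofReal (f ‖v‖) := by
    rw [← lintegral_indicator measurableSet_closedBall]
    refine lintegral_congr fun v => ?_
    by_cases hv : v ∈ closedBall (0 : ℂ) M
    · have hv' : ‖v‖ ∈ Iic M := by
        rw [mem_closedBall, dist_zero_right] at hv
        exact hv
      rw [indicator_of_mem hv, hf, indicator_of_mem hv']
    · have hv' : ‖v‖ ∉ Iic M := by
        intro h
        apply hv
        rw [mem_closedBall, dist_zero_right]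
        exact h
      rw [indicator_of_notMem hv, hf, indicator_of_notMem hv', ENNReal.ofReal_zero]
  have hnn : ∀ v : ℂ, 0 ≤ f ‖v‖ := by
    intro v
    rw [hf]
    by_cases h : ‖v‖ ∈ Iic M
    · rw [indicator_of_mem h]
      exact Real.rpow_nonneg (norm_nonneg v) _
    · rw [indicator_of_notMem h]
  have hdim : Module.finrank ℝ ℂ = 2 := Complex.finrank_real_complex
  have hfun : EqOn (fun y : ℝ => y ^ (2 - 1) • f y)
      ((Iic M).indicator fun y => y ^ (η - 1)) (Ioi 0) := by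
    intro y hy
    have hy0 : (0 : ℝ) < y := hy
    simp only [hf, smul_eq_mul]
    by_cases h : y ∈ Iic M
    · rw [indicator_of_mem h, indicator_of_mem h]
      have : y ^ (2 - 1) = y ^ (1 : ℝ) := by rw [Real.rpow_one]; norm_num
      rw [this, ← Real.rpow_add hy0]
      congr 1
      ring
    · rw [indicator_of_notMem h, indicator_of_notMem h, mul_zero]
  have hinter : Iic M ∩ Ioi 0 = Ioc 0 M := by
    ext y
    simp only [Set.mem_inter_iff, Set.mem_Iic, Set.mem_Ioi, Set.mem_Ioc]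
    exact and_comm
  have hint1 : IntegrableOn (fun y : ℝ => y ^ (η - 1)) (Ioc 0 M) := by
    rw [← intervalIntegrable_iff_integrableOn_Ioc_of_le hM.le]
    exact intervalIntegral.intervalIntegrable_rpow' (by linarith)
  have hint2 : IntegrableOn (fun y : ℝ => y ^ (2 - 1) • f y) (Ioi 0) := by
    rw [integrableOn_congr_fun hfun measurableSet_Ioi]
    rw [IntegrableOn, integrable_indicator_iff measurableSet_Iic, IntegrableOn,
      Measure.restrict_restrict measurableSet_Iic, hinter]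
    exact hint1
  have hint3 : Integrable (fun v : ℂ => f ‖v‖) := by
    rw [integrable_fun_norm_addHaar, hdim]
    exact hint2
  rw [h1, ← ofReal_integral_eq_lintegral_ofReal hint3 (ae_of_all _ hnn),
    integral_fun_norm_addHaar, hdim, setIntegral_congr_fun measurableSet_Ioi hfun,
    integral_indicator measurableSet_Iic, Measure.restrict_restrict measurableSet_Iic, hinter,
    ← intervalIntegral.integral_of_le hM.le, integral_rpow (Or.inl (by linarith))]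
  congr 1
  have hvol : (volume : Measure ℂ).real (ball 0 1) = π := by
    rw [Measure.real, Complex.volume_ball]
    simp
  rw [hvol, sub_add_cancel, Real.zero_rpow hη.ne', sub_zero, smul_eq_mul, nsmul_eq_mul]
  push_cast
  ring

private theorem Phi_le {α : Type} [MeasurableSpace α] (μ : Measure α) (f : α → ℝ) :
    ENNReal.ofReal (∫ x, f x ∂μ) ≤ ∫⁻ x, ENNReal.ofReal (f x) ∂μ := by
  by_cases hf : Integrable f μ
  · rw [integral_eq_lintegral_pos_part_sub_lintegral_neg_part hf]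
    refine (ENNReal.ofReal_le_ofReal (sub_le_self _ ENNReal.toReal_nonneg)).trans ?_
    exact ENNReal.ofReal_toReal_le
  · rw [integral_undef hf]
    simp

/-- integration over the disc in polar coordinates, as an inequality -/
private theorem Phi_radial {h : ℂ → ℝ} (hc : ContinuousOn h (ball 0 1)) :
    ENNReal.ofReal (∫ r in (0 : ℝ)..1, 2 * π * r * circleAverage h 0 r) ≤
      ∫⁻ w in ball (0 : ℂ) 1, ENNReal.ofReal (h w) := by
  classical
  set A : Set ℂ := ball (0 : ℂ) 1 with hAdef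
  have hA : MeasurableSet A := measurableSet_ball
  set G : ℂ → ENNReal := A.indicator fun w => ENNReal.ofReal (h w) with hG
  have hGm : Measurable G := by
    have h1 : Measurable (A.piecewise (fun w => ENNReal.ofReal (h w)) fun _ => (0 : ENNReal)) := by
      refine ContinuousOn.measurable_piecewise ?_ continuousOn_const hA
      exact ENNReal.continuous_ofReal.comp_continuousOn hc
    have h2 : G = A.piecewise (fun w => ENNReal.ofReal (h w)) fun _ => (0 : ENNReal) := by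
      funext w
      by_cases hw : w ∈ A
      · rw [hG, Set.indicator_of_mem hw, Set.piecewise_eq_of_mem _ _ _ hw]
      · rw [hG, Set.indicator_of_notMem hw, Set.piecewise_eq_of_notMem _ _ _ hw]
    rw [h2]
    exact h1
  rw [← lintegral_indicator hA]
  change _ ≤ ∫⁻ w, G w
  rw [← Complex.lintegral_comp_polarCoord_symm]
  have hcont : Continuous fun p : ℝ × ℝ => Complex.polarCoord.symm p := by
    have : (fun p : ℝ × ℝ => Complex.polarCoord.symm p) =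
        fun p : ℝ × ℝ => (p.1 : ℂ) * ((Real.cos p.2 : ℂ) + (Real.sin p.2 : ℂ) * Complex.I) := by
      funext p
      exact Complex.polarCoord_symm_apply p
    rw [this]
    fun_prop
  have hm : Measurable fun p : ℝ × ℝ =>
      ENNReal.ofReal p.1 • G (Complex.polarCoord.symm p) := by
    simp only [smul_eq_mul]
    exact (ENNReal.measurable_ofReal.comp measurable_fst).mul (hGm.comp hcont.measurable)
  rw [polarCoord_target]
  have hprod : (volume : Measure (ℝ × ℝ)) = (volume : Measure ℝ).prod volume := rfl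
  rw [hprod, setLIntegral_prod _ hm.aemeasurable]
  have hsub : Ioo (0 : ℝ) 1 ⊆ Ioi (0 : ℝ) := fun r hr => hr.1
  refine le_trans ?_ (lintegral_mono_set hsub)
  have h1 : (∫ r in (0 : ℝ)..1, 2 * π * r * circleAverage h 0 r) =
      ∫ r in Ioo (0 : ℝ) 1, 2 * π * r * circleAverage h 0 r := by
    rw [intervalIntegral.integral_of_le zero_le_one, integral_Ioc_eq_integral_Ioo]
  rw [h1]
  refine (Phi_le _ _).trans ?_
  refine setLIntegral_mono' measurableSet_Ioo ?_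
  intro r hr
  have hr0 : 0 < r := hr.1
  simp only [smul_eq_mul]
  rw [lintegral_const_mul' _ _ ENNReal.ofReal_ne_top]
  have h2 : ∀ θ : ℝ, G (Complex.polarCoord.symm (r, θ)) =
      ENNReal.ofReal (h (circleMap 0 r θ)) := by
    intro θ
    have h3 : Complex.polarCoord.symm (r, θ) = circleMap 0 r θ := by
      rw [Complex.polarCoord_symm_apply, circleMap, zero_add, Complex.exp_mul_I,
        Complex.ofReal_cos, Complex.ofReal_sin]
    have h4 : circleMap 0 r θ ∈ A := by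
      rw [hAdef, mem_ball_zero_iff, norm_circleMap_zero, abs_of_pos hr0]
      exact hr.2
    rw [h3, hG, Set.indicator_of_mem h4]
  simp only [h2]
  have h5 : 2 * π * r * circleAverage h 0 r = r * ∫ θ in Ioo (-π) π, h (circleMap 0 r θ) := by
    have h6 : circleAverage h 0 r = circleAverage h 0 r := rfl
    nth_rewrite 2 [circleAverage_eq_integral_add (-π)] at h6
    rw [intervalIntegral.integral_comp_add_right (fun θ => h (circleMap 0 r θ))] at h6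
    have e1 : (0 : ℝ) + -π = -π := by ring
    have e2 : 2 * π + -π = π := by ring
    rw [e1, e2, intervalIntegral.integral_of_le (by linarith [Real.pi_pos]),
      integral_Ioc_eq_integral_Ioo, smul_eq_mul] at h6
    have hpi : 2 * π ≠ 0 := by positivity
    rw [h6]
    field_simp
  rw [h5, ENNReal.ofReal_mul hr0.le]
  gcongr
  exact Phi_le _ _

theorem area_pow {G : ℂ → ℂ} {R : ℝ} (hR : 1 < R) (hG : DifferentiableOn ℂ G (ball 0 R))
    (hi : InjOn G (ball 0 R)) (hne : ∀ z ∈ ball (0 : ℂ) R, G z ≠ 0) {M η : ℝ} (hη : 0 < η)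
    (hM : ∀ z ∈ ball (0 : ℂ) 1, ‖G z‖ ≤ M) :
    ∫ ρ in (0 : ℝ)..1, 2 * ρ * circleAverage (fun z => ‖deriv G z‖ ^ 2 * ‖G z‖ ^ (η - 2)) 0 ρ ≤
      2 * M ^ η / η := by
  have hsub : ball (0 : ℂ) 1 ⊆ ball 0 R := ball_subset_ball hR.le
  have h00 : (0 : ℂ) ∈ ball (0 : ℂ) 1 := by simp
  have hM0 : 0 < M := lt_of_lt_of_le (norm_pos_iff.2 (hne 0 (hsub h00))) (hM 0 h00)
  have hc : ContinuousOn (fun z => ‖deriv G z‖ ^ 2 * ‖G z‖ ^ (η - 2)) (ball (0 : ℂ) 1) := by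
    refine ContinuousOn.mul ?_ ?_
    · exact (((hG.deriv isOpen_ball).continuousOn.mono hsub).norm).pow 2
    · exact ((hG.continuousOn.mono hsub).norm).rpow_const fun z hz =>
        Or.inl (norm_ne_zero_iff.2 (hne z (hsub hz)))
  have h1 := Phi_radial hc
  have h2 : ∫⁻ w in ball (0 : ℂ) 1, ENNReal.ofReal (‖deriv G w‖ ^ 2 * ‖G w‖ ^ (η - 2)) =
      ∫⁻ v in G '' ball (0 : ℂ) 1, ENNReal.ofReal (‖v‖ ^ (η - 2)) := by
    rw [← area_change isOpen_ball hG hi measurableSet_ball hsub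
      (fun v => ENNReal.ofReal (‖v‖ ^ (η - 2)))]
    refine lintegral_congr fun w => ?_
    rw [ENNReal.ofReal_mul (sq_nonneg _)]
  have h3 : G '' ball (0 : ℂ) 1 ⊆ closedBall 0 M := by
    rintro _ ⟨z, hz, rfl⟩
    rw [mem_closedBall, dist_zero_right]
    exact hM z hz
  rw [h2] at h1
  have h4 := h1.trans ((lintegral_mono_set h3).trans (le_of_eq (Phi_rpow hM0 hη)))
  rw [ENNReal.ofReal_le_ofReal_iff (by positivity)] at h4
  have h5 : (∫ r in (0 : ℝ)..1, 2 * π * r *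
      circleAverage (fun z => ‖deriv G z‖ ^ 2 * ‖G z‖ ^ (η - 2)) 0 r) =
      π * ∫ ρ in (0 : ℝ)..1, 2 * ρ *
        circleAverage (fun z => ‖deriv G z‖ ^ 2 * ‖G z‖ ^ (η - 2)) 0 ρ := by
    rw [← intervalIntegral.integral_const_mul]
    congr 1
    funext r
    ring
  rw [h5] at h4
  have h6 : 2 * π * (M ^ η / η) = π * (2 * M ^ η / η) := by ring
  rw [h6] at h4
  exact le_of_mul_le_mul_left h4 Real.pi_pos

private theorem Phi_alg {A D s q r K : ℝ} (hA : 0 < A) (hD : 0 ≤ D) (hs : 0 < s) (hq0 : 0 < q)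
    (hq : q ≤ 2 * s) (hr0 : 0 < r) (hr1 : r ≤ 1) (h1 : s * D ≤ 40 * A) (hK : 0 < K)
    (h2 : A * s ^ 2 ≤ K) :
    q ^ ((25 : ℝ) / 24) * (r * D) ^ ((6 : ℝ) / 25) ≤
      2 ^ ((25 : ℝ) / 24) * 40 ^ ((6 : ℝ) / 25) * K ^ ((481 : ℝ) / 1200) *
        A ^ (-((193 : ℝ) / 1200)) := by
  have e1 : q ^ ((25 : ℝ) / 24) ≤ 2 ^ ((25 : ℝ) / 24) * s ^ ((25 : ℝ) / 24) := by
    rw [← Real.mul_rpow (by norm_num) hs.le]
    exact Real.rpow_le_rpow hq0.le hq (by norm_num)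
  have e2 : (r * D) ^ ((6 : ℝ) / 25) ≤
      40 ^ ((6 : ℝ) / 25) * A ^ ((6 : ℝ) / 25) * s ^ (-((6 : ℝ) / 25)) := by
    have h3 : r * D ≤ 40 * A / s := by
      rw [le_div_iff₀ hs]
      calc r * D * s = r * (s * D) := by ring
        _ ≤ 1 * (40 * A) := mul_le_mul hr1 h1 (by positivity) zero_le_one
        _ = 40 * A := one_mul _
    calc (r * D) ^ ((6 : ℝ) / 25) ≤ (40 * A / s) ^ ((6 : ℝ) / 25) :=
          Real.rpow_le_rpow (by positivity) h3 (by norm_num)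
      _ = 40 ^ ((6 : ℝ) / 25) * A ^ ((6 : ℝ) / 25) * s ^ (-((6 : ℝ) / 25)) := by
          rw [Real.div_rpow (by positivity) hs.le, Real.mul_rpow (by norm_num) hA.le,
            Real.rpow_neg hs.le, div_eq_mul_inv]
  have e3 : s ^ ((25 : ℝ) / 24) * s ^ (-((6 : ℝ) / 25)) ≤
      K ^ ((481 : ℝ) / 1200) * A ^ (-((481 : ℝ) / 1200)) := by
    have h4 : s ^ ((25 : ℝ) / 24) * s ^ (-((6 : ℝ) / 25)) = (s ^ 2) ^ ((481 : ℝ) / 1200) := by
      rw [← Real.rpow_add hs, ← Real.rpow_natCast s 2, ← Real.rpow_mul hs.le]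
      congr 1
      norm_num
    have h5 : s ^ 2 ≤ K / A := by
      rw [le_div_iff₀ hA]
      linarith
    rw [h4]
    calc (s ^ 2) ^ ((481 : ℝ) / 1200) ≤ (K / A) ^ ((481 : ℝ) / 1200) :=
          Real.rpow_le_rpow (by positivity) h5 (by norm_num)
      _ = K ^ ((481 : ℝ) / 1200) * A ^ (-((481 : ℝ) / 1200)) := by
          rw [Real.div_rpow hK.le hA.le, Real.rpow_neg hA.le, div_eq_mul_inv]
  have e4 : A ^ ((6 : ℝ) / 25) * A ^ (-((481 : ℝ) / 1200)) = A ^ (-((193 : ℝ) / 1200)) := by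
    rw [← Real.rpow_add hA]
    congr 1
    norm_num
  calc q ^ ((25 : ℝ) / 24) * (r * D) ^ ((6 : ℝ) / 25)
      ≤ (2 ^ ((25 : ℝ) / 24) * s ^ ((25 : ℝ) / 24)) *
          (40 ^ ((6 : ℝ) / 25) * A ^ ((6 : ℝ) / 25) * s ^ (-((6 : ℝ) / 25))) :=
        mul_le_mul e1 e2 (Real.rpow_nonneg (by positivity) _) (by positivity)
    _ = (2 ^ ((25 : ℝ) / 24) * 40 ^ ((6 : ℝ) / 25) * A ^ ((6 : ℝ) / 25)) *
          (s ^ ((25 : ℝ) / 24) * s ^ (-((6 : ℝ) / 25))) := by ring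
    _ ≤ (2 ^ ((25 : ℝ) / 24) * 40 ^ ((6 : ℝ) / 25) * A ^ ((6 : ℝ) / 25)) *
          (K ^ ((481 : ℝ) / 1200) * A ^ (-((481 : ℝ) / 1200))) :=
        mul_le_mul_of_nonneg_left e3 (by positivity)
    _ = 2 ^ ((25 : ℝ) / 24) * 40 ^ ((6 : ℝ) / 25) * K ^ ((481 : ℝ) / 1200) *
          (A ^ ((6 : ℝ) / 25) * A ^ (-((481 : ℝ) / 1200))) := by ring
    _ = _ := by rw [e4]

private theorem Phi_K {F : ℂ → ℂ} (hne : ∀ z ∈ ball (0 : ℂ) 1, F z ≠ 0) :
    0 < ‖F 0‖ + ‖deriv F 0‖ := by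
  have := norm_pos_iff.2 (hne 0 (by simp))
  positivity

private theorem Phi_grow {F : ℂ → ℂ} (hF : DifferentiableOn ℂ F (ball 0 1))
    (hi : InjOn F (ball 0 1)) {w : ℂ} (hw : w ∈ ball (0 : ℂ) 1) :
    ‖F w‖ * (1 - ‖w‖) ^ 2 ≤ ‖F 0‖ + ‖deriv F 0‖ := by
  have h1 := growth2 hF hi hw
  rw [mem_ball, dist_zero_right] at hw
  have hs : 0 < 1 - ‖w‖ := by linarith
  have hs1 : 1 - ‖w‖ ≤ 1 := by linarith [norm_nonneg w]
  have hs2 : (1 - ‖w‖) ^ 2 ≤ 1 := pow_le_one₀ hs.le hs1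
  calc ‖F w‖ * (1 - ‖w‖) ^ 2 ≤ (‖F 0‖ + ‖deriv F 0‖ / (1 - ‖w‖) ^ 2) * (1 - ‖w‖) ^ 2 :=
        mul_le_mul_of_nonneg_right h1 (by positivity)
    _ = ‖F 0‖ * (1 - ‖w‖) ^ 2 + ‖deriv F 0‖ := by
        rw [add_mul, div_mul_cancel₀ _ (by positivity)]
    _ ≤ ‖F 0‖ * 1 + ‖deriv F 0‖ := by
        gcongr
    _ = _ := by rw [mul_one]

theorem phi_pt {F : ℂ → ℂ} (hF : DifferentiableOn ℂ F (ball 0 1)) (hi : InjOn F (ball 0 1))
    (hne : ∀ z ∈ ball (0 : ℂ) 1, F z ≠ 0) {a : ℝ} (ha : 1 / 24 < 2 * a + 18 / 25 - 1) :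
    ∃ C : ℝ, 0 < C ∧ ∀ r : ℝ, 1 / 2 ≤ r → r < 1 → ∀ z ∈ ball (0 : ℂ) 1,
      (1 - ‖z‖ ^ 2) ^ ((1 : ℝ) / 24 - 1) *
          (‖deriv (fun z => F (r * z)) z‖ ^ ((6 : ℝ) / 25) * ‖F (r * z)‖ ^ a * ‖hz (fun z => F (r * z)) z‖ ^ 2) ≤
        C * (‖deriv (fun z => F (r * z)) z‖ ^ 2 * ‖F (r * z)‖ ^ ((2 * a + 18 / 25 - 1 - 1 / 24) / 2 - 2)) := by
  have _ := ha
  have hK := Phi_K hne
  set K : ℝ := ‖F 0‖ + ‖deriv F 0‖ with hKdef
  refine ⟨2 ^ ((25 : ℝ) / 24) * 40 ^ ((6 : ℝ) / 25) * K ^ ((481 : ℝ) / 1200), by positivity,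
    fun r hr hr1 z hzb => ?_⟩
  have hr0 : 0 < r := by linarith
  obtain ⟨-, -, -, hder⟩ := dil hF hi hne hr0 hr1
  have hzn : ‖z‖ < 1 := by
    rw [mem_ball, dist_zero_right] at hzb
    exact hzb
  have hzR : z ∈ ball (0 : ℂ) (1 / r) := by
    rw [mem_ball, dist_zero_right]
    exact hzn.trans ((one_lt_div hr0).2 hr1)
  have hwn : ‖(r : ℂ) * z‖ = r * ‖z‖ := by
    rw [norm_mul, Complex.norm_real, Real.norm_of_nonneg hr0.le]
  have hrz : r * ‖z‖ ≤ ‖z‖ := by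
    have := mul_le_mul_of_nonneg_right hr1.le (norm_nonneg z)
    rwa [one_mul] at this
  have hw : (r : ℂ) * z ∈ ball (0 : ℂ) 1 := by
    rw [mem_ball, dist_zero_right, hwn]
    linarith
  have hA : 0 < ‖F (r * z)‖ := norm_pos_iff.2 (hne _ hw)
  have hs : 0 < 1 - r * ‖z‖ := by linarith
  have hq0 : 0 < 1 - ‖z‖ ^ 2 := by nlinarith [norm_nonneg z]
  have hq : 1 - ‖z‖ ^ 2 ≤ 2 * (1 - r * ‖z‖) := by nlinarith [norm_nonneg z]
  have hcov := cover_h hF hi hne hw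
  rw [hwn] at hcov
  have hgr := Phi_grow hF hi hw
  rw [hwn] at hgr
  have hnd : ‖deriv (fun z => F (r * z)) z‖ = r * ‖deriv F (r * z)‖ := by
    rw [hder z hzR, norm_mul, Complex.norm_real, Real.norm_of_nonneg hr0.le]
  have halg := Phi_alg hA (norm_nonneg (deriv F (r * z))) hs hq0 hq hr0 hr1.le hcov hK hgr
  rw [hnd]
  have hhz : ‖hz (fun z => F (r * z)) z‖ ≤
      (1 - ‖z‖ ^ 2) * (r * ‖deriv F (r * z)‖) / ‖F (r * z)‖ := by
    unfold hz wz
    rw [norm_mul, norm_mul, norm_div, hnd, Complex.norm_real, Real.norm_of_nonneg hq0.le]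
    calc _ = ((1 - ‖z‖ ^ 2) * (r * ‖deriv F (r * z)‖) / ‖F (r * z)‖) * ‖z‖ := by ring
      _ ≤ ((1 - ‖z‖ ^ 2) * (r * ‖deriv F (r * z)‖) / ‖F (r * z)‖) * 1 :=
          mul_le_mul_of_nonneg_left hzn.le (by positivity)
      _ = _ := mul_one _
  set A : ℝ := ‖F (r * z)‖ with hAdef
  set D : ℝ := r * ‖deriv F (r * z)‖ with hDdef
  have hD0 : 0 ≤ D := by positivity
  set q : ℝ := 1 - ‖z‖ ^ 2 with hqdef
  have hsq : ‖hz (fun z => F (r * z)) z‖ ^ 2 ≤ (q * D / A) ^ 2 :=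
    pow_le_pow_left₀ (norm_nonneg _) hhz 2
  have e5 : q ^ ((1 : ℝ) / 24 - 1) * q ^ 2 = q ^ ((25 : ℝ) / 24) := by
    rw [← Real.rpow_natCast q 2, ← Real.rpow_add hq0]
    congr 1
    norm_num
  have e6 : A ^ (-((193 : ℝ) / 1200)) * (A ^ a / A ^ 2) =
      A ^ ((2 * a + 18 / 25 - 1 - 1 / 24) / 2 - 2) := by
    rw [← Real.rpow_natCast A 2, ← Real.rpow_sub hA, ← Real.rpow_add hA]
    congr 1
    push_cast
    ring
  calc q ^ ((1 : ℝ) / 24 - 1) * (D ^ ((6 : ℝ) / 25) * A ^ a * ‖hz (fun z => F (r * z)) z‖ ^ 2)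
      ≤ q ^ ((1 : ℝ) / 24 - 1) * (D ^ ((6 : ℝ) / 25) * A ^ a * (q * D / A) ^ 2) := by
        gcongr
    _ = (q ^ ((1 : ℝ) / 24 - 1) * q ^ 2) * D ^ ((6 : ℝ) / 25) * (A ^ a / A ^ 2) * D ^ 2 := by
        rw [div_pow, mul_pow]
        ring
    _ = q ^ ((25 : ℝ) / 24) * D ^ ((6 : ℝ) / 25) * (A ^ a / A ^ 2) * D ^ 2 := by rw [e5]
    _ ≤ (2 ^ ((25 : ℝ) / 24) * 40 ^ ((6 : ℝ) / 25) * K ^ ((481 : ℝ) / 1200) *
          A ^ (-((193 : ℝ) / 1200))) * (A ^ a / A ^ 2) * D ^ 2 := by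
        gcongr
    _ = 2 ^ ((25 : ℝ) / 24) * 40 ^ ((6 : ℝ) / 25) * K ^ ((481 : ℝ) / 1200) *
          (D ^ 2 * (A ^ (-((193 : ℝ) / 1200)) * (A ^ a / A ^ 2))) := by ring
    _ = _ := by rw [e6]

theorem phi_bound {F : ℂ → ℂ} (hF : DifferentiableOn ℂ F (ball 0 1)) (hi : InjOn F (ball 0 1))
    (hne : ∀ z ∈ ball (0 : ℂ) 1, F z ≠ 0) {a : ℝ} (ha : 1 / 24 < 2 * a + 18 / 25 - 1) :
    ∃ C : ℝ, 0 < C ∧ ∀ r : ℝ, 1 / 2 ≤ r → r < 1 →
      II (1 / 24 - 1) (fun z => ‖deriv (fun z => F (r * z)) z‖ ^ ((6 : ℝ) / 25) * ‖F (r * z)‖ ^ a *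
          ‖hz (fun z => F (r * z)) z‖ ^ 2) ≤ C * (1 - r) ^ (-(2 * a + 18 / 25 - 1 - 1 / 24)) := by
  have hK := Phi_K hne
  obtain ⟨C, hC0, hC⟩ := phi_pt hF hi hne ha
  set K : ℝ := ‖F 0‖ + ‖deriv F 0‖ with hKdef
  obtain ⟨η, hη⟩ : ∃ η : ℝ, η = (2 * a + 18 / 25 - 1 - 1 / 24) / 2 := ⟨_, rfl⟩
  have hη0 : 0 < η := by rw [hη]; linarith
  refine ⟨C * (2 * K ^ η / η), by positivity, fun r hr hr1 => ?_⟩
  have hr0 : 0 < r := by linarith
  obtain ⟨hdG, hiG, hneG, -⟩ := dil hF hi hne hr0 hr1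
  have hR : 1 < 1 / r := (one_lt_div hr0).2 hr1
  have hcb : closedBall (0 : ℂ) 1 ⊆ ball 0 (1 / r) := closedBall_subset_ball hR
  obtain ⟨G, hG⟩ : ∃ G : ℂ → ℂ, G = fun z => F (r * z) := ⟨_, rfl⟩
  have hGz : ∀ z, F (r * z) = G z := fun z => by rw [hG]
  have hCr := hC r hr hr1
  rw [← hG] at hdG hiG hCr ⊢
  simp only [hGz] at hneG hCr ⊢
  have hcG : ContinuousOn G (closedBall 0 1) := hdG.continuousOn.mono hcb
  have hcD : ContinuousOn (deriv G) (closedBall 0 1) :=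
    ((hdG.deriv isOpen_ball).continuousOn).mono hcb
  have hneG' : ∀ z ∈ closedBall (0 : ℂ) 1, G z ≠ 0 := fun z hz' => hneG z (hcb hz')
  have hch : ContinuousOn (hz G) (closedBall 0 1) := by
    unfold hz wz
    refine ContinuousOn.mul (Continuous.continuousOn ?_) (hcD.div hcG hneG')
    fun_prop
  have hcΦ : ContinuousOn (fun z => ‖deriv G z‖ ^ ((6 : ℝ) / 25) * ‖G z‖ ^ a * ‖hz G z‖ ^ 2)
      (closedBall 0 1) := by
    refine ContinuousOn.mul (ContinuousOn.mul ?_ ?_) (hch.norm.pow 2)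
    · exact hcD.norm.rpow_const fun z _ => Or.inr (by norm_num)
    · exact hcG.norm.rpow_const fun z hz' => Or.inl (norm_ne_zero_iff.2 (hneG' z hz'))
  have hcH : ContinuousOn (fun z => ‖deriv G z‖ ^ 2 * ‖G z‖ ^ (η - 2)) (closedBall 0 1) := by
    refine ContinuousOn.mul (hcD.norm.pow 2) ?_
    exact hcG.norm.rpow_const fun z hz' => Or.inl (norm_ne_zero_iff.2 (hneG' z hz'))
  have hMb : ∀ z ∈ ball (0 : ℂ) 1, ‖G z‖ ≤ K / (1 - r) ^ 2 := by
    intro z hzb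
    rw [mem_ball, dist_zero_right] at hzb
    have hwn : ‖(r : ℂ) * z‖ = r * ‖z‖ := by
      rw [norm_mul, Complex.norm_real, Real.norm_of_nonneg hr0.le]
    have hrz : r * ‖z‖ ≤ r := by
      have := mul_le_mul_of_nonneg_left hzb.le hr0.le
      rwa [mul_one] at this
    have hw : (r : ℂ) * z ∈ ball (0 : ℂ) 1 := by
      rw [mem_ball, dist_zero_right, hwn]
      linarith
    have hgr := Phi_grow hF hi hw
    rw [hwn, hGz] at hgr
    rw [le_div_iff₀ (by have : 0 < 1 - r := by linarith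
                        positivity)]
    refine le_trans ?_ hgr
    refine mul_le_mul_of_nonneg_left ?_ (norm_nonneg _)
    exact pow_le_pow_left₀ (by linarith) (by linarith) 2
  have harea := area_pow hR hdG hiG hneG hη0 hMb
  have hintΦ := ii_intble (s := 1 / 24 - 1) (by norm_num) hcΦ
  have hintH : IntervalIntegrable (fun ρ : ℝ => C * (2 * ρ *
      circleAverage (fun z => ‖deriv G z‖ ^ 2 * ‖G z‖ ^ (η - 2)) 0 ρ)) volume 0 1 := by
    have := ii_intble (s := 0) (by norm_num) hcH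
    simp only [Real.rpow_zero, mul_one] at this
    exact this.const_mul C
  unfold II
  have hmono := intervalIntegral.integral_mono_on_of_le_Ioo zero_le_one hintΦ hintH
    (fun ρ hρ => by
      have hρ0 : 0 < ρ := hρ.1
      have hρ1 : ρ < 1 := hρ.2
      have hsub : sphere (0 : ℂ) |ρ| ⊆ closedBall 0 1 := by
        intro z hz'
        rw [mem_sphere_zero_iff_norm, abs_of_pos hρ0] at hz'
        rw [mem_closedBall, dist_zero_right, hz']
        exact hρ1.le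
      have hsub' : sphere (0 : ℂ) ρ ⊆ closedBall 0 1 := by
        rwa [abs_of_pos hρ0] at hsub
      have h1 : (1 - ρ ^ 2) ^ ((1 : ℝ) / 24 - 1) *
          circleAverage (fun z => ‖deriv G z‖ ^ ((6 : ℝ) / 25) * ‖G z‖ ^ a * ‖hz G z‖ ^ 2) 0 ρ ≤
          C * circleAverage (fun z => ‖deriv G z‖ ^ 2 * ‖G z‖ ^ (η - 2)) 0 ρ := by
        rw [← smul_eq_mul, ← smul_eq_mul, ← circleAverage_fun_smul, ← circleAverage_fun_smul]
        refine circleAverage_mono ?_ ?_ ?_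
        · exact ContinuousOn.circleIntegrable hρ0.le
            (ContinuousOn.const_smul (hcΦ.mono hsub') ((1 - ρ ^ 2) ^ ((1 : ℝ) / 24 - 1)))
        · exact ContinuousOn.circleIntegrable hρ0.le
            (ContinuousOn.const_smul (hcH.mono hsub') C)
        · intro z hz'
          rw [mem_sphere_zero_iff_norm, abs_of_pos hρ0] at hz'
          have h2 := hCr z (by rw [mem_ball, dist_zero_right, hz']; exact hρ1)
          rw [hz', ← hη] at h2
          simp only [smul_eq_mul]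
          exact h2
      calc _ = 2 * ρ * ((1 - ρ ^ 2) ^ ((1 : ℝ) / 24 - 1) *
          circleAverage (fun z => ‖deriv G z‖ ^ ((6 : ℝ) / 25) * ‖G z‖ ^ a *
            ‖hz G z‖ ^ 2) 0 ρ) := by ring
        _ ≤ 2 * ρ * (C * circleAverage (fun z => ‖deriv G z‖ ^ 2 * ‖G z‖ ^ (η - 2)) 0 ρ) :=
            mul_le_mul_of_nonneg_left h1 (by positivity)
        _ = _ := by ring)
  refine hmono.trans ?_
  rw [intervalIntegral.integral_const_mul]
  have h1r : 0 < 1 - r := by linarith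
  have hpow : (K / (1 - r) ^ 2) ^ η = K ^ η * (1 - r) ^ (-(2 * a + 18 / 25 - 1 - 1 / 24)) := by
    rw [Real.div_rpow hK.le (by positivity), div_eq_mul_inv, ← Real.rpow_natCast (1 - r) 2,
      ← Real.rpow_mul h1r.le, ← Real.rpow_neg h1r.le]
    congr 2
    rw [hη]
    push_cast
    ring
  calc C * ∫ ρ in (0 : ℝ)..1, 2 * ρ *
        circleAverage (fun z => ‖deriv G z‖ ^ 2 * ‖G z‖ ^ (η - 2)) 0 ρ
      ≤ C * (2 * (K / (1 - r) ^ 2) ^ η / η) := mul_le_mul_of_nonneg_left harea hC0.le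
    _ = C * (2 * K ^ η / η) * (1 - r) ^ (-(2 * a + 18 / 25 - 1 - 1 / 24)) := by
        rw [hpow]
        ring

end Pool.Agent.Helper21.KP
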