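import Pool.Agent.Helper21.KP.Energy
import Pool.Agent.Helper21.KP.Phi

/-!
# KP-PI: the weighted integral of `‖F'‖^t ‖F‖^a`

`psi_exists` for `G z = F (r z)`, `R = 1/r` (`dil`); `energy` and `phi_bound`; the circle average over
`‖z‖ = ρ₀` is at most a constant (all `r`, `‖r z‖ ≤ ρ₀ < 1`, continuity of `F'`, `F`, compactness), and
`1 ≤ (1 - r)^(-(2 a + 18/25 - 1 - 1/24))`.  `ii_congr`: the integrands agree on `ball 0 R`, `R > 1`.
-/

set_option autoImplicit false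

namespace Pool.Agent.Helper21.KP

open Complex Metric Set Real Finset MeasureTheory
open Pool.Agent.Helper21.IM

private lemma PhiIn_congr (s : ℝ) {Φ Ψ : ℂ → ℝ} (h : ∀ z ∈ closedBall (0 : ℂ) 1, Φ z = Ψ z) :
    II s Φ = II s Ψ := by
  rw [II, II]
  refine intervalIntegral.integral_congr fun ρ hρ => ?_
  rw [Set.uIcc_of_le zero_le_one] at hρ
  have h1 : circleAverage Φ 0 ρ = circleAverage Ψ 0 ρ := by
    refine circleAverage_congr_sphere fun z hz => h z ?_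
    rw [abs_of_nonneg hρ.1, mem_sphere_zero_iff_norm] at hz
    rw [mem_closedBall_zero_iff, hz]
    exact hρ.2
  simp only [h1]

/-- the bound on the inner circle -/
private lemma PhiIn_bd {F : ℂ → ℂ} (hF : DifferentiableOn ℂ F (ball 0 1)) (hi : InjOn F (ball 0 1))
    (hne : ∀ z ∈ ball (0 : ℂ) 1, F z ≠ 0) (t a : ℝ) {ρ₀ : ℝ} (h1 : ρ₀ < 1) :
    ∃ K : ℝ, 0 ≤ K ∧ ∀ z ∈ closedBall (0 : ℂ) ρ₀, ‖deriv F z‖ ^ t * ‖F z‖ ^ a ≤ K := by
  have hsub : closedBall (0 : ℂ) ρ₀ ⊆ ball 0 1 := closedBall_subset_ball h1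
  have hc1 : ContinuousOn (fun z => ‖deriv F z‖ ^ t) (closedBall 0 ρ₀) := by
    refine ContinuousOn.rpow_const ((hF.deriv isOpen_ball).continuousOn.mono hsub).norm ?_
    intro z hz
    exact Or.inl (norm_ne_zero_iff.2 (deriv_ne isOpen_ball hF hi (hsub hz)))
  have hc2 : ContinuousOn (fun z => ‖F z‖ ^ a) (closedBall 0 ρ₀) := by
    refine ContinuousOn.rpow_const (hF.continuousOn.mono hsub).norm ?_
    intro z hz
    exact Or.inl (norm_ne_zero_iff.2 (hne z (hsub hz)))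
  obtain ⟨K, hK⟩ := (isCompact_closedBall (0 : ℂ) ρ₀).exists_bound_of_continuousOn (hc1.mul hc2)
  refine ⟨max K 0, le_max_right _ _, fun z hz => ?_⟩
  have := hK z hz
  rw [Real.norm_eq_abs] at this
  exact (le_abs_self _).trans (this.trans (le_max_left _ _))

theorem phi_in {F : ℂ → ℂ} (hF : DifferentiableOn ℂ F (ball 0 1)) (hi : InjOn F (ball 0 1))
    (hne : ∀ z ∈ ball (0 : ℂ) 1, F z ≠ 0) {a : ℝ} (ha : 1 / 24 < 2 * a + 18 / 25 - 1) :
    ∃ C : ℝ, 0 < C ∧ ∀ r : ℝ, 1 / 2 ≤ r → r < 1 →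
      II (1 / 24 - 1) (fun z => ‖deriv (fun z => F (r * z)) z‖ ^ ((6 : ℝ) / 25) * ‖F (r * z)‖ ^ a) ≤
        C * (1 - r) ^ (-(2 * a + 18 / 25 - 1 - 1 / 24)) := by
  obtain ⟨C1, ρ₀, hC1, h0, h1, hen⟩ := energy a
  obtain ⟨C2, hC2, hphi⟩ := phi_bound hF hi hne ha
  obtain ⟨K, hK, hKb⟩ := PhiIn_bd hF hi hne ((6 : ℝ) / 25) a h1
  refine ⟨C1 * C2 + C1 * K + 1, by positivity, fun r hr hr1 => ?_⟩
  have hr0 : 0 < r := by linarith
  have hR : 1 < 1 / r := by rwa [lt_div_iff₀ hr0, one_mul]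
  obtain ⟨d1, d2, d3, d4⟩ := dil hF hi hne hr0 hr1
  obtain ⟨ψ, hψ, hn⟩ := psi_exists hR d1 d2 d3 ((6 : ℝ) / 25) a
  have hcl : closedBall (0 : ℂ) 1 ⊆ ball 0 (1 / r) := closedBall_subset_ball hR
  have hE := hen _ ψ (1 / r) hψ
  have e1 : II (1 / 24 - 1) (fun z => ‖deriv (fun z => F (r * z)) z‖ ^ ((6 : ℝ) / 25) *
      ‖F (r * z)‖ ^ a) = II (1 / 24 - 1) (fun z => ‖ψ z‖ ^ 2) :=
    PhiIn_congr _ fun z hz => (hn z (hcl hz)).symm
  have e2 : II (1 / 24 - 1) (fun z => ‖deriv (fun z => F (r * z)) z‖ ^ ((6 : ℝ) / 25) *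
      ‖F (r * z)‖ ^ a * ‖hz (fun z => F (r * z)) z‖ ^ 2) =
      II (1 / 24 - 1) (fun z => ‖ψ z‖ ^ 2 * ‖hz (fun z => F (r * z)) z‖ ^ 2) :=
    PhiIn_congr _ fun z hz => by rw [hn z (hcl hz)]
  have hp := hphi r hr hr1
  rw [e2] at hp
  have hav : circleAverage (fun z => ‖ψ z‖ ^ 2) 0 ρ₀ ≤ K := by
    apply circleAverage_mono_on_of_le_circle
    · apply ContinuousOn.circleIntegrable h0.le
      refine ContinuousOn.pow (ContinuousOn.norm ?_) 2
      refine hψ.dψ.continuousOn.mono fun z hz => ?_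
      rw [mem_sphere_zero_iff_norm] at hz
      rw [mem_ball_zero_iff, hz]
      linarith
    · intro z hz
      rw [abs_of_pos h0, mem_sphere_zero_iff_norm] at hz
      have hzb : z ∈ ball (0 : ℂ) (1 / r) := by
        rw [mem_ball_zero_iff, hz]
        linarith
      rw [hn z hzb, d4 z hzb, norm_mul, Complex.norm_real, Real.norm_eq_abs, abs_of_pos hr0]
      have hrz : (r : ℂ) * z ∈ closedBall (0 : ℂ) ρ₀ := by
        rw [mem_closedBall_zero_iff, norm_mul, Complex.norm_real, Real.norm_eq_abs, abs_of_pos hr0,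
          hz]
        exact mul_le_of_le_one_left h0.le hr1.le
      refine le_trans ?_ (hKb _ hrz)
      refine mul_le_mul_of_nonneg_right ?_ (by positivity)
      refine Real.rpow_le_rpow (by positivity) ?_ (by norm_num)
      exact mul_le_of_le_one_left (norm_nonneg _) hr1.le
  set P : ℝ := (1 - r) ^ (-(2 * a + 18 / 25 - 1 - 1 / 24)) with hP
  have hP1 : 1 ≤ P := Real.one_le_rpow_of_pos_of_le_one_of_nonpos (by linarith) (by linarith)
    (by linarith)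
  rw [e1]
  have q1 : C1 * II (1 / 24 - 1) (fun z => ‖ψ z‖ ^ 2 * ‖hz (fun z => F (r * z)) z‖ ^ 2) ≤
      C1 * (C2 * P) := mul_le_mul_of_nonneg_left hp hC1
  have q2 : C1 * circleAverage (fun z => ‖ψ z‖ ^ 2) 0 ρ₀ ≤ C1 * K :=
    mul_le_mul_of_nonneg_left hav hC1
  have q3 : C1 * K ≤ C1 * K * P := le_mul_of_one_le_right (by positivity) hP1
  nlinarith [hE, q1, q2, q3, hP1]

end Pool.Agent.Helper21.KP
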