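import Pool.Agent.Helper21.IM.Second
import Pool.Agent.Helper21.IM.Par
import Pool.Agent.Helper21.IM.Area
import Pool.Agent.Helper21.IM.Cover

/-!
# KP-PR: Prawitz's inequality

`g = exp (-th L)`, coefficients `g n` (`g 0 = 1`); the circle average in question is `∑ (n - th) ‖g n‖² s^(2n)`.
Let `A = {ε ≤ ‖ζ‖ < s}`.  `‖G' ζ‖² ‖G ζ‖^(-2-2th) = th⁻² ‖ζ‖^(-2th-2) ‖ζ g' - th g‖²` (`G = ζ exp L`).  By `area_change`
and `cover` (`G` is injective, `ball 0 m(ε) ⊆ G '' ball 0 ε`, `m(ε) = ε (1 - K ε)`)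
`∫_A ‖G'‖² ‖G‖^(-2-2th) ≤ ∫_{‖v‖ ≥ m(ε)} ‖v‖^(-2-2th) = π m(ε)^(-2th) / th`.
By Parseval (finitely many coefficients `n ≤ M`) and `radial` the left side times `th²` is at least
`π ∑_{n ≤ M} (n - th) ‖g n‖² (s^(2n-2th) - ε^(2n-2th))`.  As `ε → 0`, `m(ε)^(-2th) - ε^(-2th) → 0` (`2 th < 1`), so
`∑_{n ≤ M} (n - th) ‖g n‖² s^(2n-2th) ≤ 0`.  Let `M → ∞`.  (Compare IM/Second.lean, exponent 5/2.)
-/

set_option autoImplicit false

namespace Pool.Agent.Helper21.KP

open Complex Metric Set Real Finset MeasureTheory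
open Pool.Agent.Helper21.IM

private theorem Pr_upper {th m : ℝ} (hth : 0 < th) (hm : 0 < m) :
    ∫⁻ v in {v : ℂ | m ≤ ‖v‖}, ENNReal.ofReal (‖v‖ ^ (-(2 + 2 * th) : ℝ)) =
      ENNReal.ofReal (π / th * m ^ (-(2 * th) : ℝ)) := by
  set f : ℝ → ℝ := (Ici m).indicator (fun y => y ^ (-(2 + 2 * th) : ℝ)) with hf
  have hS : MeasurableSet {v : ℂ | m ≤ ‖v‖} := measurableSet_le measurable_const measurable_norm
  have hind : ∀ v : ℂ, {v : ℂ | m ≤ ‖v‖}.indicator (fun v => ‖v‖ ^ (-(2 + 2 * th) : ℝ)) v = f ‖v‖ := by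
    intro v
    rw [hf]
    by_cases h : m ≤ ‖v‖
    · rw [Set.indicator_of_mem (show v ∈ {v : ℂ | m ≤ ‖v‖} from h),
        Set.indicator_of_mem (show ‖v‖ ∈ Ici m from h)]
    · rw [Set.indicator_of_notMem (show v ∉ {v : ℂ | m ≤ ‖v‖} from h),
        Set.indicator_of_notMem (show ‖v‖ ∉ Ici m from h)]
  have hdim : Module.finrank ℝ ℂ = 2 := Complex.finrank_real_complex
  have hfy : ∀ y ∈ Ioi (0 : ℝ), y ^ (2 - 1) • f y =
      (Ici m).indicator (fun y => y ^ (-(1 + 2 * th) : ℝ)) y := by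
    intro y hy
    have hy0 : (0 : ℝ) < y := hy
    rw [hf]
    by_cases h : m ≤ y
    · rw [Set.indicator_of_mem (show y ∈ Ici m from h), Set.indicator_of_mem (show y ∈ Ici m from h)]
      rw [smul_eq_mul]
      rw [show (2 - 1 : ℕ) = 1 by norm_num, pow_one]
      nth_rewrite 1 [← Real.rpow_one y]
      rw [← Real.rpow_add hy0]
      congr 1
      ring
    · rw [Set.indicator_of_notMem (show y ∉ Ici m from h),
        Set.indicator_of_notMem (show y ∉ Ici m from h), smul_zero]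
  have hint1 : IntegrableOn (fun y : ℝ => y ^ (-(1 + 2 * th) : ℝ)) (Ici m) :=
    (integrableOn_Ici_iff_integrableOn_Ioi).mpr (integrableOn_Ioi_rpow_of_lt (by linarith) hm)
  have hint2 : IntegrableOn (fun y : ℝ => y ^ (2 - 1) • f y) (Ioi 0) := by
    rw [integrableOn_congr_fun hfy measurableSet_Ioi]
    exact ((integrable_indicator_iff measurableSet_Ici).mpr hint1).integrableOn
  have hint3 : Integrable (fun v : ℂ => f ‖v‖) := by
    rw [integrable_fun_norm_addHaar (μ := volume) (E := ℂ) (f := f), hdim]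
    exact hint2
  have hval : ∫ v : ℂ, f ‖v‖ = π / th * m ^ (-(2 * th) : ℝ) := by
    rw [integral_fun_norm_addHaar (μ := volume) (E := ℂ) f, hdim,
      setIntegral_congr_fun measurableSet_Ioi hfy, setIntegral_indicator measurableSet_Ici]
    have e1 : Ioi (0 : ℝ) ∩ Ici m = Ici m := by
      apply Set.inter_eq_right.mpr
      intro y hy
      exact lt_of_lt_of_le hm hy
    rw [e1, integral_Ici_eq_integral_Ioi, integral_Ioi_rpow_of_lt (by linarith) hm]
    have e2 : (volume : Measure ℂ).real (ball (0 : ℂ) 1) = π := by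
      rw [Measure.real, Complex.volume_ball]
      simp
    have e4 : (-(1 + 2 * th) + 1 : ℝ) = -(2 * th) := by ring
    rw [e2, e4]
    have hth' : th ≠ 0 := hth.ne'
    simp only [nsmul_eq_mul, smul_eq_mul, Nat.cast_ofNat]
    field_simp
  rw [← lintegral_indicator hS]
  have e3 : ∀ v : ℂ, {v : ℂ | m ≤ ‖v‖}.indicator
      (fun v => ENNReal.ofReal (‖v‖ ^ (-(2 + 2 * th) : ℝ))) v = ENNReal.ofReal (f ‖v‖) := by
    intro v
    rw [← hind v]
    by_cases h : m ≤ ‖v‖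
    · rw [Set.indicator_of_mem (show v ∈ {v : ℂ | m ≤ ‖v‖} from h),
        Set.indicator_of_mem (show v ∈ {v : ℂ | m ≤ ‖v‖} from h)]
    · rw [Set.indicator_of_notMem (show v ∉ {v : ℂ | m ≤ ‖v‖} from h),
        Set.indicator_of_notMem (show v ∉ {v : ℂ | m ≤ ‖v‖} from h), ENNReal.ofReal_zero]
  simp only [e3]
  rw [← hval, ofReal_integral_eq_lintegral_ofReal hint3]
  apply Filter.Eventually.of_forall
  intro v
  rw [hf]
  apply Set.indicator_nonneg
  intro y hy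
  exact Real.rpow_nonneg (hm.le.trans hy) _

/-- the circle average of a real part -/
private theorem Pr_re {f : ℂ → ℂ} {s : ℝ} (hs : 0 ≤ s) (hs1 : s < 1)
    (hf : ContinuousOn f (ball 0 1)) :
    circleAverage (fun z => (f z).re) 0 s = (circleAverage f 0 s).re := by
  have hc : Continuous fun t : ℝ => f (circleMap 0 s t) := by
    refine hf.comp_continuous (continuous_circleMap 0 s) fun t => ?_
    rw [mem_ball_zero_iff, norm_circleMap_zero, abs_of_nonneg hs]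
    exact hs1
  have h := Complex.reCLM.intervalIntegral_comp_comm (μ := volume) (hc.intervalIntegrable 0 (2 * π))
  rw [circleAverage_def, circleAverage_def, Complex.real_smul,
    Complex.re_ofReal_mul, smul_eq_mul]
  congr 1

private theorem Pr_small {L : ℂ → ℂ} (hL : DifferentiableOn ℂ L (ball 0 1)) (hL0 : L 0 = 0) :
    ∃ K δ : ℝ, 0 < K ∧ 0 < δ ∧ ∀ w : ℂ, ‖w‖ < δ → ‖w‖ * (1 - K * ‖w‖) ≤ ‖exp (L w) * w‖ := by
  have h0m : (0 : ℂ) ∈ ball (0 : ℂ) 1 := by simp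
  have hE : DifferentiableAt ℂ (fun z => Complex.exp (L z)) 0 :=
    (hL.differentiableAt (isOpen_ball.mem_nhds h0m)).cexp
  obtain ⟨K, hK⟩ := hE.isBigO_sub.bound
  rw [Metric.eventually_nhds_iff] at hK
  obtain ⟨δ, hδ, hK⟩ := hK
  refine ⟨|K| + 1, min δ 1, by positivity, by positivity, ?_⟩
  intro w hw
  have hwd : dist w 0 < δ := by
    rw [dist_zero_right]
    exact lt_of_lt_of_le hw (min_le_left _ _)
  have h1 := hK hwd
  rw [hL0, Complex.exp_zero, sub_zero] at h1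
  rw [norm_mul, mul_comm ‖Complex.exp (L w)‖ ‖w‖]
  apply mul_le_mul_of_nonneg_left _ (norm_nonneg _)
  have h2 : 1 - ‖Complex.exp (L w) - 1‖ ≤ ‖Complex.exp (L w)‖ := by
    have := norm_sub_norm_le (1 : ℂ) (1 - Complex.exp (L w))
    rw [norm_one, norm_sub_rev] at this
    simpa using this
  have h3 : K * ‖w‖ ≤ (|K| + 1) * ‖w‖ := by
    apply mul_le_mul_of_nonneg_right _ (norm_nonneg _)
    linarith [le_abs_self K]
  linarith

private theorem Pr_H {G L : ℂ → ℂ} (hL : DifferentiableOn ℂ L (ball 0 1))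
    (hE : ∀ ζ ∈ ball (0 : ℂ) 1, exp (L ζ) * ζ = G ζ) {th : ℝ}
    {z : ℂ} (hz : z ∈ ball (0 : ℂ) 1) :
    th ^ 2 * (‖deriv G z‖ ^ 2 * ‖G z‖ ^ (-(2 + 2 * th) : ℝ)) = ‖z‖ ^ (-(2 + 2 * th) : ℝ) *
      ‖z * deriv (fun ζ => exp (-(th : ℂ) * L ζ)) z - th * exp (-(th : ℂ) * L z)‖ ^ 2 := by
  have hLd : HasDerivAt L (deriv L z) z :=
    (hL.differentiableAt (isOpen_ball.mem_nhds hz)).hasDerivAt
  have h1 : deriv (fun ζ => exp (-(th : ℂ) * L ζ)) z =
      exp (-(th : ℂ) * L z) * (-(th : ℂ) * deriv L z) := (hLd.const_mul (-(th : ℂ))).cexp.deriv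
  have h2 : deriv G z = exp (L z) * (z * deriv L z + 1) := by
    have h3 : HasDerivAt (fun ζ => exp (L ζ) * ζ) (exp (L z) * deriv L z * z + exp (L z) * 1) z :=
      hLd.cexp.mul (hasDerivAt_id z)
    have h4 : G =ᶠ[nhds z] fun ζ => exp (L ζ) * ζ :=
      Filter.eventuallyEq_of_mem (isOpen_ball.mem_nhds hz) fun w hw => (hE w hw).symm
    rw [h4.deriv_eq, h3.deriv]
    ring
  have h5 : z * deriv (fun ζ => exp (-(th : ℂ) * L ζ)) z - th * exp (-(th : ℂ) * L z) =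
      -(th : ℂ) * (exp (-(th : ℂ) * L z) * (z * deriv L z + 1)) := by
    rw [h1]; ring
  rw [h5, h2, ← hE z hz, norm_mul, norm_mul, norm_mul, norm_mul, norm_neg, Complex.norm_real,
    Complex.norm_exp, Complex.norm_exp, Real.mul_rpow (Real.exp_pos _).le (norm_nonneg _),
    mul_pow, mul_pow, mul_pow, ← Real.exp_mul, ← Real.exp_nat_mul, ← Real.exp_nat_mul,
    Real.norm_eq_abs, sq_abs]
  have e1 : (-(th : ℂ) * L z).re = -th * (L z).re := by
    rw [← Complex.ofReal_neg, Complex.re_ofReal_mul]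
  have e2 : Real.exp (((2 : ℕ) : ℝ) * (L z).re) * Real.exp ((L z).re * -(2 + 2 * th)) =
      Real.exp (((2 : ℕ) : ℝ) * (-(th : ℂ) * L z).re) := by
    rw [e1, ← Real.exp_add]
    congr 1
    push_cast
    ring
  rw [← e2]
  ring

private theorem Pr_avg {H : ℂ → ℂ} {b : ℕ → ℂ} (hH : PS H b) (th : ℝ) (N : ℕ)
    {ρ : ℝ} (hρ : 0 < ρ) (hρ1 : ρ < 1) :
    ρ ^ (-(2 + 2 * th) : ℝ) * ∑ n ∈ Finset.range N, ‖b n‖ ^ 2 * ρ ^ (2 * n) ≤
      circleAverage (fun z => ‖z‖ ^ (-(2 + 2 * th) : ℝ) * ‖H z‖ ^ 2) 0 ρ := by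
  have h1 := sum_le_hasSum (Finset.range N) (fun m _ => by positivity)
    (parseval_sq hH hρ.le hρ1)
  have h2 : circleAverage (fun z => ‖z‖ ^ (-(2 + 2 * th) : ℝ) * ‖H z‖ ^ 2) 0 ρ =
      ρ ^ (-(2 + 2 * th) : ℝ) * circleAverage (fun z => ‖H z‖ ^ 2) 0 ρ := by
    rw [circleAverage_def, circleAverage_def]
    have : ∀ θ : ℝ, ‖circleMap 0 ρ θ‖ ^ (-(2 + 2 * th) : ℝ) * ‖H (circleMap 0 ρ θ)‖ ^ 2 =
        ρ ^ (-(2 + 2 * th) : ℝ) * ‖H (circleMap 0 ρ θ)‖ ^ 2 := by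
      intro θ
      rw [norm_circleMap_zero, abs_of_pos hρ]
    simp only [this]
    rw [intervalIntegral.integral_const_mul, smul_eq_mul, smul_eq_mul]
    ring
  rw [h2]
  exact mul_le_mul_of_nonneg_left h1 (by positivity)

private theorem Pr_int {th : ℝ} (h0 : 0 < th) (h1 : th < 1 / 2) (b : ℕ → ℝ) (N : ℕ) {ε R : ℝ}
    (hε : 0 < ε) (hR : ε < R) :
    ∫ r in ε..R, 2 * π * r * (r ^ (-(2 + 2 * th) : ℝ) *
        ∑ n ∈ Finset.range N, (((n : ℝ) - th) ^ 2 * b n) * r ^ (2 * n)) =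
      π * ∑ n ∈ Finset.range N, ((n : ℝ) - th) * b n *
        (R ^ (2 * n - 2 * th : ℝ) - ε ^ (2 * n - 2 * th : ℝ)) := by
  have hz : (0 : ℝ) ∉ Set.uIcc ε R := by
    rw [Set.uIcc_of_le hR.le]
    intro h
    linarith [h.1]
  have e0 : ∫ r in ε..R, 2 * π * r * (r ^ (-(2 + 2 * th) : ℝ) *
        ∑ n ∈ Finset.range N, (((n : ℝ) - th) ^ 2 * b n) * r ^ (2 * n)) =
      ∫ r in ε..R, ∑ n ∈ Finset.range N,
        (2 * π * (((n : ℝ) - th) ^ 2 * b n)) * r ^ (2 * n - 2 * th - 1 : ℝ) := by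
    apply intervalIntegral.integral_congr
    intro r hr
    rw [Set.uIcc_of_le hR.le] at hr
    have hr0 : 0 < r := by linarith [hr.1]
    show 2 * π * r * (r ^ (-(2 + 2 * th) : ℝ) *
        ∑ n ∈ Finset.range N, (((n : ℝ) - th) ^ 2 * b n) * r ^ (2 * n)) = ∑ n ∈ Finset.range N,
        (2 * π * (((n : ℝ) - th) ^ 2 * b n)) * r ^ (2 * n - 2 * th - 1 : ℝ)
    rw [Finset.mul_sum, Finset.mul_sum]
    refine Finset.sum_congr rfl fun n _ => ?_
    have e1 : r * r ^ (-(2 + 2 * th) : ℝ) * r ^ (2 * n) = r ^ (2 * n - 2 * th - 1 : ℝ) := by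
      nth_rewrite 1 [← Real.rpow_one r]
      rw [← Real.rpow_add hr0, ← Real.rpow_natCast r (2 * n), ← Real.rpow_add hr0]
      congr 1
      push_cast
      ring
    rw [← e1]
    ring
  rw [e0, intervalIntegral.integral_finsetSum, Finset.mul_sum]
  · refine Finset.sum_congr rfl fun n _ => ?_
    have hne : (n : ℝ) - th ≠ 0 := by
      rcases Nat.eq_zero_or_pos n with h | h
      · subst h; push_cast; linarith
      · have : (1 : ℝ) ≤ n := by exact_mod_cast h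
        linarith
    have hne2 : (2 * (n : ℝ) - 2 * th - 1 : ℝ) ≠ -1 := by
      intro h
      apply hne
      linarith
    rw [intervalIntegral.integral_const_mul, integral_rpow (Or.inr ⟨hne2, hz⟩)]
    have e2 : (2 * (n : ℝ) - 2 * th - 1 + 1 : ℝ) = 2 * n - 2 * th := by ring
    rw [e2]
    have hne3 : (2 * (n : ℝ) - 2 * th) ≠ 0 := by
      intro h; apply hne; linarith
    rw [mul_div_assoc', div_eq_iff hne3]
    ring
  · intro n _
    exact (intervalIntegral.intervalIntegrable_rpow (Or.inr hz)).const_mul _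

private theorem Pr_main {G L : ℂ → ℂ} (hG : Sch G) (hL : DifferentiableOn ℂ L (ball 0 1))
    (hE : ∀ ζ ∈ ball (0 : ℂ) 1, exp (L ζ) * ζ = G ζ) {th : ℝ} (h0 : 0 < th) (h1 : th < 1 / 2)
    {a : ℕ → ℂ} (ha : PS (fun ζ => ζ * deriv (fun ζ => exp (-(th : ℂ) * L ζ)) ζ -
      th * exp (-(th : ℂ) * L ζ)) (fun n => ((n : ℂ) - th) * a n)) (N : ℕ)
    {ε R m : ℝ} (hε : 0 < ε) (hεR : ε < R) (hR : R < 1) (hm : 0 < m)
    (hmF : ∀ w ∈ sphere (0 : ℂ) ε, m ≤ ‖G w‖) :
    ∑ n ∈ Finset.range N, ((n : ℝ) - th) * ‖a n‖ ^ 2 *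
        (R ^ (2 * n - 2 * th : ℝ) - ε ^ (2 * n - 2 * th : ℝ)) ≤ th * m ^ (-(2 * th) : ℝ) := by
  have hA : MeasurableSet (ball (0 : ℂ) R \ ball 0 ε) := measurableSet_ball.diff measurableSet_ball
  have hRs : ball (0 : ℂ) R ⊆ ball 0 1 := ball_subset_ball hR.le
  have hAU : ball (0 : ℂ) R \ ball 0 ε ⊆ ball 0 1 := Set.sdiff_subset.trans hRs
  have hnz : ∀ w ∈ ball (0 : ℂ) R \ ball 0 ε, 0 < ‖w‖ := by
    intro w hw
    have : ε ≤ ‖w‖ := by
      have := hw.2
      rw [mem_ball_zero_iff, not_lt] at this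
      exact this
    linarith
  set H : ℂ → ℂ := fun ζ => ζ * deriv (fun ζ => exp (-(th : ℂ) * L ζ)) ζ -
      th * exp (-(th : ℂ) * L ζ) with hH
  have hHd : DifferentiableOn ℂ H (ball 0 1) := ps_diff ha
  have hb : ∀ n : ℕ, ‖((n : ℂ) - th) * a n‖ ^ 2 = ((n : ℝ) - th) ^ 2 * ‖a n‖ ^ 2 := by
    intro n
    rw [norm_mul, mul_pow]
    congr 1
    have : ((n : ℂ) - th) = (((n : ℝ) - th : ℝ) : ℂ) := by push_cast; rfl
    rw [this, Complex.norm_real, Real.norm_eq_abs, sq_abs]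
  have h2 := radial (h := fun z => ‖z‖ ^ (-(2 + 2 * th) : ℝ) * ‖H z‖ ^ 2)
    (φ := fun ρ => ρ ^ (-(2 + 2 * th) : ℝ) *
      ∑ n ∈ Finset.range N, (((n : ℝ) - th) ^ 2 * ‖a n‖ ^ 2) * ρ ^ (2 * n)) hε hεR ?_ ?_ ?_ ?_
  · have h3 : ∫⁻ w in ball (0 : ℂ) R \ ball 0 ε,
        ENNReal.ofReal (‖w‖ ^ (-(2 + 2 * th) : ℝ) * ‖H w‖ ^ 2) =
        ENNReal.ofReal (th ^ 2) * ∫⁻ w in ball (0 : ℂ) R \ ball 0 ε,
          ENNReal.ofReal (‖deriv G w‖ ^ 2) *
          (fun v : ℂ => ENNReal.ofReal (‖v‖ ^ (-(2 + 2 * th) : ℝ))) (G w) := by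
      rw [← lintegral_const_mul' _ _ ENNReal.ofReal_ne_top]
      apply setLIntegral_congr_fun hA
      intro w hw
      show ENNReal.ofReal (‖w‖ ^ (-(2 + 2 * th) : ℝ) * ‖H w‖ ^ 2) =
        ENNReal.ofReal (th ^ 2) * (ENNReal.ofReal (‖deriv G w‖ ^ 2) *
          ENNReal.ofReal (‖G w‖ ^ (-(2 + 2 * th) : ℝ)))
      rw [← ENNReal.ofReal_mul (by positivity), ← ENNReal.ofReal_mul (by positivity),
        Pr_H hL hE (hAU hw)]
    rw [h3, area_change isOpen_ball hG.an hG.inj hA hAU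
      (fun v : ℂ => ENNReal.ofReal (‖v‖ ^ (-(2 + 2 * th) : ℝ)))] at h2
    have h4 : G '' (ball (0 : ℂ) R \ ball 0 ε) ⊆ {v : ℂ | m ≤ ‖v‖} := by
      rintro v ⟨w, hw, rfl⟩
      show m ≤ ‖G w‖
      by_contra hlt
      push Not at hlt
      have h4 : G w ∈ ball (G 0) m := by
        rw [hG.z0, mem_ball_zero_iff]
        exact hlt
      have h5 := cover isOpen_ball hG.an hε
        (show closedBall (0 : ℂ) ε ⊆ ball 0 1 from closedBall_subset_ball (by linarith)) hm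
        (fun w hw => by rw [hG.z0, sub_zero]; exact hmF w hw) h4
      obtain ⟨w', hw', he⟩ := h5
      have h6 : w' ∈ ball (0 : ℂ) 1 := ball_subset_ball (by linarith) hw'
      have h7 := hG.inj h6 (hAU hw) he
      rw [h7] at hw'
      exact hw.2 hw'
    have h5 : ENNReal.ofReal (th ^ 2) * ∫⁻ v in G '' (ball (0 : ℂ) R \ ball 0 ε),
        ENNReal.ofReal (‖v‖ ^ (-(2 + 2 * th) : ℝ)) ≤
        ENNReal.ofReal (th ^ 2 * (π / th * m ^ (-(2 * th) : ℝ))) := by
      rw [ENNReal.ofReal_mul (by positivity : (0 : ℝ) ≤ th ^ 2)]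
      gcongr
      exact (lintegral_mono_set h4).trans (Pr_upper h0 hm).le
    have h6 := (ENNReal.ofReal_le_ofReal_iff (by positivity)).mp (h2.trans h5)
    rw [Pr_int h0 h1 (fun n => ‖a n‖ ^ 2) N hε hεR] at h6
    have h7 : th ^ 2 * (π / th * m ^ (-(2 * th) : ℝ)) = π * (th * m ^ (-(2 * th) : ℝ)) := by
      field_simp
    rw [h7] at h6
    exact le_of_mul_le_mul_left h6 Real.pi_pos
  · apply ContinuousOn.mul
    · apply ContinuousOn.rpow_const continuous_norm.continuousOn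
      intro w hw
      exact Or.inl (hnz w hw).ne'
    · exact ((hHd.continuousOn.mono hAU).norm).pow 2
  · intro w _
    positivity
  · apply ContinuousOn.mul
    · apply ContinuousOn.rpow_const continuousOn_id
      intro r hr
      exact Or.inl (by show r ≠ 0; linarith [hr.1])
    · fun_prop
  · intro r hr
    have h8 := Pr_avg ha th N (ρ := r) (by linarith [hr.1]) (by linarith [hr.2])
    simp only [hb] at h8
    exact h8

theorem prawitz {G L : ℂ → ℂ} (hG : Sch G) (hL : DifferentiableOn ℂ L (ball 0 1)) (hL0 : L 0 = 0)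
    (hE : ∀ ζ ∈ ball (0 : ℂ) 1, exp (L ζ) * ζ = G ζ) {th : ℝ} (h0 : 0 < th) (h1 : th < 1 / 2)
    {s : ℝ} (hs : 0 < s) (hs1 : s < 1) :
    circleAverage (fun ζ => ((starRingEnd ℂ) (exp (-(th : ℂ) * L ζ)) *
      (ζ * deriv (fun ζ => exp (-(th : ℂ) * L ζ)) ζ - th * exp (-(th : ℂ) * L ζ))).re) 0 s ≤ 0 := by
  have hgd : DifferentiableOn ℂ (fun ζ => exp (-(th : ℂ) * L ζ)) (ball 0 1) :=
    (hL.const_mul _).cexp
  obtain ⟨a, ha⟩ := ps_exists hgd
  have ha0 : a 0 = 1 := by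
    have := ps_zero ha
    simp only [hL0, mul_zero, Complex.exp_zero] at this
    exact this.symm
  have hH : PS (fun ζ => ζ * deriv (fun ζ => exp (-(th : ℂ) * L ζ)) ζ -
      th * exp (-(th : ℂ) * L ζ)) (fun n => ((n : ℂ) - th) * a n) := by
    have h2 := ps_sub (ps_zmul (ps_deriv ha)) (ps_smul (th : ℂ) ha)
    have h3 : (fun m => (if m = 0 then 0 else (((m - 1 : ℕ) : ℂ) + 1) * a (m - 1 + 1)) -
        (th : ℂ) * a m) = fun n : ℕ => ((n : ℂ) - th) * a n := by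
      funext m
      rcases m with _ | m
      · simp
      · simp only [Nat.add_eq_zero_iff, one_ne_zero, and_false, if_false, Nat.add_sub_cancel]
        push_cast
        ring
    rw [h3] at h2
    exact h2
  -- the average as a sum
  have hsum : HasSum (fun n : ℕ => ((n : ℝ) - th) * ‖a n‖ ^ 2 * s ^ (2 * n))
      (circleAverage (fun ζ => ((starRingEnd ℂ) (exp (-(th : ℂ) * L ζ)) *
      (ζ * deriv (fun ζ => exp (-(th : ℂ) * L ζ)) ζ - th * exp (-(th : ℂ) * L ζ))).re) 0 s) := by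
    have h2 := Complex.hasSum_re (parseval hH ha hs.le hs1)
    rw [Pr_re hs.le hs1]
    · have e1 : (fun m : ℕ => ((((m : ℂ) - th) * a m) * (starRingEnd ℂ) (a m) *
          (s : ℂ) ^ (2 * m)).re) = fun n : ℕ => ((n : ℝ) - th) * ‖a n‖ ^ 2 * s ^ (2 * n) := by
        funext m
        have : (((m : ℂ) - th) * a m) * (starRingEnd ℂ) (a m) * (s : ℂ) ^ (2 * m) =
            (((((m : ℝ) - th) * ‖a m‖ ^ 2 * s ^ (2 * m)) : ℝ) : ℂ) := by
          rw [mul_assoc ((m : ℂ) - th), Complex.mul_conj, Complex.normSq_eq_norm_sq]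
          push_cast
          ring
        rw [this, Complex.ofReal_re]
      rw [e1] at h2
      have e2 : (fun ζ => (starRingEnd ℂ) (exp (-(th : ℂ) * L ζ)) *
          (ζ * deriv (fun ζ => exp (-(th : ℂ) * L ζ)) ζ - th * exp (-(th : ℂ) * L ζ))) =
          fun z => (z * deriv (fun ζ => exp (-(th : ℂ) * L ζ)) z - th * exp (-(th : ℂ) * L z)) *
            (starRingEnd ℂ) (exp (-(th : ℂ) * L z)) := by
        funext z; ring
      rw [e2]
      exact h2
    · exact (Complex.continuous_conj.comp_continuousOn hgd.continuousOn).mul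
        (ps_diff hH).continuousOn
  -- finite sums
  have hpart : ∀ N : ℕ, 1 ≤ N →
      ∑ n ∈ Finset.range N, ((n : ℝ) - th) * ‖a n‖ ^ 2 * s ^ (2 * n - 2 * th : ℝ) ≤ 0 := by
    intro N hN
    obtain ⟨K, δ, hK, hδ, hKF⟩ := Pr_small hL hL0
    obtain ⟨M, rfl⟩ : ∃ M, N = M + 1 := ⟨N - 1, by omega⟩
    -- the bound
    have hbound : ∀ᶠ ε : ℝ in nhdsWithin 0 (Ioi 0),
        ∑ n ∈ Finset.range (M + 1), ((n : ℝ) - th) * ‖a n‖ ^ 2 * s ^ (2 * n - 2 * th : ℝ) ≤
          2 * th * K * ε ^ (1 - 2 * th : ℝ) + ∑ n ∈ Finset.range M,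
            (((n + 1 : ℕ) : ℝ) - th) * ‖a (n + 1)‖ ^ 2 * ε ^ (2 * ((n + 1 : ℕ) : ℝ) - 2 * th) := by
      have hev : ∀ᶠ ε : ℝ in nhdsWithin 0 (Ioi 0), 0 < ε ∧ ε < min (min s δ) (1 / (2 * K)) := by
        refine Filter.Eventually.and self_mem_nhdsWithin ?_
        exact (nhdsWithin_le_nhds) (Iio_mem_nhds (by positivity))
      filter_upwards [hev] with ε hε
      obtain ⟨hε0, hεm⟩ := hε
      have hεs : ε < s := hεm.trans_le ((min_le_left _ _).trans (min_le_left _ _))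
      have hεδ : ε < δ := hεm.trans_le ((min_le_left _ _).trans (min_le_right _ _))
      have hεK : K * ε < 1 / 2 := by
        have : ε < 1 / (2 * K) := hεm.trans_le (min_le_right _ _)
        rw [lt_div_iff₀ (by positivity)] at this
        linarith
      have hx : 0 < 1 - K * ε := by linarith
      have hm : 0 < ε * (1 - K * ε) := mul_pos hε0 hx
      have key := Pr_main hG hL hE h0 h1 hH (M + 1) hε0 hεs hs1 hm (fun w hw => by
        have hw' : ‖w‖ = ε := by simpa using hw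
        have h5 := hKF w (by rw [hw']; exact hεδ)
        rw [hw'] at h5
        rw [← hE w (by rw [mem_ball_zero_iff, hw']; linarith)]
        exact h5)
      have hb : (ε * (1 - K * ε)) ^ (-(2 * th) : ℝ) ≤ ε ^ (-(2 * th) : ℝ) +
          2 * K * ε ^ (1 - 2 * th : ℝ) := by
        rw [Real.mul_rpow hε0.le hx.le]
        have h6 : (1 - K * ε) ^ (-(2 * th) : ℝ) ≤ 1 + 2 * K * ε := by
          have hKε : 0 < K * ε := by positivity
          calc (1 - K * ε) ^ (-(2 * th) : ℝ) ≤ (1 - K * ε) ^ (-1 : ℝ) :=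
                Real.rpow_le_rpow_of_exponent_ge hx (by linarith) (by linarith)
            _ = 1 / (1 - K * ε) := by rw [Real.rpow_neg_one, one_div]
            _ ≤ 1 + 2 * K * ε := by
                rw [div_le_iff₀ hx]
                nlinarith
        have h7 : ε ^ (-(2 * th) : ℝ) * ε = ε ^ (1 - 2 * th : ℝ) := by
          nth_rewrite 2 [← Real.rpow_one ε]
          rw [← Real.rpow_add hε0]
          congr 1
          ring
        calc ε ^ (-(2 * th) : ℝ) * (1 - K * ε) ^ (-(2 * th) : ℝ)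
            ≤ ε ^ (-(2 * th) : ℝ) * (1 + 2 * K * ε) :=
              mul_le_mul_of_nonneg_left h6 (Real.rpow_nonneg hε0.le _)
          _ = ε ^ (-(2 * th) : ℝ) + 2 * K * (ε ^ (-(2 * th) : ℝ) * ε) := by ring
          _ = _ := by rw [h7]
      have hsplit : ∑ n ∈ Finset.range (M + 1), ((n : ℝ) - th) * ‖a n‖ ^ 2 *
          (s ^ (2 * n - 2 * th : ℝ) - ε ^ (2 * n - 2 * th : ℝ)) =
          ∑ n ∈ Finset.range (M + 1), ((n : ℝ) - th) * ‖a n‖ ^ 2 * s ^ (2 * n - 2 * th : ℝ) -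
          ∑ n ∈ Finset.range (M + 1), ((n : ℝ) - th) * ‖a n‖ ^ 2 * ε ^ (2 * n - 2 * th : ℝ) := by
        rw [← Finset.sum_sub_distrib]
        exact Finset.sum_congr rfl fun n _ => mul_sub _ _ _
      rw [hsplit] at key
      have hfirst : ∑ n ∈ Finset.range (M + 1), ((n : ℝ) - th) * ‖a n‖ ^ 2 *
          ε ^ (2 * n - 2 * th : ℝ) = (∑ n ∈ Finset.range M,
            (((n + 1 : ℕ) : ℝ) - th) * ‖a (n + 1)‖ ^ 2 * ε ^ (2 * ((n + 1 : ℕ) : ℝ) - 2 * th)) +
            -th * ε ^ (-(2 * th) : ℝ) := by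
        rw [Finset.sum_range_succ']
        congr 1
        rw [ha0]
        have : (2 * ((0 : ℕ) : ℝ) - 2 * th) = -(2 * th) := by push_cast; ring
        rw [this]
        simp
      rw [hfirst] at key
      have hb2 := mul_le_mul_of_nonneg_left hb h0.le
      linarith
    have hlim : Filter.Tendsto (fun ε : ℝ => 2 * th * K * ε ^ (1 - 2 * th : ℝ) +
        ∑ n ∈ Finset.range M, (((n + 1 : ℕ) : ℝ) - th) * ‖a (n + 1)‖ ^ 2 *
          ε ^ (2 * ((n + 1 : ℕ) : ℝ) - 2 * th)) (nhdsWithin 0 (Ioi 0)) (nhds 0) := by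
      have hp : ∀ p : ℝ, 0 < p → Filter.Tendsto (fun ε : ℝ => ε ^ p) (nhdsWithin 0 (Ioi 0))
          (nhds 0) := by
        intro p hp
        have := (Real.continuous_rpow_const hp.le).tendsto 0
        rw [Real.zero_rpow hp.ne'] at this
        exact this.mono_left nhdsWithin_le_nhds
      have h5 := ((hp (1 - 2 * th) (by linarith)).const_mul (2 * th * K)).add
        (tendsto_finsetSum (Finset.range M) fun n _ =>
          (hp (2 * ((n + 1 : ℕ) : ℝ) - 2 * th) (by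
            have : (0 : ℝ) ≤ (n : ℝ) := by positivity
            push_cast
            linarith)).const_mul ((((n + 1 : ℕ) : ℝ) - th) * ‖a (n + 1)‖ ^ 2))
      simpa using h5
    exact ge_of_tendsto hlim hbound
  have hfin : ∀ N : ℕ, 1 ≤ N →
      ∑ n ∈ Finset.range N, ((n : ℝ) - th) * ‖a n‖ ^ 2 * s ^ (2 * n) ≤ 0 := by
    intro N hN
    have h5 := hpart N hN
    have h6 : ∑ n ∈ Finset.range N, ((n : ℝ) - th) * ‖a n‖ ^ 2 * s ^ (2 * n) =
        s ^ (2 * th) * ∑ n ∈ Finset.range N, ((n : ℝ) - th) * ‖a n‖ ^ 2 *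
          s ^ (2 * n - 2 * th : ℝ) := by
      rw [Finset.mul_sum]
      refine Finset.sum_congr rfl fun n _ => ?_
      have e1 : s ^ (2 * th) * s ^ (2 * n - 2 * th : ℝ) = s ^ (2 * n) := by
        rw [← Real.rpow_add hs, ← Real.rpow_natCast s (2 * n)]
        congr 1
        push_cast
        ring
      rw [← e1]
      ring
    rw [h6]
    exact mul_nonpos_of_nonneg_of_nonpos (Real.rpow_nonneg hs.le _) h5
  exact le_of_tendsto hsum.tendsto_sum_nat
    (Filter.eventually_atTop.2 ⟨1, fun N hN => hfin N hN⟩)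

end Pool.Agent.Helper21.KP
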