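import Pool.Agent.Helper21.KP.KF
import Pool.Agent.Helper21.IM.DerivNe

/-!
# KP-PS: the branch `ψ`

A holomorphic function without zeros on a disc has a holomorphic logarithm (Mathlib: primitives on discs; IM/LogDisc.lean
or Helper45/Slit); `F` and `F'` (`deriv_ne`, IM/DerivNe.lean, scale to the unit disc) have no zeros;
`ψ = exp (t/2 log F' + a/2 log F)`.
`kf_dil`: `Fr z = F (r z)` on the ball of radius `1/r`.
-/

set_option autoImplicit false

namespace Pool.Agent.Helper21.KP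

open Complex Metric Set Real Finset
open Pool.Agent.Helper21.IM

/-- logarithm on a disc -/
private theorem psi_log {h : ℂ → ℂ} {R : ℝ} (hR : 0 < R) (hd : DifferentiableOn ℂ h (ball 0 R))
    (hn : ∀ z ∈ ball (0 : ℂ) R, h z ≠ 0) :
    ∃ L : ℂ → ℂ, ∀ z ∈ ball (0 : ℂ) R,
      Complex.exp (L z) = h z ∧ HasDerivAt L (deriv h z / h z) z := by
  have hd' : DifferentiableOn ℂ (deriv h) (ball 0 R) := hd.deriv isOpen_ball
  have hq : DifferentiableOn ℂ (fun z => deriv h z / h z) (ball 0 R) := hd'.div hd hn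
  obtain ⟨L, hL0, hL⟩ := (hq.isExactOn_ball).with_val_at 0 (Complex.log (h 0))
  have h0m : (0 : ℂ) ∈ ball (0 : ℂ) R := mem_ball_self hR
  refine ⟨L, fun z hz => ⟨?_, hL z hz⟩⟩
  have key : ∀ w ∈ ball (0 : ℂ) R,
      HasDerivAt (fun u => h u * Complex.exp (-(L u))) 0 w := by
    intro w hw
    have h1 : HasDerivAt h (deriv h w) w :=
      (hd.differentiableAt (isOpen_ball.mem_nhds hw)).hasDerivAt
    have h2 : HasDerivAt (fun u => Complex.exp (-(L u)))
        (Complex.exp (-(L w)) * (-(deriv h w / h w))) w := (hL w hw).neg.cexp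
    have h3 := h1.mul h2
    have h4 : deriv h w * Complex.exp (-(L w)) +
        h w * (Complex.exp (-(L w)) * (-(deriv h w / h w))) = 0 := by
      have := hn w hw
      field_simp
      ring
    rw [h4] at h3
    exact h3
  have hconst : h z * Complex.exp (-(L z)) = h 0 * Complex.exp (-(L 0)) := by
    have hdf : DifferentiableOn ℂ (fun u => h u * Complex.exp (-(L u))) (ball 0 R) :=
      fun w hw => (key w hw).differentiableAt.differentiableWithinAt
    refine (convex_ball (0 : ℂ) R).is_const_of_fderivWithin_eq_zero (𝕜 := ℂ) hdf ?_ hz h0m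
    intro w hw
    rw [fderivWithin_of_isOpen isOpen_ball hw]
    have := (key w hw).hasFDerivAt.fderiv
    rw [this]
    ext
    simp
  have h5 : ∀ u : ℂ, Complex.exp (-u) = (Complex.exp u)⁻¹ := Complex.exp_neg
  rw [hL0, h5, h5, Complex.exp_log (hn 0 h0m), mul_inv_cancel₀ (hn 0 h0m)] at hconst
  have he : Complex.exp (L z) ≠ 0 := Complex.exp_ne_zero _
  field_simp at hconst
  exact hconst.symm

theorem psi_exists {F : ℂ → ℂ} {R : ℝ} (hR : 1 < R) (hF : DifferentiableOn ℂ F (ball 0 R))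
    (hi : InjOn F (ball 0 R)) (hne : ∀ z ∈ ball (0 : ℂ) R, F z ≠ 0) (t a : ℝ) :
    ∃ ψ : ℂ → ℂ, KF F ψ R t a ∧ ∀ z ∈ ball (0 : ℂ) R, ‖ψ z‖ ^ 2 = ‖deriv F z‖ ^ t * ‖F z‖ ^ a := by
  have hR0 : 0 < R := by linarith
  have hne' : ∀ z ∈ ball (0 : ℂ) R, deriv F z ≠ 0 := fun z hz => deriv_ne isOpen_ball hF hi hz
  obtain ⟨L1, hL1⟩ := psi_log hR0 (hF.deriv isOpen_ball) hne'
  obtain ⟨L2, hL2⟩ := psi_log hR0 hF hne
  let ψ : ℂ → ℂ := fun z => Complex.exp ((t : ℂ) / 2 * L1 z + (a : ℂ) / 2 * L2 z)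
  have hψ : ∀ z ∈ ball (0 : ℂ) R, HasDerivAt ψ
      (g0 t a (pre F z) (deriv F z / F z) * ψ z) z := by
    intro z hz
    have h1 := (((hL1 z hz).2.const_mul ((t : ℂ) / 2)).add
      ((hL2 z hz).2.const_mul ((a : ℂ) / 2))).cexp
    have e : g0 t a (pre F z) (deriv F z / F z) * ψ z =
        Complex.exp ((t : ℂ) / 2 * L1 z + (a : ℂ) / 2 * L2 z) *
          ((t : ℂ) / 2 * (deriv (deriv F) z / deriv F z) + (a : ℂ) / 2 * (deriv F z / F z)) := by
      unfold g0 pre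
      rw [mul_comm]
    rw [e]
    exact h1
  refine ⟨ψ, ⟨hR, hF, hi, hne, fun z hz => (hψ z hz).differentiableAt.differentiableWithinAt,
    fun z hz => (hψ z hz).deriv⟩, fun z hz => ?_⟩
  have h1 : ‖deriv F z‖ ^ t = Real.exp (t * (L1 z).re) := by
    rw [← (hL1 z hz).1, Complex.norm_exp, ← Real.exp_mul, mul_comm]
  have h2 : ‖F z‖ ^ a = Real.exp (a * (L2 z).re) := by
    rw [← (hL2 z hz).1, Complex.norm_exp, ← Real.exp_mul, mul_comm]
  have h3 : ((t : ℂ) / 2 * L1 z + (a : ℂ) / 2 * L2 z).re =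
      t / 2 * (L1 z).re + a / 2 * (L2 z).re := by
    have e1 : (t : ℂ) / 2 = ((t / 2 : ℝ) : ℂ) := by push_cast; ring
    have e2 : (a : ℂ) / 2 = ((a / 2 : ℝ) : ℂ) := by push_cast; ring
    rw [e1, e2, Complex.add_re, Complex.re_ofReal_mul, Complex.re_ofReal_mul]
  change ‖Complex.exp ((t : ℂ) / 2 * L1 z + (a : ℂ) / 2 * L2 z)‖ ^ 2 = _
  rw [Complex.norm_exp, h3, h1, h2, ← Real.exp_add, ← Real.exp_nat_mul]
  congr 1
  push_cast
  ring

theorem dil {F : ℂ → ℂ} (hF : DifferentiableOn ℂ F (ball 0 1)) (hi : InjOn F (ball 0 1))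
    (hne : ∀ z ∈ ball (0 : ℂ) 1, F z ≠ 0) {r : ℝ} (h0 : 0 < r) (h1 : r < 1) :
    DifferentiableOn ℂ (fun z => F (r * z)) (ball 0 (1 / r)) ∧ InjOn (fun z => F (r * z)) (ball 0 (1 / r)) ∧
      (∀ z ∈ ball (0 : ℂ) (1 / r), F (r * z) ≠ 0) ∧
      ∀ z ∈ ball (0 : ℂ) (1 / r), deriv (fun z => F (r * z)) z = r * deriv F (r * z) := by
  have hr : (r : ℂ) ≠ 0 := by exact_mod_cast h0.ne'
  have hmem : ∀ z ∈ ball (0 : ℂ) (1 / r), (r : ℂ) * z ∈ ball (0 : ℂ) 1 := by
    intro z hz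
    rw [mem_ball_zero_iff] at hz ⊢
    rw [norm_mul, Complex.norm_real, Real.norm_eq_abs, abs_of_pos h0]
    rw [lt_div_iff₀ h0] at hz
    linarith
  refine ⟨?_, ?_, fun z hz => hne _ (hmem z hz), fun z _ => ?_⟩
  · exact hF.comp (f := fun z : ℂ => (r : ℂ) * z)
      ((differentiable_id.const_mul (r : ℂ)).differentiableOn) hmem
  · intro z hz w hw hzw
    exact mul_left_cancel₀ hr (hi (hmem z hz) (hmem w hw) hzw)
  · rw [deriv_comp_mul_left, smul_eq_mul]

end Pool.Agent.Helper21.KP
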