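import Pool.Agent.Helper21.KP.Bnd

/-!
# KP-RL: the relations

`rel_eq`: `berg_parts` with `A = ψ K`, `C = ψ Q`, `K = z^j k`, `Q = z^l q`, `s = B + j + l`:
`z A' + A = ψ ((z g) K + j K + z^(j+1) k' + K)`, `g = g0 t a (pre F) (F'/F)`, and
`II s (‖ψ‖² (K Q̄)) ` subtracted on both sides (`‖z‖² = 1 - (1 - ‖z‖²)`), `ii_weight` with the exponents
`j + l + 1` and `j + l`: `II (B + j + l) Φ = II (B - 1) ((1-‖z‖²)^(j+l+1) Φ)`, `II (B + j + l - 1) Φ =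
II (B - 1) ((1-‖z‖²)^(j+l) Φ)`.
`rel_mono`: `k = n0^p0 n1^p1`, `q = n0^q0 n1^q1 n2^q2`, `j = p0 + 2 p1`, `l = q0 + 2 q1 + 3 q2`;
`wz^(j+1) k' = Dm p0 p1 (X, Y, Z)`; the terms with `hz` and with `1 - ‖z‖²` are bounded by `bnd`.
`rel_sum`: induction on the list.
-/

set_option autoImplicit false

namespace Pool.Agent.Helper21.KP

open Complex Metric Set Real Finset
open Pool.Agent.Helper21.IM

private theorem Rel_congr {s : ℝ} {Φ Ψ : ℂ → ℝ} (h : ∀ z ∈ closedBall (0 : ℂ) 1, Φ z = Ψ z) :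
    II s Φ = II s Ψ := by
  unfold II
  apply intervalIntegral.integral_congr
  intro ρ hρ
  rw [Set.uIcc_of_le zero_le_one] at hρ
  have h1 : circleAverage Φ 0 ρ = circleAverage Ψ 0 ρ := by
    apply circleAverage_congr_sphere
    intro z hz
    apply h
    rw [mem_sphere_iff_norm, sub_zero, abs_of_nonneg hρ.1] at hz
    rw [mem_closedBall_zero_iff, hz]
    exact hρ.2
  change 2 * ρ * (1 - ρ ^ 2) ^ s * circleAverage Φ 0 ρ = _
  rw [h1]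

private theorem Rel_cont {R : ℝ} (hR : 1 < R) {k : ℂ → ℂ}
    (hk : DifferentiableOn ℂ k (ball 0 R)) :
    ContinuousOn k (closedBall 0 1) ∧ ContinuousOn (deriv k) (closedBall 0 1) := by
  have hsub : closedBall (0 : ℂ) 1 ⊆ ball 0 R := closedBall_subset_ball hR
  exact ⟨hk.continuousOn.mono hsub, ((hk.deriv isOpen_ball).continuousOn).mono hsub⟩

private theorem Rel_wz : Continuous wz := by
  unfold wz
  fun_prop

private theorem Rel_sub {s : ℝ} (hs : -1 < s) {Φ Ψ : ℂ → ℝ}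
    (hΦ : ContinuousOn Φ (closedBall 0 1)) (hΨ : ContinuousOn Ψ (closedBall 0 1)) (c : ℝ) :
    II s (fun z => Φ z - c * Ψ z) = II s Φ - c * II s Ψ := by
  have h1 := ii_add hs hΦ (hΨ.const_mul (-c))
  have h2 := ii_mul s (-c) Ψ
  have h3 : II s (fun z => Φ z - c * Ψ z) = II s (fun z => Φ z + -c * Ψ z) :=
    Rel_congr fun z _ => by ring
  rw [h3, h1, h2]
  ring

/-- the algebraic identities behind `rel_eq` -/
private theorem Rel_id1 (z ψ n0 h k k' q : ℂ) (t a ω : ℝ) (j l : ℕ) :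
    ω ^ (j + l + 1) * (((z * ((g0 t a n0 h * ψ) * (z ^ j * k) +
      ψ * (j * z ^ (j - 1) * k + z ^ j * k')) + ψ * (z ^ j * k)) *
        (starRingEnd ℂ) (ψ * (z ^ l * q))).re) =
    ‖ψ‖ ^ 2 * ((((ω : ℂ) * z) ^ (j + 1) * k' + (t / 2 * (ω * z * n0) + a / 2 * (ω * z * h)) *
      ((ω * z) ^ j * k)) * (starRingEnd ℂ) ((ω * z) ^ l * q)).re +
    ((j : ℝ) + 1) * (‖ψ‖ ^ 2 * (ω * (((ω * z) ^ j * k) * (starRingEnd ℂ) ((ω * z) ^ l * q)).re)) := by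
  have hj : z * ((j : ℂ) * z ^ (j - 1)) = j * z ^ j := by
    cases j with
    | zero => simp
    | succ j => rw [Nat.add_sub_cancel, pow_succ]; ring
  have hψ : ((‖ψ‖ ^ 2 : ℝ) : ℂ) = ψ * (starRingEnd ℂ) ψ := by
    rw [Complex.mul_conj']
    push_cast
    ring
  have key : ((ω ^ (j + l + 1) : ℝ) : ℂ) * ((z * ((g0 t a n0 h * ψ) * (z ^ j * k) +
      ψ * (j * z ^ (j - 1) * k + z ^ j * k')) + ψ * (z ^ j * k)) *
        (starRingEnd ℂ) (ψ * (z ^ l * q))) =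
    ((‖ψ‖ ^ 2 : ℝ) : ℂ) * ((((ω : ℂ) * z) ^ (j + 1) * k' +
      (t / 2 * (ω * z * n0) + a / 2 * (ω * z * h)) *
      ((ω * z) ^ j * k)) * (starRingEnd ℂ) ((ω * z) ^ l * q)) +
    (((j : ℝ) + 1 : ℝ) : ℂ) * (((‖ψ‖ ^ 2 : ℝ) : ℂ) * ((ω : ℂ) *
      (((ω * z) ^ j * k) * (starRingEnd ℂ) ((ω * z) ^ l * q)))) := by
    rw [hψ]
    simp only [map_mul, map_pow, conj_ofReal, g0]
    have e1 : (z * (((t : ℂ) / 2 * n0 + a / 2 * h) * ψ * (z ^ j * k) +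
        ψ * (j * z ^ (j - 1) * k + z ^ j * k')) + ψ * (z ^ j * k)) =
        ψ * (z * (((t : ℂ) / 2 * n0 + a / 2 * h)) * (z ^ j * k) +
          (z * ((j : ℂ) * z ^ (j - 1))) * k + z ^ (j + 1) * k' + z ^ j * k) := by
      ring
    rw [e1, hj]
    push_cast
    ring
  have key2 := congrArg Complex.re key
  rw [add_re, re_ofReal_mul, re_ofReal_mul, re_ofReal_mul, re_ofReal_mul, re_ofReal_mul] at key2
  exact key2

private theorem Rel_id2 (z ψ k q : ℂ) (ω : ℝ) (hω : ‖z‖ ^ 2 = 1 - ω) (j l : ℕ) :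
    ω ^ (j + l) * (‖z‖ ^ 2 * ((ψ * (z ^ j * k)) * (starRingEnd ℂ) (ψ * (z ^ l * q))).re) =
    ‖ψ‖ ^ 2 * ((((ω : ℂ) * z) ^ j * k) * (starRingEnd ℂ) ((ω * z) ^ l * q)).re -
    1 * (‖ψ‖ ^ 2 * (ω * ((((ω : ℂ) * z) ^ j * k) * (starRingEnd ℂ) ((ω * z) ^ l * q)).re)) := by
  have hψ : ((‖ψ‖ ^ 2 : ℝ) : ℂ) = ψ * (starRingEnd ℂ) ψ := by
    rw [Complex.mul_conj']
    push_cast
    ring
  have key : ((ω ^ (j + l) : ℝ) : ℂ) * ((ψ * (z ^ j * k)) * (starRingEnd ℂ) (ψ * (z ^ l * q))) =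
    ((‖ψ‖ ^ 2 : ℝ) : ℂ) * ((((ω : ℂ) * z) ^ j * k) * (starRingEnd ℂ) ((ω * z) ^ l * q)) := by
    rw [hψ]
    simp only [map_mul, map_pow, conj_ofReal]
    push_cast
    ring
  have key2 := congrArg Complex.re key
  rw [re_ofReal_mul, re_ofReal_mul] at key2
  rw [hω]
  linear_combination (1 - ω) * key2

theorem rel_eq {F ψ : ℂ → ℂ} {R t a : ℝ} (H : KF F ψ R t a) {B : ℝ} (hB : 0 < B) {k q : ℂ → ℂ}
    (hk : DifferentiableOn ℂ k (ball 0 R)) (hq : DifferentiableOn ℂ q (ball 0 R)) (j l : ℕ) :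
    II (B - 1) (fun z => ‖ψ z‖ ^ 2 *
      ((wz z ^ (j + 1) * deriv k z + (t / 2 * Xz F z + a / 2 * hz F z) * (wz z ^ j * k z)
        - ((B + j + l : ℝ) : ℂ) * (wz z ^ j * k z)) * (starRingEnd ℂ) (wz z ^ l * q z)).re) =
      -(2 * j + 1 + B + l) * II (B - 1) (fun z => ‖ψ z‖ ^ 2 *
        ((1 - ‖z‖ ^ 2) * ((wz z ^ j * k z) * (starRingEnd ℂ) (wz z ^ l * q z)).re)) := by

  have hsub : closedBall (0 : ℂ) 1 ⊆ ball 0 R := closedBall_subset_ball H.hR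
  obtain ⟨cψ, cX, -, -, ch⟩ := cont_kf H
  obtain ⟨ck, ck'⟩ := Rel_cont H.hR hk
  obtain ⟨cq, -⟩ := Rel_cont H.hR hq
  have cw : ContinuousOn wz (closedBall 0 1) := Rel_wz.continuousOn
  have cnorm : ContinuousOn (fun z : ℂ => (1 - ‖z‖ ^ 2)) (closedBall 0 1) := by fun_prop
  have cψ2 : ContinuousOn (fun z => ‖ψ z‖ ^ 2) (closedBall 0 1) := cψ.norm.pow 2
  have cK : ContinuousOn (fun z => wz z ^ j * k z) (closedBall 0 1) := (cw.pow j).mul ck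
  have cQ : ContinuousOn (fun z => (starRingEnd ℂ) (wz z ^ l * q z)) (closedBall 0 1) :=
    continuous_conj.comp_continuousOn ((cw.pow l).mul cq)
  obtain ⟨U, hU⟩ : ∃ U : ℂ → ℝ, U = fun z => ‖ψ z‖ ^ 2 *
      ((wz z ^ (j + 1) * deriv k z + (t / 2 * Xz F z + a / 2 * hz F z) * (wz z ^ j * k z)) *
        (starRingEnd ℂ) (wz z ^ l * q z)).re := ⟨_, rfl⟩
  obtain ⟨V, hV⟩ : ∃ V : ℂ → ℝ, V = fun z => ‖ψ z‖ ^ 2 *
      ((wz z ^ j * k z) * (starRingEnd ℂ) (wz z ^ l * q z)).re := ⟨_, rfl⟩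
  obtain ⟨W, hW⟩ : ∃ W : ℂ → ℝ, W = fun z => ‖ψ z‖ ^ 2 *
      ((1 - ‖z‖ ^ 2) * ((wz z ^ j * k z) * (starRingEnd ℂ) (wz z ^ l * q z)).re) := ⟨_, rfl⟩
  have cU : ContinuousOn U (closedBall 0 1) := by
    rw [hU]
    refine cψ2.mul (continuous_re.comp_continuousOn (ContinuousOn.mul (ContinuousOn.add
      ((cw.pow (j + 1)).mul ck') (ContinuousOn.mul (ContinuousOn.add ?_ ?_) cK)) cQ))
    · exact continuousOn_const.mul cX
    · exact continuousOn_const.mul ch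
  have cV : ContinuousOn V (closedBall 0 1) := by
    rw [hV]
    exact cψ2.mul (continuous_re.comp_continuousOn (cK.mul cQ))
  have cW : ContinuousOn W (closedBall 0 1) := by
    rw [hW]
    exact cψ2.mul (cnorm.mul (continuous_re.comp_continuousOn (cK.mul cQ)))
  obtain ⟨S, hS⟩ : ∃ S : ℝ, S = B + j + l := ⟨_, rfl⟩
  have hs : 0 < S := by
    rw [hS]
    have h1 : (0 : ℝ) ≤ j := Nat.cast_nonneg j
    have h2 : (0 : ℝ) ≤ l := Nat.cast_nonneg l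
    linarith
  have hB1 : -1 < B - 1 := by linarith
  have dA : DifferentiableOn ℂ (fun z => ψ z * (z ^ j * k z)) (ball 0 R) :=
    H.dψ.mul ((differentiableOn_id.pow j).mul hk)
  have dC : DifferentiableOn ℂ (fun z => ψ z * (z ^ l * q z)) (ball 0 R) :=
    H.dψ.mul ((differentiableOn_id.pow l).mul hq)
  have hder : ∀ z ∈ ball (0 : ℂ) R, deriv (fun z => ψ z * (z ^ j * k z)) z =
      (g0 t a (pre F z) (deriv F z / F z) * ψ z) * (z ^ j * k z) +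
        ψ z * (j * z ^ (j - 1) * k z + z ^ j * deriv k z) := by
    intro z hz
    have hnhds : ball (0 : ℂ) R ∈ nhds z := isOpen_ball.mem_nhds hz
    have h1 : HasDerivAt ψ (g0 t a (pre F z) (deriv F z / F z) * ψ z) z := by
      rw [← H.eq z hz]
      exact (H.dψ.differentiableAt hnhds).hasDerivAt
    have h2 : HasDerivAt k (deriv k z) z := (hk.differentiableAt hnhds).hasDerivAt
    exact (h1.mul ((hasDerivAt_pow j z).mul h2)).deriv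
  have hparts := berg_parts H.hR dA dC hs
  have e1 : II S (fun z => ((z * deriv (fun z => ψ z * (z ^ j * k z)) z + ψ z * (z ^ j * k z)) *
      (starRingEnd ℂ) (ψ z * (z ^ l * q z))).re) = II (B - 1) (fun z => U z + ((j : ℝ) + 1) * W z) := by
    have h1 : S = B - 1 + ((j + l + 1 : ℕ) : ℝ) := by
      rw [hS]
      push_cast
      ring
    rw [h1, ii_weight]
    apply Rel_congr
    intro z hz
    rw [hder z (hsub hz), hU, hW]
    exact Rel_id1 z (ψ z) (pre F z) (deriv F z / F z) (k z) (deriv k z) (q z) t a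
      (1 - ‖z‖ ^ 2) j l
  have e2 : II (S - 1) (fun z => ‖z‖ ^ 2 * ((ψ z * (z ^ j * k z)) *
      (starRingEnd ℂ) (ψ z * (z ^ l * q z))).re) = II (B - 1) (fun z => V z - 1 * W z) := by
    have h1 : S - 1 = B - 1 + ((j + l : ℕ) : ℝ) := by
      rw [hS]
      push_cast
      ring
    rw [h1, ii_weight]
    apply Rel_congr
    intro z hz
    rw [hV, hW]
    exact Rel_id2 z (ψ z) (k z) (q z) (1 - ‖z‖ ^ 2) (by ring) j l
  rw [e1, e2] at hparts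
  rw [ii_add hB1 cU (cW.const_mul _), ii_mul, Rel_sub hB1 cV cW] at hparts
  have e3 : II (B - 1) (fun z => ‖ψ z‖ ^ 2 *
      ((wz z ^ (j + 1) * deriv k z + (t / 2 * Xz F z + a / 2 * hz F z) * (wz z ^ j * k z)
        - ((B + j + l : ℝ) : ℂ) * (wz z ^ j * k z)) * (starRingEnd ℂ) (wz z ^ l * q z)).re) =
      II (B - 1) (fun z => U z - S * V z) := by
    apply Rel_congr
    intro z _
    rw [hU, hV, ← hS]
    have h1 : ((wz z ^ (j + 1) * deriv k z + (t / 2 * Xz F z + a / 2 * hz F z) * (wz z ^ j * k z)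
        - ((S : ℝ) : ℂ) * (wz z ^ j * k z)) * (starRingEnd ℂ) (wz z ^ l * q z)).re =
        ((wz z ^ (j + 1) * deriv k z + (t / 2 * Xz F z + a / 2 * hz F z) * (wz z ^ j * k z)) *
        (starRingEnd ℂ) (wz z ^ l * q z)).re -
        S * ((wz z ^ j * k z) * (starRingEnd ℂ) (wz z ^ l * q z)).re := by
      rw [← re_ofReal_mul, ← sub_re]
      congr 1
      ring
    rw [h1]
    ring
  rw [e3, Rel_sub hB1 cU cV]
  have e4 : II (B - 1) (fun z => ‖ψ z‖ ^ 2 *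
        ((1 - ‖z‖ ^ 2) * ((wz z ^ j * k z) * (starRingEnd ℂ) (wz z ^ l * q z)).re)) =
      II (B - 1) W := by rw [hW]
  rw [e4]
  have e5 : -(2 * (j : ℝ) + 1 + B + l) = -(S + j + 1) := by
    rw [hS]
    ring
  rw [e5]
  linear_combination hparts

/-- monomials -/
def mo (p0 p1 p2 : ℕ) (X Y Z : ℂ) : ℂ := X ^ p0 * Y ^ p1 * Z ^ p2

/-- the derivative of `n0^p0 n1^p1` -/
def Dm (p0 p1 : ℕ) (X Y Z : ℂ) : ℂ :=
  p0 * (X ^ (p0 - 1) * Y ^ (p1 + 1)) + p1 * (X ^ p0 * Y ^ (p1 - 1) * Z)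

/-- the relation with `k = n0^p0 n1^p1`, `q = n0^q0 n1^q1 n2^q2`, without the small terms -/
noncomputable def relp (p0 p1 q0 q1 q2 : ℕ) (X Y Z : ℂ) : ℝ :=
  ((Dm p0 p1 X Y Z + (3 / 25 * X - ((1 / 24 + p0 + 2 * p1 + q0 + 2 * q1 + 3 * q2 : ℝ) : ℂ)) * mo p0 p1 0 X Y Z) *
    (starRingEnd ℂ) (mo q0 q1 q2 X Y Z)).re

/-- continuity of the relation -/
private theorem Rel_relp_cont (p0 p1 q0 q1 q2 : ℕ) :
    Continuous fun v : ℂ × ℂ × ℂ => relp p0 p1 q0 q1 q2 v.1 v.2.1 v.2.2 := by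
  unfold relp Dm mo
  fun_prop

private theorem Rel_comp3 {E : Type} [TopologicalSpace E] (g : ℂ → ℂ → ℂ → E)
    (hg : Continuous fun v : ℂ × ℂ × ℂ => g v.1 v.2.1 v.2.2) {X Y Z : ℂ → ℂ} {s : Set ℂ}
    (hX : ContinuousOn X s) (hY : ContinuousOn Y s) (hZ : ContinuousOn Z s) :
    ContinuousOn (fun z => g (X z) (Y z) (Z z)) s := by
  have h1 : ContinuousOn (fun z => (X z, Y z, Z z)) s := hX.prodMk (hY.prodMk hZ)
  exact hg.comp_continuousOn h1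

private theorem Rel_abs {s : ℝ} (hs : -1 < s) {Φ Ψ : ℂ → ℝ} (hΦ : ContinuousOn Φ (closedBall 0 1))
    (hΨ : ContinuousOn Ψ (closedBall 0 1)) (C : ℝ)
    (h : ∀ z ∈ closedBall (0 : ℂ) 1, |Φ z| ≤ C * Ψ z) : |II s Φ| ≤ C * II s Ψ := by
  have h1 := ii_mono hs hΦ (hΨ.const_mul C) (fun z hz => (abs_le.mp (h z hz)).2)
  have h2 := ii_mono hs (hΨ.const_mul (-C)) hΦ (fun z hz => by
    have h3 := (abs_le.mp (h z hz)).1
    linarith)
  rw [ii_mul] at h1 h2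
  rw [abs_le]
  constructor
  · linarith
  · exact h1

private theorem Rel_mo_norm (X Y Z : ℂ) (hX : ‖X‖ ≤ 2000) (hY : ‖Y‖ ≤ 2000) (hZ : ‖Z‖ ≤ 2000)
    (p0 p1 p2 : ℕ) : ‖mo p0 p1 p2 X Y Z‖ ≤ 2000 ^ p0 * 2000 ^ p1 * 2000 ^ p2 := by
  unfold mo
  rw [norm_mul, norm_mul, norm_pow, norm_pow, norm_pow]
  gcongr

theorem rel_mono (a : ℝ) (p0 p1 q0 q1 q2 : ℕ) : ∃ C : ℝ, 0 ≤ C ∧ ∀ (F ψ : ℂ → ℂ) (R : ℝ),
    KF F ψ R (6 / 25) a →
      |II (1 / 24 - 1) (fun z => ‖ψ z‖ ^ 2 * relp p0 p1 q0 q1 q2 (Xz F z) (Yz F z) (Zz F z))| ≤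
        C * II (1 / 24 - 1) (fun z => ‖ψ z‖ ^ 2 * (‖hz F z‖ + (1 - ‖z‖ ^ 2))) := by

  obtain ⟨M, hM⟩ : ∃ M : ℝ, M = (2000 ^ p0 * 2000 ^ p1 * 2000 ^ 0) *
      (2000 ^ q0 * 2000 ^ q1 * 2000 ^ q2) := ⟨_, rfl⟩
  have hM0 : 0 ≤ M := by
    rw [hM]
    positivity
  obtain ⟨c, hc⟩ : ∃ c : ℝ, c = 2 * ((p0 + 2 * p1 : ℕ) : ℝ) + 1 + 1 / 24 +
      ((q0 + 2 * q1 + 3 * q2 : ℕ) : ℝ) := ⟨_, rfl⟩
  have hc0 : 0 ≤ c := by
    rw [hc]
    positivity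
  refine ⟨c * M + |a| / 2 * M, by positivity, ?_⟩
  intro F ψ R H
  obtain ⟨cψ, cX, cY, cZ, ch⟩ := cont_kf H
  have hF' : ∀ z ∈ ball (0 : ℂ) R, deriv F z ≠ 0 := fun z hzb => deriv_ne isOpen_ball H.dF H.inj hzb
  have hdF : DifferentiableOn ℂ (deriv F) (ball 0 R) := H.dF.deriv isOpen_ball
  have hddF : DifferentiableOn ℂ (deriv (deriv F)) (ball 0 R) := hdF.deriv isOpen_ball
  have hn0 : DifferentiableOn ℂ (pre F) (ball 0 R) := hddF.div hdF hF'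
  have hn1 : DifferentiableOn ℂ (deriv (pre F)) (ball 0 R) := hn0.deriv isOpen_ball
  have hn2 : DifferentiableOn ℂ (deriv (deriv (pre F))) (ball 0 R) := hn1.deriv isOpen_ball
  have hk : DifferentiableOn ℂ (fun z => pre F z ^ p0 * deriv (pre F) z ^ p1) (ball 0 R) :=
    (hn0.pow p0).mul (hn1.pow p1)
  have hq : DifferentiableOn ℂ (fun z => pre F z ^ q0 * deriv (pre F) z ^ q1 *
      deriv (deriv (pre F)) z ^ q2) (ball 0 R) := ((hn0.pow q0).mul (hn1.pow q1)).mul (hn2.pow q2)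
  have hsub : closedBall (0 : ℂ) 1 ⊆ ball 0 R := closedBall_subset_ball H.hR
  have hrel := rel_eq H (B := 1 / 24) (by norm_num) hk hq (p0 + 2 * p1) (q0 + 2 * q1 + 3 * q2)
  have hB1 : (-1 : ℝ) < 1 / 24 - 1 := by norm_num
  have cψ2 : ContinuousOn (fun z => ‖ψ z‖ ^ 2) (closedBall 0 1) := cψ.norm.pow 2
  have cnorm : ContinuousOn (fun z : ℂ => (1 - ‖z‖ ^ 2)) (closedBall 0 1) := by fun_prop
  -- the three terms
  obtain ⟨P1, hP1⟩ : ∃ P1 : ℂ → ℝ, P1 = fun z => ‖ψ z‖ ^ 2 *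
      relp p0 p1 q0 q1 q2 (Xz F z) (Yz F z) (Zz F z) := ⟨_, rfl⟩
  obtain ⟨P2, hP2⟩ : ∃ P2 : ℂ → ℝ, P2 = fun z => ‖ψ z‖ ^ 2 *
      ((a / 2 * hz F z) * (mo p0 p1 0 (Xz F z) (Yz F z) (Zz F z) *
        (starRingEnd ℂ) (mo q0 q1 q2 (Xz F z) (Yz F z) (Zz F z)))).re := ⟨_, rfl⟩
  obtain ⟨P3, hP3⟩ : ∃ P3 : ℂ → ℝ, P3 = fun z => ‖ψ z‖ ^ 2 *
      ((1 - ‖z‖ ^ 2) * (mo p0 p1 0 (Xz F z) (Yz F z) (Zz F z) *
        (starRingEnd ℂ) (mo q0 q1 q2 (Xz F z) (Yz F z) (Zz F z))).re) := ⟨_, rfl⟩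
  obtain ⟨P4, hP4⟩ : ∃ P4 : ℂ → ℝ, P4 = fun z => ‖ψ z‖ ^ 2 *
      (‖hz F z‖ + (1 - ‖z‖ ^ 2)) := ⟨_, rfl⟩
  have cmm : ContinuousOn (fun z => mo p0 p1 0 (Xz F z) (Yz F z) (Zz F z) *
        (starRingEnd ℂ) (mo q0 q1 q2 (Xz F z) (Yz F z) (Zz F z))) (closedBall 0 1) := by
    have h1 : Continuous fun v : ℂ × ℂ × ℂ => mo p0 p1 0 v.1 v.2.1 v.2.2 *
        (starRingEnd ℂ) (mo q0 q1 q2 v.1 v.2.1 v.2.2) := by
      unfold mo
      fun_prop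
    exact Rel_comp3 (fun X Y Z => mo p0 p1 0 X Y Z * (starRingEnd ℂ) (mo q0 q1 q2 X Y Z)) h1
      cX cY cZ
  have cP1 : ContinuousOn P1 (closedBall 0 1) := by
    rw [hP1]
    exact cψ2.mul (Rel_comp3 (relp p0 p1 q0 q1 q2) (Rel_relp_cont p0 p1 q0 q1 q2) cX cY cZ)
  have cP2 : ContinuousOn P2 (closedBall 0 1) := by
    rw [hP2]
    exact cψ2.mul (continuous_re.comp_continuousOn ((continuousOn_const.mul ch).mul cmm))
  have cP3 : ContinuousOn P3 (closedBall 0 1) := by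
    rw [hP3]
    exact cψ2.mul (cnorm.mul (continuous_re.comp_continuousOn cmm))
  have cP4 : ContinuousOn P4 (closedBall 0 1) := by
    rw [hP4]
    exact cψ2.mul (ch.norm.add cnorm)
  -- the pointwise identities
  have e0 : ∀ z ∈ closedBall (0 : ℂ) 1,
      deriv (fun z => pre F z ^ p0 * deriv (pre F) z ^ p1) z =
      (p0 * pre F z ^ (p0 - 1) * deriv (pre F) z) * deriv (pre F) z ^ p1 +
        pre F z ^ p0 * (p1 * deriv (pre F) z ^ (p1 - 1) * deriv (deriv (pre F)) z) := by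
    intro z hzb
    have hnhds : ball (0 : ℂ) R ∈ nhds z := isOpen_ball.mem_nhds (hsub hzb)
    have d0 := (hn0.differentiableAt hnhds).hasDerivAt
    have d1 := (hn1.differentiableAt hnhds).hasDerivAt
    exact ((d0.pow p0).mul (d1.pow p1)).deriv
  have eK : ∀ z, wz z ^ (p0 + 2 * p1) * (pre F z ^ p0 * deriv (pre F) z ^ p1) =
      mo p0 p1 0 (Xz F z) (Yz F z) (Zz F z) := by
    intro z
    unfold mo Xz Yz
    ring
  have eQ : ∀ z, wz z ^ (q0 + 2 * q1 + 3 * q2) * (pre F z ^ q0 * deriv (pre F) z ^ q1 *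
      deriv (deriv (pre F)) z ^ q2) = mo q0 q1 q2 (Xz F z) (Yz F z) (Zz F z) := by
    intro z
    unfold mo Xz Yz Zz
    ring
  have eD : ∀ z ∈ closedBall (0 : ℂ) 1, wz z ^ (p0 + 2 * p1 + 1) *
      deriv (fun z => pre F z ^ p0 * deriv (pre F) z ^ p1) z =
      Dm p0 p1 (Xz F z) (Yz F z) (Zz F z) := by
    intro z hzb
    rw [e0 z hzb]
    have f1 : wz z ^ (p0 + 2 * p1 + 1) *
        ((p0 * pre F z ^ (p0 - 1) * deriv (pre F) z) * deriv (pre F) z ^ p1) =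
        p0 * (Xz F z ^ (p0 - 1) * Yz F z ^ (p1 + 1)) := by
      cases p0 with
      | zero => simp
      | succ p =>
        rw [Nat.add_sub_cancel]
        unfold Xz Yz
        ring
    have f2 : wz z ^ (p0 + 2 * p1 + 1) *
        (pre F z ^ p0 * (p1 * deriv (pre F) z ^ (p1 - 1) * deriv (deriv (pre F)) z)) =
        p1 * (Xz F z ^ p0 * Yz F z ^ (p1 - 1) * Zz F z) := by
      cases p1 with
      | zero => simp
      | succ p =>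
        rw [Nat.add_sub_cancel]
        unfold Xz Yz Zz
        ring
    rw [mul_add, f1, f2, Dm]
  have eL : II (1 / 24 - 1) (fun z => ‖ψ z‖ ^ 2 *
      ((wz z ^ (p0 + 2 * p1 + 1) * deriv (fun z => pre F z ^ p0 * deriv (pre F) z ^ p1) z +
        (((6 / 25 : ℝ) : ℂ) / 2 * Xz F z + a / 2 * hz F z) *
          (wz z ^ (p0 + 2 * p1) * (pre F z ^ p0 * deriv (pre F) z ^ p1))
        - ((1 / 24 + ((p0 + 2 * p1 : ℕ) : ℝ) + ((q0 + 2 * q1 + 3 * q2 : ℕ) : ℝ) : ℝ) : ℂ) *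
          (wz z ^ (p0 + 2 * p1) * (pre F z ^ p0 * deriv (pre F) z ^ p1))) *
        (starRingEnd ℂ) (wz z ^ (q0 + 2 * q1 + 3 * q2) * (pre F z ^ q0 * deriv (pre F) z ^ q1 *
          deriv (deriv (pre F)) z ^ q2))).re) =
      II (1 / 24 - 1) (fun z => P1 z + P2 z) := by
    apply Rel_congr
    intro z hzb
    rw [eK, eQ, eD z hzb, hP1, hP2]
    change _ = ‖ψ z‖ ^ 2 * relp p0 p1 q0 q1 q2 (Xz F z) (Yz F z) (Zz F z) + ‖ψ z‖ ^ 2 *
      ((a / 2 * hz F z) * (mo p0 p1 0 (Xz F z) (Yz F z) (Zz F z) *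
        (starRingEnd ℂ) (mo q0 q1 q2 (Xz F z) (Yz F z) (Zz F z)))).re
    rw [relp, ← mul_add, ← add_re]
    congr 2
    push_cast
    ring
  have eR : II (1 / 24 - 1) (fun z => ‖ψ z‖ ^ 2 *
        ((1 - ‖z‖ ^ 2) * ((wz z ^ (p0 + 2 * p1) * (pre F z ^ p0 * deriv (pre F) z ^ p1)) *
        (starRingEnd ℂ) (wz z ^ (q0 + 2 * q1 + 3 * q2) * (pre F z ^ q0 * deriv (pre F) z ^ q1 *
          deriv (deriv (pre F)) z ^ q2))).re)) = II (1 / 24 - 1) P3 := by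
    apply Rel_congr
    intro z hzb
    rw [eK, eQ, hP3]
  rw [eL, eR, ii_add hB1 cP1 cP2, ← hc] at hrel
  -- the bounds
  have hmm : ∀ z ∈ closedBall (0 : ℂ) 1, ‖mo p0 p1 0 (Xz F z) (Yz F z) (Zz F z) *
        (starRingEnd ℂ) (mo q0 q1 q2 (Xz F z) (Yz F z) (Zz F z))‖ ≤ M := by
    intro z hzb
    obtain ⟨bX, bY, bZ, -⟩ := bnd H hzb
    rw [norm_mul, RCLike.norm_conj, hM]
    exact mul_le_mul (Rel_mo_norm _ _ _ bX bY bZ p0 p1 0) (Rel_mo_norm _ _ _ bX bY bZ q0 q1 q2)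
      (norm_nonneg _) (by positivity)
  have hω : ∀ z ∈ closedBall (0 : ℂ) 1, 0 ≤ 1 - ‖z‖ ^ 2 := by
    intro z hzb
    rw [mem_closedBall_zero_iff] at hzb
    have := norm_nonneg z
    nlinarith
  have b2 : |II (1 / 24 - 1) P2| ≤ (|a| / 2 * M) * II (1 / 24 - 1) P4 := by
    apply Rel_abs hB1 cP2 cP4
    intro z hzb
    rw [hP2, hP4]
    change |‖ψ z‖ ^ 2 * ((a / 2 * hz F z) * (mo p0 p1 0 (Xz F z) (Yz F z) (Zz F z) *
        (starRingEnd ℂ) (mo q0 q1 q2 (Xz F z) (Yz F z) (Zz F z)))).re| ≤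
      |a| / 2 * M * (‖ψ z‖ ^ 2 * (‖hz F z‖ + (1 - ‖z‖ ^ 2)))
    rw [abs_mul, abs_of_nonneg (by positivity : (0 : ℝ) ≤ ‖ψ z‖ ^ 2)]
    have g1 : |((a / 2 * hz F z) * (mo p0 p1 0 (Xz F z) (Yz F z) (Zz F z) *
        (starRingEnd ℂ) (mo q0 q1 q2 (Xz F z) (Yz F z) (Zz F z)))).re| ≤
        (|a| / 2 * ‖hz F z‖) * M := by
      refine (abs_re_le_norm _).trans ?_
      rw [norm_mul, norm_mul, norm_div, Complex.norm_real, Complex.norm_ofNat, Real.norm_eq_abs]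
      exact mul_le_mul_of_nonneg_left (hmm z hzb) (by positivity)
    calc ‖ψ z‖ ^ 2 * |((a / 2 * hz F z) * (mo p0 p1 0 (Xz F z) (Yz F z) (Zz F z) *
        (starRingEnd ℂ) (mo q0 q1 q2 (Xz F z) (Yz F z) (Zz F z)))).re|
        ≤ ‖ψ z‖ ^ 2 * ((|a| / 2 * ‖hz F z‖) * M) :=
          mul_le_mul_of_nonneg_left g1 (by positivity)
      _ = |a| / 2 * M * (‖ψ z‖ ^ 2 * ‖hz F z‖) := by ring
      _ ≤ |a| / 2 * M * (‖ψ z‖ ^ 2 * (‖hz F z‖ + (1 - ‖z‖ ^ 2))) := by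
          apply mul_le_mul_of_nonneg_left _ (by positivity)
          apply mul_le_mul_of_nonneg_left _ (by positivity)
          have := hω z hzb
          linarith
  have b3 : |II (1 / 24 - 1) P3| ≤ M * II (1 / 24 - 1) P4 := by
    apply Rel_abs hB1 cP3 cP4
    intro z hzb
    rw [hP3, hP4]
    change |‖ψ z‖ ^ 2 * ((1 - ‖z‖ ^ 2) * (mo p0 p1 0 (Xz F z) (Yz F z) (Zz F z) *
        (starRingEnd ℂ) (mo q0 q1 q2 (Xz F z) (Yz F z) (Zz F z))).re)| ≤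
      M * (‖ψ z‖ ^ 2 * (‖hz F z‖ + (1 - ‖z‖ ^ 2)))
    rw [abs_mul, abs_of_nonneg (by positivity : (0 : ℝ) ≤ ‖ψ z‖ ^ 2), abs_mul,
      abs_of_nonneg (hω z hzb)]
    have g1 : |(mo p0 p1 0 (Xz F z) (Yz F z) (Zz F z) *
        (starRingEnd ℂ) (mo q0 q1 q2 (Xz F z) (Yz F z) (Zz F z))).re| ≤ M :=
      (abs_re_le_norm _).trans (hmm z hzb)
    have g2 := hω z hzb
    calc ‖ψ z‖ ^ 2 * ((1 - ‖z‖ ^ 2) * |(mo p0 p1 0 (Xz F z) (Yz F z) (Zz F z) *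
        (starRingEnd ℂ) (mo q0 q1 q2 (Xz F z) (Yz F z) (Zz F z))).re|)
        ≤ ‖ψ z‖ ^ 2 * ((1 - ‖z‖ ^ 2) * M) :=
          mul_le_mul_of_nonneg_left (mul_le_mul_of_nonneg_left g1 g2) (by positivity)
      _ = M * (‖ψ z‖ ^ 2 * (1 - ‖z‖ ^ 2)) := by ring
      _ ≤ M * (‖ψ z‖ ^ 2 * (‖hz F z‖ + (1 - ‖z‖ ^ 2))) := by
          apply mul_le_mul_of_nonneg_left _ hM0
          apply mul_le_mul_of_nonneg_left _ (by positivity)
          have := norm_nonneg (hz F z)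
          linarith
  have e6 : II (1 / 24 - 1) P1 = -c * II (1 / 24 - 1) P3 - II (1 / 24 - 1) P2 := by
    linear_combination hrel
  rw [hP1, hP4] at *
  rw [e6]
  calc |-c * II (1 / 24 - 1) P3 - II (1 / 24 - 1) P2|
      ≤ |-c * II (1 / 24 - 1) P3| + |II (1 / 24 - 1) P2| := abs_sub _ _
    _ = c * |II (1 / 24 - 1) P3| + |II (1 / 24 - 1) P2| := by
        rw [abs_mul, abs_neg, abs_of_nonneg hc0]
    _ ≤ c * (M * II (1 / 24 - 1) (fun z => ‖ψ z‖ ^ 2 * (‖hz F z‖ + (1 - ‖z‖ ^ 2)))) +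
        (|a| / 2 * M) * II (1 / 24 - 1) (fun z => ‖ψ z‖ ^ 2 * (‖hz F z‖ + (1 - ‖z‖ ^ 2))) :=
        add_le_add (mul_le_mul_of_nonneg_left b3 hc0) b2
    _ = (c * M + |a| / 2 * M) *
        II (1 / 24 - 1) (fun z => ‖ψ z‖ ^ 2 * (‖hz F z‖ + (1 - ‖z‖ ^ 2))) := by ring

/-- linear combination of relations: list of coefficient, `p0, p1, q0, q1, q2` -/
noncomputable def RS (L : List (ℝ × ℕ × ℕ × ℕ × ℕ × ℕ)) (X Y Z : ℂ) : ℝ :=
  (L.map (fun r => r.1 * relp r.2.1 r.2.2.1 r.2.2.2.1 r.2.2.2.2.1 r.2.2.2.2.2 X Y Z)).sum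

private theorem Rel_RS_cont (L : List (ℝ × ℕ × ℕ × ℕ × ℕ × ℕ)) :
    Continuous fun v : ℂ × ℂ × ℂ => RS L v.1 v.2.1 v.2.2 := by
  induction L with
  | nil =>
    unfold RS
    simp only [List.map_nil, List.sum_nil]
    exact continuous_const
  | cons r L ih =>
    unfold RS at ih ⊢
    simp only [List.map_cons, List.sum_cons]
    exact (continuous_const.mul (Rel_relp_cont _ _ _ _ _)).add ih

theorem rel_sum (a : ℝ) (L : List (ℝ × ℕ × ℕ × ℕ × ℕ × ℕ)) : ∃ C : ℝ, 0 ≤ C ∧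
    ∀ (F ψ : ℂ → ℂ) (R : ℝ), KF F ψ R (6 / 25) a →
      |II (1 / 24 - 1) (fun z => ‖ψ z‖ ^ 2 * RS L (Xz F z) (Yz F z) (Zz F z))| ≤
        C * II (1 / 24 - 1) (fun z => ‖ψ z‖ ^ 2 * (‖hz F z‖ + (1 - ‖z‖ ^ 2))) := by
  induction L with
  | nil =>
    refine ⟨0, le_rfl, fun F ψ R H => ?_⟩
    have h1 : II (1 / 24 - 1) (fun z => ‖ψ z‖ ^ 2 * RS [] (Xz F z) (Yz F z) (Zz F z)) = 0 := by
      have h2 : II (1 / 24 - 1) (fun z => ‖ψ z‖ ^ 2 * RS [] (Xz F z) (Yz F z) (Zz F z)) =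
          II (1 / 24 - 1) (fun z => 0 * ‖ψ z‖ ^ 2) := Rel_congr fun z _ => by
        simp [RS]
      rw [h2, ii_mul, zero_mul]
    rw [h1, abs_zero, zero_mul]
  | cons r L ih =>
    obtain ⟨C1, hC1, h1⟩ := ih
    obtain ⟨C2, hC2, h2⟩ := rel_mono a r.2.1 r.2.2.1 r.2.2.2.1 r.2.2.2.2.1 r.2.2.2.2.2
    refine ⟨|r.1| * C2 + C1, by positivity, fun F ψ R H => ?_⟩
    obtain ⟨cψ, cX, cY, cZ, ch⟩ := cont_kf H
    have cψ2 : ContinuousOn (fun z => ‖ψ z‖ ^ 2) (closedBall 0 1) := cψ.norm.pow 2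
    have c1 : ContinuousOn (fun z => ‖ψ z‖ ^ 2 * relp r.2.1 r.2.2.1 r.2.2.2.1 r.2.2.2.2.1
        r.2.2.2.2.2 (Xz F z) (Yz F z) (Zz F z)) (closedBall 0 1) :=
      cψ2.mul (Rel_comp3 (relp r.2.1 r.2.2.1 r.2.2.2.1 r.2.2.2.2.1 r.2.2.2.2.2)
        (Rel_relp_cont _ _ _ _ _) cX cY cZ)
    have c2 : ContinuousOn (fun z => ‖ψ z‖ ^ 2 * RS L (Xz F z) (Yz F z) (Zz F z))
        (closedBall 0 1) :=
      cψ2.mul (Rel_comp3 (RS L) (Rel_RS_cont L) cX cY cZ)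
    have h3 : II (1 / 24 - 1) (fun z => ‖ψ z‖ ^ 2 * RS (r :: L) (Xz F z) (Yz F z) (Zz F z)) =
        r.1 * II (1 / 24 - 1) (fun z => ‖ψ z‖ ^ 2 * relp r.2.1 r.2.2.1 r.2.2.2.1 r.2.2.2.2.1
          r.2.2.2.2.2 (Xz F z) (Yz F z) (Zz F z)) +
        II (1 / 24 - 1) (fun z => ‖ψ z‖ ^ 2 * RS L (Xz F z) (Yz F z) (Zz F z)) := by
      rw [← ii_mul, ← ii_add (by norm_num) (c1.const_mul _) c2]
      apply Rel_congr
      intro z _
      unfold RS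
      simp only [List.map_cons, List.sum_cons]
      ring
    rw [h3]
    have h4 := h1 F ψ R H
    have h5 := h2 F ψ R H
    refine (abs_add_le _ _).trans ?_
    rw [abs_mul]
    have h6 := mul_le_mul_of_nonneg_left h5 (abs_nonneg r.1)
    linarith

end Pool.Agent.Helper21.KP
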