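import Pool.Agent.Helper21.KP.LogDQ
import Pool.Agent.Helper21.KP.UDiag
import Pool.Agent.Helper21.IM.Defs

/-!
# KP-UK: the first Taylor coefficients of `ψ(s) ((F w - F s)/((w - s) F' s))^(-th)` at `w = s`

Fix `s`; near `w = s`: `D w = (F w - F s)/((w - s) F' s)` (`= exp (Λ s w)`, `dslope F s w / F' s`) is analytic, with
`D^(k)(s)/k! = F^(k+1)(s)/((k+1)! F' s)`: `1, n0/2, (n1 + n0²)/6, (n2 + 3 n0 n1 + n0³)/24`, where `n0 = pre F s`,
`n1 = deriv (pre F) s`, `n2 = deriv (deriv (pre F)) s` (`F'' = n0 F'`, differentiate).  `E w = exp (-th Λ s w)` satisfies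
`D E' = - th D' E`, `E s = 1`; differentiate twice more and put `w = s`.
-/

set_option autoImplicit false

namespace Pool.Agent.Helper21.KP

open Complex Metric Set Real Finset
open Pool.Agent.Helper21.IM

noncomputable def p1 (th : ℝ) (n0 : ℂ) : ℂ := -((th : ℂ) / 2) * n0

noncomputable def p2 (th : ℝ) (n0 n1 : ℂ) : ℂ :=
  -((th : ℂ) / 6) * (n1 + n0 ^ 2) + (th : ℂ) * (th + 1) / 8 * n0 ^ 2

noncomputable def p3 (th : ℝ) (n0 n1 n2 : ℂ) : ℂ :=
  -((th : ℂ) / 24) * (n2 + 3 * n0 * n1 + n0 ^ 3) + (th : ℂ) * (th + 1) / 12 * (n0 * (n1 + n0 ^ 2))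
    - (th : ℂ) * (th + 1) * (th + 2) / 48 * n0 ^ 3

private lemma Uk_congr {f g : ℂ → ℂ} {B : Set ℂ} (hB : IsOpen B) (h : ∀ w ∈ B, f w = g w) {w : ℂ}
    (hw : w ∈ B) {g' : ℂ} (hg : HasDerivAt g g' w) : deriv f w = g' := by
  have h1 : f =ᶠ[nhds w] g := Filter.eventually_of_mem (hB.mem_nhds hw) h
  rw [h1.deriv_eq]
  exact hg.deriv

private lemma Uk_has {f : ℂ → ℂ} {B : Set ℂ} (hB : IsOpen B) (hf : DifferentiableOn ℂ f B) {w : ℂ}
    (hw : w ∈ B) : HasDerivAt f (deriv f w) w :=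
  (hf.differentiableAt (hB.mem_nhds hw)).hasDerivAt

/-- the first three derivatives of `exp (μ L)` -/
private lemma Uk_exp {L : ℂ → ℂ} {B : Set ℂ} (hB : IsOpen B) (hL : DifferentiableOn ℂ L B) (μ : ℂ) :
    (∀ w ∈ B, deriv (fun w => exp (μ * L w)) w = μ * deriv L w * exp (μ * L w)) ∧
    (∀ w ∈ B, deriv (deriv (fun w => exp (μ * L w))) w =
      (μ * deriv (deriv L) w + μ ^ 2 * deriv L w ^ 2) * exp (μ * L w)) ∧
    (∀ w ∈ B, deriv (deriv (deriv (fun w => exp (μ * L w)))) w =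
      (μ * deriv (deriv (deriv L)) w + 3 * μ ^ 2 * deriv L w * deriv (deriv L) w +
        μ ^ 3 * deriv L w ^ 3) * exp (μ * L w)) := by
  have hL1 : DifferentiableOn ℂ (deriv L) B := hL.deriv hB
  have hL2 : DifferentiableOn ℂ (deriv (deriv L)) B := hL1.deriv hB
  have hE : ∀ w ∈ B, HasDerivAt (fun w => exp (μ * L w)) (exp (μ * L w) * (μ * deriv L w)) w :=
    fun w hw => ((Uk_has hB hL hw).const_mul μ).cexp
  have h1 : ∀ w ∈ B, deriv (fun w => exp (μ * L w)) w = μ * deriv L w * exp (μ * L w) := by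
    intro w hw
    rw [(hE w hw).deriv]
    ring
  have h2 : ∀ w ∈ B, deriv (deriv (fun w => exp (μ * L w))) w =
      (μ * deriv (deriv L) w + μ ^ 2 * deriv L w ^ 2) * exp (μ * L w) := by
    intro w hw
    rw [Uk_congr hB h1 hw (((Uk_has hB hL1 hw).const_mul μ).mul (hE w hw))]
    ring
  refine ⟨h1, h2, ?_⟩
  intro w hw
  rw [Uk_congr hB h2 hw ((((Uk_has hB hL2 hw).const_mul μ).add
    (((Uk_has hB hL1 hw).pow 2).const_mul (μ ^ 2))).mul (hE w hw))]
  simp only [Nat.cast_ofNat, Nat.add_one_sub_one, pow_one, Pi.add_apply, Pi.pow_apply,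
    Pi.mul_apply]
  ring

/-- derivative of `c (n P + (w - s) Q)`, where `Q = P'` -/
private lemma Uk_step {f P Q : ℂ → ℂ} {B : Set ℂ} (hB : IsOpen B) {c n s : ℂ}
    (h : ∀ w ∈ B, f w = c * (n * P w + (w - s) * Q w)) (hP : ∀ w ∈ B, HasDerivAt P (Q w) w)
    (hQ : DifferentiableOn ℂ Q B) :
    ∀ w ∈ B, deriv f w = c * ((n + 1) * Q w + (w - s) * deriv Q w) := by
  intro w hw
  rw [Uk_congr hB h hw ((((hP w hw).const_mul n).add
    (((hasDerivAt_id w).sub_const s).mul (Uk_has hB hQ hw))).const_mul c)]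
  simp only [id]
  ring

/-- the derivatives at `s` of `F`, where `F w = F s + (w - s) F' s exp (L w)`. -/
private lemma Uk_F {F L : ℂ → ℂ} {B : Set ℂ} (hB : IsOpen B) (hL : DifferentiableOn ℂ L B)
    {a c s : ℂ} (hs : s ∈ B) (hLs : L s = 0) (h : ∀ w ∈ B, F w = a + c * ((w - s) * exp (L w))) :
    deriv F s = c ∧ deriv (deriv F) s = 2 * c * deriv L s ∧
    deriv (deriv (deriv F)) s = 3 * c * (deriv (deriv L) s + deriv L s ^ 2) ∧
    deriv (deriv (deriv (deriv F))) s =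
      4 * c * (deriv (deriv (deriv L)) s + 3 * deriv L s * deriv (deriv L) s + deriv L s ^ 3) := by
  set D : ℂ → ℂ := fun w => exp (1 * L w) with hD
  have hD0 : DifferentiableOn ℂ D B := (hL.const_mul 1).cexp
  have hD1 : DifferentiableOn ℂ (deriv D) B := hD0.deriv hB
  have hD2 : DifferentiableOn ℂ (deriv (deriv D)) B := hD1.deriv hB
  have hD3 : DifferentiableOn ℂ (deriv (deriv (deriv D))) B := hD2.deriv hB
  obtain ⟨e1, e2, e3⟩ := Uk_exp hB hL 1
  have hDs : D s = 1 := by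
    rw [hD]
    simp only [one_mul, hLs, Complex.exp_zero]
  have h0 : ∀ w ∈ B, F w = a + c * ((w - s) * D w) := by
    intro w hw
    rw [h w hw, hD]
    simp only [one_mul]
  have f1 : ∀ w ∈ B, deriv F w = c * (1 * D w + (w - s) * deriv D w) := by
    intro w hw
    rw [Uk_congr hB h0 hw (((((hasDerivAt_id w).sub_const s).mul (Uk_has hB hD0 hw)).const_mul
      c).const_add a)]
    simp only [id]
  have f2 := Uk_step hB f1 (fun w hw => Uk_has hB hD0 hw) hD1
  have f3 := Uk_step hB f2 (fun w hw => Uk_has hB hD1 hw) hD2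
  have f4 := Uk_step hB f3 (fun w hw => Uk_has hB hD2 hw) hD3
  have d1 : deriv D s = deriv L s := by
    have := e1 s hs
    rw [this]
    simp [hLs]
  have d2 : deriv (deriv D) s = deriv (deriv L) s + deriv L s ^ 2 := by
    have := e2 s hs
    rw [this]
    simp [hLs]
  have d3 : deriv (deriv (deriv D)) s =
      deriv (deriv (deriv L)) s + 3 * deriv L s * deriv (deriv L) s + deriv L s ^ 3 := by
    have := e3 s hs
    rw [this]
    simp [hLs]
  refine ⟨?_, ?_, ?_, ?_⟩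
  · rw [f1 s hs, hDs]
    ring
  · rw [f2 s hs, d1]
    ring
  · rw [f3 s hs, d2]
    ring
  · rw [f4 s hs, d3]
    ring

/-- the derivatives of `F` in terms of the pre-Schwarzian -/
private lemma Uk_pre {F : ℂ → ℂ} {B : Set ℂ} (hB : IsOpen B) (hF : DifferentiableOn ℂ F B)
    (hi : InjOn F B) {s : ℂ} (hs : s ∈ B) :
    deriv (deriv F) s = pre F s * deriv F s ∧
    deriv (deriv (deriv F)) s = (deriv (pre F) s + pre F s ^ 2) * deriv F s ∧
    deriv (deriv (deriv (deriv F))) s =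
      (deriv (deriv (pre F)) s + 3 * pre F s * deriv (pre F) s + pre F s ^ 3) * deriv F s := by
  have h1 : DifferentiableOn ℂ (deriv F) B := hF.deriv hB
  have h2 : DifferentiableOn ℂ (deriv (deriv F)) B := h1.deriv hB
  have hne : ∀ w ∈ B, deriv F w ≠ 0 := fun w hw => deriv_ne hB hF hi hw
  have hP : DifferentiableOn ℂ (pre F) B := h2.div h1 hne
  have hP1 : DifferentiableOn ℂ (deriv (pre F)) B := hP.deriv hB
  have g1 : ∀ w ∈ B, deriv (deriv F) w = pre F w * deriv F w := by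
    intro w hw
    rw [pre, div_mul_cancel₀ _ (hne w hw)]
  have g2 : ∀ w ∈ B, deriv (deriv (deriv F)) w =
      (deriv (pre F) w + pre F w ^ 2) * deriv F w := by
    intro w hw
    rw [Uk_congr hB g1 hw ((Uk_has hB hP hw).mul (Uk_has hB h1 hw)), g1 w hw]
    ring
  refine ⟨g1 s hs, g2 s hs, ?_⟩
  rw [Uk_congr hB g2 hs (((Uk_has hB hP1 hs).add ((Uk_has hB hP hs).pow 2)).mul
    (Uk_has hB h1 hs)), g1 s hs]
  simp only [Nat.cast_ofNat, Nat.add_one_sub_one, pow_one, Pi.add_apply, Pi.pow_apply,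
    Pi.mul_apply]
  ring

theorem uk {F ψ : ℂ → ℂ} {R : ℝ} (hF : DifferentiableOn ℂ F (ball 0 R)) (hi : InjOn F (ball 0 R))
    {Λ : ℂ → ℂ → ℂ} (hΛ : LG F R Λ) (th : ℝ) {s : ℂ} (hs : s ∈ ball (0 : ℂ) R) :
    ud (fun z w => ψ z * exp (-(th : ℂ) * Λ z w)) 0 s = ψ s ∧
    ud (fun z w => ψ z * exp (-(th : ℂ) * Λ z w)) 1 s = ψ s * p1 th (pre F s) ∧
    ud (fun z w => ψ z * exp (-(th : ℂ) * Λ z w)) 2 s = ψ s * p2 th (pre F s) (deriv (pre F) s) ∧
    ud (fun z w => ψ z * exp (-(th : ℂ) * Λ z w)) 3 s =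
      ψ s * p3 th (pre F s) (deriv (pre F) s) (deriv (deriv (pre F)) s) := by
  have hB : IsOpen (ball (0 : ℂ) R) := isOpen_ball
  have hL : DifferentiableOn ℂ (Λ s) (ball 0 R) := hΛ.dw s hs
  have hLs : Λ s s = 0 := hΛ.diag s hs
  have hne : deriv F s ≠ 0 := deriv_ne hB hF hi hs
  have h0 : ∀ w ∈ ball (0 : ℂ) R, F w = F s + deriv F s * ((w - s) * exp (Λ s w)) := by
    intro w hw
    have := hΛ.ex s hs w hw
    linear_combination -this
  obtain ⟨-, f2, f3, f4⟩ := Uk_F hB hL hs hLs h0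
  obtain ⟨p2', p3', p4'⟩ := Uk_pre hB hF hi hs
  obtain ⟨e1, e2, e3⟩ := Uk_exp hB hL (-(th : ℂ))
  set n0 := pre F s with hn0
  set n1 := deriv (pre F) s with hn1
  set n2 := deriv (deriv (pre F)) s with hn2
  set l1 := deriv (Λ s) s with hl1
  set l2 := deriv (deriv (Λ s)) s with hl2
  set l3 := deriv (deriv (deriv (Λ s))) s with hl3
  have q1 : l1 = n0 / 2 := by
    have h := f2.symm.trans p2'
    have h' : (2 * l1 - n0) * deriv F s = 0 := by linear_combination h
    have h'' := (mul_eq_zero.1 h').resolve_right hne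
    linear_combination (1 / 2) * h''
  have q2 : l2 = (n1 + n0 ^ 2) / 3 - n0 ^ 2 / 4 := by
    have h := f3.symm.trans p3'
    have h' : (3 * (l2 + l1 ^ 2) - (n1 + n0 ^ 2)) * deriv F s = 0 := by linear_combination h
    have h'' := (mul_eq_zero.1 h').resolve_right hne
    rw [q1] at h''
    linear_combination (1 / 3) * h''
  have q3 : l3 = (n2 + 3 * n0 * n1 + n0 ^ 3) / 4 -
      3 * (n0 / 2) * ((n1 + n0 ^ 2) / 3 - n0 ^ 2 / 4) - (n0 / 2) ^ 3 := by
    have h := f4.symm.trans p4'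
    have h' : (4 * (l3 + 3 * l1 * l2 + l1 ^ 3) - (n2 + 3 * n0 * n1 + n0 ^ 3)) * deriv F s = 0 := by
      linear_combination h
    have h'' := (mul_eq_zero.1 h').resolve_right hne
    rw [q1, q2] at h''
    linear_combination (1 / 4) * h''
  have hE : exp (-(th : ℂ) * Λ s s) = 1 := by
    rw [hLs, mul_zero, Complex.exp_zero]
  have c1 : deriv (fun w => ψ s * exp (-(th : ℂ) * Λ s w)) =
      fun w => ψ s * deriv (fun w => exp (-(th : ℂ) * Λ s w)) w := by
    funext w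
    exact deriv_const_mul_field _
  have c2 : deriv (deriv (fun w => ψ s * exp (-(th : ℂ) * Λ s w))) =
      fun w => ψ s * deriv (deriv (fun w => exp (-(th : ℂ) * Λ s w))) w := by
    rw [c1]
    funext w
    exact deriv_const_mul_field _
  have c3 : deriv (deriv (deriv (fun w => ψ s * exp (-(th : ℂ) * Λ s w)))) =
      fun w => ψ s * deriv (deriv (deriv (fun w => exp (-(th : ℂ) * Λ s w)))) w := by
    rw [c2]
    funext w
    exact deriv_const_mul_field _
  refine ⟨?_, ?_, ?_, ?_⟩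
  · simp only [ud, iteratedDeriv_zero, hE, Nat.factorial_zero, Nat.cast_one, div_one, mul_one]
  · simp only [ud, iteratedDeriv_succ, iteratedDeriv_zero]
    rw [c1]
    simp only [e1 s hs, hE]
    rw [← hl1, q1, p1, Nat.factorial_one, Nat.cast_one]
    ring
  · simp only [ud, iteratedDeriv_succ, iteratedDeriv_zero]
    rw [c2]
    simp only [e2 s hs, hE]
    rw [← hl1, ← hl2, q1, q2, p2, Nat.factorial_two]
    push_cast
    ring
  · simp only [ud, iteratedDeriv_succ, iteratedDeriv_zero]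
    rw [c3]
    simp only [e3 s hs, hE]
    rw [← hl1, ← hl2, ← hl3, q1, q2, q3, p3, show Nat.factorial 3 = 6 from rfl]
    push_cast
    ring

end Pool.Agent.Helper21.KP
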